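import Pool.Agent.H76.MU.LmR

/-!
# MU CorG: the weighted Liouville function satisfies `CorM`

Proof.  `g n = gl 1 P J n` on `Ioc M N`, `0` outside.  `supp`: definition; `bd`: `gl_abs_le`.  `large`: for `M < y` (otherwise the sum is empty, the
integral is `0`) `cor g 0 M 0 t y = ∑_{n ∈ Ioc M y} gl 1 P J n · ee(n · 0 + t log (n - 0)) = SL 1 P J y t - SL 1 P J M t`.  So
`∫_B ‖cor‖^2 ≤ 2 ∫_B ‖SL y‖^2 + 2 ∫_B ‖SL M‖^2 = 2 nrm^2 + 2 nrm^2 ≤ 4 x^2/L^{2 K1} ≤ x^2/L^K` with `lvm` for `K1 = K + 1` (all functions are continuous, `B` is bounded and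
measurable, so everything is integrable); `m1 = K'`; `L^m ≥ L^{K'}` for `L ≥ 1`.
-/

set_option autoImplicit false

namespace Pool.Agent.H76.MU

open Finset MeasureTheory
open Pool.Agent.H91.PK (ee)
open Pool.Agent.H76.EHB
open Pool.Agent.H35.W

/-- the weighted Liouville function cut to `(M, N]` -/
noncomputable def gc (P J M N n : ℕ) : ℝ := if n ∈ Ioc M N then gl 1 P J n else 0

private theorem CorG_cont (j P J y : ℕ) : Continuous (SL j P J y) := by
  unfold SL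
  exact continuous_finsetSum _ fun n _ =>
    continuous_const.mul (continuous_ee.comp (by fun_prop))

private theorem CorG_int (η T : ℝ) (B : Set ℝ) (hB : BS η T B) (f : ℝ → ℂ) (hf : Continuous f) :
    IntegrableOn (fun t => ‖f t‖ ^ 2) B := by
  have h1 : IntegrableOn (fun t => ‖f t‖ ^ 2) (Set.Icc (-(2 * T)) (2 * T)) :=
    (hf.norm.pow 2).continuousOn.integrableOn_compact isCompact_Icc
  refine h1.mono_set fun t ht => ?_
  have h2 := (hB.mem t ht).2
  exact Set.mem_Icc.2 (abs_le.1 h2)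

private theorem CorG_sq (B : Set ℝ) (f : ℝ → ℂ) : nrm B f ^ 2 = ∫ t in B, ‖f t‖ ^ 2 := by
  unfold nrm
  exact Real.sq_sqrt (integral_nonneg fun t => by positivity)

private theorem CorG_cor (P J M N y : ℕ) (hMy : M < y) (hy : y ≤ N) (t : ℝ) :
    cor (gc P J M N) 0 M 0 t y = SL 1 P J y t - SL 1 P J M t := by
  unfold cor SL
  have h1 : Icc 1 y = Icc 1 M ∪ Ioc M y := by
    ext n
    simp only [mem_Icc, mem_union, mem_Ioc]
    omega
  have h2 : Disjoint (Icc 1 M) (Ioc M y) := by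
    rw [Finset.disjoint_left]
    intro n h3 h4
    rw [mem_Icc] at h3
    rw [mem_Ioc] at h4
    omega
  rw [h1, Finset.sum_union h2, add_sub_cancel_left]
  refine Finset.sum_congr rfl fun n hn => ?_
  rw [mem_Ioc] at hn
  have h3 : gc P J M N n = gl 1 P J n := by
    unfold gc
    rw [if_pos (mem_Ioc.2 ⟨hn.1, hn.2.trans hy⟩)]
  rw [h3]
  congr 2
  simp

theorem cor_m (hVK : Pool.Agent.H80.LV.VK) (hV : VK1) : ∃ η : ℝ, 0 < η ∧ η ≤ 1 / 10 ∧ ∀ K : ℕ,
    ∃ m1 : ℕ, ∀ m : ℕ, m1 ≤ m → ∃ x0 : ℕ, ∀ x : ℕ, x0 ≤ x → ∀ P J M N : ℕ,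
      ((P * 2 ^ J : ℕ) : ℝ) ≤ (x : ℝ) ^ (1 / 4 : ℝ) → N ≤ x →
      CorM x m K η N M (gc P J M N) := by
  obtain ⟨η, h0, h1, h⟩ := lvm hVK hV
  refine ⟨η, h0, h1, fun K => ?_⟩
  obtain ⟨K', x0, hx⟩ := h (K + 1)
  obtain ⟨x1, hx1⟩ := log_ge 2
  refine ⟨K', fun m hm => ⟨max x0 x1, fun x hxx P J M N hP hN => ?_⟩⟩
  have hL : 2 ≤ Real.log x := hx1 x (le_trans (le_max_right _ _) hxx)
  have hL0 : 0 < Real.log x := by linarith
  have hL1 : (1 : ℝ) ≤ Real.log x := by linarith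
  refine ⟨?_, ?_, ?_⟩
  · intro n hn
    unfold gc
    rw [if_neg hn]
  · intro n
    unfold gc
    split_ifs
    · exact gl_abs_le 1 P J n le_rfl
    · simp
  · intro y T B hy hT hTx hB
    have hpos : 0 ≤ (x : ℝ) ^ 2 / Real.log x ^ K := by positivity
    by_cases hMy : M < y
    · have hy' : y ≤ x := hy.trans hN
      have hM' : M ≤ x := hMy.le.trans hy'
      have hT' : Real.log x ^ K' ≤ T := (pow_le_pow_right₀ hL1 hm).trans hT
      have hxx0 := le_trans (le_max_left _ _) hxx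
      have e1 := hx x hxx0 1 P J y T B le_rfl hP hy' hT' hTx hB
      have e2 := hx x hxx0 1 P J M T B le_rfl hP hM' hT' hTx hB
      have n1 : 0 ≤ nrm B (SL 1 P J y) := Real.sqrt_nonneg _
      have n2 : 0 ≤ nrm B (SL 1 P J M) := Real.sqrt_nonneg _
      have i1 := CorG_int η T B hB _ (CorG_cont 1 P J y)
      have i2 := CorG_int η T B hB _ (CorG_cont 1 P J M)
      have i3 := CorG_int η T B hB _ ((CorG_cont 1 P J y).sub (CorG_cont 1 P J M))
      have s1 : ∫ t in B, ‖cor (gc P J M N) 0 M 0 t y‖ ^ 2 ≤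
          ∫ t in B, (2 * ‖SL 1 P J y t‖ ^ 2 + 2 * ‖SL 1 P J M t‖ ^ 2) := by
        simp only [CorG_cor P J M N y hMy hy]
        refine integral_mono i3 ((i1.const_mul 2).add (i2.const_mul 2)) fun t => ?_
        change ‖SL 1 P J y t - SL 1 P J M t‖ ^ 2 ≤
          2 * ‖SL 1 P J y t‖ ^ 2 + 2 * ‖SL 1 P J M t‖ ^ 2
        have h2 := norm_sub_le (SL 1 P J y t) (SL 1 P J M t)
        have h3 := norm_nonneg (SL 1 P J y t - SL 1 P J M t)
        have h4 : ‖SL 1 P J y t - SL 1 P J M t‖ ^ 2 ≤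
            (‖SL 1 P J y t‖ + ‖SL 1 P J M t‖) ^ 2 := pow_le_pow_left₀ h3 h2 2
        have h5 := sq_nonneg (‖SL 1 P J y t‖ - ‖SL 1 P J M t‖)
        linarith only [h4, h5, add_sq ‖SL 1 P J y t‖ ‖SL 1 P J M t‖,
          sub_sq ‖SL 1 P J y t‖ ‖SL 1 P J M t‖]
      rw [integral_add (i1.const_mul 2) (i2.const_mul 2), integral_const_mul, integral_const_mul,
        ← CorG_sq B (SL 1 P J y), ← CorG_sq B (SL 1 P J M)] at s1
      refine s1.trans ?_
      have q1 := pow_le_pow_left₀ n1 e1 2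
      have q2 := pow_le_pow_left₀ n2 e2 2
      have q3 : ((x : ℝ) / Real.log x ^ (K + 1)) ^ 2 * 4 ≤ (x : ℝ) ^ 2 / Real.log x ^ K := by
        rw [div_pow, div_mul_eq_mul_div, div_le_div_iff₀ (by positivity) (by positivity)]
        have h6 : Real.log x ^ K * 4 ≤ (Real.log x ^ (K + 1)) ^ 2 := by
          have h7 : (Real.log x ^ (K + 1)) ^ 2 = Real.log x ^ K * (Real.log x ^ K * Real.log x ^ 2) := by
            ring
          rw [h7]
          refine mul_le_mul_of_nonneg_left ?_ (by positivity)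
          have h8 : 1 ≤ Real.log x ^ K := one_le_pow₀ hL1
          have h9 : (4 : ℝ) ≤ Real.log x ^ 2 := by nlinarith only [hL]
          nlinarith only [h8, h9]
        calc (x : ℝ) ^ 2 * 4 * Real.log x ^ K = (x : ℝ) ^ 2 * (Real.log x ^ K * 4) := by ring
          _ ≤ (x : ℝ) ^ 2 * (Real.log x ^ (K + 1)) ^ 2 :=
            mul_le_mul_of_nonneg_left h6 (by positivity)
      linarith only [q1, q2, q3]
    · have h2 : ∀ t : ℝ, cor (gc P J M N) 0 M 0 t y = 0 := by
        intro t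
        unfold cor
        rw [Finset.Ioc_eq_empty hMy, Finset.sum_empty]
      simp only [h2, norm_zero]
      simpa using hpos

end Pool.Agent.H76.MU
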