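import Pool.Agent.H35.W.Defs

/-!
# PROJECT MU (MP_0575cc_nt): common definitions

THEOREM. There is `C` with `V(X;H) ≤ C H^2 (log log X/log H)^2` for all `X ≥ 16`, `3 ≤ H ≤ X`, where `V(X;H)` is the mean square of
`∑_{|n-x| < H/2} μ(n)` over `x ∈ [X, 2X]`.

`L = log x`, `ee(t) = exp(2 π i t)` (`Pool.Agent.H91.PK.ee`; `LSa_ee_add`, `LSa_norm_ee`, `LSa_conj_ee` in
`H91/PK/LSa.lean`), `FF f N θ = ∑_{n ≤ N} f(n) ee(n θ)`, `pb P` = primes in `(P, 2P]`, `Rk P J k`: `k` has no prime factor in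
`(P, P 2^J]`, `cor`, `ge` as in `H35/W/Defs.lean`.

* `lio n = (-1)^Ω(n)` (Liouville; `0` at `n = 0`);
* `Om P J n` = number of prime factors of `n` in `(P, P 2^J]` counted with multiplicity;
* `gl j P J n = lio n / (j + Om P J n)`;
* `SL j P J y t = ∑_{n ≤ y} gl j P J n · n^{2 π i t}`, `nrm B f = (∫_B |f|^2)^{1/2}`;
* `CorM` : the hypothesis of the part on exponential sums;
* `VK1` : cancellation in `∑ Λ(n) n^{2 π i t}` (helper97).
-/

set_option autoImplicit false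

namespace Pool.Agent.H76.MU

open Finset MeasureTheory
open Pool.Agent.H91.PK (ee)
open Pool.Agent.H91.EHA (Lam)
open Pool.Agent.H76.EHB
open Pool.Agent.H35.W

/-- the Liouville function -/
noncomputable def lio (n : ℕ) : ℝ := if n = 0 then 0 else (-1) ^ (ArithmeticFunction.cardFactors n)

/-- the number of prime factors in `(P, P 2^J]`, with multiplicity -/
noncomputable def Om (P J n : ℕ) : ℕ :=
  ∑ p ∈ n.primeFactors.filter (fun p => P < p ∧ p ≤ P * 2 ^ J), n.factorization p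

/-- the weighted Liouville function -/
noncomputable def gl (j P J n : ℕ) : ℝ := lio n / ((j : ℝ) + Om P J n)

/-- `∑_{n ≤ y} gl j P J n · n^{2 π i t}` -/
noncomputable def SL (j P J y : ℕ) (t : ℝ) : ℂ :=
  ∑ n ∈ Icc 1 y, ((gl j P J n : ℝ) : ℂ) * ee (t * Real.log n)

/-- the `L^2` norm on `B` -/
noncomputable def nrm (B : Set ℝ) (f : ℝ → ℂ) : ℝ := Real.sqrt (∫ t in B, ‖f t‖ ^ 2)

/-- Vinogradov-Korobov type cancellation (helper97, Part I of SP with `d = 1`, down to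
`z ≥ exp ((log x)^(19/20))`) -/
def VK1 : Prop := ∀ K : ℕ, ∃ K' x0 : ℕ, ∀ x : ℕ, x0 ≤ x → ∀ (z : ℕ) (t : ℝ),
  Real.exp (Real.log x ^ (19 / 20 : ℝ)) ≤ z → z ≤ x ^ 2 → Real.log x ^ K' ≤ |t| →
    |t| ≤ (x : ℝ) ^ (2 : ℕ) →
    ‖∑ n ∈ Icc 1 z, ((Lam n : ℝ) : ℂ) * ee (t * Real.log n)‖ ≤ z / Real.log x ^ K

/-- the sets of `t` which occur: measurable, in a dyadic annulus, of measure at most `T^η` -/
structure BS (η T : ℝ) (B : Set ℝ) : Prop where
  meas : MeasurableSet B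
  mem : ∀ t ∈ B, T ≤ |t| ∧ |t| ≤ 2 * T
  vol : volume.real B ≤ T ^ η

/-- the hypotheses on `g` in the part on exponential sums -/
structure CorM (x m K : ℕ) (η : ℝ) (N M : ℕ) (g : ℕ → ℝ) : Prop where
  supp : ∀ n, n ∉ Ioc M N → g n = 0
  bd : ∀ n, |g n| ≤ 1
  large : ∀ (y : ℕ) (T : ℝ) (B : Set ℝ), y ≤ N → Real.log x ^ m ≤ T → T ≤ x → BS η T B →
      ∫ t in B, ‖cor g 0 M 0 t y‖ ^ 2 ≤ (x : ℝ) ^ 2 / Real.log x ^ K

/-- `∑_{k ∈ pb P} ∑_{n ≤ x} f(n) ee(k n θ)` -/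
noncomputable def SG (f : ℕ → ℝ) (x P : ℕ) (θ : ℝ) : ℂ := ∑ k ∈ pb P, FF f x (k * θ)

/-- the sum over the window `[j - h, j)` -/
noncomputable def Uw (G : ℕ → ℝ) (h j : ℕ) : ℝ := ∑ n ∈ Ico (j - h) j, G n

/-- the kernel `(1/h) ∑_{r=1}^h ee(r θ)` -/
noncomputable def kap (h : ℕ) (θ : ℝ) : ℂ := (1 / (h : ℂ)) * ∑ r ∈ Icc 1 h, ee (r * θ)

theorem norm_ee (t : ℝ) : ‖ee t‖ = 1 := Pool.Agent.H91.PK.LSa_norm_ee t

theorem lio_abs_le (n : ℕ) : |lio n| ≤ 1 := by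
  unfold lio
  split_ifs
  · simp
  · rw [abs_pow]; simp

theorem gl_abs_le (j P J n : ℕ) (hj : 1 ≤ j) : |gl j P J n| ≤ 1 := by
  unfold gl
  have h1 : (1 : ℝ) ≤ (j : ℝ) + Om P J n := by
    have : (1 : ℝ) ≤ j := by exact_mod_cast hj
    have h2 : (0 : ℝ) ≤ Om P J n := Nat.cast_nonneg _
    linarith
  rw [abs_div, abs_of_pos (by linarith : (0 : ℝ) < (j : ℝ) + Om P J n)]
  exact (div_le_self (abs_nonneg _) h1).trans (lio_abs_le n)

/-- logarithms are smaller than powers -/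
theorem log_pow_le (s C : ℝ) (hs : 0 < s) (hC : 0 < C) (c : ℕ) :
    ∃ x0 : ℕ, ∀ x : ℕ, x0 ≤ x → C * Real.log x ^ c ≤ (x : ℝ) ^ s := by
  have h1 := (isLittleO_log_rpow_rpow_atTop (c : ℝ) hs).bound (c := 1 / C) (by positivity)
  have h2 := h1.and (Filter.eventually_ge_atTop (1 : ℝ))
  have h3 := tendsto_natCast_atTop_atTop (R := ℝ) |>.eventually h2
  obtain ⟨x0, hx0⟩ := Filter.eventually_atTop.1 h3
  refine ⟨x0, fun x hx => ?_⟩
  obtain ⟨h4, h5⟩ := hx0 x hx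
  have hl : 0 ≤ Real.log x := Real.log_nonneg h5
  have hp : (0 : ℝ) ≤ (x : ℝ) ^ s := Real.rpow_nonneg (by positivity) _
  rw [Real.rpow_natCast, Real.norm_eq_abs, Real.norm_eq_abs, abs_of_nonneg (by positivity),
    abs_of_nonneg hp] at h4
  rw [div_mul_eq_mul_div, one_mul, le_div_iff₀ hC] at h4
  linarith

/-- logarithms are large -/
theorem log_ge (C : ℝ) : ∃ x0 : ℕ, ∀ x : ℕ, x0 ≤ x → C ≤ Real.log x := by
  have h := (Real.tendsto_log_atTop.comp (tendsto_natCast_atTop_atTop (R := ℝ))).eventually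
    (Filter.eventually_ge_atTop C)
  exact Filter.eventually_atTop.1 h

/-- `exp ((log x)^(19/20) (log x)^...)` is smaller than every power of `x` -/
theorem exp_pow_le (s C : ℝ) (hs : 0 < s) (hC : 0 < C) : ∃ x0 : ℕ, ∀ x : ℕ, x0 ≤ x →
    Real.exp (C * Real.log x ^ (19 / 20 : ℝ)) ≤ (x : ℝ) ^ s := by
  have h1 : Filter.Tendsto (fun y : ℝ => y ^ (1 / 20 : ℝ)) Filter.atTop Filter.atTop :=
    tendsto_rpow_atTop (by norm_num)
  have h2 := (h1.comp (Real.tendsto_log_atTop.comp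
    (tendsto_natCast_atTop_atTop (R := ℝ)))).eventually (Filter.eventually_ge_atTop (C / s))
  have h3 := (Real.tendsto_log_atTop.comp (tendsto_natCast_atTop_atTop (R := ℝ))).eventually
    (Filter.eventually_ge_atTop 1)
  obtain ⟨x0, hx0⟩ := Filter.eventually_atTop.1
    ((h2.and h3).and (Filter.eventually_ge_atTop 1))
  refine ⟨x0, fun x hx => ?_⟩
  obtain ⟨⟨h4, h5⟩, h6⟩ := hx0 x hx
  simp only [Function.comp_apply] at h4 h5
  have hx0' : (0 : ℝ) < x := by exact_mod_cast h6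
  have hL : 0 < Real.log x := by linarith
  rw [Real.rpow_def_of_pos hx0']
  apply Real.exp_le_exp.2
  have e1 : Real.log x = Real.log x ^ (19 / 20 : ℝ) * Real.log x ^ (1 / 20 : ℝ) := by
    rw [← Real.rpow_add hL]; norm_num
  rw [div_le_iff₀ hs] at h4
  have h7 : 0 ≤ Real.log x ^ (19 / 20 : ℝ) := by positivity
  calc C * Real.log x ^ (19 / 20 : ℝ) ≤ (Real.log x ^ (1 / 20 : ℝ) * s) * Real.log x ^ (19 / 20 : ℝ) :=
        mul_le_mul_of_nonneg_right h4 h7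
    _ = (Real.log x ^ (19 / 20 : ℝ) * Real.log x ^ (1 / 20 : ℝ)) * s := by ring
    _ = Real.log x * s := by rw [← e1]

end Pool.Agent.H76.MU
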