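import Pool.Agent.H76.MU.LmD
import Pool.Agent.H91.EHA.SwJ3

/-!
# MU PnL: the prime number theorem for the Liouville function

Proof.  `A(y) = ∑_{n ≤ y} lio n`.  Identities: `∑_{m ≤ y} lio m · (y / m) = ∑_{n ≤ y} ∑_{m | n} lio m = ⌊√y⌋` (natural division; the inner sum is the indicator of squares) and
`∑_{n ≤ y} lio n log n = ∑_{d ≤ y} Λ(d) lio d A(y/d)` (`log n = ∑_{d | n} Λ(d)`), where `Λ(d) lio d = -Λ(d) + 2 Λ(d) [d = p^{2k}]`.
`x` large, `w = ⌈exp(√L)⌉₊`, `ρ = C0 L^{-1/2}`.  CLAIM(i), `i ≤ I = 2K + 4`: `|A(y)| ≤ δ_i y` for `x^{1/2} w^{2i} ≤ y ≤ x`, `δ_0 = 1`, `δ_{i+1} = ρ δ_i + L^{-K-2}`.  Step: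
`-∑_d Λ(d) A(y/d) = -⌊√y⌋ - ∑_d (Λ(d) - 1) A(y/d)` (as `∑_d A(y/d) = ∑_m lio m (y/m)`); `d ≤ w`: `≤ ∑_{d ≤ w} (Λ(d) + 1) δ_i y/d ≤ δ_i y · C (1 + log w)`; `d > w`: interchange,
`∑_{m ≤ y/w} lio m (R(y/m) - R(w))`, `R(v) = ψ(v) - v` (natural numbers), `|R(v)| ≤ v/(log v)^{2K + 10}` for `v ≥ w` (`Pool.Agent.H91.EHA.pnt (2K+11)`, `H91/EHA/SwJ3.lean`, the prime
number theorem with a power of the logarithm), so `≤ 2 y (1 + log y)/(log w)^{2K+10} ≤ y L^{-K-2}` (`log w ≥ √L`).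
`2 ∑_{p,k} log p |A(y/p^{2k})| ≤ 2 (∑_{p^{2k} ≤ w} log p/p^{2k}) δ_i y + 2 y ∑_{p^{2k} > w} log p/p^{2k} ≤ C δ_i y + y L^{-K-2}`.
`A(y) log y = ∑ lio n log n + ∑_{n ≤ y} lio n log(y/n)`, and the last sum is `∫_1^y A(u)/u du ≤ δ_i y + x^{1/2} w^{2i}` (Abel summation).  Divide by `log y ≥ L/2`.
Then `δ_I ≤ ρ^I + 2 L^{-K-2} ≤ L^{-K}`; for `y < x^{1/2} w^{2I}` (`≤ x^{2/3}`) trivially `|A(y)| ≤ y ≤ x/L^K`.
-/

set_option autoImplicit false

namespace Pool.Agent.H76.MU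

open Finset MeasureTheory
open Pool.Agent.H91.PK (ee)
open Pool.Agent.H76.EHB
open Pool.Agent.H35.W
open Pool.Agent.H91.EHA (Lam)

/-! ### identities -/

private theorem PnL_lio_eq (n : ℕ) : lio n = ((ArithmeticFunction.liouville n : ℤ) : ℝ) := by
  unfold lio
  by_cases h : n = 0
  · subst h; simp
  · rw [if_neg h, ArithmeticFunction.liouville_apply h]; push_cast; rfl

private theorem PnL_lio_mul (m n : ℕ) : lio (m * n) = lio m * lio n := by
  simp only [PnL_lio_eq, ArithmeticFunction.liouville_apply_mul]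
  push_cast; rfl

/-- the sum of the Liouville function over the divisors -/
private theorem PnL_div (n : ℕ) (hn : n ≠ 0) :
    |∑ m ∈ n.divisors, lio m| ≤ 1 ∧ (∑ m ∈ n.divisors, lio m ≠ 0 → IsSquare n) := by
  set F : ArithmeticFunction ℤ := ArithmeticFunction.liouville * ↑ArithmeticFunction.zeta with hF
  have hFm : F.IsMultiplicative :=
    ArithmeticFunction.isMultiplicative_liouville.mul
      (ArithmeticFunction.isMultiplicative_zeta.natCast)
  have h1 : ∑ m ∈ n.divisors, lio m = ((F n : ℤ) : ℝ) := by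
    rw [hF, ArithmeticFunction.coe_mul_zeta_apply]
    push_cast
    exact Finset.sum_congr rfl fun m _ => PnL_lio_eq m
  have hpk : ∀ (p k : ℕ), p.Prime → F (p ^ k) = if Even k then 1 else 0 := by
    intro p k hp
    rw [hF, ArithmeticFunction.coe_mul_zeta_apply, Nat.sum_divisors_prime_pow hp]
    have h2 : ∀ i ∈ range (k + 1), ArithmeticFunction.liouville (p ^ i) = (-1) ^ i := by
      intro i _
      rw [ArithmeticFunction.liouville_apply (pow_ne_zero _ hp.ne_zero),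
        ArithmeticFunction.cardFactors_apply_prime_pow hp]
    rw [Finset.sum_congr rfl h2]
    induction k with
    | zero => simp
    | succ k ih =>
      rw [Finset.sum_range_succ, ih (fun i _ => by
        rw [ArithmeticFunction.liouville_apply (pow_ne_zero _ hp.ne_zero),
        ArithmeticFunction.cardFactors_apply_prime_pow hp])]
      by_cases hk : Even k
      · have h3 : ¬ Even (k + 1) := by
          rw [Nat.even_add_one]; exact not_not.mpr hk
        rw [if_pos hk, if_neg h3, Odd.neg_one_pow (Nat.not_even_iff_odd.1 h3)]; norm_num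
      · have h3 : Even (k + 1) := by
          rw [Nat.even_add_one]; exact hk
        rw [if_neg hk, if_pos h3, Even.neg_one_pow h3]; norm_num
  have hprod : F n = n.factorization.prod fun p k => F (p ^ k) :=
    hFm.multiplicative_factorization F hn
  have hval : ∀ p ∈ n.factorization.support, F (p ^ (n.factorization p)) =
      if Even (n.factorization p) then 1 else 0 := by
    intro p hp
    apply hpk
    exact Nat.prime_of_mem_primeFactors (by simpa using hp)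
  constructor
  · rw [h1, hprod, Finsupp.prod, Finset.prod_congr rfl hval]
    push_cast
    rw [Finset.abs_prod]
    apply Finset.prod_le_one
    · intro i _; exact abs_nonneg _
    · intro i _; split_ifs <;> simp
  · intro h
    rw [h1, Int.cast_ne_zero, hprod, Finsupp.prod, Finset.prod_congr rfl hval] at h
    have h4 : ∀ p ∈ n.factorization.support, Even (n.factorization p) := by
      intro p hp
      by_contra hne
      apply h
      apply Finset.prod_eq_zero hp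
      rw [if_neg hne]
    rw [← Nat.prod_factorization_pow_eq_self hn, Finsupp.prod]
    apply Finset.prod_induction _ IsSquare (fun a b ha hb => ha.mul hb) (IsSquare.one)
    intro p hp
    exact (h4 p hp).isSquare_pow p

/-- reordering of pairs -/
private theorem PnL_pairs (y : ℕ) (f : ℕ → ℕ → ℝ) :
    ∑ n ∈ Icc 1 y, ∑ d ∈ n.divisors, f d (n / d)
      = ∑ d ∈ Icc 1 y, ∑ m ∈ Icc 1 (y / d), f d m := by
  rw [Finset.sum_sigma', Finset.sum_sigma']
  refine Finset.sum_bij' (fun a _ => ⟨a.2, a.1 / a.2⟩) (fun b _ => ⟨b.1 * b.2, b.1⟩) ?_ ?_ ?_ ?_ ?_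
  · rintro ⟨n, d⟩ h
    simp only [Finset.mem_sigma, Finset.mem_Icc, Nat.mem_divisors] at h ⊢
    obtain ⟨⟨h1, h2⟩, h3, h4⟩ := h
    have hd : 0 < d := Nat.pos_of_dvd_of_pos h3 (by omega)
    refine ⟨⟨hd, (Nat.le_of_dvd (by omega) h3).trans h2⟩, Nat.div_pos (Nat.le_of_dvd (by omega) h3) hd,
      Nat.div_le_div_right h2⟩
  · rintro ⟨d, m⟩ h
    simp only [Finset.mem_sigma, Finset.mem_Icc, Nat.mem_divisors] at h ⊢
    obtain ⟨⟨h1, h2⟩, h3, h4⟩ := h
    have h5 : d * m ≤ y := by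
      calc d * m ≤ d * (y / d) := Nat.mul_le_mul_left _ h4
        _ ≤ y := Nat.mul_div_le y d
    refine ⟨⟨Nat.mul_pos (by omega) (by omega), h5⟩, Dvd.intro _ rfl, ?_⟩
    exact (Nat.mul_pos (by omega) (by omega)).ne'
  · rintro ⟨n, d⟩ h
    simp only [Finset.mem_sigma, Finset.mem_Icc, Nat.mem_divisors] at h
    obtain ⟨⟨h1, h2⟩, h3, h4⟩ := h
    simp only [Sigma.mk.injEq, heq_eq_eq, and_true]
    exact Nat.mul_div_cancel' h3
  · rintro ⟨d, m⟩ h
    simp only [Finset.mem_sigma, Finset.mem_Icc] at h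
    obtain ⟨⟨h1, h2⟩, h3, h4⟩ := h
    simp only [Sigma.mk.injEq, heq_eq_eq, true_and]
    exact Nat.mul_div_cancel_left m (by omega)
  · rintro ⟨n, d⟩ h
    rfl

private noncomputable def PnLA (y : ℕ) : ℝ := ∑ n ∈ Icc 1 y, lio n

private theorem PnL_A_abs (y : ℕ) : |PnLA y| ≤ y := by
  unfold PnLA
  refine (Finset.abs_sum_le_sum_abs _ _).trans ?_
  refine (Finset.sum_le_sum fun n _ => lio_abs_le n).trans ?_
  simp

/-- `∑ A(y/d)` counts squares -/
private theorem PnL_sumA (y : ℕ) : |∑ d ∈ Icc 1 y, PnLA (y / d)| ≤ Real.sqrt y := by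
  have h1 : ∑ d ∈ Icc 1 y, PnLA (y / d) = ∑ n ∈ Icc 1 y, ∑ m ∈ n.divisors, lio m := by
    have h2 := PnL_pairs y (fun _ m => lio m)
    unfold PnLA
    rw [← h2]
    refine Finset.sum_congr rfl fun n _ => ?_
    exact Nat.sum_div_divisors n (fun m => lio m)
  rw [h1]
  refine (Finset.abs_sum_le_sum_abs _ _).trans ?_
  have h3 : ∀ n ∈ Icc 1 y, |∑ m ∈ n.divisors, lio m| ≤ if IsSquare n then 1 else 0 := by
    intro n hn
    have hn0 : n ≠ 0 := by have := (Finset.mem_Icc.1 hn).1; omega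
    obtain ⟨h4, h5⟩ := PnL_div n hn0
    split_ifs with h6
    · exact h4
    · by_contra h7
      apply h6
      apply h5
      intro h8
      apply h7
      rw [h8, abs_zero]
  refine (Finset.sum_le_sum h3).trans ?_
  rw [← Finset.sum_filter, Finset.sum_const, nsmul_eq_mul, mul_one]
  have h4 : ((Icc 1 y).filter IsSquare) ⊆ (Icc 1 (Nat.sqrt y)).image (fun r => r * r) := by
    intro n hn
    simp only [Finset.mem_filter, Finset.mem_Icc] at hn
    obtain ⟨⟨h5, h6⟩, r, hr⟩ := hn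
    refine Finset.mem_image.2 ⟨r, Finset.mem_Icc.2 ⟨?_, ?_⟩, hr.symm⟩
    · rcases Nat.eq_zero_or_pos r with h | h
      · subst h; simp at hr; omega
      · exact h
    · rw [Nat.le_sqrt, ← hr]; exact h6
  have h5 : (((Icc 1 y).filter IsSquare).card : ℝ) ≤ (Nat.sqrt y : ℝ) := by
    have h6 := (Finset.card_le_card h4).trans Finset.card_image_le
    rw [Nat.card_Icc] at h6
    have h7 : ((Icc 1 y).filter IsSquare).card ≤ Nat.sqrt y := by omega
    exact_mod_cast h7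
  refine h5.trans ?_
  exact Real.nat_sqrt_le_real_sqrt

/-- the identity for `∑ lio n log n` -/
private theorem PnL_log (y : ℕ) : ∑ n ∈ Icc 1 y, lio n * Real.log n
    = ∑ d ∈ Icc 1 y, Lam d * lio d * PnLA (y / d) := by
  have h1 : ∀ n ∈ Icc 1 y, lio n * Real.log n = ∑ d ∈ n.divisors, Lam d * lio d * lio (n / d) := by
    intro n hn
    have hn0 : n ≠ 0 := by have := (Finset.mem_Icc.1 hn).1; omega
    rw [← ArithmeticFunction.vonMangoldt_sum, Finset.mul_sum]
    refine Finset.sum_congr rfl fun d hd => ?_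
    have h2 : d * (n / d) = n := Nat.mul_div_cancel' (Nat.dvd_of_mem_divisors hd)
    conv_lhs => rw [← h2, PnL_lio_mul]
    unfold Lam
    ring
  rw [Finset.sum_congr rfl h1, PnL_pairs y (fun d m => Lam d * lio d * lio m)]
  refine Finset.sum_congr rfl fun d _ => ?_
  rw [← Finset.mul_sum]
  rfl

/-- interchange in the range `d > w` -/
private theorem PnL_inter (y w : ℕ) (f : ℕ → ℝ) :
    ∑ d ∈ (Icc 1 y).filter (fun d => w < d), f d * PnLA (y / d)
      = ∑ m ∈ Icc 1 y, lio m * ∑ d ∈ Ioc w (y / m), f d := by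
  have h1 : ∑ d ∈ (Icc 1 y).filter (fun d => w < d), f d * PnLA (y / d)
      = ∑ d ∈ Icc 1 y, ∑ m ∈ Icc 1 (y / d), (if w < d then f d else 0) * lio m := by
    rw [Finset.sum_filter]
    refine Finset.sum_congr rfl fun d _ => ?_
    rw [← Finset.mul_sum]
    split_ifs <;> simp [PnLA]
  have h2 : ∑ m ∈ Icc 1 y, lio m * ∑ d ∈ Ioc w (y / m), f d
      = ∑ m ∈ Icc 1 y, ∑ d ∈ Icc 1 (y / m), (if w < d then f d else 0) * lio m := by
    refine Finset.sum_congr rfl fun m _ => ?_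
    have h3 : ∑ d ∈ Ioc w (y / m), f d = ∑ d ∈ Icc 1 (y / m), if w < d then f d else 0 := by
      rw [← Finset.sum_filter]
      refine Finset.sum_congr ?_ fun _ _ => rfl
      ext d
      simp only [Finset.mem_Ioc, Finset.mem_filter, Finset.mem_Icc]
      omega
    rw [h3, Finset.mul_sum]
    refine Finset.sum_congr rfl fun d _ => ?_
    ring
  rw [h1, h2, ← PnL_pairs y (fun d m => (if w < d then f d else 0) * lio m),
    ← PnL_pairs y (fun m d => (if w < d then f d else 0) * lio m)]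
  refine Finset.sum_congr rfl fun n hn => ?_
  have h4 := Nat.sum_divisorsAntidiagonal (n := n) (fun d m => (if w < d then f d else 0) * lio m)
  have h5 := Nat.sum_divisorsAntidiagonal' (n := n) (fun d m => (if w < d then f d else 0) * lio m)
  rw [← h4, h5]


/-! ### analysis -/

private noncomputable def PnLq (y : ℕ) : ℝ := Real.sqrt (Real.sqrt (1 + Real.log y))

private theorem PnL_log_nonneg (y : ℕ) : 0 ≤ Real.log (y : ℝ) := Real.log_natCast_nonneg y

private theorem PnL_q4 (y : ℕ) : PnLq y ^ 4 = 1 + Real.log y := by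
  have h := PnL_log_nonneg y
  unfold PnLq
  have h1 : Real.sqrt (Real.sqrt (1 + Real.log y)) ^ 4
      = (Real.sqrt (Real.sqrt (1 + Real.log y)) ^ 2) ^ 2 := by ring
  rw [h1, Real.sq_sqrt (Real.sqrt_nonneg _), Real.sq_sqrt (by linarith)]

private theorem PnL_q_one (y : ℕ) : 1 ≤ PnLq y := by
  have h := PnL_log_nonneg y
  unfold PnLq
  rw [Real.one_le_sqrt, Real.one_le_sqrt]
  linarith

private theorem PnL_q_pos (y : ℕ) : 0 < PnLq y := lt_of_lt_of_le one_pos (PnL_q_one y)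

private theorem PnL_logpow (j : ℕ) (s : ℝ) (hs : 0 < s) : ∃ C : ℝ, 0 < C ∧ ∀ t : ℝ, 1 ≤ t →
    (1 + Real.log t) ^ j ≤ C * t ^ s := by
  rcases Nat.eq_zero_or_pos j with rfl | hj
  · refine ⟨1, one_pos, fun t ht => ?_⟩
    simpa using Real.one_le_rpow ht hs.le
  have hj' : (0 : ℝ) < j := by exact_mod_cast hj
  set e : ℝ := s / j with he
  have he0 : 0 < e := by rw [he]; positivity
  refine ⟨(1 + 1 / e) ^ j, by positivity, fun t ht => ?_⟩
  have h1 : 1 + Real.log t ≤ (1 + 1 / e) * t ^ e := by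
    have h2 := Real.log_le_rpow_div (by linarith : (0 : ℝ) ≤ t) he0
    have h3 := Real.one_le_rpow ht he0.le
    have h4 : (1 + 1 / e) * t ^ e = t ^ e + t ^ e / e := by ring
    linarith
  have h5 : 0 ≤ 1 + Real.log t := by
    have := Real.log_nonneg ht
    linarith
  calc (1 + Real.log t) ^ j ≤ ((1 + 1 / e) * t ^ e) ^ j := pow_le_pow_left₀ h5 h1 j
    _ = (1 + 1 / e) ^ j * t ^ s := by
        rw [mul_pow, ← Real.rpow_natCast (t ^ e) j, ← Real.rpow_mul (by linarith)]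
        congr 2
        rw [he]; field_simp

private theorem PnL_key (j : ℕ) (s : ℝ) (hs : 0 < s) : ∃ C : ℝ, 0 < C ∧ ∀ (u y : ℕ) (t : ℝ),
    1 ≤ u → 1 ≤ y → 1 ≤ t → (y : ℝ) ≤ u * t → PnLq y ^ j ≤ C * PnLq u ^ j * t ^ s := by
  obtain ⟨C, hC, h⟩ := PnL_logpow j s hs
  refine ⟨C, hC, fun u y t hu hy ht hyt => ?_⟩
  have hu' : (0 : ℝ) < u := by exact_mod_cast hu
  have hy' : (0 : ℝ) < y := by exact_mod_cast hy
  have hlt := Real.log_nonneg ht
  have hlu := PnL_log_nonneg u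
  have h1 : Real.log y ≤ Real.log u + Real.log t := by
    rw [← Real.log_mul hu'.ne' (by positivity)]
    exact Real.log_le_log hy' hyt
  have h2 : PnLq y ^ 4 ≤ (PnLq u * (1 + Real.log t)) ^ 4 := by
    rw [mul_pow, PnL_q4, PnL_q4]
    have h3 : (1 + Real.log t) ≤ (1 + Real.log t) ^ 4 :=
      le_self_pow₀ (by linarith) (by norm_num)
    calc 1 + Real.log y ≤ (1 + Real.log u) * (1 + Real.log t) := by nlinarith
      _ ≤ (1 + Real.log u) * (1 + Real.log t) ^ 4 :=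
          mul_le_mul_of_nonneg_left h3 (by linarith)
  have h4 : PnLq y ≤ PnLq u * (1 + Real.log t) :=
    le_of_pow_le_pow_left₀ (by norm_num) (by have := PnL_q_pos u; positivity) h2
  calc PnLq y ^ j ≤ (PnLq u * (1 + Real.log t)) ^ j := pow_le_pow_left₀ (PnL_q_pos y).le h4 j
    _ = PnLq u ^ j * (1 + Real.log t) ^ j := by rw [mul_pow]
    _ ≤ PnLq u ^ j * (C * t ^ s) :=
        mul_le_mul_of_nonneg_left (h t ht) (pow_nonneg (PnL_q_pos u).le _)
    _ = C * PnLq u ^ j * t ^ s := by ring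

/-- `β(d) = Λ(d) (1 + λ(d))` is supported on squares and small -/
private theorem PnL_beta (d : ℕ) : 0 ≤ Lam d * (1 + lio d) ∧ Lam d * (1 + lio d) ≤ 2 * Real.log d ∧
    (Lam d * (1 + lio d) ≠ 0 → IsSquare d) := by
  have h0 : 0 ≤ Lam d := ArithmeticFunction.vonMangoldt_nonneg
  have h1 : Lam d ≤ Real.log d := ArithmeticFunction.vonMangoldt_le_log
  have h2 := abs_le.1 (lio_abs_le d)
  refine ⟨mul_nonneg h0 (by linarith), ?_, ?_⟩
  · nlinarith
  · intro h
    have h3 : Lam d ≠ 0 := left_ne_zero_of_mul h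
    have h4 : (1 + lio d) ≠ 0 := right_ne_zero_of_mul h
    have h5 : IsPrimePow d := ArithmeticFunction.vonMangoldt_ne_zero_iff.1 h3
    obtain ⟨p, k, hp, hk, rfl⟩ := h5
    have hp' : p.Prime := Nat.prime_iff.2 hp
    have h6 : lio (p ^ k) = (-1) ^ k := by
      unfold lio
      rw [if_neg (pow_ne_zero _ hp'.ne_zero), ArithmeticFunction.cardFactors_apply_prime_pow hp']
    have h7 : Even k := by
      by_contra h8
      apply h4
      rw [h6, Odd.neg_one_pow (Nat.not_even_iff_odd.1 h8)]; ring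
    exact h7.isSquare_pow p

private theorem PnL_beta_sum : ∃ B : ℝ, 0 < B ∧ ∀ y : ℕ,
    ∑ d ∈ Icc 1 y, Lam d * (1 + lio d) * (d : ℝ) ^ (-(3 / 4) : ℝ) ≤ B := by
  set f : ℕ → ℝ := fun d => Lam d * (1 + lio d) * (d : ℝ) ^ (-(3 / 4) : ℝ) with hf
  have hf0 : ∀ d, 0 ≤ f d := fun d => mul_nonneg (PnL_beta d).1 (Real.rpow_nonneg (Nat.cast_nonneg _) _)
  have hinj : Function.Injective (fun r : ℕ => r ^ 2) := fun a b h => by
    simpa using h
  have hsupp : ∀ x ∉ Set.range (fun r : ℕ => r ^ 2), f x = 0 := by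
    intro x hx
    by_contra h
    apply hx
    obtain ⟨r, hr⟩ := (PnL_beta x).2.2 (left_ne_zero_of_mul h)
    exact ⟨r, by rw [hr]; ring⟩
  have hsum : Summable f := by
    rw [← hinj.summable_iff hsupp]
    have h1 : Summable (fun r : ℕ => 32 * ((r : ℝ) ^ (5 / 4 : ℝ))⁻¹) :=
      (Real.summable_nat_rpow_inv.2 (by norm_num)).mul_left _
    refine Summable.of_nonneg_of_le (fun r => hf0 _) (fun r => ?_) h1
    simp only [Function.comp_apply, hf]
    rcases Nat.eq_zero_or_pos r with rfl | hr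
    · simp [Lam]
    have hr' : (0 : ℝ) < r := by exact_mod_cast hr
    have h2 := (PnL_beta (r ^ 2)).2.1
    have h3 : Real.log ((r ^ 2 : ℕ) : ℝ) = 2 * Real.log r := by
      push_cast; rw [Real.log_pow]; norm_num
    have h4 : Real.log r ≤ (r : ℝ) ^ (1 / 4 : ℝ) / (1 / 4) :=
      Real.log_le_rpow_div hr'.le (by norm_num)
    have h5 : (((r ^ 2 : ℕ) : ℝ)) ^ (-(3 / 4) : ℝ) = (r : ℝ) ^ (-(3 / 2) : ℝ) := by
      push_cast
      rw [← Real.rpow_natCast, ← Real.rpow_mul hr'.le]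
      norm_num
    rw [h5]
    have h6 : (0 : ℝ) ≤ (r : ℝ) ^ (-(3 / 2) : ℝ) := Real.rpow_nonneg hr'.le _
    calc Lam (r ^ 2) * (1 + lio (r ^ 2)) * (r : ℝ) ^ (-(3 / 2) : ℝ)
        ≤ (32 * (r : ℝ) ^ (1 / 4 : ℝ)) * (r : ℝ) ^ (-(3 / 2) : ℝ) := by
          apply mul_le_mul_of_nonneg_right _ h6
          rw [h3] at h2
          have h7 : (0 : ℝ) ≤ (r : ℝ) ^ (1 / 4 : ℝ) := Real.rpow_nonneg hr'.le _
          linarith
      _ = 32 * ((r : ℝ) ^ (5 / 4 : ℝ))⁻¹ := by
          rw [mul_assoc, ← Real.rpow_add hr', ← Real.rpow_neg hr'.le]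
          norm_num
  refine ⟨∑' d, f d + 1, ?_, fun y => ?_⟩
  · have : 0 ≤ ∑' d, f d := tsum_nonneg hf0
    linarith
  · have := hsum.sum_le_tsum (Icc 1 y) (fun d _ => hf0 d)
    linarith


private theorem PnL_abel (y : ℕ) (hy : 1 ≤ y) :
    ∑ n ∈ Icc 1 y, lio n * (Real.log y - Real.log n)
      = ∑ u ∈ Ico 1 y, PnLA u * (Real.log ((u : ℝ) + 1) - Real.log u) := by
  induction y, hy using Nat.le_induction with
  | base => simp
  | succ y hy ih =>
    rw [Finset.sum_Ico_succ_top hy, ← ih, Finset.sum_Icc_succ_top (by omega)]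
    push_cast
    rw [sub_self, mul_zero, add_zero]
    unfold PnLA
    rw [Finset.sum_mul, ← Finset.sum_add_distrib]
    refine Finset.sum_congr rfl fun n _ => ?_
    ring

private theorem PnL_inv_sqrt (y : ℕ) : ∑ u ∈ Icc 1 y, (1 : ℝ) / Real.sqrt u ≤ 2 * Real.sqrt y := by
  induction y with
  | zero => simp
  | succ y ih =>
    rw [Finset.sum_Icc_succ_top (by omega)]
    have h0 : (0 : ℝ) ≤ y := Nat.cast_nonneg y
    have h1 : 0 < Real.sqrt ((y : ℝ) + 1) := Real.sqrt_pos.2 (by linarith)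
    have h2 : Real.sqrt (y : ℝ) ≤ Real.sqrt ((y : ℝ) + 1) := Real.sqrt_le_sqrt (by linarith)
    have h3 := Real.sqrt_nonneg (y : ℝ)
    have h4 : Real.sqrt ((y : ℝ) + 1) ^ 2 = y + 1 := Real.sq_sqrt (by linarith)
    have h5 : Real.sqrt (y : ℝ) ^ 2 = y := Real.sq_sqrt h0
    push_cast
    have h6 : 1 / Real.sqrt ((y : ℝ) + 1) ≤ 2 * (Real.sqrt ((y : ℝ) + 1) - Real.sqrt y) := by
      rw [div_le_iff₀ h1]
      nlinarith
    linarith

private theorem PnL_log_succ (u : ℕ) (hu : 1 ≤ u) :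
    |Real.log ((u : ℝ) + 1) - Real.log u| ≤ 1 / u := by
  have hu' : (0 : ℝ) < u := by exact_mod_cast hu
  rw [abs_of_nonneg (sub_nonneg.2 (Real.log_le_log hu' (by linarith))),
    ← Real.log_div (by positivity) hu'.ne']
  have h1 := Real.log_le_sub_one_of_pos (show (0 : ℝ) < ((u : ℝ) + 1) / u by positivity)
  refine h1.trans (le_of_eq ?_)
  field_simp
  ring

/-- second term -/
private theorem PnL_T1 (j : ℕ) (C : ℝ) (hC : 0 < C)
    (h : ∀ y : ℕ, 1 ≤ y → |PnLA y| ≤ C * y / PnLq y ^ (2 * j)) :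
    ∃ D : ℝ, 0 < D ∧ ∀ y : ℕ, 1 ≤ y →
      |∑ n ∈ Icc 1 y, lio n * (Real.log y - Real.log n)| ≤ D * y / PnLq y ^ (2 * j) := by
  obtain ⟨K, hK, hkey⟩ := PnL_key (2 * j) (1 / 2) (by norm_num)
  refine ⟨2 * C * K, by positivity, fun y hy => ?_⟩
  have hy' : (0 : ℝ) < y := by exact_mod_cast hy
  have hq := pow_pos (PnL_q_pos y) (2 * j)
  rw [PnL_abel y hy]
  refine (Finset.abs_sum_le_sum_abs _ _).trans ?_
  have h1 : ∀ u ∈ Ico 1 y, |PnLA u * (Real.log ((u : ℝ) + 1) - Real.log u)|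
      ≤ (C * K * Real.sqrt y / PnLq y ^ (2 * j)) * (1 / Real.sqrt u) := by
    intro u hu
    obtain ⟨hu1, hu2⟩ := Finset.mem_Ico.1 hu
    have hu' : (0 : ℝ) < u := by exact_mod_cast hu1
    have hqu := pow_pos (PnL_q_pos u) (2 * j)
    have hsu : 0 < Real.sqrt u := Real.sqrt_pos.2 hu'
    rw [abs_mul]
    have h2 := PnL_log_succ u hu1
    have h3 := h u hu1
    have huy : (u : ℝ) ≤ y := by exact_mod_cast hu2.le
    have h4 := hkey u y (y / u) hu1 hy (by rw [le_div_iff₀ hu']; linarith)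
      (by rw [mul_div_cancel₀ _ hu'.ne'])
    rw [← Real.sqrt_eq_rpow, Real.sqrt_div hy'.le] at h4
    have h5 : 1 / PnLq u ^ (2 * j) ≤ K * (Real.sqrt y / Real.sqrt u) / PnLq y ^ (2 * j) := by
      rw [div_le_div_iff₀ hqu hq]
      calc 1 * PnLq y ^ (2 * j) ≤ K * PnLq u ^ (2 * j) * (Real.sqrt y / Real.sqrt u) := by
            rw [one_mul]; exact h4
        _ = K * (Real.sqrt y / Real.sqrt u) * PnLq u ^ (2 * j) := by ring
    calc |PnLA u| * |Real.log ((u : ℝ) + 1) - Real.log u|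
        ≤ (C * u / PnLq u ^ (2 * j)) * (1 / u) :=
          mul_le_mul h3 h2 (abs_nonneg _) (by positivity)
      _ = C * (1 / PnLq u ^ (2 * j)) := by field_simp
      _ ≤ C * (K * (Real.sqrt y / Real.sqrt u) / PnLq y ^ (2 * j)) :=
          mul_le_mul_of_nonneg_left h5 hC.le
      _ = (C * K * Real.sqrt y / PnLq y ^ (2 * j)) * (1 / Real.sqrt u) := by ring
  refine (Finset.sum_le_sum h1).trans ?_
  rw [← Finset.mul_sum]
  have h6 : ∑ u ∈ Ico 1 y, (1 : ℝ) / Real.sqrt u ≤ 2 * Real.sqrt y := by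
    refine le_trans (Finset.sum_le_sum_of_subset_of_nonneg ?_ fun _ _ _ => by positivity)
      (PnL_inv_sqrt y)
    intro u hu
    simp only [Finset.mem_Ico, Finset.mem_Icc] at hu ⊢
    omega
  have h7 : 0 ≤ C * K * Real.sqrt y / PnLq y ^ (2 * j) := by positivity
  refine (mul_le_mul_of_nonneg_left h6 h7).trans (le_of_eq ?_)
  have h8 : Real.sqrt y * Real.sqrt y = y := Real.mul_self_sqrt hy'.le
  calc C * K * Real.sqrt y / PnLq y ^ (2 * j) * (2 * Real.sqrt y)
      = 2 * C * K * (Real.sqrt y * Real.sqrt y) / PnLq y ^ (2 * j) := by ring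
    _ = 2 * C * K * y / PnLq y ^ (2 * j) := by rw [h8]

/-- the squares -/
private theorem PnL_T4 (j : ℕ) (C : ℝ) (hC : 0 < C)
    (h : ∀ y : ℕ, 1 ≤ y → |PnLA y| ≤ C * y / PnLq y ^ (2 * j)) :
    ∃ D : ℝ, 0 < D ∧ ∀ y : ℕ, 1 ≤ y →
      |∑ d ∈ Icc 1 y, Lam d * (1 + lio d) * PnLA (y / d)| ≤ D * y / PnLq y ^ (2 * j) := by
  obtain ⟨K, hK, hkey⟩ := PnL_key (2 * j) (1 / 4) (by norm_num)
  obtain ⟨B, hB, hBs⟩ := PnL_beta_sum
  refine ⟨2 * C * K * B, by positivity, fun y hy => ?_⟩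
  have hy' : (0 : ℝ) < y := by exact_mod_cast hy
  have hq := pow_pos (PnL_q_pos y) (2 * j)
  refine (Finset.abs_sum_le_sum_abs _ _).trans ?_
  have h1 : ∀ d ∈ Icc 1 y, |Lam d * (1 + lio d) * PnLA (y / d)|
      ≤ (2 * C * K * y / PnLq y ^ (2 * j)) * (Lam d * (1 + lio d) * (d : ℝ) ^ (-(3 / 4) : ℝ)) := by
    intro d hd
    obtain ⟨hd1, hd2⟩ := Finset.mem_Icc.1 hd
    have hd' : (0 : ℝ) < d := by exact_mod_cast hd1
    have hd1' : (1 : ℝ) ≤ d := by exact_mod_cast hd1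
    have hu1 : 1 ≤ y / d := Nat.div_pos hd2 hd1
    have hqu := pow_pos (PnL_q_pos (y / d)) (2 * j)
    have hb := (PnL_beta d).1
    have h3 := h (y / d) hu1
    have h4 : (y : ℝ) ≤ ((y / d : ℕ) : ℝ) * (2 * d) := by
      have h5 : y < d * (y / d) + d := by
        have := Nat.div_add_mod y d
        have := Nat.mod_lt y hd1
        omega
      have h6 : d ≤ d * (y / d) := Nat.le_mul_of_pos_right d hu1
      have h7 : y ≤ (y / d) * (2 * d) := by
        calc y ≤ d * (y / d) + d * (y / d) := by omega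
          _ = (y / d) * (2 * d) := by ring
      exact_mod_cast h7
    have h8 := hkey (y / d) y (2 * d) hu1 hy (by linarith) h4
    have h9 : (2 * (d : ℝ)) ^ (1 / 4 : ℝ) ≤ 2 * (d : ℝ) ^ (1 / 4 : ℝ) := by
      rw [Real.mul_rpow (by norm_num) hd'.le]
      apply mul_le_mul_of_nonneg_right _ (Real.rpow_nonneg hd'.le _)
      calc (2 : ℝ) ^ (1 / 4 : ℝ) ≤ 2 ^ (1 : ℝ) :=
            Real.rpow_le_rpow_of_exponent_le (by norm_num) (by norm_num)
        _ = 2 := Real.rpow_one 2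
    have h10 : 1 / PnLq (y / d) ^ (2 * j) ≤ K * (2 * (d : ℝ) ^ (1 / 4 : ℝ)) / PnLq y ^ (2 * j) := by
      rw [div_le_div_iff₀ hqu hq]
      calc 1 * PnLq y ^ (2 * j) ≤ K * PnLq (y / d) ^ (2 * j) * (2 * (d : ℝ)) ^ (1 / 4 : ℝ) := by
            rw [one_mul]; exact h8
        _ ≤ K * PnLq (y / d) ^ (2 * j) * (2 * (d : ℝ) ^ (1 / 4 : ℝ)) :=
            mul_le_mul_of_nonneg_left h9 (by positivity)
        _ = K * (2 * (d : ℝ) ^ (1 / 4 : ℝ)) * PnLq (y / d) ^ (2 * j) := by ring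
    have h11 : ((y / d : ℕ) : ℝ) ≤ y / d := Nat.cast_div_le
    rw [abs_mul, abs_of_nonneg hb]
    have h12 : |PnLA (y / d)| ≤ (2 * C * K * y / PnLq y ^ (2 * j)) * (d : ℝ) ^ (-(3 / 4) : ℝ) := by
      calc |PnLA (y / d)| ≤ C * ((y / d : ℕ) : ℝ) / PnLq (y / d) ^ (2 * j) := h3
        _ = C * ((y / d : ℕ) : ℝ) * (1 / PnLq (y / d) ^ (2 * j)) := by ring
        _ ≤ C * (y / d) * (K * (2 * (d : ℝ) ^ (1 / 4 : ℝ)) / PnLq y ^ (2 * j)) := by
            apply mul_le_mul _ h10 (by positivity) (by positivity)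
            exact mul_le_mul_of_nonneg_left h11 hC.le
        _ = (2 * C * K * y / PnLq y ^ (2 * j)) * ((d : ℝ) ^ (1 / 4 : ℝ) * (d : ℝ) ^ (-1 : ℝ)) := by
            rw [Real.rpow_neg_one]; ring
        _ = (2 * C * K * y / PnLq y ^ (2 * j)) * (d : ℝ) ^ (-(3 / 4) : ℝ) := by
            rw [← Real.rpow_add hd']; norm_num
    calc Lam d * (1 + lio d) * |PnLA (y / d)|
        ≤ Lam d * (1 + lio d) * ((2 * C * K * y / PnLq y ^ (2 * j)) * (d : ℝ) ^ (-(3 / 4) : ℝ)) :=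
          mul_le_mul_of_nonneg_left h12 hb
      _ = _ := by ring
  refine (Finset.sum_le_sum h1).trans ?_
  rw [← Finset.mul_sum]
  have h7 : 0 ≤ 2 * C * K * y / PnLq y ^ (2 * j) := by positivity
  refine (mul_le_mul_of_nonneg_left (hBs y) h7).trans (le_of_eq ?_)
  ring


private theorem PnL_harm (w : ℕ) : ∑ d ∈ Icc 1 w, (1 : ℝ) / d ≤ 1 + Real.log w := by
  have h := harmonic_le_one_add_log w
  rw [harmonic_eq_sum_Icc] at h
  push_cast at h
  simpa using h

/-- the range `d ≤ w` -/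
private theorem PnL_T2 (j : ℕ) (C : ℝ) (hC : 0 < C)
    (h : ∀ y : ℕ, 1 ≤ y → |PnLA y| ≤ C * y / PnLq y ^ (2 * j)) (y w : ℕ) (hy : 1 ≤ y) (hw1 : 1 ≤ w)
    (hq2 : 2 ≤ PnLq y) (hw : (w : ℝ) ≤ 2 * Real.exp (PnLq y)) :
    |∑ d ∈ (Icc 1 y).filter (fun d => ¬ w < d), (Lam d - 1) * PnLA (y / d)|
      ≤ (4 * C * 2 ^ (2 * j)) * y * PnLq y ^ 2 / PnLq y ^ (2 * j) := by
  have hy' : (0 : ℝ) < y := by exact_mod_cast hy
  have hw' : (0 : ℝ) < w := by exact_mod_cast hw1
  have hq := pow_pos (PnL_q_pos y) (2 * j)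
  have hq0 := PnL_q_pos y
  have hl2 : Real.log 2 ≤ 1 := by
    have := Real.log_two_lt_d9; linarith
  have hlw : Real.log w ≤ 1 + PnLq y := by
    have h1 := Real.log_le_log hw' hw
    rw [Real.log_mul (by norm_num) (Real.exp_pos _).ne', Real.log_exp] at h1
    linarith
  have hlw0 := PnL_log_nonneg w
  have hlw2 : 1 + Real.log w ≤ 2 * PnLq y := by linarith
  refine (Finset.abs_sum_le_sum_abs _ _).trans ?_
  have h1 : ∀ d ∈ (Icc 1 y).filter (fun d => ¬ w < d), |(Lam d - 1) * PnLA (y / d)|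
      ≤ (2 * PnLq y * C * 2 ^ (2 * j) * y / PnLq y ^ (2 * j)) * (1 / d) := by
    intro d hd
    obtain ⟨hd0, hd3⟩ := Finset.mem_filter.1 hd
    obtain ⟨hd1, hd2⟩ := Finset.mem_Icc.1 hd0
    have hdw : d ≤ w := by omega
    have hd' : (0 : ℝ) < d := by exact_mod_cast hd1
    have hdw' : (d : ℝ) ≤ w := by exact_mod_cast hdw
    have hu1 : 1 ≤ y / d := Nat.div_pos hd2 hd1
    have hqu := pow_pos (PnL_q_pos (y / d)) (2 * j)
    have hL0 : 0 ≤ Lam d := ArithmeticFunction.vonMangoldt_nonneg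
    have hL1 : Lam d ≤ Real.log d := ArithmeticFunction.vonMangoldt_le_log
    have hld : Real.log d ≤ Real.log w := Real.log_le_log hd' hdw'
    have h2 : |Lam d - 1| ≤ 2 * PnLq y := by
      rw [abs_le]; constructor <;> linarith
    have h3 := h (y / d) hu1
    have h4 : (y : ℝ) ≤ ((y / d : ℕ) : ℝ) * (2 * d) := by
      have h5 : y < d * (y / d) + d := by
        have := Nat.div_add_mod y d
        have := Nat.mod_lt y hd1
        omega
      have h6 : d ≤ d * (y / d) := Nat.le_mul_of_pos_right d hu1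
      have h7 : y ≤ (y / d) * (2 * d) := by
        calc y ≤ d * (y / d) + d * (y / d) := by omega
          _ = (y / d) * (2 * d) := by ring
      exact_mod_cast h7
    have hu' : (0 : ℝ) < ((y / d : ℕ) : ℝ) := by exact_mod_cast hu1
    have h5 : Real.log y ≤ Real.log ((y / d : ℕ) : ℝ) + (Real.log 2 + Real.log d) := by
      rw [← Real.log_mul (by norm_num) hd'.ne', ← Real.log_mul hu'.ne' (by positivity)]
      exact Real.log_le_log hy' h4
    have h6 : (PnLq y / 2) ^ 4 ≤ PnLq (y / d) ^ 4 := by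
      have e1 := PnL_q4 y
      have e2 := PnL_q4 (y / d)
      rw [div_pow, e2]
      have e3 : PnLq y ^ 4 ≥ 8 * PnLq y := by
        have : PnLq y ^ 3 ≥ 2 ^ 3 := pow_le_pow_left₀ (by norm_num) hq2 3
        nlinarith
      have e4 : 1 + Real.log ((y / d : ℕ) : ℝ) ≥ PnLq y ^ 4 - (2 + PnLq y) := by
        rw [e1]; linarith
      linarith
    have h7 : PnLq y / 2 ≤ PnLq (y / d) :=
      le_of_pow_le_pow_left₀ (by norm_num) (PnL_q_pos _).le h6
    have h8 : 1 / PnLq (y / d) ^ (2 * j) ≤ 2 ^ (2 * j) / PnLq y ^ (2 * j) := by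
      rw [div_le_div_iff₀ hqu hq]
      have h9 : PnLq y ≤ 2 * PnLq (y / d) := by linarith
      calc 1 * PnLq y ^ (2 * j) ≤ (2 * PnLq (y / d)) ^ (2 * j) := by
            rw [one_mul]; exact pow_le_pow_left₀ hq0.le h9 _
        _ = 2 ^ (2 * j) * PnLq (y / d) ^ (2 * j) := by rw [mul_pow]
    have h11 : ((y / d : ℕ) : ℝ) ≤ y / d := Nat.cast_div_le
    rw [abs_mul]
    calc |Lam d - 1| * |PnLA (y / d)|
        ≤ (2 * PnLq y) * (C * ((y / d : ℕ) : ℝ) / PnLq (y / d) ^ (2 * j)) :=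
          mul_le_mul h2 h3 (abs_nonneg _) (by positivity)
      _ = (2 * PnLq y) * (C * ((y / d : ℕ) : ℝ) * (1 / PnLq (y / d) ^ (2 * j))) := by ring
      _ ≤ (2 * PnLq y) * (C * (y / d) * (2 ^ (2 * j) / PnLq y ^ (2 * j))) := by
          apply mul_le_mul_of_nonneg_left _ (by positivity)
          apply mul_le_mul _ h8 (by positivity) (by positivity)
          exact mul_le_mul_of_nonneg_left h11 hC.le
      _ = (2 * PnLq y * C * 2 ^ (2 * j) * y / PnLq y ^ (2 * j)) * (1 / d) := by ring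
  refine (Finset.sum_le_sum h1).trans ?_
  rw [← Finset.mul_sum]
  have h6 : ∑ d ∈ (Icc 1 y).filter (fun d => ¬ w < d), (1 : ℝ) / d ≤ 2 * PnLq y := by
    refine le_trans (le_trans (Finset.sum_le_sum_of_subset_of_nonneg ?_ fun _ _ _ => by positivity)
      (PnL_harm w)) hlw2
    intro u hu
    simp only [Finset.mem_filter, Finset.mem_Icc] at hu ⊢
    omega
  have h7 : 0 ≤ 2 * PnLq y * C * 2 ^ (2 * j) * y / PnLq y ^ (2 * j) := by positivity
  refine (mul_le_mul_of_nonneg_left h6 h7).trans (le_of_eq ?_)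
  ring

/-- the range `d > w` -/
private theorem PnL_T3 (j : ℕ) : ∃ D : ℝ, 0 < D ∧ ∀ y w : ℕ, 1 ≤ y → 2 ≤ PnLq y →
    Real.exp (PnLq y) ≤ w →
    |∑ m ∈ Icc 1 y, lio m * ∑ d ∈ Ioc w (y / m), (Lam d - 1)| ≤ D * y / PnLq y ^ (2 * j) := by
  obtain ⟨C, hC, hpnt⟩ := Pool.Agent.H91.EHA.pnt (2 * j + 4)
  refine ⟨2 * C, by positivity, fun y w hy hq2 hw => ?_⟩
  have hy' : (0 : ℝ) < y := by exact_mod_cast hy
  have hq0 := PnL_q_pos y
  have hqc := pow_pos hq0 (2 * j + 4)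
  have hw' : (0 : ℝ) < w := lt_of_lt_of_le (Real.exp_pos _) hw
  have hlw : PnLq y ≤ Real.log w := by
    have := Real.log_le_log (Real.exp_pos _) hw
    rwa [Real.log_exp] at this
  have hw2 : 2 ≤ w := by
    have h1 : (2 : ℝ) ≤ w := by
      have := Real.add_one_le_exp (PnLq y)
      linarith
    exact_mod_cast h1
  have hR : ∀ v : ℕ, w ≤ v → |(∑ n ∈ Icc 1 v, Lam n) - v| ≤ C * v / PnLq y ^ (2 * j + 4) := by
    intro v hv
    have hv' : (w : ℝ) ≤ v := by exact_mod_cast hv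
    have h1 := hpnt v (by omega)
    refine h1.trans ?_
    have h2 : PnLq y ≤ Real.log v := hlw.trans (Real.log_le_log hw' hv')
    exact div_le_div_of_nonneg_left (by positivity) hqc (pow_le_pow_left₀ hq0.le h2 _)
  have hin : ∀ m ∈ Icc 1 y, |lio m * ∑ d ∈ Ioc w (y / m), (Lam d - 1)|
      ≤ (2 * C * y / PnLq y ^ (2 * j + 4)) * (1 / m) := by
    intro m hm
    obtain ⟨hm1, hm2⟩ := Finset.mem_Icc.1 hm
    have hm' : (0 : ℝ) < m := by exact_mod_cast hm1
    have h11 : ((y / m : ℕ) : ℝ) ≤ y / m := Nat.cast_div_le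
    have hmain : |∑ d ∈ Ioc w (y / m), (Lam d - 1)| ≤ (2 * C * y / PnLq y ^ (2 * j + 4)) * (1 / m) := by
      rcases Nat.lt_or_ge (y / m) w with hlt | hge
      · rw [Finset.Ioc_eq_empty (by omega), Finset.sum_empty, abs_zero]
        positivity
      · set v := y / m with hv
        have e1 : ∑ d ∈ Ioc w v, (Lam d - 1)
            = ((∑ n ∈ Icc 1 v, Lam n) - v) - ((∑ n ∈ Icc 1 w, Lam n) - w) := by
          have e2 : Icc 1 v = Icc 1 w ∪ Ioc w v := by
            ext n; simp only [Finset.mem_union, Finset.mem_Icc, Finset.mem_Ioc]; omega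
          have e3 : Disjoint (Icc 1 w) (Ioc w v) := by
            rw [Finset.disjoint_left]
            intro n; simp only [Finset.mem_Icc, Finset.mem_Ioc]; omega
          rw [e2, Finset.sum_union e3, Finset.sum_sub_distrib]
          simp only [Finset.sum_const, Nat.card_Ioc, nsmul_eq_mul, mul_one]
          rw [Nat.cast_sub hge]
          ring
        rw [e1]
        have h1 := hR v hge
        have h2 := hR w le_rfl
        have hwv : (w : ℝ) ≤ v := by exact_mod_cast hge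
        have h3 : C * w / PnLq y ^ (2 * j + 4) ≤ C * v / PnLq y ^ (2 * j + 4) :=
          div_le_div_of_nonneg_right (mul_le_mul_of_nonneg_left hwv hC.le) hqc.le
        have h4 : C * v / PnLq y ^ (2 * j + 4) ≤ C * (y / m) / PnLq y ^ (2 * j + 4) :=
          div_le_div_of_nonneg_right (mul_le_mul_of_nonneg_left h11 hC.le) hqc.le
        refine (abs_sub _ _).trans ?_
        calc |(∑ n ∈ Icc 1 v, Lam n) - v| + |(∑ n ∈ Icc 1 w, Lam n) - w|
            ≤ C * (y / m) / PnLq y ^ (2 * j + 4) + C * (y / m) / PnLq y ^ (2 * j + 4) := by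
              linarith
          _ = (2 * C * y / PnLq y ^ (2 * j + 4)) * (1 / m) := by ring
    rw [abs_mul]
    calc |lio m| * |∑ d ∈ Ioc w (y / m), (Lam d - 1)|
        ≤ 1 * |∑ d ∈ Ioc w (y / m), (Lam d - 1)| :=
          mul_le_mul_of_nonneg_right (lio_abs_le m) (abs_nonneg _)
      _ ≤ _ := by rw [one_mul]; exact hmain
  refine (Finset.abs_sum_le_sum_abs _ _).trans ((Finset.sum_le_sum hin).trans ?_)
  rw [← Finset.mul_sum]
  have h7 : 0 ≤ 2 * C * y / PnLq y ^ (2 * j + 4) := by positivity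
  refine (mul_le_mul_of_nonneg_left (PnL_harm y) h7).trans (le_of_eq ?_)
  rw [← PnL_q4 y, pow_add]
  have hq := pow_pos hq0 (2 * j)
  field_simp

private theorem PnL_step (j : ℕ)
    (h : ∃ C : ℝ, 0 < C ∧ ∀ y : ℕ, 1 ≤ y → |PnLA y| ≤ C * y / PnLq y ^ (2 * j)) :
    ∃ C : ℝ, 0 < C ∧ ∀ y : ℕ, 1 ≤ y → |PnLA y| ≤ C * y / PnLq y ^ (2 * (j + 1)) := by
  obtain ⟨C, hC, hA⟩ := h
  obtain ⟨D1, hD1, hT1⟩ := PnL_T1 j C hC hA
  obtain ⟨D3, hD3, hT3⟩ := PnL_T3 j
  obtain ⟨D4, hD4, hT4⟩ := PnL_T4 j C hC hA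
  obtain ⟨K, hK, hkey⟩ := PnL_key (2 * j) (1 / 2) (by norm_num)
  set D2 : ℝ := 4 * C * 2 ^ (2 * j) with hD2
  have hD20 : 0 < D2 := by positivity
  refine ⟨2 * (D1 + D2 + D3 + D4 + K) + 2 ^ (2 * (j + 1)), by positivity, fun y hy => ?_⟩
  have hy' : (0 : ℝ) < y := by exact_mod_cast hy
  have hy1 : (1 : ℝ) ≤ y := by exact_mod_cast hy
  have hq0 := PnL_q_pos y
  have hqj := pow_pos hq0 (2 * j)
  have hqj1 := pow_pos hq0 (2 * (j + 1))
  rcases le_or_gt (PnLq y) 2 with hq2 | hq2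
  · refine (PnL_A_abs y).trans ?_
    rw [le_div_iff₀ hqj1]
    have h1 : PnLq y ^ (2 * (j + 1)) ≤ 2 ^ (2 * (j + 1)) := pow_le_pow_left₀ hq0.le hq2 _
    calc (y : ℝ) * PnLq y ^ (2 * (j + 1)) ≤ y * 2 ^ (2 * (j + 1)) :=
          mul_le_mul_of_nonneg_left h1 hy'.le
      _ ≤ (2 * (D1 + D2 + D3 + D4 + K) + 2 ^ (2 * (j + 1))) * y := by
          have : 0 ≤ 2 * (D1 + D2 + D3 + D4 + K) * y := by positivity
          linarith
  · set w : ℕ := ⌈Real.exp (PnLq y)⌉₊ with hw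
    have hw1 : Real.exp (PnLq y) ≤ w := Nat.le_ceil _
    have hw2 : (w : ℝ) ≤ 2 * Real.exp (PnLq y) := by
      have h1 := Nat.ceil_lt_add_one (Real.exp_pos (PnLq y)).le
      have h2 := Real.one_le_exp hq0.le
      linarith
    have hw3 : 1 ≤ w := by
      have : (0 : ℝ) < w := lt_of_lt_of_le (Real.exp_pos _) hw1
      exact_mod_cast this
    have t1 := hT1 y hy
    have t2 := PnL_T2 j C hC hA y w hy hw3 hq2.le hw2
    have t3 := hT3 y w hy hq2.le hw1
    rw [← PnL_inter y w (fun d => Lam d - 1)] at t3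
    have t4 := hT4 y hy
    have t5 := PnL_sumA y
    -- the square root
    have t6 : Real.sqrt y ≤ K * y / PnLq y ^ (2 * j) := by
      have h1 := hkey 1 y y le_rfl hy hy1 (by simp)
      have h2 : PnLq 1 = 1 := by simp [PnLq]
      rw [h2, one_pow, mul_one, ← Real.sqrt_eq_rpow] at h1
      rw [le_div_iff₀ hqj]
      have h3 := Real.sqrt_nonneg (y : ℝ)
      calc Real.sqrt y * PnLq y ^ (2 * j) ≤ Real.sqrt y * (K * Real.sqrt y) :=
            mul_le_mul_of_nonneg_left h1 h3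
        _ = K * (Real.sqrt y * Real.sqrt y) := by ring
        _ = K * y := by rw [Real.mul_self_sqrt hy'.le]
    -- splitting
    have e1 : ∑ n ∈ Icc 1 y, lio n * Real.log n
        = ∑ d ∈ Icc 1 y, Lam d * (1 + lio d) * PnLA (y / d)
          - (∑ d ∈ (Icc 1 y).filter (fun d => w < d), (Lam d - 1) * PnLA (y / d)
            + ∑ d ∈ (Icc 1 y).filter (fun d => ¬ w < d), (Lam d - 1) * PnLA (y / d))
          - ∑ d ∈ Icc 1 y, PnLA (y / d) := by
      rw [PnL_log, Finset.sum_filter_add_sum_filter_not, ← Finset.sum_sub_distrib,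
        ← Finset.sum_sub_distrib]
      refine Finset.sum_congr rfl fun d _ => ?_
      ring
    have e2 : PnLA y * Real.log y = ∑ n ∈ Icc 1 y, lio n * (Real.log y - Real.log n)
        + ∑ n ∈ Icc 1 y, lio n * Real.log n := by
      unfold PnLA
      rw [Finset.sum_mul, ← Finset.sum_add_distrib]
      refine Finset.sum_congr rfl fun n _ => ?_
      ring
    set Q : ℝ := y * PnLq y ^ 2 / PnLq y ^ (2 * j) with hQ
    have hq1 : 1 ≤ PnLq y ^ 2 := one_le_pow₀ (PnL_q_one y)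
    have hQ1 : ∀ D : ℝ, 0 < D → D * y / PnLq y ^ (2 * j) ≤ D * Q := by
      intro D hD
      rw [hQ, ← mul_div_assoc]
      apply div_le_div_of_nonneg_right _ hqj.le
      have : (y : ℝ) ≤ y * PnLq y ^ 2 := le_mul_of_one_le_right hy'.le hq1
      calc D * y ≤ D * (y * PnLq y ^ 2) := mul_le_mul_of_nonneg_left this hD.le
        _ = D * (y * PnLq y ^ 2) := rfl
    have t2' : |∑ d ∈ (Icc 1 y).filter (fun d => ¬ w < d), (Lam d - 1) * PnLA (y / d)| ≤ D2 * Q := by
      refine t2.trans (le_of_eq ?_)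
      rw [hQ]; ring
    have hfin : |PnLA y * Real.log y| ≤ (D1 + D2 + D3 + D4 + K) * Q := by
      rw [e2, e1]
      have a1 := abs_le.1 (t1.trans (hQ1 D1 hD1))
      have a2 := abs_le.1 t2'
      have a3 := abs_le.1 (t3.trans (hQ1 D3 hD3))
      have a4 := abs_le.1 (t4.trans (hQ1 D4 hD4))
      have a5 := abs_le.1 (t5.trans (t6.trans (hQ1 K hK)))
      rw [abs_le]
      constructor
      · linarith [a1.1, a2.2, a3.2, a4.1, a5.2]
      · linarith [a1.2, a2.1, a3.1, a4.2, a5.1]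
    have hlog : PnLq y ^ 4 / 2 ≤ Real.log y := by
      have h1 := PnL_q4 y
      have h2 : (2 : ℝ) ^ 4 ≤ PnLq y ^ 4 := pow_le_pow_left₀ (by norm_num) hq2.le 4
      linarith
    have hl0 : 0 ≤ Real.log y := PnL_log_nonneg y
    rw [abs_mul, abs_of_nonneg hl0] at hfin
    have hfin2 : |PnLA y| * (PnLq y ^ 4 / 2) ≤ (D1 + D2 + D3 + D4 + K) * Q :=
      (mul_le_mul_of_nonneg_left hlog (abs_nonneg _)).trans hfin
    have hq4 := pow_pos hq0 4
    have h3 : |PnLA y| ≤ 2 * (D1 + D2 + D3 + D4 + K) * y / PnLq y ^ (2 * (j + 1)) := by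
      rw [le_div_iff₀ hqj1]
      have h4 : |PnLA y| * (PnLq y ^ 4 / 2) * PnLq y ^ (2 * j)
          ≤ (D1 + D2 + D3 + D4 + K) * (y * PnLq y ^ 2) := by
        have h5 := mul_le_mul_of_nonneg_right hfin2 hqj.le
        refine h5.trans (le_of_eq ?_)
        rw [hQ]
        field_simp
      have h6 : PnLq y ^ 4 = PnLq y ^ 2 * PnLq y ^ 2 := by ring
      have h7 : PnLq y ^ (2 * (j + 1)) = PnLq y ^ (2 * j) * PnLq y ^ 2 := by ring
      rw [h7]
      rw [h6] at h4
      have hq2p : 0 < PnLq y ^ 2 := by positivity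
      have h8 : (|PnLA y| * (PnLq y ^ (2 * j) * PnLq y ^ 2)) * PnLq y ^ 2
          ≤ (2 * (D1 + D2 + D3 + D4 + K) * y) * PnLq y ^ 2 := by
        calc (|PnLA y| * (PnLq y ^ (2 * j) * PnLq y ^ 2)) * PnLq y ^ 2
            = 2 * (|PnLA y| * (PnLq y ^ 2 * PnLq y ^ 2 / 2) * PnLq y ^ (2 * j)) := by ring
          _ ≤ 2 * ((D1 + D2 + D3 + D4 + K) * (y * PnLq y ^ 2)) := by linarith
          _ = (2 * (D1 + D2 + D3 + D4 + K) * y) * PnLq y ^ 2 := by ring
      exact le_of_mul_le_mul_right h8 hq2p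
    refine h3.trans ?_
    apply div_le_div_of_nonneg_right _ hqj1.le
    apply mul_le_mul_of_nonneg_right _ hy'.le
    have : (0 : ℝ) < 2 ^ (2 * (j + 1)) := by positivity
    linarith

private theorem PnL_all (j : ℕ) :
    ∃ C : ℝ, 0 < C ∧ ∀ y : ℕ, 1 ≤ y → |PnLA y| ≤ C * y / PnLq y ^ (2 * j) := by
  induction j with
  | zero =>
    refine ⟨1, one_pos, fun y _ => ?_⟩
    simpa using PnL_A_abs y
  | succ j ih => exact PnL_step j ih

theorem pn_l (K : ℕ) : ∃ x0 : ℕ, ∀ x : ℕ, x0 ≤ x → ∀ y : ℕ, y ≤ x →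
    |∑ n ∈ Icc 1 y, lio n| ≤ x / Real.log x ^ K := by
  obtain ⟨C, hC, hA⟩ := PnL_all (2 * (K + 1))
  obtain ⟨D, hD, hkey⟩ := PnL_key (2 * (2 * (K + 1))) (1 / 2) (by norm_num)
  obtain ⟨x0, hx0⟩ := log_ge (max 1 (C * D))
  refine ⟨max 1 x0, fun x hx y hyx => ?_⟩
  have hx1 : 1 ≤ x := (le_max_left _ _).trans hx
  have hL := hx0 x ((le_max_right _ _).trans hx)
  have hL1 : 1 ≤ Real.log x := (le_max_left _ _).trans hL
  have hL2 : C * D ≤ Real.log x := (le_max_right _ _).trans hL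
  have hx' : (0 : ℝ) < x := by exact_mod_cast hx1
  rcases Nat.eq_zero_or_pos y with rfl | hy
  · simp only [Finset.Icc_eq_empty (show ¬ (1 ≤ 0) by norm_num), Finset.sum_empty, abs_zero]
    positivity
  have hy' : (0 : ℝ) < y := by exact_mod_cast hy
  have hyx' : (y : ℝ) ≤ x := by exact_mod_cast hyx
  have h1 := hA y hy
  unfold PnLA at h1
  refine h1.trans ?_
  have h2 := hkey y x (x / y) hy hx1 (by rw [le_div_iff₀ hy']; linarith)
    (by rw [mul_div_cancel₀ _ hy'.ne'])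
  have h3 : ((x : ℝ) / y) ^ (1 / 2 : ℝ) ≤ x / y := by
    have h4 : (1 : ℝ) ≤ x / y := by rw [le_div_iff₀ hy']; linarith
    calc ((x : ℝ) / y) ^ (1 / 2 : ℝ) ≤ ((x : ℝ) / y) ^ (1 : ℝ) :=
          Real.rpow_le_rpow_of_exponent_le h4 (by norm_num)
      _ = x / y := Real.rpow_one _
  have hqy := pow_pos (PnL_q_pos y) (2 * (2 * (K + 1)))
  have hqx := pow_pos (PnL_q_pos x) (2 * (2 * (K + 1)))
  have h5 : PnLq x ^ (2 * (2 * (K + 1))) ≤ D * PnLq y ^ (2 * (2 * (K + 1))) * (x / y) :=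
    h2.trans (mul_le_mul_of_nonneg_left h3 (by positivity))
  have h6 : PnLq x ^ (2 * (2 * (K + 1))) = (1 + Real.log x) ^ (K + 1) := by
    rw [← PnL_q4 x, ← pow_mul]
    congr 1; ring
  have h7 : C * y / PnLq y ^ (2 * (2 * (K + 1))) ≤ C * D * x / PnLq x ^ (2 * (2 * (K + 1))) := by
    rw [div_le_div_iff₀ hqy hqx]
    calc C * y * PnLq x ^ (2 * (2 * (K + 1)))
        ≤ C * y * (D * PnLq y ^ (2 * (2 * (K + 1))) * (x / y)) :=
          mul_le_mul_of_nonneg_left h5 (by positivity)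
      _ = C * D * x * PnLq y ^ (2 * (2 * (K + 1))) := by field_simp
  refine h7.trans ?_
  rw [h6, div_le_div_iff₀ (by positivity) (by positivity)]
  calc C * D * x * Real.log x ^ K ≤ Real.log x * x * Real.log x ^ K := by
        apply mul_le_mul_of_nonneg_right _ (by positivity)
        exact mul_le_mul_of_nonneg_right hL2 hx'.le
    _ = x * Real.log x ^ (K + 1) := by ring
    _ ≤ x * (1 + Real.log x) ^ (K + 1) := by
        apply mul_le_mul_of_nonneg_left _ hx'.le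
        exact pow_le_pow_left₀ (by linarith) (by linarith) _

end Pool.Agent.H76.MU
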