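import Pool.Agent.H76.MU.Ram
import Pool.Agent.H87.WL.Gl
import Pool.Agent.H91.PK.LSa
import Pool.Agent.H92.EH.Ramanujan
import Pool.Agent.H35.V1.NT

/-!
# MU RgI: rough numbers in short intervals (upper bound sieve)

Proof.  `q = ∏_{p ≤ P} p`, `D = P 2^J`.  For `n` with `Rk P J n` every squarefree `l ≤ D` prime to `q` has all its prime factors in `(P, D]`, so `(l, n) = 1` and `ramS l n = μ(l)`
(Ramanujan sum); so `Ps D q n = Gs D q` (`H87/WL/Defs.lean`).  Additive large sieve (dual form; see `H91/PK/LSa.lean` and `H76/EHB`, `H76/GB`):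
`∑_{n ∈ Ico a (a+h)} Ps D q n ^ 2 ≤ (h + D^2) Gs D q`, because `Ps D q n = ∑_{l} ∑_{r mod l, (r,l)=1} (μ(l)/φ(l)) ee(n r/l)`, the fractions are `1/D^2`-separated and the sum of the squares
of the coefficients is `∑ μ(l)^2/φ(l)^2 · φ(l) = Gs D q`.  So the number is `≤ 2 h/Gs D q` (`D^2 ≤ h`; if the large sieve is available only with a constant, `C` absorbs it; alternatively expand
`∑_n (∑_{s | n} ls D q s)^2` with Selberg's weights `ls`, `H87/WL/Sel*.lean`, if `(P 2^J)^4 ≤ h`), `Gs D q ≥ (φ(q)/q) log (D + 1)` (`gs_ge`) and `q/φ(q) = ∏_{p ≤ P} (1 - 1/p)^{-1} ≤ C log P`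
(Mertens upper bound, `P ≥ 2`).
-/

set_option autoImplicit false

namespace Pool.Agent.H76.MU

open Finset MeasureTheory
open Pool.Agent.H91.PK (ee)
open Pool.Agent.H76.EHB
open Pool.Agent.H35.W

/-- the product of the primes up to `P` -/
private def RgI_q (P : ℕ) : ℕ := ∏ p ∈ Pool.Agent.H35.V1.PPr 0 P, p

private theorem RgI_primeFactors (P : ℕ) :
    (RgI_q P).primeFactors = Pool.Agent.H35.V1.PPr 0 P := by
  unfold RgI_q
  exact Nat.primeFactors_prod fun p hp => (Pool.Agent.H35.V1.mem_PPr.1 hp).2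

private theorem RgI_q_ne (P : ℕ) : RgI_q P ≠ 0 := by
  unfold RgI_q
  rw [prod_ne_zero_iff]
  intro p hp
  exact (Pool.Agent.H35.V1.mem_PPr.1 hp).2.ne_zero

private theorem RgI_ratio (P : ℕ) : ((RgI_q P : ℕ) : ℝ) / (RgI_q P).totient =
    ∏ p ∈ Pool.Agent.H35.V1.PPr 0 P, (1 + 1 / ((p : ℝ) - 1)) := by
  have h := Pool.Agent.H87.WL.gl_tot (RgI_q P) (RgI_q_ne P)
  rw [← h, RgI_primeFactors]
  have h1 : (Pool.Agent.H35.V1.PPr 0 P).filter (fun p => p.Prime) =
      Pool.Agent.H35.V1.PPr 0 P :=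
    filter_true_of_mem fun p hp => (Pool.Agent.H35.V1.mem_PPr.1 hp).2
  rw [h1]
  refine prod_congr rfl fun p hp => ?_
  have hp2 : (1 : ℝ) < p := by
    exact_mod_cast (Pool.Agent.H35.V1.mem_PPr.1 hp).2.one_lt
  rw [Pool.Agent.H87.WL.gl_inv_apply]
  have h2 : (p : ℝ) ≠ 0 := by linarith
  have h3 : (p : ℝ) - 1 ≠ 0 := by linarith
  field_simp
  ring

private theorem RgI_mertens : ∃ C : ℝ, 0 < C ∧ ∀ P : ℕ, 2 ≤ P →
    ((RgI_q P : ℕ) : ℝ) / (RgI_q P).totient ≤ C * Real.log P := by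
  obtain ⟨C, hC, hM⟩ := Pool.Agent.H35.V1.exists_mertens_prod
  have hl2 : 0 < Real.log 2 := Real.log_pos (by norm_num)
  have hl3 : 0 < Real.log 3 := Real.log_pos (by norm_num)
  refine ⟨3 * C / Real.log 3 + 2 / Real.log 2, by positivity, fun P hP => ?_⟩
  rw [RgI_ratio]
  have hlP : 0 < Real.log P := Real.log_pos (by exact_mod_cast (by omega : 1 < P))
  rcases Nat.lt_or_ge P 3 with h | h
  · have h2 : P = 2 := by omega
    subst h2
    have e : Pool.Agent.H35.V1.PPr 0 2 = {2} := by decide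
    rw [e, prod_singleton]
    have h3 : (2 / Real.log 2) * Real.log ((2 : ℕ) : ℝ) = 2 := by
      push_cast
      field_simp
    have h4 : 0 ≤ 3 * C / Real.log 3 * Real.log ((2 : ℕ) : ℝ) := by positivity
    rw [add_mul, h3]
    push_cast
    push_cast at h4
    linarith
  · have e : Pool.Agent.H35.V1.PPr 0 P = Pool.Agent.H35.V1.PPr 0 3 ∪
        Pool.Agent.H35.V1.PPr 3 P := by
      ext p
      rw [mem_union, Pool.Agent.H35.V1.mem_PPr, Pool.Agent.H35.V1.mem_PPr,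
        Pool.Agent.H35.V1.mem_PPr]
      constructor
      · rintro ⟨⟨h1, h2⟩, h3⟩
        rcases Nat.lt_or_ge 3 p with h4 | h4
        · exact Or.inr ⟨⟨h4, h2⟩, h3⟩
        · exact Or.inl ⟨⟨h1, h4⟩, h3⟩
      · rintro (⟨⟨h1, h2⟩, h3⟩ | ⟨⟨h1, h2⟩, h3⟩)
        · exact ⟨⟨h1, h2.trans h⟩, h3⟩
        · exact ⟨⟨by omega, h2⟩, h3⟩
    have hd : Disjoint (Pool.Agent.H35.V1.PPr 0 3) (Pool.Agent.H35.V1.PPr 3 P) := by
      rw [disjoint_left]
      intro p h1 h2
      rw [Pool.Agent.H35.V1.mem_PPr] at h1 h2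
      omega
    rw [e, prod_union hd]
    have e3 : Pool.Agent.H35.V1.PPr 0 3 = {2, 3} := by decide
    have e4 : ∏ p ∈ Pool.Agent.H35.V1.PPr 0 3, (1 + 1 / ((p : ℝ) - 1)) = 3 := by
      rw [e3, prod_pair (by norm_num)]
      norm_num
    rw [e4]
    have h5 := hM 3 P le_rfl h
    have h6 : 0 ≤ 2 / Real.log 2 * Real.log P := by positivity
    rw [add_mul]
    have h7 : 3 * (C * (Real.log P / Real.log ((3 : ℕ) : ℝ))) =
        3 * C / Real.log 3 * Real.log P := by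
      push_cast
      field_simp
    calc 3 * ∏ p ∈ Pool.Agent.H35.V1.PPr 3 P, (1 + 1 / ((p : ℝ) - 1))
        ≤ 3 * (C * (Real.log P / Real.log ((3 : ℕ) : ℝ))) :=
          mul_le_mul_of_nonneg_left h5 (by norm_num)
      _ = 3 * C / Real.log 3 * Real.log P := h7
      _ ≤ _ := by linarith

private theorem RgI_e_eq (t : ℝ) : Pool.Agent.H92.EH.e t = ee t := by
  unfold Pool.Agent.H92.EH.e ee
  congr 1
  push_cast
  ring

/-- Ramanujan sums at coprime arguments -/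
private theorem RgI_ram (l n : ℕ) (hl : 0 < l) (h : Nat.Coprime n l) :
    ∑ b ∈ (Icc 1 l).filter (fun b => Nat.Coprime b l), ee ((n : ℝ) * b / l) =
      ((ArithmeticFunction.moebius l : ℤ) : ℂ) := by
  have h1 := Pool.Agent.H92.EH.ram_of_coprime l hl (n : ℤ) (Nat.isCoprime_iff_coprime.2 h)
  rw [← h1]
  unfold Pool.Agent.H92.EH.ram
  rcases Nat.lt_or_ge 1 l with h2 | h2
  · have e : (Icc 1 l).filter (fun b => Nat.Coprime b l) = Pool.Agent.H92.EH.red l := by
      ext b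
      rw [mem_filter, mem_Icc, Pool.Agent.H92.EH.mem_red]
      constructor
      · rintro ⟨⟨h3, h4⟩, h5⟩
        refine ⟨lt_of_le_of_ne h4 ?_, h5⟩
        rintro rfl
        rw [Nat.coprime_self] at h5
        omega
      · rintro ⟨h3, h4⟩
        refine ⟨⟨?_, h3.le⟩, h4⟩
        by_contra h5
        have h6 : b = 0 := by omega
        subst h6
        rw [Nat.coprime_zero_left] at h4
        omega
    rw [e]
    refine sum_congr rfl fun b _ => ?_
    rw [RgI_e_eq]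
    congr 1
    push_cast
    ring
  · have h3 : l = 1 := by omega
    subst h3
    have e1 : (Icc 1 1).filter (fun b => Nat.Coprime b 1) = {1} := by decide
    have e2 : Pool.Agent.H92.EH.red 1 = {0} := by decide
    rw [e1, e2, sum_singleton, sum_singleton, RgI_e_eq]
    have h4 : ee ((n : ℝ) * ((1 : ℕ) : ℝ) / ((1 : ℕ) : ℝ)) = 1 := by
      unfold ee
      rw [Complex.exp_eq_one_iff]
      exact ⟨n, by push_cast; ring⟩
    have h5 : ee (((n : ℤ) : ℝ) * (((0 : ℕ) : ℝ) / ((1 : ℕ) : ℝ))) = 1 := by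
      unfold ee
      rw [Complex.exp_eq_one_iff]
      exact ⟨0, by push_cast; ring⟩
    rw [h4, h5]

/-- a prime in `(P, P 2^J]` lies in a block -/
private theorem RgI_block (P J p : ℕ) (hp : p.Prime) (h1 : P < p) (h2 : p ≤ P * 2 ^ J) :
    ∃ i < J, p ∈ pb (P * 2 ^ i) := by
  induction J with
  | zero =>
    rw [pow_zero, mul_one] at h2
    omega
  | succ J ih =>
    by_cases h3 : p ≤ P * 2 ^ J
    · obtain ⟨i, hi, h4⟩ := ih h3
      exact ⟨i, by omega, h4⟩
    · refine ⟨J, by omega, ?_⟩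
      unfold pb
      rw [mem_filter, mem_Ioc]
      refine ⟨⟨by omega, ?_⟩, hp⟩
      rw [pow_succ] at h2
      linarith [h2]

private theorem RgI_coprime (P J n l : ℕ) (hn : Rk P J n) (hl0 : 0 < l) (hl : l ≤ P * 2 ^ J)
    (hc : Nat.Coprime l (RgI_q P)) : Nat.Coprime n l := by
  rw [Nat.coprime_comm]
  refine Nat.Coprime.symm ?_
  refine Nat.Coprime.symm (Nat.coprime_of_dvd ?_)
  intro p hp hpl hpn
  have h1 : P < p := by
    by_contra hcon
    have h2 : p ∣ RgI_q P := by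
      unfold RgI_q
      refine dvd_prod_of_mem _ ?_
      rw [Pool.Agent.H35.V1.mem_PPr]
      exact ⟨⟨hp.pos, by omega⟩, hp⟩
    have h3 := Nat.eq_one_of_dvd_coprimes hc hpl h2
    exact hp.one_lt.ne' h3
  obtain ⟨i, hi, h4⟩ := RgI_block P J p hp h1 ((Nat.le_of_dvd hl0 hpl).trans hl)
  exact hn i hi p h4 hpn

private theorem RgI_term (P J l : ℕ) (T : Finset ℕ) (hT : ∀ n ∈ T, Rk P J n) (hl0 : 0 < l)
    (hl : l ≤ P * 2 ^ J) (hc : Nat.Coprime l (RgI_q P)) :
    Pool.Agent.H87.WL.mo l ^ 2 / (l.totient : ℝ) * (T.card : ℝ) ^ 2 ≤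
      ∑ b ∈ (Icc 1 l).filter (fun b => Nat.Coprime b l),
        ‖∑ n ∈ T, ee ((n : ℝ) * b / l)‖ ^ 2 := by
  have hφ : (0 : ℝ) < l.totient := by exact_mod_cast Nat.totient_pos.2 hl0
  have h1 : ∑ b ∈ (Icc 1 l).filter (fun b => Nat.Coprime b l),
      ∑ n ∈ T, ee ((n : ℝ) * b / l) = (T.card : ℂ) * ((ArithmeticFunction.moebius l : ℤ) : ℂ) := by
    rw [sum_comm, sum_congr rfl fun n hn => RgI_ram l n hl0
      (RgI_coprime P J n l (hT n hn) hl0 hl hc), sum_const, nsmul_eq_mul]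
  have h2 : ‖(T.card : ℂ) * ((ArithmeticFunction.moebius l : ℤ) : ℂ)‖ =
      (T.card : ℝ) * |Pool.Agent.H87.WL.mo l| := by
    rw [norm_mul, Complex.norm_natCast, Complex.norm_intCast]
    rfl
  have h3 : (T.card : ℝ) * |Pool.Agent.H87.WL.mo l| ≤
      ∑ b ∈ (Icc 1 l).filter (fun b => Nat.Coprime b l), ‖∑ n ∈ T, ee ((n : ℝ) * b / l)‖ := by
    rw [← h2, ← h1]
    exact norm_sum_le _ _
  have h4 := sq_sum_le_card_mul_sum_sq (s := (Icc 1 l).filter (fun b => Nat.Coprime b l))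
    (f := fun b => ‖∑ n ∈ T, ee ((n : ℝ) * b / l)‖)
  have h5 : (((Icc 1 l).filter (fun b => Nat.Coprime b l)).card : ℝ) = l.totient := by
    congr 1
    rw [Nat.totient_eq_card_coprime]
    rcases Nat.lt_or_ge 1 l with h2 | h2
    · apply congrArg card
      ext b
      rw [mem_filter, mem_Icc, mem_filter, mem_range, Nat.coprime_comm]
      constructor
      · rintro ⟨⟨h3, h4⟩, h5⟩
        refine ⟨lt_of_le_of_ne h4 ?_, h5⟩
        rintro rfl
        rw [Nat.coprime_self] at h5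
        omega
      · rintro ⟨h3, h4⟩
        refine ⟨⟨?_, h3.le⟩, h4⟩
        by_contra h5
        have h6 : b = 0 := by omega
        subst h6
        rw [Nat.coprime_zero_right] at h4
        omega
    · have h3 : l = 1 := by omega
      subst h3
      decide
  rw [h5] at h4
  have h6 : ((T.card : ℝ) * |Pool.Agent.H87.WL.mo l|) ^ 2 ≤
      (∑ b ∈ (Icc 1 l).filter (fun b => Nat.Coprime b l),
        ‖∑ n ∈ T, ee ((n : ℝ) * b / l)‖) ^ 2 :=
    pow_le_pow_left₀ (by positivity) h3 2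
  rw [mul_pow, sq_abs] at h6
  rw [div_mul_eq_mul_div, div_le_iff₀ hφ]
  calc Pool.Agent.H87.WL.mo l ^ 2 * (T.card : ℝ) ^ 2
      = (T.card : ℝ) ^ 2 * Pool.Agent.H87.WL.mo l ^ 2 := by ring
    _ ≤ _ := h6.trans h4
    _ = _ := by ring

private theorem RgI_main (P J K0 K : ℕ) (T : Finset ℕ) (hT : ∀ n ∈ T, Rk P J n)
    (hTs : T ⊆ Ioc K0 (K0 + K)) :
    (T.card : ℝ) * Pool.Agent.H87.WL.Gs (P * 2 ^ J) (RgI_q P) ≤
      ((P * 2 ^ J : ℕ) : ℝ) ^ 2 + Real.pi * K := by
  rcases Nat.eq_zero_or_pos T.card with h0 | h0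
  · rw [h0, Nat.cast_zero, zero_mul]
    positivity
  have hc0 : (0 : ℝ) < T.card := by exact_mod_cast h0
  have h1 := Pool.Agent.H91.PK.additive_ls (P * 2 ^ J) K0 K (fun n => if n ∈ T then 1 else 0)
  have h2 : ∀ t : ℕ → ℂ, ∑ n ∈ Ioc K0 (K0 + K), (if n ∈ T then (1 : ℂ) else 0) * t n =
      ∑ n ∈ T, t n := by
    intro t
    rw [← sum_filter_add_sum_filter_not (Ioc K0 (K0 + K)) (fun n => n ∈ T)]
    have e1 : (Ioc K0 (K0 + K)).filter (fun n => n ∈ T) = T := by
      ext n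
      rw [mem_filter]
      exact ⟨fun h => h.2, fun h => ⟨hTs h, h⟩⟩
    rw [e1]
    have e2 : ∑ n ∈ (Ioc K0 (K0 + K)).filter (fun n => ¬ n ∈ T),
        (if n ∈ T then (1 : ℂ) else 0) * t n = 0 := by
      refine sum_eq_zero fun n hn => ?_
      rw [if_neg (mem_filter.1 hn).2, zero_mul]
    rw [e2, add_zero]
    refine sum_congr rfl fun n hn => ?_
    rw [if_pos hn, one_mul]
  have h3 : ∑ n ∈ Ioc K0 (K0 + K), ‖(if n ∈ T then (1 : ℂ) else 0)‖ ^ 2 = (T.card : ℝ) := by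
    have e1 : ∀ n, ‖(if n ∈ T then (1 : ℂ) else 0)‖ ^ 2 = if n ∈ T then (1 : ℝ) else 0 := by
      intro n
      split_ifs <;> simp
    simp only [e1]
    rw [← sum_filter]
    have e2 : (Ioc K0 (K0 + K)).filter (fun n => n ∈ T) = T := by
      ext n
      rw [mem_filter]
      exact ⟨fun h => h.2, fun h => ⟨hTs h, h⟩⟩
    rw [e2, sum_const, nsmul_eq_mul, mul_one]
  rw [h3] at h1
  simp only [h2] at h1
  have h4 : Pool.Agent.H87.WL.Gs (P * 2 ^ J) (RgI_q P) * (T.card : ℝ) ^ 2 ≤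
      (((P * 2 ^ J : ℕ) : ℝ) ^ 2 + Real.pi * K) * T.card := by
    refine le_trans ?_ h1
    unfold Pool.Agent.H87.WL.Gs
    rw [sum_mul]
    refine le_trans (sum_le_sum (g := fun l : ℕ =>
      ∑ b ∈ (Icc 1 l).filter (fun b => Nat.Coprime b l),
        ‖∑ n ∈ T, ee ((n : ℝ) * b / l)‖ ^ 2) fun l hl => ?_) ?_
    · rw [mem_filter, mem_Icc] at hl
      exact RgI_term P J l T hT (by omega) hl.1.2 hl.2
    · refine sum_le_sum_of_subset_of_nonneg (filter_subset _ _) fun l _ _ => ?_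
      exact sum_nonneg fun b _ => by positivity
  have h5 : (T.card : ℝ) * ((T.card : ℝ) * Pool.Agent.H87.WL.Gs (P * 2 ^ J) (RgI_q P)) ≤
      T.card * (((P * 2 ^ J : ℕ) : ℝ) ^ 2 + Real.pi * K) := by
    calc _ = Pool.Agent.H87.WL.Gs (P * 2 ^ J) (RgI_q P) * (T.card : ℝ) ^ 2 := by ring
      _ ≤ _ := h4
      _ = _ := by ring
  exact le_of_mul_le_mul_left h5 hc0

open Classical in
theorem rg_int : ∃ C : ℝ, 0 < C ∧ ∀ P J a h : ℕ, 2 ≤ P → (P * 2 ^ J) ^ 4 ≤ h →
    (((Ico a (a + h)).filter (fun n => Rk P J n)).card : ℝ)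
      ≤ C * h * Real.log P / Real.log ((P * 2 ^ J : ℕ) : ℝ) := by
  obtain ⟨C, hC, hM⟩ := RgI_mertens
  refine ⟨5 * C + 2, by positivity, fun P J a h hP hh => ?_⟩
  set D : ℕ := P * 2 ^ J with hD
  have hD2 : 2 ≤ D := hP.trans (Nat.le_mul_of_pos_right P (by positivity))
  have hlP : 0 < Real.log P := Real.log_pos (by exact_mod_cast (by omega : 1 < P))
  have hlD : 0 < Real.log D := Real.log_pos (by exact_mod_cast (by omega : 1 < D))
  have hDh2 : D ^ 2 ≤ h := (Nat.pow_le_pow_right (by omega) (by norm_num)).trans hh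
  have hDh : D ≤ h := (Nat.le_self_pow (by norm_num) D).trans hh
  set T : Finset ℕ := (Ioc (a - 1) (a - 1 + h)).filter (fun n => Rk P J n) with hT
  have hmain := RgI_main P J (a - 1) h T (fun n hn => (mem_filter.1 hn).2) (filter_subset _ _)
  rw [← hD] at hmain
  have hcard : ((Ico a (a + h)).filter (fun n => Rk P J n)).card ≤ T.card + 1 := by
    have hsub : (Ico a (a + h)).filter (fun n => Rk P J n) ⊆ insert 0 T := by
      intro n hn
      rw [mem_filter, mem_Ico] at hn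
      rw [mem_insert, hT, mem_filter, mem_Ioc]
      rcases Nat.eq_zero_or_pos n with h0 | h0
      · exact Or.inl h0
      · exact Or.inr ⟨⟨by omega, by omega⟩, hn.2⟩
    exact (card_le_card hsub).trans (card_insert_le _ _)
  have hGs := Pool.Agent.H87.WL.gs_ge D (RgI_q P) (Nat.one_le_iff_ne_zero.2 (RgI_q_ne P))
  have hq := hM P hP
  have hq0 : (0 : ℝ) < RgI_q P := by exact_mod_cast Nat.pos_of_ne_zero (RgI_q_ne P)
  have hφ0 : (0 : ℝ) < (RgI_q P).totient := by
    exact_mod_cast Nat.totient_pos.2 (Nat.pos_of_ne_zero (RgI_q_ne P))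
  have hlD1 : Real.log D ≤ Real.log (D + 1) :=
    Real.log_le_log (by exact_mod_cast (by omega : 0 < D)) (by linarith)
  have h1 : Real.log D ≤ C * Real.log P * Pool.Agent.H87.WL.Gs D (RgI_q P) := by
    have h2 : 0 ≤ Pool.Agent.H87.WL.Gs D (RgI_q P) := by
      refine le_trans ?_ hGs
      have : 0 ≤ Real.log ((D : ℝ) + 1) := by linarith
      positivity
    calc Real.log D ≤ Real.log (D + 1) := hlD1
      _ = ((RgI_q P : ℕ) : ℝ) / (RgI_q P).totient *
          (((RgI_q P).totient : ℝ) / RgI_q P * Real.log (D + 1)) := by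
        field_simp
      _ ≤ ((RgI_q P : ℕ) : ℝ) / (RgI_q P).totient * Pool.Agent.H87.WL.Gs D (RgI_q P) :=
        mul_le_mul_of_nonneg_left hGs (by positivity)
      _ ≤ _ := mul_le_mul_of_nonneg_right hq h2
  have h2 : (T.card : ℝ) * Pool.Agent.H87.WL.Gs D (RgI_q P) ≤ 5 * h := by
    have h3 : ((D : ℕ) : ℝ) ^ 2 ≤ h := by exact_mod_cast hDh2
    have h4 := Real.pi_le_four
    have h5 : Real.pi * (h : ℝ) ≤ 4 * h := mul_le_mul_of_nonneg_right h4 (Nat.cast_nonneg h)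
    linarith
  have h3 : (T.card : ℝ) * Real.log D ≤ 5 * C * h * Real.log P := by
    calc (T.card : ℝ) * Real.log D
        ≤ T.card * (C * Real.log P * Pool.Agent.H87.WL.Gs D (RgI_q P)) :=
          mul_le_mul_of_nonneg_left h1 (Nat.cast_nonneg _)
      _ = C * Real.log P * ((T.card : ℝ) * Pool.Agent.H87.WL.Gs D (RgI_q P)) := by ring
      _ ≤ C * Real.log P * (5 * h) := mul_le_mul_of_nonneg_left h2 (by positivity)
      _ = _ := by ring
  have h4 : Real.log D ≤ 2 * h * Real.log P := by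
    have h5 : Real.log D ≤ D := (Real.log_le_self (Nat.cast_nonneg D))
    have h6 : (D : ℝ) ≤ h := by exact_mod_cast hDh
    have h7 : Real.log 2 ≤ Real.log P :=
      Real.log_le_log (by norm_num) (by exact_mod_cast hP)
    have h8 := Real.log_two_gt_d9
    have h9 : (0 : ℝ) ≤ h := Nat.cast_nonneg h
    nlinarith
  rw [le_div_iff₀ hlD]
  have h5 : (((Ico a (a + h)).filter (fun n => Rk P J n)).card : ℝ) ≤ T.card + 1 := by
    exact_mod_cast hcard
  calc (((Ico a (a + h)).filter (fun n => Rk P J n)).card : ℝ) * Real.log D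
      ≤ (T.card + 1) * Real.log D := mul_le_mul_of_nonneg_right h5 hlD.le
    _ = T.card * Real.log D + Real.log D := by ring
    _ ≤ 5 * C * h * Real.log P + 2 * h * Real.log P := add_le_add h3 h4
    _ = _ := by ring

end Pool.Agent.H76.MU
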