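import Pool.Agent.H76.MU.Defs

/-!
# MU SqW: multiples of squares of large primes in short windows

Proof (part of `VarE.lean`, by helper56: copy).  `b(j)` = number of `n ∈ Ico (j - w) j` divisible by `p^2` for a prime `p > P`; `0 ≤ b(j) ≤ w`, so `b^2 ≤ w b`, and
`∑_j b(j) ≤ w · #{n ∈ Icc 1 (2X) : ∃ p > P prime, p^2 | n} ≤ w ∑_{p > P} 2X/p^2 ≤ 2 X w/P` (each `n` lies in at most `w` windows; `w ≤ X < j`, so `n ≥ 1`).
-/

set_option autoImplicit false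

namespace Pool.Agent.H76.MU

open Finset

open Classical in
private noncomputable def SqW_s (P n : ℕ) : ℝ :=
  if ∃ p, P < p ∧ p.Prime ∧ p ^ 2 ∣ n then 1 else 0

private theorem SqW_s_nonneg (P n : ℕ) : 0 ≤ SqW_s P n := by
  unfold SqW_s
  split_ifs <;> norm_num

private theorem SqW_s_le (P n : ℕ) : SqW_s P n ≤ 1 := by
  unfold SqW_s
  split_ifs <;> norm_num

private theorem SqW_count (P N : ℕ) (hP : 1 ≤ P) :
    ∑ n ∈ Icc 1 N, SqW_s P n ≤ (N : ℝ) / P := by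
  classical
  by_cases hN : P ≤ N
  · have h1 : ∑ n ∈ Icc 1 N, SqW_s P n
        ≤ ∑ n ∈ Icc 1 N, ∑ k ∈ Ioc P N, (if k ^ 2 ∣ n then (1 : ℝ) else 0) := by
      refine Finset.sum_le_sum fun n hn => ?_
      have hn1 := Finset.mem_Icc.1 hn
      by_cases hs : ∃ p, P < p ∧ p.Prime ∧ p ^ 2 ∣ n
      · obtain ⟨p, hp1, hp2, hp3⟩ := hs
        have hpN : p ≤ N := by
          have h3 : p ^ 2 ≤ n := Nat.le_of_dvd (by omega) hp3
          have h4 : p ≤ p ^ 2 := by nlinarith [hp2.pos]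
          omega
        have h5 : (if p ^ 2 ∣ n then (1 : ℝ) else 0)
            ≤ ∑ k ∈ Ioc P N, (if k ^ 2 ∣ n then (1 : ℝ) else 0) := by
          refine Finset.single_le_sum (f := fun k : ℕ => (if k ^ 2 ∣ n then (1 : ℝ) else 0))
            (fun k _ => ?_) (Finset.mem_Ioc.2 ⟨hp1, hpN⟩)
          split_ifs <;> norm_num
        rw [if_pos hp3] at h5
        exact (SqW_s_le P n).trans h5
      · have h6 : SqW_s P n = 0 := by
          unfold SqW_s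
          rw [if_neg hs]
        rw [h6]
        refine Finset.sum_nonneg fun k _ => ?_
        split_ifs <;> norm_num
    refine h1.trans ?_
    rw [Finset.sum_comm]
    have h2 : ∀ k ∈ Ioc P N, ∑ n ∈ Icc 1 N, (if k ^ 2 ∣ n then (1 : ℝ) else 0)
        ≤ (N : ℝ) * ((k : ℝ) ^ 2)⁻¹ := by
      intro k hk
      have hk1 := Finset.mem_Ioc.1 hk
      rw [Finset.sum_ite, Finset.sum_const_zero, add_zero, Finset.sum_const, nsmul_eq_mul, mul_one]
      have h3 : ((Icc 1 N).filter (fun n => k ^ 2 ∣ n)).card = N / k ^ 2 := by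
        have := Nat.Ioc_filter_dvd_card_eq_div N (k ^ 2)
        rw [← this]
        rfl
      rw [h3]
      have h4 : ((N / k ^ 2 : ℕ) : ℝ) ≤ (N : ℝ) / ((k ^ 2 : ℕ) : ℝ) := Nat.cast_div_le
      rw [Nat.cast_pow] at h4
      rw [div_eq_mul_inv] at h4
      exact h4
    refine (Finset.sum_le_sum h2).trans ?_
    rw [← Finset.mul_sum]
    have h3 : ∑ k ∈ Ioc P N, ((k : ℝ) ^ 2)⁻¹ ≤ (P : ℝ)⁻¹ - (N : ℝ)⁻¹ :=
      sum_Ioc_inv_sq_le_sub (by omega) hN
    have h4 : (0 : ℝ) ≤ (N : ℝ)⁻¹ := by positivity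
    have h5 : ∑ k ∈ Ioc P N, ((k : ℝ) ^ 2)⁻¹ ≤ (P : ℝ)⁻¹ := by linarith
    calc (N : ℝ) * ∑ k ∈ Ioc P N, ((k : ℝ) ^ 2)⁻¹ ≤ (N : ℝ) * (P : ℝ)⁻¹ :=
          mul_le_mul_of_nonneg_left h5 (Nat.cast_nonneg _)
      _ = (N : ℝ) / P := (div_eq_mul_inv _ _).symm
  · have h1 : ∑ n ∈ Icc 1 N, SqW_s P n = 0 := by
      refine Finset.sum_eq_zero fun n hn => ?_
      have hn1 := Finset.mem_Icc.1 hn
      unfold SqW_s
      rw [if_neg]
      rintro ⟨p, hp1, hp2, hp3⟩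
      have h3 : p ^ 2 ≤ n := Nat.le_of_dvd (by omega) hp3
      have h4 : p ≤ p ^ 2 := by nlinarith [hp2.pos]
      omega
    rw [h1]
    positivity

open Classical in
private theorem SqW_card (P : ℕ) (S : Finset ℕ) :
    ∑ n ∈ S, SqW_s P n =
      ((S.filter (fun n => ∃ p, P < p ∧ p.Prime ∧ p ^ 2 ∣ n)).card : ℝ) := by
  unfold SqW_s
  rw [Finset.sum_ite, Finset.sum_const_zero, add_zero, Finset.sum_const, nsmul_eq_mul, mul_one]

private theorem SqW_windows (P h X : ℕ) (hX : h ≤ X) :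
    ∑ j ∈ Ioc X (2 * X), ∑ n ∈ Ico (j - h) j, SqW_s P n ≤
      (h : ℝ) * ∑ n ∈ Icc 1 (2 * X), SqW_s P n := by
  classical
  have h1 : ∀ j ∈ Ioc X (2 * X), ∑ n ∈ Ico (j - h) j, SqW_s P n
      = ∑ n ∈ Icc 1 (2 * X), (if n ∈ Ico (j - h) j then SqW_s P n else 0) := by
    intro j hj
    have hj1 := Finset.mem_Ioc.1 hj
    rw [← Finset.sum_filter]
    refine Finset.sum_congr ?_ (fun _ _ => rfl)
    ext n
    simp only [Finset.mem_filter, Finset.mem_Ico, Finset.mem_Icc]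
    omega
  rw [Finset.sum_congr rfl h1, Finset.sum_comm, Finset.mul_sum]
  refine Finset.sum_le_sum fun n hn => ?_
  rw [← Finset.sum_filter, Finset.sum_const, nsmul_eq_mul]
  refine mul_le_mul_of_nonneg_right ?_ (SqW_s_nonneg P n)
  have h2 : (Ioc X (2 * X)).filter (fun j => n ∈ Ico (j - h) j) ⊆ Ioc n (n + h) := by
    intro j hj
    simp only [Finset.mem_filter, Finset.mem_Ico, Finset.mem_Ioc] at hj ⊢
    omega
  have h3 := Finset.card_le_card h2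
  rw [Nat.card_Ioc] at h3
  have h4 : ((Ioc X (2 * X)).filter (fun j => n ∈ Ico (j - h) j)).card ≤ h := by omega
  exact_mod_cast h4

open Classical in
theorem sq_win (P w X : ℕ) (hP : 1 ≤ P) (hw : w ≤ X) :
    ∑ j ∈ Ioc X (2 * X), (((Ico (j - w) j).filter (fun n => ∃ p, P < p ∧ p.Prime ∧ p ^ 2 ∣ n)).card : ℝ) ^ 2
      ≤ 2 * X * (w : ℝ) ^ 2 / P := by
  have hsq : ∀ j ∈ Ioc X (2 * X), (((Ico (j - w) j).filter
      (fun n => ∃ p, P < p ∧ p.Prime ∧ p ^ 2 ∣ n)).card : ℝ) ^ 2 ≤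
      (w : ℝ) * ∑ n ∈ Ico (j - w) j, SqW_s P n := by
    intro j hj
    have hj1 := Finset.mem_Ioc.1 hj
    have h1 : (((Ico (j - w) j).filter
      (fun n => ∃ p, P < p ∧ p.Prime ∧ p ^ 2 ∣ n)).card : ℝ) =
        ∑ n ∈ Ico (j - w) j, SqW_s P n := (SqW_card P _).symm
    rw [h1, pow_two]
    refine mul_le_mul_of_nonneg_right ?_ (Finset.sum_nonneg fun n _ => SqW_s_nonneg P n)
    refine (Finset.sum_le_sum (fun n _ => SqW_s_le P n)).trans ?_
    rw [Finset.sum_const, Nat.card_Ico, nsmul_eq_mul, mul_one]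
    have : j - (j - w) = w := by omega
    rw [this]
  refine (Finset.sum_le_sum hsq).trans ?_
  rw [← Finset.mul_sum]
  have b1 := SqW_windows P w X hw
  have b2 := SqW_count P (2 * X) hP
  have hw0 : (0 : ℝ) ≤ w := Nat.cast_nonneg _
  calc (w : ℝ) * ∑ j ∈ Ioc X (2 * X), ∑ n ∈ Ico (j - w) j, SqW_s P n
      ≤ (w : ℝ) * ((w : ℝ) * (((2 * X : ℕ) : ℝ) / P)) :=
        mul_le_mul_of_nonneg_left (b1.trans (mul_le_mul_of_nonneg_left b2 hw0)) hw0
    _ = 2 * X * (w : ℝ) ^ 2 / P := by push_cast; ring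

end Pool.Agent.H76.MU
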