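import Pool.Agent.H76.MU.VarDA
import Pool.Agent.H76.MU.RgI
import Pool.Agent.H76.MU.SqW
import Pool.Agent.H76.MU.PnL

/-!
# MU ExL: the Liouville function in almost all short windows, small exceptional set

Adapt `VarL.lean` (helper36).  `L = log X`.  Given `A`: `b, κ` from `var_da (A + 6)`, `b := max b (A + 8)` (keep the hypothesis `L^b ≤ P0`), `P0 = ⌈L^b⌉₊` (`log P0 ≤ 2 b log L`),
`J` maximal with `(P0 2^J)^10 ≤ h` (exists as `h ≥ L^c`, `c = 10 b + 20`), so `log (P0 2^J) ≥ (log h)/10 - log 2 ≥ (log h)/20`, `J ≤ log h ≤ L`; `h' = ⌊X/L^κ⌋₊`.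
If `h ≥ h'`: `Uw lio h j = ∑_{n ≤ j-1} lio - ∑_{n ≤ j-h-1} lio` (`h ≤ X < j`), by `pn_l (κ + 2)` at `x = 2X` it is `≤ 4 X/L^{κ+2} ≤ 8 h/L^2` for large `X`: no exception (`1/L ≤ log L/log h`).
If `h < h'`: for `w = h, h'` write on the window `lio = e - ∑_{i<J} G_i`, `e n = lio n + ∑_{i<J} gP (gl 1 P0 J) (P0 2^i) n`, `|e n| ≤ er P0 J n` (`ram`; the windows do not contain `0`):
`Uw lio h j/h = Uw lio h' j/h' + Uw e h j/h - Uw e h' j/h' - ∑_{i<J} D_i(j)`, `D_i(j) = Uw G_i h j/h - Uw G_i h' j/h'`.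
`|Uw lio h' j/h'| ≤ 4 X/(L^{κ+2} h') ≤ 8/L^2` (`pn_l (κ+2)`).  `|Uw e w j|/w ≤ C0 log P0/log (P0 2^J) + s_w(j)/w` (`rg_int`; `Ico (j - w) j = Ico a (a + w)`), `s_w(j)` as in `SqW`.
Exceptions: `s_w(j) > w/L` for `w = h` or `h'`: at most `L^2 · 2X/P0 ≤ 2 X/L^{A+6}` each (`sq_win`, Chebyshev); `|∑_i D_i(j)| > 1/L`: at most `L^2 · J^2 X/L^{A+6} ≤ X/L^{A+2}` (`var_da`,
`(∑_{i<J} D_i)^2 ≤ J ∑ D_i^2`).  For all other `j`: `|Uw lio h j|/h ≤ 8/L^2 + 2 C0 · 2 b log L · 20/log h + 3/L ≤ (80 b C0 + 11) log L/log h` (`log h ≤ L`, `log L ≥ 1`).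
-/

set_option autoImplicit false

namespace Pool.Agent.H76.MU

open Finset MeasureTheory
open Pool.Agent.H91.PK (ee)
open Pool.Agent.H76.EHB
open Pool.Agent.H35.W

open Classical in
/-- the windows of `f` are small outside a small exceptional set -/
def ExB (f : ℕ → ℝ) : Prop := ∀ A : ℕ, ∃ C : ℝ, ∃ c x0 : ℕ, 0 < C ∧ ∀ X h : ℕ, x0 ≤ X →
  Real.log X ^ c ≤ h → h ≤ X →
    (((Ioc X (2 * X)).filter (fun j =>
      C * h * (Real.log (Real.log X) / Real.log h) < |Uw f h j|)).card : ℝ) ≤ X / Real.log X ^ A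

private theorem ExL_win (X w j : ℕ) (E : ℝ) (hp : ∀ y : ℕ, y ≤ 2 * X →
    |∑ n ∈ Icc 1 y, lio n| ≤ E) (hj : j ∈ Ioc X (2 * X)) (hw : w ≤ X) :
    |Uw lio w j| ≤ 2 * E := by
  rw [mem_Ioc] at hj
  unfold Uw
  have h1 := Finset.sum_Ico_consecutive lio (show 1 ≤ j - w by omega) (show j - w ≤ j by omega)
  have h2 := hp (j - 1) (by omega)
  have h3 := hp (j - w - 1) (by omega)
  have e2 : Icc 1 (j - 1) = Ico 1 j := by
    ext n
    simp only [mem_Icc, mem_Ico]
    omega
  have e3 : Icc 1 (j - w - 1) = Ico 1 (j - w) := by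
    ext n
    simp only [mem_Icc, mem_Ico]
    omega
  rw [e2] at h2
  rw [e3] at h3
  rw [abs_le] at h2 h3 ⊢
  constructor <;> linarith [h2.1, h2.2, h3.1, h3.2]

private theorem ExL_J (P0 h : ℕ) (hP : 1 ≤ P0) (h1 : P0 ^ 10 ≤ h) :
    ∃ J, (P0 * 2 ^ J) ^ 10 ≤ h ∧ h < (P0 * 2 ^ (J + 1)) ^ 10 := by
  have hex : ∃ m, h < (P0 * 2 ^ m) ^ 10 := by
    refine ⟨h, ?_⟩
    have h2 : h < 2 ^ h := Nat.lt_two_pow_self
    have h3 : 2 ^ h ≤ P0 * 2 ^ h := Nat.le_mul_of_pos_left _ hP
    have h4 : P0 * 2 ^ h ≤ (P0 * 2 ^ h) ^ 10 := Nat.le_self_pow (by norm_num) _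
    omega
  classical
  have hs := Nat.find_spec hex
  have h0 : Nat.find hex ≠ 0 := by
    intro h0
    rw [h0, pow_zero, mul_one] at hs
    omega
  obtain ⟨J, hJ⟩ := Nat.exists_eq_succ_of_ne_zero h0
  have hm := Nat.find_min hex (m := J) (by omega)
  rw [hJ] at hs
  exact ⟨J, by omega, hs⟩

private theorem ExL_e (P0 J w j : ℕ) (hw : w < j) :
    |Uw (fun n => lio n + ∑ i ∈ range J, gP (gl 1 P0 J) (P0 * 2 ^ i) n) w j| ≤
      Uw (er P0 J) w j := by
  unfold Uw
  refine (Finset.abs_sum_le_sum_abs _ _).trans (Finset.sum_le_sum fun n hn => ?_)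
  rw [mem_Ico] at hn
  exact ram P0 J n (by omega)

private theorem ExL_lin (P0 J w j : ℕ) : Uw lio w j =
    Uw (fun n => lio n + ∑ i ∈ range J, gP (gl 1 P0 J) (P0 * 2 ^ i) n) w j -
      ∑ i ∈ range J, Uw (gP (gl 1 P0 J) (P0 * 2 ^ i)) w j := by
  unfold Uw
  rw [Finset.sum_comm, ← Finset.sum_sub_distrib]
  refine Finset.sum_congr rfl fun n _ => ?_
  ring

open Classical in
private theorem ExL_split (P J w j : ℕ) : Uw (er P J) w j =
    (((Ico (j - w) j).filter (fun n => Rk P J n)).card : ℝ) +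
      (((Ico (j - w) j).filter (fun n => ∃ p, P < p ∧ p.Prime ∧ p ^ 2 ∣ n)).card : ℝ) := by
  unfold Uw er
  rw [Finset.sum_add_distrib, Finset.sum_boole, Finset.sum_boole]

open Classical in
private theorem ExL_cheb (f : ℕ → ℝ) (S : Finset ℕ) (δ V : ℝ) (hδ : 0 < δ)
    (h : ∑ j ∈ S, (f j) ^ 2 ≤ V) :
    ((S.filter (fun j => δ < |f j|)).card : ℝ) ≤ V / δ ^ 2 := by
  rw [le_div_iff₀ (by positivity)]
  have h1 : ∑ _j ∈ S.filter (fun j => δ < |f j|), δ ^ 2 ≤
      ∑ j ∈ S.filter (fun j => δ < |f j|), (f j) ^ 2 := by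
    refine Finset.sum_le_sum fun j hj => ?_
    rw [mem_filter] at hj
    rw [← sq_abs (f j)]
    exact pow_le_pow_left₀ hδ.le hj.2.le 2
  rw [Finset.sum_const, nsmul_eq_mul] at h1
  have h2 : ∑ j ∈ S.filter (fun j => δ < |f j|), (f j) ^ 2 ≤ ∑ j ∈ S, (f j) ^ 2 :=
    Finset.sum_le_sum_of_subset_of_nonneg (Finset.filter_subset _ _)
      (fun j _ _ => sq_nonneg _)
  linarith

theorem ex_l (hVK : Pool.Agent.H80.LV.VK) (hV : VK1) : ExB lio := by
  classical
  intro A
  obtain ⟨b0, κ, xD, hD⟩ := var_da hVK hV (A + 6)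
  obtain ⟨C0, hC0, hrg⟩ := rg_int
  obtain ⟨xP, hPn⟩ := pn_l (κ + 2)
  obtain ⟨x3, h3⟩ := log_ge 3
  obtain ⟨xk, hk⟩ := log_pow_le 1 2 one_pos two_pos κ
  set b : ℕ := max b0 (A + 8) with hb
  have hb0 : b0 ≤ b := le_max_left _ _
  have hb2 : A + 8 ≤ b := le_max_right _ _
  refine ⟨80 * b * C0 + 11, 10 * b + 20,
    max (max xD xP) (max (max x3 xk) 1), by positivity, ?_⟩
  intro X h hX hh hhX
  have hXD : xD ≤ X := le_trans (le_trans (le_max_left _ _) (le_max_left _ _)) hX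
  have hXP : xP ≤ X := le_trans (le_trans (le_max_right _ _) (le_max_left _ _)) hX
  have hX3 : x3 ≤ X := le_trans (le_trans (le_trans (le_max_left _ _) (le_max_left _ _))
    (le_max_right _ _)) hX
  have hXk : xk ≤ X := le_trans (le_trans (le_trans (le_max_right _ _) (le_max_left _ _))
    (le_max_right _ _)) hX
  have hX1 : 1 ≤ X := le_trans (le_trans (le_max_right _ _) (le_max_right _ _)) hX
  have hXp : (0 : ℝ) < X := by exact_mod_cast hX1
  set L : ℝ := Real.log X with hL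
  have hL3 : 3 ≤ L := h3 X hX3
  have hL0 : 0 < L := by linarith
  have hL1 : 1 ≤ L := by linarith
  have hkX : 2 * L ^ κ ≤ X := by
    have := hk X hXk
    rwa [Real.rpow_one] at this
  have hLk : 0 < L ^ κ := by positivity
  have hll : 1 ≤ Real.log L := by
    rw [Real.le_log_iff_exp_le hL0]
    linarith [Real.exp_one_lt_d9]
  -- the size of `h`
  have hhp : (0 : ℝ) < h := lt_of_lt_of_le (by positivity) hh
  have hh1 : 1 ≤ h := by exact_mod_cast hhp
  have hlogh : 20 ≤ Real.log h := by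
    have h1 : Real.log (L ^ (10 * b + 20)) ≤ Real.log h := Real.log_le_log (by positivity) hh
    rw [Real.log_pow] at h1
    have h2 : (20 : ℝ) ≤ ((10 * b + 20 : ℕ) : ℝ) := by
      exact_mod_cast (by omega : 20 ≤ 10 * b + 20)
    have h4 : (20 : ℝ) * 1 ≤ ((10 * b + 20 : ℕ) : ℝ) * Real.log L :=
      mul_le_mul h2 hll (by norm_num) (by positivity)
    linarith
  have hloghL : Real.log h ≤ L := Real.log_le_log hhp (by exact_mod_cast hhX)
  set q : ℝ := Real.log L / Real.log h with hq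
  have hq0 : 0 ≤ q := div_nonneg (by linarith) (by linarith)
  have hqL : 1 / L ≤ q := by
    rw [hq]
    exact div_le_div₀ (by linarith) hll (by linarith) hloghL
  have hqL2 : 1 / L ^ 2 ≤ q := by
    refine le_trans ?_ hqL
    refine one_div_le_one_div_of_le hL0 ?_
    calc L = L ^ 1 := (pow_one L).symm
      _ ≤ L ^ 2 := pow_le_pow_right₀ hL1 (by norm_num)
  set h' : ℕ := ⌊(X : ℝ) / L ^ κ⌋₊ with hh'
  have hh'le : (h' : ℝ) ≤ X / L ^ κ := Nat.floor_le (by positivity)
  have hh'X : h' ≤ X := by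
    have h1 : (X : ℝ) / L ^ κ ≤ X := div_le_self hXp.le (one_le_pow₀ hL1)
    exact_mod_cast hh'le.trans h1
  have hh'ge : X / (2 * L ^ κ) ≤ h' := by
    have h1 : (X : ℝ) / L ^ κ < h' + 1 := Nat.lt_floor_add_one _
    have h2 : 2 ≤ (X : ℝ) / L ^ κ := by rwa [le_div_iff₀ hLk]
    have h4 : (X : ℝ) / (2 * L ^ κ) = (X / L ^ κ) / 2 := by
      field_simp
    rw [h4]
    linarith
  have hh'p : (0 : ℝ) < h' := lt_of_lt_of_le (by positivity) hh'ge
  -- the bound from the prime number theorem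
  have hE1 : ∀ y : ℕ, y ≤ 2 * X → |∑ n ∈ Icc 1 y, lio n| ≤ 2 * X / L ^ (κ + 2) := by
    intro y hy
    refine (hPn (2 * X) (by omega) y hy).trans ?_
    push_cast
    refine div_le_div_of_nonneg_left (by positivity) (by positivity) ?_
    exact pow_le_pow_left₀ hL0.le (Real.log_le_log hXp (by linarith)) _
  have hU : ∀ w j : ℕ, j ∈ Ioc X (2 * X) → w ≤ X → h' ≤ w → |Uw lio w j| ≤ 8 / L ^ 2 * w := by
    intro w j hj hw hw'
    refine (ExL_win X w j _ hE1 hj hw).trans ?_
    have h1 : X / (2 * L ^ κ) ≤ (w : ℝ) := hh'ge.trans (by exact_mod_cast hw')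
    have h2 : 2 * (2 * (X : ℝ) / L ^ (κ + 2)) = 8 / L ^ 2 * (X / (2 * L ^ κ)) := by
      rw [pow_add]
      field_simp
      ring
    rw [h2]
    exact mul_le_mul_of_nonneg_left h1 (by positivity)
  rcases le_or_gt h' h with hc | hc
  · -- long windows
    have h1 : (Ioc X (2 * X)).filter (fun j =>
        (80 * b * C0 + 11) * h * q < |Uw lio h j|) = ∅ := by
      rw [Finset.filter_eq_empty_iff]
      intro j hj
      rw [not_lt]
      refine (hU h j hj hhX hc).trans ?_
      have h2 : 8 / L ^ 2 = 8 * (1 / L ^ 2) := by ring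
      rw [h2]
      have h4 : 8 * (1 / L ^ 2) ≤ (80 * b * C0 + 11) * q := by
        have h5 : 0 ≤ 80 * (b : ℝ) * C0 * q := by positivity
        linarith
      calc 8 * (1 / L ^ 2) * (h : ℝ) ≤ (80 * b * C0 + 11) * q * h :=
            mul_le_mul_of_nonneg_right h4 hhp.le
        _ = (80 * b * C0 + 11) * h * q := by ring
    rw [h1, card_empty, Nat.cast_zero]
    positivity
  · -- short windows
    set P0 : ℕ := ⌈L ^ b⌉₊ with hP0
    have hLb : 1 ≤ L ^ b := one_le_pow₀ hL1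
    have hP0ge : L ^ b ≤ P0 := Nat.le_ceil _
    have hP0lt : (P0 : ℝ) < L ^ b + 1 := Nat.ceil_lt_add_one (by positivity)
    have hL2b : (2 : ℝ) ≤ L ^ b := by
      calc (2 : ℝ) ≤ 3 ^ 1 := by norm_num
        _ ≤ L ^ 1 := pow_le_pow_left₀ (by norm_num) hL3 1
        _ ≤ L ^ b := pow_le_pow_right₀ hL1 (by omega)
    have hP02 : 2 ≤ P0 := by exact_mod_cast hL2b.trans hP0ge
    have hP0p : (0 : ℝ) < P0 := by linarith
    have hP0b0 : L ^ b0 ≤ P0 := (pow_le_pow_right₀ hL1 hb0).trans hP0ge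
    have hP0le : (P0 : ℝ) ≤ L ^ (2 * b) := by
      have : L ^ (2 * b) = L ^ b * L ^ b := by rw [← pow_add]; congr 1; ring
      rw [this]
      nlinarith
    have hlogP0 : Real.log P0 ≤ 2 * b * Real.log L := by
      have h1 := Real.log_le_log hP0p hP0le
      rw [Real.log_pow] at h1
      push_cast at h1
      exact h1
    have hlogP00 : 0 ≤ Real.log P0 := Real.log_nonneg (by linarith)
    have hP10 : P0 ^ 10 ≤ h := by
      have h1 : ((P0 : ℝ)) ^ 10 ≤ L ^ (10 * b + 20) := by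
        calc ((P0 : ℝ)) ^ 10 ≤ (2 * L ^ b) ^ 10 := pow_le_pow_left₀ hP0p.le (by linarith) 10
          _ = 2 ^ 10 * L ^ (10 * b) := by rw [mul_pow, ← pow_mul, mul_comm b 10]
          _ ≤ L ^ 20 * L ^ (10 * b) := by
              refine mul_le_mul_of_nonneg_right ?_ (by positivity)
              calc (2 : ℝ) ^ 10 ≤ 3 ^ 20 := by norm_num
                _ ≤ L ^ 20 := pow_le_pow_left₀ (by norm_num) hL3 20
          _ = L ^ (10 * b + 20) := by rw [← pow_add, add_comm]
      exact_mod_cast h1.trans hh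
    obtain ⟨J, hJ1, hJ2⟩ := ExL_J P0 h (by omega) hP10
    have hPJpos : 0 < P0 * 2 ^ J := by positivity
    have hlogPJ : Real.log h / 20 ≤ Real.log ((P0 * 2 ^ J : ℕ) : ℝ) := by
      have h1 : (h : ℝ) ≤ (((P0 * 2 ^ J : ℕ) : ℝ) * 2) ^ 10 := by
        have h2 : (h : ℝ) ≤ (((P0 * 2 ^ (J + 1)) ^ 10 : ℕ) : ℝ) := by exact_mod_cast hJ2.le
        refine h2.trans (le_of_eq ?_)
        push_cast
        ring
      have h2 := Real.log_le_log hhp h1
      have hne : (((P0 * 2 ^ J : ℕ) : ℝ)) ≠ 0 := by exact_mod_cast hPJpos.ne'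
      rw [Real.log_pow, Real.log_mul hne two_ne_zero] at h2
      push_cast at h2 ⊢
      have h4 := Real.log_two_lt_d9
      linarith
    have hlogPJ0 : 0 < Real.log ((P0 * 2 ^ J : ℕ) : ℝ) := by linarith
    have hJL : (J : ℝ) ≤ L := by
      have h1 : ((2 : ℝ) ^ J) ^ 10 ≤ h := by
        have h2 : (2 ^ J) ^ 10 ≤ h := by
          refine le_trans (Nat.pow_le_pow_left ?_ 10) hJ1
          exact Nat.le_mul_of_pos_left _ (by omega)
        exact_mod_cast h2
      have h2 := Real.log_le_log (by positivity) h1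
      rw [Real.log_pow, Real.log_pow] at h2
      have h4 := Real.log_two_gt_d9
      have h5 : (0 : ℝ) ≤ J := Nat.cast_nonneg J
      push_cast at h2
      have h6 : (J : ℝ) ≤ 10 * (J * Real.log 2) := by nlinarith
      linarith
    have hquot : Real.log P0 / Real.log ((P0 * 2 ^ J : ℕ) : ℝ) ≤ 40 * b * q := by
      have h2 : 0 < Real.log h / 20 := by linarith
      calc Real.log P0 / Real.log ((P0 * 2 ^ J : ℕ) : ℝ) ≤
            (2 * b * Real.log L) / (Real.log h / 20) :=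
            div_le_div₀ (by positivity) hlogP0 h2 hlogPJ
        _ = 40 * b * q := by
            rw [hq]
            field_simp
            ring
    -- the rough numbers
    have hRw : ∀ w j : ℕ, j ∈ Ioc X (2 * X) → h ≤ w → w ≤ X → (0 : ℝ) < w →
        (((Ico (j - w) j).filter (fun n => Rk P0 J n)).card : ℝ) / w ≤ C0 * (40 * b * q) := by
      intro w j hj hw hwX hw0
      rw [mem_Ioc] at hj
      have h1 := hrg P0 J (j - w) w hP02 (le_trans (Nat.pow_le_pow_right hPJpos (by norm_num))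
        (hJ1.trans hw))
      have h2 : j - w + w = j := by omega
      rw [h2] at h1
      rw [div_le_iff₀ hw0]
      refine h1.trans ?_
      calc C0 * w * Real.log P0 / Real.log ((P0 * 2 ^ J : ℕ) : ℝ)
          = C0 * w * (Real.log P0 / Real.log ((P0 * 2 ^ J : ℕ) : ℝ)) := by rw [mul_div_assoc]
        _ ≤ C0 * w * (40 * b * q) := mul_le_mul_of_nonneg_left hquot (by positivity)
        _ = _ := by ring
    -- the multiples of squares
    set sw : ℕ → ℕ → ℝ := fun w j =>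
      (((Ico (j - w) j).filter (fun n => ∃ p, P0 < p ∧ p.Prime ∧ p ^ 2 ∣ n)).card : ℝ) with hsw
    have hS : ∀ w : ℕ, w ≤ X → (0 : ℝ) < w →
        (((Ioc X (2 * X)).filter (fun j => w / L < |sw w j|)).card : ℝ) ≤ 2 * X / L ^ (A + 6) := by
      intro w hwX hw0
      have h1 := ExL_cheb (sw w) (Ioc X (2 * X)) (w / L) _ (by positivity)
        (sq_win P0 w X (by omega) hwX)
      refine h1.trans ?_
      have h2 : 2 * (X : ℝ) * (w : ℝ) ^ 2 / P0 / (w / L) ^ 2 = 2 * X * L ^ 2 / P0 := by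
        field_simp
      rw [h2, div_le_div_iff₀ hP0p (by positivity)]
      have h4 : L ^ 2 * L ^ (A + 6) ≤ P0 := by
        rw [← pow_add]
        exact (pow_le_pow_right₀ hL1 (by omega)).trans hP0ge
      calc 2 * (X : ℝ) * L ^ 2 * L ^ (A + 6) = 2 * X * (L ^ 2 * L ^ (A + 6)) := by ring
        _ ≤ 2 * (X : ℝ) * (P0 : ℝ) := mul_le_mul_of_nonneg_left h4 (by positivity)
    -- the differences
    set D : ℕ → ℕ → ℝ := fun i j => Uw (gP (gl 1 P0 J) (P0 * 2 ^ i)) h j / h
        - Uw (gP (gl 1 P0 J) (P0 * 2 ^ i)) h' j / h' with hDdef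
    have hDs : ∑ j ∈ Ioc X (2 * X), (∑ i ∈ range J, D i j) ^ 2 ≤ X / L ^ (A + 4) := by
      have h1 : ∀ j ∈ Ioc X (2 * X), (∑ i ∈ range J, D i j) ^ 2 ≤
          J * ∑ i ∈ range J, (D i j) ^ 2 := by
        intro j _
        have := sq_sum_le_card_mul_sum_sq (s := range J) (f := fun i => D i j)
        rwa [card_range] at this
      refine (Finset.sum_le_sum h1).trans ?_
      rw [← Finset.mul_sum, Finset.sum_comm]
      have h2 : ∑ i ∈ range J, ∑ j ∈ Ioc X (2 * X), (D i j) ^ 2 ≤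
          ∑ _i ∈ range J, (X : ℝ) / L ^ (A + 6) := by
        refine Finset.sum_le_sum fun i hi => ?_
        rw [mem_range] at hi
        exact hD X hXD P0 J i h h' hP0b0 hi hJ1 hc.le hh'le
      rw [Finset.sum_const, nsmul_eq_mul, card_range] at h2
      have h4 : (0 : ℝ) ≤ J := Nat.cast_nonneg J
      calc (J : ℝ) * ∑ i ∈ range J, ∑ j ∈ Ioc X (2 * X), (D i j) ^ 2
          ≤ J * (J * (X / L ^ (A + 6))) := mul_le_mul_of_nonneg_left h2 h4
        _ = (J * J) * (X / L ^ (A + 6)) := by ring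
        _ ≤ (L * L) * (X / L ^ (A + 6)) :=
            mul_le_mul_of_nonneg_right (mul_le_mul hJL hJL h4 hL0.le) (by positivity)
        _ = X / L ^ (A + 4) := by
            have e : L ^ (A + 6) = L ^ (A + 4) * (L * L) := by ring
            rw [e]
            field_simp
    have hDc : (((Ioc X (2 * X)).filter (fun j => 1 / L < |∑ i ∈ range J, D i j|)).card : ℝ) ≤
        X / L ^ (A + 2) := by
      have h1 := ExL_cheb (fun j => ∑ i ∈ range J, D i j) (Ioc X (2 * X)) (1 / L) _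
        (by positivity) hDs
      refine h1.trans (le_of_eq ?_)
      have e : L ^ (A + 4) = L ^ (A + 2) * L ^ 2 := by ring
      rw [e]
      field_simp
    -- the pointwise inequality
    have hpt : ∀ j ∈ Ioc X (2 * X), ¬ (h / L < |sw h j|) → ¬ (h' / L < |sw h' j|) →
        ¬ (1 / L < |∑ i ∈ range J, D i j|) →
          |Uw lio h j| ≤ (80 * b * C0 + 11) * h * q := by
      intro j hj n1 n2 n3
      rw [not_lt] at n1 n2 n3
      have hj' := hj
      rw [mem_Ioc] at hj'
      set e : ℕ → ℝ := fun n => lio n + ∑ i ∈ range J, gP (gl 1 P0 J) (P0 * 2 ^ i) n with he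
      have e1 := ExL_lin P0 J h j
      have e2 := ExL_lin P0 J h' j
      have e3 : Uw lio h j / h = Uw lio h' j / h' + Uw e h j / h - Uw e h' j / h' -
          ∑ i ∈ range J, D i j := by
        rw [e1, e2, hDdef]
        simp only [Finset.sum_sub_distrib, ← Finset.sum_div]
        ring
      have f1 : |Uw lio h' j / h'| ≤ 8 * (1 / L ^ 2) := by
        have h1 := hU h' j hj hh'X le_rfl
        rw [abs_div, abs_of_pos hh'p, div_le_iff₀ hh'p]
        refine h1.trans (le_of_eq ?_)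
        ring
      have f2 : ∀ w : ℕ, h ≤ w → w ≤ X → (0 : ℝ) < w → |sw w j| ≤ w / L →
          |Uw e w j / w| ≤ C0 * (40 * b * q) + 1 / L := by
        intro w hw hwX hw0 hs
        rw [abs_div, abs_of_pos hw0]
        have g1 := ExL_e P0 J w j (by omega)
        rw [ExL_split] at g1
        have g2 := hRw w j hj hw hwX hw0
        have g3 : sw w j / w ≤ 1 / L := by
          rw [div_le_iff₀ hw0]
          refine (le_abs_self _).trans (hs.trans (le_of_eq ?_))
          ring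
        have g4 := div_le_div_of_nonneg_right g1 hw0.le
        rw [add_div] at g4
        exact g4.trans (add_le_add g2 g3)
      have f4 := f2 h le_rfl hhX hhp n1
      have f5 := f2 h' hc.le hh'X hh'p n2
      have f6 : |Uw lio h j / h| ≤ (80 * b * C0 + 11) * q := by
        rw [e3]
        have k1 := abs_sub (Uw lio h' j / h' + Uw e h j / h - Uw e h' j / h')
          (∑ i ∈ range J, D i j)
        have k2 := abs_sub (Uw lio h' j / h' + Uw e h j / h) (Uw e h' j / h')
        have k3 := abs_add_le (Uw lio h' j / h') (Uw e h j / h)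
        linarith
      rw [abs_div, abs_of_pos hhp, div_le_iff₀ hhp] at f6
      refine f6.trans (le_of_eq ?_)
      ring
    -- the count
    have hsub : (Ioc X (2 * X)).filter (fun j => (80 * b * C0 + 11) * h * q < |Uw lio h j|) ⊆
        ((Ioc X (2 * X)).filter (fun j => h / L < |sw h j|) ∪
          (Ioc X (2 * X)).filter (fun j => h' / L < |sw h' j|)) ∪
          (Ioc X (2 * X)).filter (fun j => 1 / L < |∑ i ∈ range J, D i j|) := by
      intro j hj
      rw [mem_filter] at hj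
      rw [mem_union, mem_union, mem_filter, mem_filter, mem_filter]
      by_contra hcon
      rw [not_or, not_or] at hcon
      obtain ⟨⟨c1, c2⟩, c3⟩ := hcon
      have := hpt j hj.1 (fun h => c1 ⟨hj.1, h⟩) (fun h => c2 ⟨hj.1, h⟩) (fun h => c3 ⟨hj.1, h⟩)
      exact absurd hj.2 (not_lt.2 this)
    have hc1 := Finset.card_le_card hsub
    have hc2 := Finset.card_union_le ((Ioc X (2 * X)).filter (fun j => h / L < |sw h j|) ∪
          (Ioc X (2 * X)).filter (fun j => h' / L < |sw h' j|))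
          ((Ioc X (2 * X)).filter (fun j => 1 / L < |∑ i ∈ range J, D i j|))
    have hc3 := Finset.card_union_le ((Ioc X (2 * X)).filter (fun j => h / L < |sw h j|))
          ((Ioc X (2 * X)).filter (fun j => h' / L < |sw h' j|))
    have hc4 : (((Ioc X (2 * X)).filter (fun j =>
        (80 * b * C0 + 11) * h * q < |Uw lio h j|)).card : ℝ) ≤
        ((Ioc X (2 * X)).filter (fun j => h / L < |sw h j|)).card +
        ((Ioc X (2 * X)).filter (fun j => h' / L < |sw h' j|)).card +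
        ((Ioc X (2 * X)).filter (fun j => 1 / L < |∑ i ∈ range J, D i j|)).card := by
      exact_mod_cast (by omega : ((Ioc X (2 * X)).filter (fun j =>
        (80 * b * C0 + 11) * h * q < |Uw lio h j|)).card ≤
        ((Ioc X (2 * X)).filter (fun j => h / L < |sw h j|)).card +
        ((Ioc X (2 * X)).filter (fun j => h' / L < |sw h' j|)).card +
        ((Ioc X (2 * X)).filter (fun j => 1 / L < |∑ i ∈ range J, D i j|)).card)
    refine hc4.trans ?_
    have g1 := hS h hhX hhp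
    have g2 := hS h' hh'X hh'p
    have g3 : 4 * (X : ℝ) / L ^ (A + 6) + X / L ^ (A + 2) ≤ X / L ^ A := by
      have e1 : 4 * (X : ℝ) / L ^ (A + 6) = (X / L ^ A) * (4 / L ^ 6) := by
        rw [pow_add]
        field_simp
      have e2 : (X : ℝ) / L ^ (A + 2) = (X / L ^ A) * (1 / L ^ 2) := by
        rw [pow_add]
        field_simp
      have h6 : (3 : ℝ) ^ 6 ≤ L ^ 6 := pow_le_pow_left₀ (by norm_num) hL3 6
      have h7 : (3 : ℝ) ^ 2 ≤ L ^ 2 := pow_le_pow_left₀ (by norm_num) hL3 2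
      have h8 : 4 / L ^ 6 ≤ 4 / 3 ^ 6 := div_le_div_of_nonneg_left (by norm_num) (by norm_num) h6
      have h9 : 1 / L ^ 2 ≤ 1 / 3 ^ 2 := div_le_div_of_nonneg_left (by norm_num) (by norm_num) h7
      rw [e1, e2, ← mul_add]
      refine mul_le_of_le_one_right (by positivity) ?_
      norm_num at h8 h9 ⊢
      linarith
    have g4 : 2 * (X : ℝ) / L ^ (A + 6) + 2 * X / L ^ (A + 6) = 4 * X / L ^ (A + 6) := by ring
    linarith

end Pool.Agent.H76.MU
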