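import Pool.Agent.H76.MU.LmD

/-!
# MU MuId: the Möbius function from the Liouville function, and the tail

`mu_id`: write `n = b^2 a`, `a` squarefree (`Nat.sq_mul_squarefree`): `d^2 | n` iff `d | b`, `lio (n/d^2) = lio a = μ(a)` and `∑_{d | b} μ(d) = [b = 1]`.
`tail`: `t(n) = #{d ∈ Ioc D n : d^2 | n}`; `(∑_{n ∈ window} t)^2 ≤ h ∑_{n ∈ window} t(n)^2` and each `n ≤ 2X` is in at most `h` windows: the left side is `≤ h^2 ∑_{n ≤ 2X} t(n)^2`, and
`∑_{n ≤ 2X} t(n)^2 = ∑_{d, d' > D} #{n ≤ 2X : lcm(d,d')^2 | n} ≤ 2X ∑_{d > D} ∑_{d'} gcd(d,d')^2/(d d')^2 ≤ 2X ∑_{d > D} d^{-2} ∑_{g | d} ∑_e e^{-2} ≤ 4 X ∑_{d > D} τ(d)/d^2 ≤ 4X ∑_{d > D} 2 √d/d^2 ≤ 16 X/√D · 2`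
(finite sums over `d, d' ≤ 2X`; `τ(d) ≤ 2 √d`; `∑_{d > D} d^{-3/2} ≤ 2/√D`; `D ≥ 1`).
-/

set_option autoImplicit false

namespace Pool.Agent.H76.MU

open Finset

/-- the Möbius function -/
noncomputable def muR (n : ℕ) : ℝ := ((ArithmeticFunction.moebius n : ℤ) : ℝ)

private lemma sq_dvd_iff (b a d : ℕ) (hb : b ≠ 0) (ha : Squarefree a) (hd : d ≠ 0) :
    d ^ 2 ∣ b ^ 2 * a ↔ d ∣ b := by
  constructor
  · intro h
    have ha0 : a ≠ 0 := ha.ne_zero
    rw [← Nat.factorization_le_iff_dvd hd hb]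
    rw [← Nat.factorization_le_iff_dvd (by positivity) (by positivity)] at h
    intro p
    have h1 := h p
    rw [Nat.factorization_mul (by positivity) ha0, Nat.factorization_pow, Nat.factorization_pow] at h1
    simp only [Finsupp.coe_smul, Finsupp.coe_add, Pi.add_apply, Pi.smul_apply, smul_eq_mul] at h1
    have h2 : a.factorization p ≤ 1 := by
      exact (Nat.squarefree_iff_factorization_le_one ha0).1 ha p
    omega
  · intro h
    exact Dvd.dvd.mul_right (pow_dvd_pow_of_dvd h 2) a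

private lemma sum_mu_div (b : ℕ) : ∑ d ∈ b.divisors, muR d = if b = 1 then 1 else 0 := by
  have h := congrArg (fun f : ArithmeticFunction ℤ => f b)
    ArithmeticFunction.coe_zeta_mul_moebius
  simp only [ArithmeticFunction.coe_zeta_mul_apply, ArithmeticFunction.one_apply] at h
  unfold muR
  rw [← Int.cast_sum, h]
  split_ifs <;> simp

theorem mu_id (n : ℕ) (hn : n ≠ 0) :
    muR n = ∑ d ∈ (Icc 1 n).filter (fun d => d ^ 2 ∣ n), muR d * lio (n / d ^ 2) := by
  obtain ⟨a, b, hab, ha⟩ := Nat.sq_mul_squarefree n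
  have hb : b ≠ 0 := by
    rintro rfl
    apply hn
    rw [← hab]; simp
  have ha0 : a ≠ 0 := ha.ne_zero
  have hset : (Icc 1 n).filter (fun d => d ^ 2 ∣ n) = b.divisors := by
    ext d
    rw [mem_filter, mem_Icc, Nat.mem_divisors]
    constructor
    · rintro ⟨⟨h1, h2⟩, h3⟩
      rw [← hab] at h3
      exact ⟨(sq_dvd_iff b a d hb ha (by omega)).1 h3, hb⟩
    · rintro ⟨h1, h2⟩
      have hd0 : 0 < d := Nat.pos_of_dvd_of_pos h1 (by omega)
      refine ⟨⟨hd0, ?_⟩, ?_⟩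
      · have h3 : d ≤ b := Nat.le_of_dvd (by omega) h1
        have h4 : b ≤ b ^ 2 := by nlinarith [Nat.pos_of_ne_zero hb]
        have h5 : b ^ 2 ≤ b ^ 2 * a := Nat.le_mul_of_pos_right _ (Nat.pos_of_ne_zero ha0)
        omega
      · rw [← hab]
        exact (sq_dvd_iff b a d hb ha (by omega)).2 h1
  rw [hset]
  have hl : ∀ d ∈ b.divisors, muR d * lio (n / d ^ 2) = muR d * lio a := by
    intro d hd
    rw [Nat.mem_divisors] at hd
    obtain ⟨⟨e, he⟩, _⟩ := hd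
    have hd0 : 0 < d := by
      rcases Nat.eq_zero_or_pos d with h | h
      · subst h; exfalso; apply hb; rw [he]; simp
      · exact h
    have he0 : e ≠ 0 := by
      rintro rfl; apply hb; rw [he]; simp
    have h1 : n / d ^ 2 = (e * e) * a := by
      rw [← hab, he]
      have : (d * e) ^ 2 * a = d ^ 2 * (e * e * a) := by ring
      rw [this, Nat.mul_div_cancel_left _ (by positivity)]
    rw [h1, lio_mul, lio_mul]
    have h2 : lio e * lio e = 1 := by
      unfold lio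
      rw [if_neg he0, ← pow_add, ← two_mul, pow_mul]
      simp
    rw [h2, one_mul]
  rw [sum_congr rfl hl, ← sum_mul, sum_mu_div]
  by_cases h1 : b = 1
  · subst h1
    rw [if_pos rfl, one_mul]
    have h2 : a = n := by rw [← hab]; ring
    subst h2
    unfold muR lio
    rw [if_neg hn, ArithmeticFunction.moebius_apply_of_squarefree ha]
    push_cast
    rfl
  · rw [if_neg h1, zero_mul]
    unfold muR
    have h2 : ¬ Squarefree n := by
      intro h3
      have h4 : b * b ∣ n := by rw [← hab]; exact ⟨a, by ring⟩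
      have h5 := h3 b h4
      exact h1 (Nat.isUnit_iff.1 h5)
    rw [ArithmeticFunction.moebius_eq_zero_of_not_squarefree h2]
    simp

/-- the number of divisors is at most `2 √d` -/
private lemma card_div_le (d : ℕ) : (d.divisors.card : ℝ) ≤ 2 * Real.sqrt d := by
  have h1 : d.divisors ⊆ (Icc 1 (Nat.sqrt d)) ∪ (Icc 1 (Nat.sqrt d)).image (fun e => d / e) := by
    intro e he
    rw [Nat.mem_divisors] at he
    obtain ⟨⟨f, hf⟩, hd⟩ := he
    have he0 : 0 < e := by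
      rcases Nat.eq_zero_or_pos e with h | h
      · subst h; exfalso; apply hd; rw [hf]; simp
      · exact h
    have hf0 : 0 < f := by
      rcases Nat.eq_zero_or_pos f with h | h
      · subst h; exfalso; apply hd; rw [hf]; simp
      · exact h
    rw [mem_union, mem_image]
    by_cases h2 : e ≤ Nat.sqrt d
    · left; rw [mem_Icc]; exact ⟨he0, h2⟩
    · right
      push Not at h2
      refine ⟨f, ?_, ?_⟩
      · rw [mem_Icc]
        refine ⟨hf0, ?_⟩
        by_contra h3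
        push Not at h3
        have h4 : d < (Nat.sqrt d + 1) * (Nat.sqrt d + 1) := Nat.lt_succ_sqrt d
        have h5 : (Nat.sqrt d + 1) * (Nat.sqrt d + 1) ≤ e * f := Nat.mul_le_mul h2 h3
        omega
      · show d / f = e
        rw [hf]
        exact Nat.mul_div_cancel _ hf0
  have h2 := (card_le_card h1).trans (card_union_le _ _)
  have h3 : ((Icc 1 (Nat.sqrt d)).image (fun e => d / e)).card ≤ (Icc 1 (Nat.sqrt d)).card :=
    card_image_le
  rw [Nat.card_Icc] at h2 h3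
  have h4 : d.divisors.card ≤ 2 * Nat.sqrt d := by omega
  have h5 : ((Nat.sqrt d : ℕ) : ℝ) ≤ Real.sqrt d := Real.nat_sqrt_le_real_sqrt
  have h6 : (d.divisors.card : ℝ) ≤ 2 * (Nat.sqrt d : ℕ) := by exact_mod_cast h4
  linarith

private lemma sum_inv_sq (N : ℕ) : ∑ e ∈ Icc 1 N, (1 : ℝ) / (e : ℝ) ^ 2 ≤ 2 := by
  rcases Nat.eq_zero_or_pos N with h | h
  · subst h; simp
  · have h1 : Icc 1 N = insert 1 (Ioc 1 N) := by
      ext x; simp only [mem_Icc, mem_insert, mem_Ioc]; omega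
    rw [h1, sum_insert (by simp)]
    have h2 := sum_Ioc_inv_sq_le_sub (α := ℝ) (k := 1) (n := N) one_ne_zero h
    have h3 : ∑ e ∈ Ioc 1 N, (1 : ℝ) / (e : ℝ) ^ 2 = ∑ e ∈ Ioc 1 N, ((e : ℝ) ^ 2)⁻¹ :=
      sum_congr rfl (fun e _ => one_div _)
    rw [h3]
    have h4 : (0 : ℝ) ≤ ((N : ℕ) : ℝ)⁻¹ := by positivity
    norm_num at h2 ⊢
    linarith

private lemma sum_three_half (D N : ℕ) (hD : 1 ≤ D) :
    ∑ d ∈ Ioc D N, (1 : ℝ) / (d * Real.sqrt d) ≤ 2 / Real.sqrt D := by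
  have key : ∀ N : ℕ, D ≤ N → ∑ d ∈ Ioc D N, (1 : ℝ) / (d * Real.sqrt d)
      ≤ 2 / Real.sqrt D - 2 / Real.sqrt N := by
    intro N hN
    induction N, hN using Nat.le_induction with
    | base => simp
    | succ N hN ih =>
      have e1 : Ioc D (N + 1) = insert (N + 1) (Ioc D N) := by
        ext x; simp only [mem_insert, mem_Ioc]; omega
      rw [e1, sum_insert (by simp)]
      have hN0 : (0 : ℝ) < N := by exact_mod_cast (by omega : 0 < N)
      have hs1 : 0 < Real.sqrt N := Real.sqrt_pos.2 hN0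
      have hN1 : (0 : ℝ) < ((N + 1 : ℕ) : ℝ) := by positivity
      have hs2 : 0 < Real.sqrt ((N + 1 : ℕ) : ℝ) := Real.sqrt_pos.2 hN1
      have hle : Real.sqrt N ≤ Real.sqrt ((N + 1 : ℕ) : ℝ) :=
        Real.sqrt_le_sqrt (by push_cast; linarith)
      have q1 : Real.sqrt N ^ 2 = N := Real.sq_sqrt hN0.le
      have q2 : Real.sqrt ((N + 1 : ℕ) : ℝ) ^ 2 = N + 1 := by
        rw [Real.sq_sqrt hN1.le]; push_cast; ring
      set a := Real.sqrt N with ha
      set b := Real.sqrt ((N + 1 : ℕ) : ℝ) with hb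
      have hcast : ((N + 1 : ℕ) : ℝ) = b ^ 2 := by rw [q2]; push_cast; ring
      have h5 : (1 : ℝ) / (((N + 1 : ℕ) : ℝ) * b) ≤ 2 / a - 2 / b := by
        rw [hcast, div_sub_div _ _ hs1.ne' hs2.ne', div_le_div_iff₀ (by positivity) (by positivity)]
        have h6 : (b - a) * (b + a) = 1 := by
          have : (b - a) * (b + a) = b ^ 2 - a ^ 2 := by ring
          rw [this, q1, q2]; ring
        have h7 : 0 ≤ b - a := by linarith
        have h8 : 1 ≤ 2 * b * (b - a) := by nlinarith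
        have h9 : (0 : ℝ) < b ^ 2 := by positivity
        have h10 : a ≤ b := hle
        nlinarith [mul_le_mul_of_nonneg_left h8 (by positivity : (0 : ℝ) ≤ b ^ 2), mul_le_mul_of_nonneg_left h10 hs2.le]
      linarith
  rcases le_or_gt D N with h | h
  · have := key N h
    have h2 : 0 ≤ 2 / Real.sqrt N := by positivity
    linarith
  · rw [Ioc_eq_empty (by omega), sum_empty]
    positivity

/-- the inner sum over `d'` -/
private lemma inner_gcd (N d : ℕ) (hd : 1 ≤ d) :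
    ∑ e ∈ Icc 1 N, ((Nat.gcd d e : ℕ) : ℝ) ^ 2 / (e : ℝ) ^ 2 ≤ 4 * Real.sqrt d := by
  classical
  set φ : ℕ → ℕ × ℕ := fun e => (Nat.gcd d e, e / Nat.gcd d e) with hφ
  set F : ℕ × ℕ → ℝ := fun x => 1 / (x.2 : ℝ) ^ 2 with hF
  have h1 : ∀ e ∈ Icc 1 N, ((Nat.gcd d e : ℕ) : ℝ) ^ 2 / (e : ℝ) ^ 2 = F (φ e) := by
    intro e he
    rw [mem_Icc] at he
    have hg : 0 < Nat.gcd d e := Nat.gcd_pos_of_pos_right _ (by omega)
    have he0 : (0 : ℝ) < e := by exact_mod_cast (by omega : 0 < e)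
    have hg0 : (0 : ℝ) < ((Nat.gcd d e : ℕ) : ℝ) := by exact_mod_cast hg
    simp only [hφ, hF]
    rw [Nat.cast_div (Nat.gcd_dvd_right d e) hg0.ne']
    field_simp
  have hinj : Set.InjOn φ (Icc 1 N : Finset ℕ) := by
    intro x hx y hy hxy
    simp only [hφ, Prod.mk.injEq] at hxy
    obtain ⟨h2, h3⟩ := hxy
    have e1 : Nat.gcd d x * (x / Nat.gcd d x) = x := Nat.mul_div_cancel' (Nat.gcd_dvd_right d x)
    have e2 : Nat.gcd d y * (y / Nat.gcd d y) = y := Nat.mul_div_cancel' (Nat.gcd_dvd_right d y)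
    rw [← e1, ← e2, h3, h2]
  rw [sum_congr rfl h1, ← sum_image (f := F) hinj]
  have hsub : (Icc 1 N).image φ ⊆ d.divisors ×ˢ Icc 1 N := by
    intro x hx
    rw [mem_image] at hx
    obtain ⟨e, he, rfl⟩ := hx
    rw [mem_Icc] at he
    have hg : 0 < Nat.gcd d e := Nat.gcd_pos_of_pos_right _ (by omega)
    rw [mem_product, Nat.mem_divisors, mem_Icc]
    simp only [hφ]
    refine ⟨⟨Nat.gcd_dvd_left d e, by omega⟩, ?_, ?_⟩
    · exact Nat.div_pos (Nat.le_of_dvd (by omega) (Nat.gcd_dvd_right d e)) hg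
    · exact (Nat.div_le_self _ _).trans he.2
  have h4 : ∑ x ∈ (Icc 1 N).image φ, F x ≤ ∑ x ∈ d.divisors ×ˢ Icc 1 N, F x :=
    sum_le_sum_of_subset_of_nonneg hsub (fun x _ _ => by simp only [hF]; positivity)
  refine h4.trans ?_
  rw [sum_product]
  have h5 : ∀ g ∈ d.divisors, ∑ e ∈ Icc 1 N, F (g, e) ≤ 2 := fun g _ => sum_inv_sq N
  refine (sum_le_sum h5).trans ?_
  rw [sum_const, nsmul_eq_mul]
  have := card_div_le d
  linarith

/-- the mean square of the number of large square divisors -/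
private lemma sq_count (D N : ℕ) (hD : 1 ≤ D) :
    ∑ n ∈ Icc 1 N, (((Ioc D n).filter (fun d => d ^ 2 ∣ n)).card : ℝ) ^ 2
      ≤ N * (8 / Real.sqrt D) := by
  classical
  have h1 : ∀ n ∈ Icc 1 N, (((Ioc D n).filter (fun d => d ^ 2 ∣ n)).card : ℝ) ^ 2
      = ∑ d ∈ Ioc D N, ∑ e ∈ Ioc D N, if (d ^ 2 ∣ n ∧ e ^ 2 ∣ n) then (1 : ℝ) else 0 := by
    intro n hn
    rw [mem_Icc] at hn
    have h2 : (Ioc D n).filter (fun d => d ^ 2 ∣ n) = (Ioc D N).filter (fun d => d ^ 2 ∣ n) := by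
      ext d
      simp only [mem_filter, mem_Ioc]
      constructor
      · rintro ⟨⟨a1, a2⟩, a3⟩; exact ⟨⟨a1, by omega⟩, a3⟩
      · rintro ⟨⟨a1, a2⟩, a3⟩
        refine ⟨⟨a1, ?_⟩, a3⟩
        have := Nat.le_of_dvd (by omega) a3
        nlinarith
    rw [h2, sq, card_filter]
    push_cast
    rw [sum_mul_sum]
    refine sum_congr rfl (fun d _ => sum_congr rfl (fun e _ => ?_))
    by_cases q1 : d ^ 2 ∣ n <;> by_cases q2 : e ^ 2 ∣ n <;> simp [q1, q2]
  rw [sum_congr rfl h1, sum_comm]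
  have h2 : ∀ d ∈ Ioc D N, ∑ n ∈ Icc 1 N, ∑ e ∈ Ioc D N,
      (if (d ^ 2 ∣ n ∧ e ^ 2 ∣ n) then (1 : ℝ) else 0) ≤ N * (4 / (d * Real.sqrt d)) := by
    intro d hd
    rw [mem_Ioc] at hd
    rw [sum_comm]
    have hd0 : (0 : ℝ) < d := by exact_mod_cast (by omega : 0 < d)
    have h3 : ∀ e ∈ Ioc D N, ∑ n ∈ Icc 1 N, (if (d ^ 2 ∣ n ∧ e ^ 2 ∣ n) then (1 : ℝ) else 0)
        ≤ (N / (d : ℝ) ^ 2) * (((Nat.gcd d e : ℕ) : ℝ) ^ 2 / (e : ℝ) ^ 2) := by
      intro e he
      rw [mem_Ioc] at he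
      have he0 : (0 : ℝ) < e := by exact_mod_cast (by omega : 0 < e)
      have h4 : ∑ n ∈ Icc 1 N, (if (d ^ 2 ∣ n ∧ e ^ 2 ∣ n) then (1 : ℝ) else 0)
          ≤ (((Ioc 0 N).filter (fun n => (Nat.lcm d e) ^ 2 ∣ n)).card : ℝ) := by
        rw [card_filter]
        push_cast
        have e1 : Icc 1 N = Ioc 0 N := by ext x; simp only [mem_Icc, mem_Ioc]; omega
        rw [e1]
        refine sum_le_sum (fun n _ => ?_)
        by_cases q : d ^ 2 ∣ n ∧ e ^ 2 ∣ n
        · have q3 : (Nat.lcm d e) ^ 2 ∣ n := by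
            rw [← Nat.pow_lcm_pow]
            exact Nat.lcm_dvd q.1 q.2
          rw [if_pos q, if_pos q3]
        · rw [if_neg q]
          split_ifs <;> norm_num
      refine h4.trans ?_
      rw [Nat.Ioc_filter_dvd_card_eq_div]
      refine (Nat.cast_div_le).trans ?_
      have hg : 0 < Nat.gcd d e := Nat.gcd_pos_of_pos_right _ (by omega)
      have hg0 : (0 : ℝ) < ((Nat.gcd d e : ℕ) : ℝ) := by exact_mod_cast hg
      have h5 : ((Nat.gcd d e : ℕ) : ℝ) * ((Nat.lcm d e : ℕ) : ℝ) = d * e := by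
        exact_mod_cast Nat.gcd_mul_lcm d e
      have hl0 : (0 : ℝ) < ((Nat.lcm d e : ℕ) : ℝ) := by
        have : 0 < Nat.lcm d e := Nat.lcm_pos (by omega) (by omega)
        exact_mod_cast this
      have h6 : ((Nat.lcm d e : ℕ) : ℝ) = d * e / ((Nat.gcd d e : ℕ) : ℝ) := by
        field_simp; linarith
      push_cast
      rw [h6]
      apply le_of_eq
      field_simp
    refine (sum_le_sum h3).trans ?_
    rw [← mul_sum]
    have h4 : ∑ e ∈ Ioc D N, ((Nat.gcd d e : ℕ) : ℝ) ^ 2 / (e : ℝ) ^ 2 ≤ 4 * Real.sqrt d := by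
      refine le_trans ?_ (inner_gcd N d (by omega))
      apply sum_le_sum_of_subset_of_nonneg
      · intro x hx
        rw [mem_Ioc] at hx; rw [mem_Icc]; omega
      · intro x _ _; positivity
    refine (mul_le_mul_of_nonneg_left h4 (by positivity)).trans ?_
    have hs : 0 < Real.sqrt d := Real.sqrt_pos.2 hd0
    have q1 : Real.sqrt d * Real.sqrt d = d := Real.mul_self_sqrt hd0.le
    apply le_of_eq
    rw [div_mul_eq_mul_div, mul_div_assoc']
    rw [div_eq_div_iff (by positivity) (by positivity)]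
    calc (N : ℝ) * (4 * Real.sqrt d) * (d * Real.sqrt d)
        = N * 4 * d * (Real.sqrt d * Real.sqrt d) := by ring
      _ = N * 4 * (d : ℝ) ^ 2 := by rw [q1]; ring
  refine (sum_le_sum h2).trans ?_
  rw [← mul_sum]
  apply mul_le_mul_of_nonneg_left _ (Nat.cast_nonneg N)
  have h3 : ∑ d ∈ Ioc D N, (4 : ℝ) / (d * Real.sqrt d) = 4 * ∑ d ∈ Ioc D N, (1 : ℝ) / (d * Real.sqrt d) := by
    rw [mul_sum]
    refine sum_congr rfl (fun d _ => by ring)
  rw [h3]
  have h4 := sum_three_half D N hD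
  calc 4 * ∑ d ∈ Ioc D N, (1 : ℝ) / (d * Real.sqrt d) ≤ 4 * (2 / Real.sqrt D) := by linarith
    _ = 8 / Real.sqrt D := by ring

theorem tail (D h X : ℕ) (hD : 1 ≤ D) (hX : h ≤ X) :
    ∑ j ∈ Ioc X (2 * X), (∑ n ∈ Ico (j - h) j,
      (((Ioc D n).filter (fun d => d ^ 2 ∣ n)).card : ℝ)) ^ 2
        ≤ 100 * X * (h : ℝ) ^ 2 / Real.sqrt D := by
  classical
  set t : ℕ → ℝ := fun n => (((Ioc D n).filter (fun d => d ^ 2 ∣ n)).card : ℝ) with ht
  have h1 : ∀ j ∈ Ioc X (2 * X), (∑ n ∈ Ico (j - h) j, t n) ^ 2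
      ≤ h * ∑ n ∈ Ico (j - h) j, t n ^ 2 := by
    intro j hj
    rw [mem_Ioc] at hj
    have h2 := sq_sum_le_card_mul_sum_sq (s := Ico (j - h) j) (f := t)
    have h3 : (Ico (j - h) j).card = h := by rw [Nat.card_Ico]; omega
    rw [h3] at h2
    exact h2
  refine (sum_le_sum h1).trans ?_
  rw [← mul_sum]
  have h2 : ∑ j ∈ Ioc X (2 * X), ∑ n ∈ Ico (j - h) j, t n ^ 2 ≤ h * ∑ n ∈ Icc 1 (2 * X), t n ^ 2 := by
    have h3 : ∀ j ∈ Ioc X (2 * X), ∑ n ∈ Ico (j - h) j, t n ^ 2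
        = ∑ n ∈ Icc 1 (2 * X), if (j - h ≤ n ∧ n < j) then t n ^ 2 else 0 := by
      intro j hj
      rw [mem_Ioc] at hj
      rw [← sum_filter]
      refine sum_congr ?_ (fun _ _ => rfl)
      ext n
      simp only [mem_Ico, mem_filter, mem_Icc]
      omega
    rw [sum_congr rfl h3, sum_comm, mul_sum]
    refine sum_le_sum (fun n hn => ?_)
    rw [← sum_filter, sum_const, nsmul_eq_mul]
    apply mul_le_mul_of_nonneg_right _ (sq_nonneg _)
    have h4 : ((Ioc X (2 * X)).filter (fun j => j - h ≤ n ∧ n < j)) ⊆ Ioc n (n + h) := by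
      intro j hj
      simp only [mem_filter, mem_Ioc] at hj ⊢
      omega
    have h5 := card_le_card h4
    rw [Nat.card_Ioc] at h5
    have h6 : ((Ioc X (2 * X)).filter (fun j => j - h ≤ n ∧ n < j)).card ≤ h := by omega
    exact_mod_cast h6
  have h3 := sq_count D (2 * X) hD
  have hh : (0 : ℝ) ≤ h := Nat.cast_nonneg h
  calc (h : ℝ) * ∑ j ∈ Ioc X (2 * X), ∑ n ∈ Ico (j - h) j, t n ^ 2
      ≤ h * (h * ∑ n ∈ Icc 1 (2 * X), t n ^ 2) := mul_le_mul_of_nonneg_left h2 hh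
    _ ≤ h * (h * (((2 * X : ℕ) : ℝ) * (8 / Real.sqrt D))) := by
        apply mul_le_mul_of_nonneg_left _ hh
        exact mul_le_mul_of_nonneg_left h3 hh
    _ = 16 * X * (h : ℝ) ^ 2 / Real.sqrt D := by push_cast; ring
    _ ≤ 100 * X * (h : ℝ) ^ 2 / Real.sqrt D := by
        apply div_le_div_of_nonneg_right _ (Real.sqrt_nonneg _)
        have : (0 : ℝ) ≤ X * (h : ℝ) ^ 2 := by positivity
        nlinarith

end Pool.Agent.H76.MU
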