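import Pool.Agent.H76.MU.ExL
import Pool.Agent.H76.MU.MuId

/-!
# MU ExM: from the Liouville to the Möbius function, exceptional sets

Given `A`.  `L = log X`, `D = ⌈L^{2A+8}⌉₊` (`≤ 2 L^{2A+8}`).  `C, c, x0` from `ExB lio` for `A1 = 3 A + 20`.  New exponent `c' = 2c + 8A + 60`.
For `j ∈ Ioc X (2X)` (`h ≤ X < j`, the window does not contain `0`), by `mu_id`: `Uw muR h j = ∑_{d ≤ D} muR d · a_d(j) + r(j)`, `a_d(j) = ∑_{n ∈ Ico (j-h) j, d^2 | n} lio (n/d^2)`,
`|r(j)| ≤ ∑_{n ∈ window} #{d ∈ Ioc D n : d^2 | n}`.  `tail` and Chebyshev: `|r(j)| > h/L` for at most `L^2 · 100 X/√D ≤ 100 X/L^{A+2}` values of `j`.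
`d ≤ D`: as in `Dil.lean` (proof of `dil`, helper64: copy the combinatorial part): the sum over the `n` divisible by `d^2` is the sum of `lio` over `Ico a b`, `b = ⌈j/d^2⌉`, and `|a_d(j) - Uw lio hd b| ≤ 1`,
`hd = h/d^2`; `b ∈ Ioc X' (2X'+2)`, `X' = X/d^2`, each `b` for at most `d^2` values of `j`; `Ioc X' (2X'+2) ⊆ Ioc X' (2X') ∪ Ioc (X'+1) (2(X'+1))`.  `ExB lio` at `X'` and `X'+1`
(`≥ √X ≥ x0`; `(log (X'+1))^c ≤ (2L)^c ≤ hd` since `hd ≥ h/(2 d^2) ≥ L^{c'}/(8 L^{4A+16})`; `hd ≤ X'`): `|Uw lio hd b| ≤ C hd (log log (X'+1)/log hd) ≤ C (h/d^2) (2 log L) (2/log h)`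
(`log hd ≥ (log h)/2` as `8 L^{4A+16} ≤ h^{1/2}`) outside at most `(X'+1)/(log X')^{A1} + X'/(log X')^{A1} ≤ 4 · 2^{A1} (X/d^2)/L^{A1}` values of `b` (`log X' ≥ L/2`), so outside at most `4 · 2^{A1} X/L^{A1}`
values of `j`; for all `d ≤ D` together at most `D · 4 · 2^{A1} X/L^{A1} ≤ 8 · 2^{A1} X L^{2A+8-3A-20} ≤ X/(2 L^A)`.
For the other `j`: `|Uw muR h j| ≤ ∑_{d ≤ D} (4 C (h/d^2) log L/log h + 1) + h/L ≤ 8 C h log L/log h + 2 D... ` with `D ≤ 2 L^{2A+8} ≤ h/L`: total `≤ (8 C + 3) h log L/log h` (`∑ 1/d^2 ≤ 2`).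
-/

set_option autoImplicit false

namespace Pool.Agent.H76.MU

open Finset

private theorem ExM_ab (D h j : ℕ) (hD : 1 ≤ D) (hj : h ≤ j) :
    (j - h + D - 1) / D + h / D ≤ (j + D - 1) / D ∧
      (j + D - 1) / D ≤ (j - h + D - 1) / D + h / D + 1 := by
  obtain ⟨u, rfl⟩ := Nat.exists_eq_add_of_le hj
  have h1 : h + u - h = u := by omega
  rw [h1]
  have h2 : D * (h / D) ≤ h := Nat.mul_div_le h D
  have h3 : h < D * (h / D) + D := by
    have := Nat.lt_mul_div_succ h hD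
    rw [Nat.mul_add, Nat.mul_one] at this
    exact this
  have e1 : (u + D - 1) / D + h / D = (u + D - 1 + D * (h / D)) / D := by
    rw [Nat.add_mul_div_left _ _ hD]
  have e2 : (u + D - 1) / D + h / D + 1 = (u + D - 1 + D * (h / D) + D) / D := by
    rw [Nat.add_div_right _ hD, e1]
  rw [e2, e1]
  constructor
  · apply Nat.div_le_div_right
    omega
  · apply Nat.div_le_div_right
    omega

private theorem ExM_step (f : ℕ → ℝ) (hf : ∀ n, |f n| ≤ 1) (D h j : ℕ) (hD : 1 ≤ D)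
    (hj : h ≤ j) :
    |∑ n ∈ (Ico (j - h) j).filter (fun n => D ∣ n), f (n / D)|
      ≤ |Uw f (h / D) ((j + D - 1) / D)| + 1 := by
  obtain ⟨hab1, hab2⟩ := ExM_ab D h j hD hj
  set a := (j - h + D - 1) / D with ha
  set b := (j + D - 1) / D with hb
  have h1 : ∑ n ∈ (Ico (j - h) j).filter (fun n => D ∣ n), f (n / D) = ∑ m ∈ Ico a b, f m := by
    refine Finset.sum_nbij' (fun n => n / D) (fun m => D * m) ?_ ?_ ?_ ?_ ?_
    · intro n hn
      rw [Finset.mem_filter, Finset.mem_Ico] at hn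
      obtain ⟨⟨hn1, hn2⟩, m, rfl⟩ := hn
      rw [Nat.mul_div_cancel_left m hD, Finset.mem_Ico]
      constructor
      · rw [ha]
        apply Nat.le_of_lt_succ
        rw [Nat.div_lt_iff_lt_mul hD]
        have e : (m + 1) * D = D * m + D := by ring
        rw [Nat.succ_eq_add_one, e]
        omega
      · rw [hb]
        apply Nat.lt_of_succ_le
        rw [Nat.le_div_iff_mul_le hD]
        have e : (m + 1) * D = D * m + D := by ring
        rw [Nat.succ_eq_add_one, e]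
        omega
    · intro m hm
      rw [Finset.mem_Ico] at hm
      obtain ⟨hm1, hm2⟩ := hm
      rw [Finset.mem_filter, Finset.mem_Ico]
      refine ⟨⟨?_, ?_⟩, dvd_mul_right D m⟩
      · have h2 : (j - h + D - 1) / D < m + 1 := by omega
        rw [Nat.div_lt_iff_lt_mul hD] at h2
        have e : (m + 1) * D = D * m + D := by ring
        rw [e] at h2
        omega
      · have h2 : m + 1 ≤ (j + D - 1) / D := hm2
        rw [Nat.le_div_iff_mul_le hD] at h2
        have e : (m + 1) * D = D * m + D := by ring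
        rw [e] at h2
        omega
    · intro n hn
      rw [Finset.mem_filter] at hn
      exact Nat.mul_div_cancel' hn.2
    · intro m _
      exact Nat.mul_div_cancel_left m hD
    · intro n _
      rfl
  have h2 : ∑ m ∈ Ico a b, f m = (∑ m ∈ Ico a (b - h / D), f m) + Uw f (h / D) b := by
    unfold Uw
    rw [Finset.sum_Ico_consecutive _ (Nat.le_sub_of_add_le hab1) (Nat.sub_le _ _)]
  have h3 : |∑ m ∈ Ico a (b - h / D), f m| ≤ 1 := by
    calc |∑ m ∈ Ico a (b - h / D), f m| ≤ ∑ m ∈ Ico a (b - h / D), |f m| :=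
          Finset.abs_sum_le_sum_abs _ _
      _ ≤ ∑ m ∈ Ico a (b - h / D), (1 : ℝ) := Finset.sum_le_sum fun m _ => hf m
      _ = ((b - h / D - a : ℕ) : ℝ) := by simp
      _ ≤ 1 := by
        have : b - h / D - a ≤ 1 := by omega
        exact_mod_cast this
  rw [h1, h2]
  have h4 := abs_add_le (∑ m ∈ Ico a (b - h / D), f m) (Uw f (h / D) b)
  linarith

private theorem ExM_sum (g : ℕ → ℝ) (hg : ∀ n, 0 ≤ g n) (D X : ℕ) (hD : 1 ≤ D) (hX : D ≤ X) :
    ∑ j ∈ Ioc X (2 * X), g ((j + D - 1) / D) ≤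
      (D : ℝ) * (∑ j ∈ Ioc (X / D) (2 * (X / D)), g j +
        ∑ j ∈ Ioc (X / D + 1) (2 * (X / D + 1)), g j) := by
  have hX' : 1 ≤ X / D := (Nat.one_le_div_iff hD).2 hX
  have hmaps : ∀ j ∈ Ioc X (2 * X), (j + D - 1) / D ∈ Ioc (X / D) (2 * (X / D) + 2) := by
    intro j hj
    rw [Finset.mem_Ioc] at hj
    have h3 : X < D * (X / D) + D := by
      have := Nat.lt_mul_div_succ X hD
      rw [Nat.mul_add, Nat.mul_one] at this
      exact this
    rw [Finset.mem_Ioc]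
    constructor
    · have h1 : (X + D) / D ≤ (j + D - 1) / D := Nat.div_le_div_right (by omega)
      rw [Nat.add_div_right _ hD] at h1
      exact h1
    · apply Nat.le_of_lt_succ
      rw [Nat.div_lt_iff_lt_mul hD]
      have e : (2 * (X / D) + 2 + 1) * D = 2 * (D * (X / D)) + 3 * D := by ring
      rw [Nat.succ_eq_add_one, e]
      omega
  have h1 : ∑ j ∈ Ioc X (2 * X), g ((j + D - 1) / D) =
      ∑ b ∈ Ioc (X / D) (2 * (X / D) + 2), ∑ j ∈ (Ioc X (2 * X)).filter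
        (fun j => (j + D - 1) / D = b), g ((j + D - 1) / D) :=
    (Finset.sum_fiberwise_of_maps_to hmaps _).symm
  have h2 : ∀ b ∈ Ioc (X / D) (2 * (X / D) + 2), ∑ j ∈ (Ioc X (2 * X)).filter
        (fun j => (j + D - 1) / D = b), g ((j + D - 1) / D) ≤ (D : ℝ) * g b := by
    intro b _
    have h3 : ∑ j ∈ (Ioc X (2 * X)).filter (fun j => (j + D - 1) / D = b), g ((j + D - 1) / D) =
        ∑ j ∈ (Ioc X (2 * X)).filter (fun j => (j + D - 1) / D = b), g b :=
      Finset.sum_congr rfl fun j hj => by rw [(Finset.mem_filter.1 hj).2]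
    rw [h3, Finset.sum_const, nsmul_eq_mul]
    apply mul_le_mul_of_nonneg_right _ (hg b)
    have h4 : ((Ioc X (2 * X)).filter (fun j => (j + D - 1) / D = b)).card ≤ D := by
      calc ((Ioc X (2 * X)).filter (fun j => (j + D - 1) / D = b)).card
          ≤ (Ico (D * b + 1 - D) (D * b + 1)).card := by
            apply Finset.card_le_card
            intro j hj
            rw [Finset.mem_filter] at hj
            have h5 : D * b ≤ j + D - 1 := by
              rw [← hj.2]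
              exact Nat.mul_div_le _ _
            have h6 : j + D - 1 < D * b + D := by
              have := Nat.lt_mul_div_succ (j + D - 1) hD
              rw [hj.2, Nat.mul_add, Nat.mul_one] at this
              exact this
            rw [Finset.mem_Ico]
            omega
        _ = (D * b + 1) - (D * b + 1 - D) := Nat.card_Ico _ _
        _ ≤ D := by omega
    exact_mod_cast h4
  have h3 : ∑ b ∈ Ioc (X / D) (2 * (X / D) + 2), g b ≤
      ∑ j ∈ Ioc (X / D) (2 * (X / D)), g j + ∑ j ∈ Ioc (X / D + 1) (2 * (X / D + 1)), g j := by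
    calc ∑ b ∈ Ioc (X / D) (2 * (X / D) + 2), g b
        ≤ ∑ b ∈ Ioc (X / D) (2 * (X / D)) ∪ Ioc (X / D + 1) (2 * (X / D + 1)), g b := by
          apply Finset.sum_le_sum_of_subset_of_nonneg
          · intro b hb
            rw [Finset.mem_union, Finset.mem_Ioc, Finset.mem_Ioc]
            rw [Finset.mem_Ioc] at hb
            omega
          · intro b _ _
            exact hg b
      _ ≤ _ := by
          rw [← Finset.sum_union_inter]
          exact le_add_of_nonneg_right (Finset.sum_nonneg fun b _ => hg b)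
  rw [h1]
  calc _ ≤ ∑ b ∈ Ioc (X / D) (2 * (X / D) + 2), (D : ℝ) * g b := Finset.sum_le_sum h2
    _ = (D : ℝ) * ∑ b ∈ Ioc (X / D) (2 * (X / D) + 2), g b := (Finset.mul_sum _ _ _).symm
    _ ≤ _ := mul_le_mul_of_nonneg_left h3 (Nat.cast_nonneg _)

open Classical in
private lemma ExM_window (C : ℝ) (c x0 A1 : ℕ) (hC : 0 < C)
    (hv : ∀ X h : ℕ, x0 ≤ X → Real.log X ^ c ≤ h → h ≤ X →
      (((Ioc X (2 * X)).filter (fun j =>
        C * h * (Real.log (Real.log X) / Real.log h) < |Uw lio h j|)).card : ℝ)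
          ≤ X / Real.log X ^ A1)
    (X h d Y : ℕ) (hd : 1 ≤ d) (hdh : 4 * d ^ 4 ≤ h) (hL2 : 2 ≤ Real.log X) (hX3 : 3 ≤ X)
    (hlow : (2 * Real.log X) ^ c ≤ (h : ℝ) / (2 * (d : ℝ) ^ 2))
    (hY0 : x0 ≤ Y) (hY3 : 3 ≤ Y) (hY1 : Y ≤ X + 1) (hY2 : h / d ^ 2 ≤ Y)
    (hYu : (Y : ℝ) ≤ 2 * X / (d : ℝ) ^ 2) (hYsq : X ≤ Y ^ 2) :
    (((Ioc Y (2 * Y)).filter (fun j =>
      4 * C * (h / (d : ℝ) ^ 2) * (Real.log (Real.log X) / Real.log h)
        < |Uw lio (h / d ^ 2) j|)).card : ℝ)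
      ≤ 2 ^ (A1 + 1) * X / ((d : ℝ) ^ 2 * Real.log X ^ A1) := by
  have hd0 : (0 : ℝ) < d := by exact_mod_cast (by omega : 0 < d)
  have hd1 : (1 : ℝ) ≤ d := by exact_mod_cast hd
  have hdhr : 4 * (d : ℝ) ^ 4 ≤ h := by exact_mod_cast hdh
  have hd4 : (1 : ℝ) ≤ (d : ℝ) ^ 4 := one_le_pow₀ hd1
  have hh4 : (4 : ℝ) ≤ h := by linarith
  have hh0 : (0 : ℝ) < h := by linarith
  set w : ℕ := h / d ^ 2 with hw
  have hwlo : (h : ℝ) / (2 * (d : ℝ) ^ 2) ≤ w := by
    have h1 : (h : ℝ) / ((d ^ 2 : ℕ) : ℝ) < (w : ℝ) + 1 := by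
      rw [div_lt_iff₀ (by positivity)]
      have h2 := Nat.lt_mul_div_succ h (by positivity : 0 < d ^ 2)
      have h3 : ((h : ℕ) : ℝ) < ((d ^ 2 * (h / d ^ 2 + 1) : ℕ) : ℝ) := by exact_mod_cast h2
      rw [← hw] at h3
      push_cast at h3 ⊢
      linarith
    push_cast at h1
    have h2 : (h : ℝ) / (d : ℝ) ^ 2 = 2 * ((h : ℝ) / (2 * (d : ℝ) ^ 2)) := by
      field_simp
    have h3 : 1 ≤ (h : ℝ) / (2 * (d : ℝ) ^ 2) := by
      rw [le_div_iff₀ (by positivity)]
      have : (d : ℝ) ^ 2 ≤ (d : ℝ) ^ 4 := pow_le_pow_right₀ hd1 (by norm_num)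
      nlinarith
    rw [h2] at h1
    linarith
  have hwup : (w : ℝ) ≤ h / (d : ℝ) ^ 2 := by
    have := @Nat.cast_div_le ℝ _ _ _ h (d ^ 2)
    push_cast at this
    exact this
  have hwsq : (h : ℝ) ≤ (w : ℝ) ^ 2 := by
    have h1 : (0 : ℝ) ≤ (h : ℝ) / (2 * (d : ℝ) ^ 2) := by positivity
    have h2 : ((h : ℝ) / (2 * (d : ℝ) ^ 2)) ^ 2 ≤ (w : ℝ) ^ 2 := pow_le_pow_left₀ h1 hwlo 2
    refine le_trans ?_ h2
    rw [div_pow, le_div_iff₀ (by positivity)]
    calc (h : ℝ) * (2 * (d : ℝ) ^ 2) ^ 2 = h * (4 * (d : ℝ) ^ 4) := by ring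
      _ ≤ (h : ℝ) * h := mul_le_mul_of_nonneg_left hdhr hh0.le
      _ = (h : ℝ) ^ 2 := by ring
  have hw0 : (0 : ℝ) < w := by
    have h1 : (0 : ℝ) ≤ w := Nat.cast_nonneg _
    rcases h1.lt_or_eq with h2 | h2
    · exact h2
    · rw [← h2] at hwsq; nlinarith
  have hlogh : 0 < Real.log h := Real.log_pos (by linarith)
  have hlogw : Real.log h / 2 ≤ Real.log w := by
    have h1 : Real.log h ≤ Real.log ((w : ℝ) ^ 2) := Real.log_le_log hh0 hwsq
    rw [Real.log_pow] at h1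
    push_cast at h1
    linarith
  have hX0 : (0 : ℝ) < X := by exact_mod_cast (by omega : 0 < X)
  have hYr0 : (0 : ℝ) < Y := by exact_mod_cast (by omega : 0 < Y)
  have hlogY1 : 1 ≤ Real.log Y := by
    rw [Real.le_log_iff_exp_le hYr0]
    have h1 : (3 : ℝ) ≤ Y := by exact_mod_cast hY3
    have h2 := Real.exp_one_lt_d9
    linarith
  have hlogY2 : Real.log Y ≤ 2 * Real.log X := by
    have h1 : (Y : ℝ) ≤ (X : ℝ) ^ 2 := by
      have h2 : Y ≤ X ^ 2 := by nlinarith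
      exact_mod_cast h2
    have h3 := Real.log_le_log hYr0 h1
    rw [Real.log_pow] at h3
    push_cast at h3
    exact h3
  have hll0 : 0 ≤ Real.log (Real.log Y) := Real.log_nonneg hlogY1
  have hll1 : Real.log (Real.log Y) ≤ 2 * Real.log (Real.log X) := by
    have h1 : Real.log (Real.log Y) ≤ Real.log (2 * Real.log X) :=
      Real.log_le_log (by linarith) hlogY2
    rw [Real.log_mul (by norm_num) (by linarith)] at h1
    have h2 : Real.log 2 ≤ Real.log (Real.log X) := Real.log_le_log (by norm_num) hL2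
    linarith
  have hkey := hv Y w hY0 (by
    refine le_trans (pow_le_pow_left₀ (by linarith) hlogY2 c) (hlow.trans hwlo)) hY2
  have hlogY3 : Real.log X / 2 ≤ Real.log Y := by
    have h1 : (X : ℝ) ≤ (Y : ℝ) ^ 2 := by exact_mod_cast hYsq
    have h2 := Real.log_le_log hX0 h1
    rw [Real.log_pow] at h2
    push_cast at h2
    linarith
  have hq : Real.log (Real.log Y) / Real.log w
      ≤ 4 * (Real.log (Real.log X) / Real.log h) := by
    rw [div_le_iff₀ (by linarith)]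
    have h2 : 4 * (Real.log (Real.log X) / Real.log h) * (Real.log h / 2)
        ≤ 4 * (Real.log (Real.log X) / Real.log h) * Real.log w := by
      apply mul_le_mul_of_nonneg_left hlogw
      have : 0 ≤ Real.log (Real.log X) := by linarith
      positivity
    have h3 : 4 * (Real.log (Real.log X) / Real.log h) * (Real.log h / 2)
        = 2 * Real.log (Real.log X) := by
      field_simp; ring
    linarith
  have h0 : 0 ≤ Real.log (Real.log Y) / Real.log w := div_nonneg hll0 (by linarith)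
  have hthr : C * w * (Real.log (Real.log Y) / Real.log w)
      ≤ 4 * C * (h / (d : ℝ) ^ 2) * (Real.log (Real.log X) / Real.log h) := by
    calc C * w * (Real.log (Real.log Y) / Real.log w)
        ≤ C * (h / (d : ℝ) ^ 2) * (4 * (Real.log (Real.log X) / Real.log h)) := by
          apply mul_le_mul _ hq h0 (by positivity)
          exact mul_le_mul_of_nonneg_left hwup hC.le
      _ = _ := by ring
  have hsub : ((Ioc Y (2 * Y)).filter (fun j =>
      4 * C * (h / (d : ℝ) ^ 2) * (Real.log (Real.log X) / Real.log h) < |Uw lio w j|)).card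
      ≤ ((Ioc Y (2 * Y)).filter (fun j =>
        C * w * (Real.log (Real.log Y) / Real.log w) < |Uw lio w j|)).card := by
    apply Finset.card_le_card
    intro j hj
    rw [Finset.mem_filter] at hj ⊢
    exact ⟨hj.1, lt_of_le_of_lt hthr hj.2⟩
  have hsub' : (((Ioc Y (2 * Y)).filter (fun j =>
      4 * C * (h / (d : ℝ) ^ 2) * (Real.log (Real.log X) / Real.log h) < |Uw lio w j|)).card : ℝ)
      ≤ Y / Real.log Y ^ A1 := le_trans (by exact_mod_cast hsub) hkey
  refine hsub'.trans ?_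
  have hL0 : 0 < Real.log X := by linarith
  calc (Y : ℝ) / Real.log Y ^ A1 ≤ (2 * X / (d : ℝ) ^ 2) / (Real.log X / 2) ^ A1 := by
        apply div_le_div₀ (by positivity) hYu (by positivity)
        exact pow_le_pow_left₀ (by linarith) hlogY3 A1
    _ = 2 ^ (A1 + 1) * X / ((d : ℝ) ^ 2 * Real.log X ^ A1) := by
        rw [div_pow, pow_succ (2 : ℝ) A1]
        field_simp

open Classical in
private lemma ExM_count (P : ℕ → Prop) (D X : ℕ) (hD : 1 ≤ D) (hX : D ≤ X) :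
    (((Ioc X (2 * X)).filter (fun j => P ((j + D - 1) / D))).card : ℝ) ≤
      (D : ℝ) * ((((Ioc (X / D) (2 * (X / D))).filter P).card : ℝ) +
        (((Ioc (X / D + 1) (2 * (X / D + 1))).filter P).card : ℝ)) := by
  have h := ExM_sum (fun b => if P b then 1 else 0) (fun b => by positivity) D X hD hX
  simpa only [Finset.sum_boole] using h

open Classical in
private lemma ExM_one (C : ℝ) (c x0 A1 : ℕ) (hC : 0 < C)
    (hv : ∀ X h : ℕ, x0 ≤ X → Real.log X ^ c ≤ h → h ≤ X →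
      (((Ioc X (2 * X)).filter (fun j =>
        C * h * (Real.log (Real.log X) / Real.log h) < |Uw lio h j|)).card : ℝ)
          ≤ X / Real.log X ^ A1)
    (X h d : ℕ) (hd : 1 ≤ d) (hdh : 4 * d ^ 4 ≤ h) (hhX : h ≤ X) (hX0 : (x0 + 3) ^ 2 ≤ X)
    (hL2 : 2 ≤ Real.log X)
    (hlow : (2 * Real.log X) ^ c ≤ (h : ℝ) / (2 * (d : ℝ) ^ 2)) :
    (((Ioc X (2 * X)).filter (fun j =>
        4 * C * (h / (d : ℝ) ^ 2) * (Real.log (Real.log X) / Real.log h) + 1 <
        |∑ n ∈ (Ico (j - h) j).filter (fun n => d ^ 2 ∣ n), lio (n / d ^ 2)|)).card : ℝ)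
      ≤ 2 ^ (A1 + 2) * X / Real.log X ^ A1 := by
  have hd0 : (0 : ℝ) < d := by exact_mod_cast (by omega : 0 < d)
  have hdX : 4 * d ^ 4 ≤ X := hdh.trans hhX
  have hd2 : 1 ≤ d ^ 2 := Nat.one_le_pow _ _ (by omega)
  have hd24 : d ^ 4 = d ^ 2 * d ^ 2 := by ring
  have hdX2 : d ^ 2 ≤ X := by nlinarith
  set Y : ℕ := X / d ^ 2 with hY
  have hYd : d ^ 2 * Y ≤ X := Nat.mul_div_le X (d ^ 2)
  have hYlt : X < d ^ 2 * (Y + 1) := Nat.lt_mul_div_succ X (by positivity)
  have hYbig : x0 + 3 ≤ Y := by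
    by_contra hcon
    push Not at hcon
    have h1 : X < d ^ 2 * (x0 + 3) := lt_of_lt_of_le hYlt (Nat.mul_le_mul_left _ hcon)
    -- X^2 < d^4 (x0+3)^2 ≤ d^4 X, so X < d^4
    have h2 : X * X < (d ^ 2 * (x0 + 3)) * (d ^ 2 * (x0 + 3)) := Nat.mul_lt_mul'' h1 h1
    have h3 : (d ^ 2 * (x0 + 3)) * (d ^ 2 * (x0 + 3)) = d ^ 4 * (x0 + 3) ^ 2 := by ring
    rw [h3] at h2
    have h4 : d ^ 4 * (x0 + 3) ^ 2 ≤ d ^ 4 * X := Nat.mul_le_mul_left _ hX0
    have h5 : X * X < d ^ 4 * X := lt_of_lt_of_le h2 h4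
    have h6 : X < d ^ 4 := Nat.lt_of_mul_lt_mul_right h5
    omega
  have hYX : Y ≤ X := Nat.div_le_self _ _
  have hX3 : 3 ≤ X := by omega
  have hhY : h / d ^ 2 ≤ Y := Nat.div_le_div_right hhX
  have hYr : (Y : ℝ) ≤ X / (d : ℝ) ^ 2 := by
    have := @Nat.cast_div_le ℝ _ _ _ X (d ^ 2)
    push_cast at this
    exact this
  have hXd : 1 ≤ (X : ℝ) / (d : ℝ) ^ 2 := by
    rw [le_div_iff₀ (by positivity), one_mul]
    exact_mod_cast hdX2
  have hu1 : (Y : ℝ) ≤ 2 * X / (d : ℝ) ^ 2 := by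
    rw [mul_div_assoc]; linarith
  have hu2 : ((Y + 1 : ℕ) : ℝ) ≤ 2 * X / (d : ℝ) ^ 2 := by
    rw [mul_div_assoc]; push_cast; linarith
  have hYsq : X ≤ Y ^ 2 := by
    have h1 : 2 * d ^ 2 ≤ X := by nlinarith
    have h2 : X ≤ 2 * d ^ 2 * Y := by nlinarith
    have h3 : X * X ≤ (2 * d ^ 2 * Y) * (2 * d ^ 2 * Y) := Nat.mul_le_mul h2 h2
    have h4 : (2 * d ^ 2 * Y) * (2 * d ^ 2 * Y) = 4 * d ^ 4 * Y ^ 2 := by ring
    rw [h4] at h3
    have h5 : 4 * d ^ 4 * Y ^ 2 ≤ X * Y ^ 2 := Nat.mul_le_mul_right _ hdX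
    exact Nat.le_of_mul_le_mul_left (h3.trans h5) (by omega)
  have hYsq' : X ≤ (Y + 1) ^ 2 := hYsq.trans (Nat.pow_le_pow_left (by omega) 2)
  have w1 := ExM_window C c x0 A1 hC hv X h d Y hd hdh hL2 hX3 hlow (by omega) (by omega)
    (by omega) hhY hu1 hYsq
  have w2 := ExM_window C c x0 A1 hC hv X h d (Y + 1) hd hdh hL2 hX3 hlow (by omega) (by omega)
    (by omega) (by omega) hu2 hYsq'
  have hcnt := ExM_count (fun b => 4 * C * (h / (d : ℝ) ^ 2) *
    (Real.log (Real.log X) / Real.log h) < |Uw lio (h / d ^ 2) b|) (d ^ 2) X hd2 hdX2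
  rw [← hY] at hcnt
  have hsub : ((Ioc X (2 * X)).filter (fun j =>
        4 * C * (h / (d : ℝ) ^ 2) * (Real.log (Real.log X) / Real.log h) + 1 <
        |∑ n ∈ (Ico (j - h) j).filter (fun n => d ^ 2 ∣ n), lio (n / d ^ 2)|)).card ≤
      ((Ioc X (2 * X)).filter (fun j => 4 * C * (h / (d : ℝ) ^ 2) *
        (Real.log (Real.log X) / Real.log h) <
          |Uw lio (h / d ^ 2) ((j + d ^ 2 - 1) / d ^ 2)|)).card := by
    apply Finset.card_le_card
    intro j hj
    rw [Finset.mem_filter, Finset.mem_Ioc] at hj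
    rw [Finset.mem_filter, Finset.mem_Ioc]
    refine ⟨hj.1, ?_⟩
    have h1 := ExM_step lio lio_abs_le (d ^ 2) h j hd2 (by omega)
    have h2 := hj.2
    linarith
  have hsub' : (((Ioc X (2 * X)).filter (fun j =>
        4 * C * (h / (d : ℝ) ^ 2) * (Real.log (Real.log X) / Real.log h) + 1 <
        |∑ n ∈ (Ico (j - h) j).filter (fun n => d ^ 2 ∣ n), lio (n / d ^ 2)|)).card : ℝ) ≤
      (((Ioc X (2 * X)).filter (fun j => 4 * C * (h / (d : ℝ) ^ 2) *
        (Real.log (Real.log X) / Real.log h) <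
          |Uw lio (h / d ^ 2) ((j + d ^ 2 - 1) / d ^ 2)|)).card : ℝ) := by
    exact_mod_cast hsub
  refine (hsub'.trans hcnt).trans ?_
  have hL0 : 0 < Real.log X := by linarith
  calc ((d ^ 2 : ℕ) : ℝ) * _ ≤ ((d ^ 2 : ℕ) : ℝ) *
        (2 ^ (A1 + 1) * X / ((d : ℝ) ^ 2 * Real.log X ^ A1) +
          2 ^ (A1 + 1) * X / ((d : ℝ) ^ 2 * Real.log X ^ A1)) :=
        mul_le_mul_of_nonneg_left (add_le_add w1 w2) (by positivity)
    _ = 2 ^ (A1 + 2) * X / Real.log X ^ A1 := by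
        push_cast
        rw [pow_succ 2 (A1 + 1)]
        field_simp
        ring

private lemma ExM_inv_sq (N : ℕ) : ∑ e ∈ Icc 1 N, (1 : ℝ) / (e : ℝ) ^ 2 ≤ 2 := by
  rcases Nat.eq_zero_or_pos N with h | h
  · subst h; simp
  · have h1 : Icc 1 N = insert 1 (Ioc 1 N) := by
      ext x; simp only [mem_Icc, mem_insert, mem_Ioc]; omega
    rw [h1, sum_insert (by simp)]
    have h2 := sum_Ioc_inv_sq_le_sub (α := ℝ) (k := 1) (n := N) one_ne_zero h
    have h3 : ∑ e ∈ Ioc 1 N, (1 : ℝ) / (e : ℝ) ^ 2 = ∑ e ∈ Ioc 1 N, ((e : ℝ) ^ 2)⁻¹ :=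
      sum_congr rfl (fun e _ => one_div _)
    rw [h3]
    have h4 : (0 : ℝ) ≤ ((N : ℕ) : ℝ)⁻¹ := by positivity
    norm_num at h2 ⊢
    linarith

private lemma ExM_mu_le (n : ℕ) : |muR n| ≤ 1 := by
  unfold muR
  have h1 : |ArithmeticFunction.moebius n| ≤ 1 := ArithmeticFunction.abs_moebius_le_one
  have h2 : ((|ArithmeticFunction.moebius n| : ℤ) : ℝ) ≤ ((1 : ℤ) : ℝ) := by exact_mod_cast h1
  rw [Int.cast_abs] at h2
  simpa using h2

/-- the decomposition of a window sum -/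
private lemma ExM_split (D h j : ℕ) (hj : h < j) :
    |Uw muR h j| ≤ ∑ d ∈ Icc 1 D,
        |∑ n ∈ (Ico (j - h) j).filter (fun n => d ^ 2 ∣ n), lio (n / d ^ 2)|
      + ∑ n ∈ Ico (j - h) j, (((Ioc D n).filter (fun d => d ^ 2 ∣ n)).card : ℝ) := by
  classical
  have h1 : ∀ n ∈ Ico (j - h) j, muR n
      = ∑ d ∈ Icc 1 D, (if d ^ 2 ∣ n then muR d * lio (n / d ^ 2) else 0)
        + ∑ d ∈ (Ioc D n).filter (fun d => d ^ 2 ∣ n), muR d * lio (n / d ^ 2) := by
    intro n hn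
    rw [mem_Ico] at hn
    have hn0 : n ≠ 0 := by omega
    rw [mu_id n hn0, ← sum_filter]
    rw [← sum_union]
    · refine sum_congr ?_ (fun _ _ => rfl)
      ext d
      simp only [mem_filter, mem_union, mem_Icc, mem_Ioc]
      constructor
      · rintro ⟨⟨a1, a2⟩, a3⟩
        rcases le_or_gt d D with h | h
        · left; exact ⟨⟨a1, h⟩, a3⟩
        · right; exact ⟨⟨h, a2⟩, a3⟩
      · rintro (⟨⟨a1, a2⟩, a3⟩ | ⟨⟨a1, a2⟩, a3⟩)
        · refine ⟨⟨a1, ?_⟩, a3⟩
          have := Nat.le_of_dvd (by omega) a3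
          nlinarith
        · exact ⟨⟨by omega, a2⟩, a3⟩
    · rw [disjoint_left]
      intro d hd hd'
      simp only [mem_filter, mem_Icc, mem_Ioc] at hd hd'
      omega
  unfold Uw
  rw [sum_congr rfl h1, sum_add_distrib, sum_comm]
  refine (abs_add_le _ _).trans (add_le_add ?_ ?_)
  · refine (abs_sum_le_sum_abs _ _).trans (sum_le_sum (fun d _ => ?_))
    rw [← sum_filter, ← mul_sum, abs_mul]
    calc |muR d| * _ ≤ 1 * _ := mul_le_mul_of_nonneg_right (ExM_mu_le d) (abs_nonneg _)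
      _ = _ := one_mul _
  · refine (abs_sum_le_sum_abs _ _).trans (sum_le_sum (fun n _ => ?_))
    refine (abs_sum_le_sum_abs _ _).trans ?_
    calc ∑ d ∈ (Ioc D n).filter (fun d => d ^ 2 ∣ n), |muR d * lio (n / d ^ 2)|
        ≤ ∑ d ∈ (Ioc D n).filter (fun d => d ^ 2 ∣ n), (1 : ℝ) := by
          refine sum_le_sum (fun d _ => ?_)
          rw [abs_mul]
          exact mul_le_one₀ (ExM_mu_le d) (abs_nonneg _) (lio_abs_le _)
      _ = _ := by rw [sum_const, nsmul_eq_mul, mul_one]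

theorem ex_m (hL : ExB lio) : ExB muR := by
  classical
  intro A
  obtain ⟨C, c, x0, hC, hv⟩ := hL (3 * A + 20)
  obtain ⟨x1, hx1⟩ := log_ge (200 + 2 ^ (c + 3) + 2 ^ (3 * A + 26) : ℝ)
  refine ⟨8 * C + 2, 2 * c + 8 * A + 60, max x1 ((x0 + 3) ^ 2), by positivity, ?_⟩
  intro X h hX hh hhX
  have hX1 : x1 ≤ X := (le_max_left _ _).trans hX
  have hX0 : (x0 + 3) ^ 2 ≤ X := (le_max_right _ _).trans hX
  set L := Real.log X with hLdef
  have hLbig : 200 + (2 : ℝ) ^ (c + 3) + 2 ^ (3 * A + 26) ≤ L := hx1 X hX1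
  have h2c : (0 : ℝ) < 2 ^ (c + 3) := by positivity
  have h2A : (0 : ℝ) < 2 ^ (3 * A + 26) := by positivity
  have hL64 : 200 ≤ L := by linarith
  have hL0 : 0 < L := by linarith
  have hL1 : 1 ≤ L := by linarith
  set D : ℕ := ⌈L ^ (2 * A + 8)⌉₊ with hD
  have hL4 : 1 ≤ L ^ (2 * A + 8) := one_le_pow₀ hL1
  have hDlo : L ^ (2 * A + 8) ≤ D := Nat.le_ceil _
  have hDup : (D : ℝ) ≤ 2 * L ^ (2 * A + 8) := by
    have := (Nat.ceil_lt_add_one (by positivity : 0 ≤ L ^ (2 * A + 8))).le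
    rw [← hD] at this
    linarith
  have hD1 : 1 ≤ D := by
    have : (1 : ℝ) ≤ D := hL4.trans hDlo
    exact_mod_cast this
  have hLh : ∀ k, k ≤ 2 * c + 8 * A + 60 → L ^ k ≤ h := fun k hk =>
    le_trans (pow_le_pow_right₀ hL1 hk) hh
  have hh1 : (1 : ℝ) < h := by
    have h1 : (1 : ℝ) < L ^ 20 := one_lt_pow₀ (by linarith) (by norm_num)
    linarith [hLh 20 (by omega)]
  have hh0 : (0 : ℝ) < h := by linarith
  have hX00 : (0 : ℝ) < X := by
    have : (h : ℝ) ≤ X := by exact_mod_cast hhX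
    linarith
  have hlogh : 0 < Real.log h := Real.log_pos hh1
  have hloghL : Real.log h ≤ L := Real.log_le_log hh0 (by exact_mod_cast hhX)
  have hlogL : 1 ≤ Real.log L := by
    rw [Real.le_log_iff_exp_le hL0]
    have := Real.exp_one_lt_d9
    linarith
  set ρ := Real.log L / Real.log h with hρ
  have hρ1 : 1 / L ≤ ρ := by
    rw [hρ, div_le_div_iff₀ hL0 hlogh]
    nlinarith
  have hρ0 : 0 < ρ := lt_of_lt_of_le (by positivity) hρ1
  -- conditions on `d`
  have hdcond : ∀ d ∈ Icc 1 D, 4 * d ^ 4 ≤ h ∧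
      (2 * L) ^ c ≤ (h : ℝ) / (2 * (d : ℝ) ^ 2) := by
    intro d hd
    rw [mem_Icc] at hd
    have hd0 : (0 : ℝ) < d := by exact_mod_cast (by omega : 0 < d)
    have hdD : (d : ℝ) ≤ 2 * L ^ (2 * A + 8) := le_trans (by exact_mod_cast hd.2) hDup
    have hd2 : (d : ℝ) ^ 2 ≤ 4 * L ^ (4 * A + 16) := by
      calc (d : ℝ) ^ 2 ≤ (2 * L ^ (2 * A + 8)) ^ 2 := pow_le_pow_left₀ hd0.le hdD 2
        _ = 4 * L ^ (4 * A + 16) := by
            rw [mul_pow, ← pow_mul]
            congr 1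
            · norm_num
            · congr 1; ring
    have hd4 : (d : ℝ) ^ 4 ≤ 16 * L ^ (8 * A + 32) := by
      calc (d : ℝ) ^ 4 ≤ (2 * L ^ (2 * A + 8)) ^ 4 := pow_le_pow_left₀ hd0.le hdD 4
        _ = 16 * L ^ (8 * A + 32) := by
            rw [mul_pow, ← pow_mul]
            congr 1
            · norm_num
            · congr 1; ring
    constructor
    · have h1 : 4 * (d : ℝ) ^ 4 ≤ h := by
        have h3 : 64 * L ^ (8 * A + 32) ≤ L * L ^ (8 * A + 32) :=
          mul_le_mul_of_nonneg_right (by linarith) (by positivity)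
        have h4 : L * L ^ (8 * A + 32) = L ^ (8 * A + 33) := by ring
        linarith [hLh (8 * A + 33) (by omega)]
      exact_mod_cast h1
    · rw [le_div_iff₀ (by positivity)]
      have h1 : (2 : ℝ) ^ (c + 3) ≤ L := by linarith
      calc (2 * L) ^ c * (2 * (d : ℝ) ^ 2) ≤ (2 * L) ^ c * (2 * (4 * L ^ (4 * A + 16))) := by
            apply mul_le_mul_of_nonneg_left _ (by positivity)
            linarith
        _ = 2 ^ (c + 3) * L ^ (c + (4 * A + 16)) := by rw [mul_pow, pow_add L c]; ring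
        _ ≤ L * L ^ (c + (4 * A + 16)) := by
            apply mul_le_mul_of_nonneg_right h1 (by positivity)
        _ = L ^ (c + (4 * A + 17)) := by ring
        _ ≤ (h : ℝ) := hLh _ (by omega)
  set a : ℕ → ℕ → ℝ := fun d j =>
    ∑ n ∈ (Ico (j - h) j).filter (fun n => d ^ 2 ∣ n), lio (n / d ^ 2) with ha
  set t : ℕ → ℝ := fun j => ∑ n ∈ Ico (j - h) j,
    (((Ioc D n).filter (fun d => d ^ 2 ∣ n)).card : ℝ) with ht
  have hone : ∀ d ∈ Icc 1 D, (((Ioc X (2 * X)).filter (fun j =>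
      4 * C * (h / (d : ℝ) ^ 2) * ρ + 1 < |a d j|)).card : ℝ)
        ≤ 2 ^ (3 * A + 22) * X / L ^ (3 * A + 20) := by
    intro d hd
    obtain ⟨q1, q2⟩ := hdcond d hd
    rw [mem_Icc] at hd
    exact ExM_one C c x0 (3 * A + 20) hC hv X h d hd.1 q1 hhX hX0 (by linarith) q2
  have htail0 := tail D h X hD1 hhX
  have htail : (((Ioc X (2 * X)).filter (fun j => h / L < t j)).card : ℝ) ≤ X / (2 * L ^ A) := by
    have h1 : (((Ioc X (2 * X)).filter (fun j => h / L < t j)).card : ℝ) * (h / L) ^ 2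
        ≤ ∑ j ∈ Ioc X (2 * X), (t j) ^ 2 := by
      calc (((Ioc X (2 * X)).filter (fun j => h / L < t j)).card : ℝ) * (h / L) ^ 2
          = ∑ j ∈ (Ioc X (2 * X)).filter (fun j => h / L < t j), ((h : ℝ) / L) ^ 2 := by
            rw [sum_const, nsmul_eq_mul]
        _ ≤ ∑ j ∈ (Ioc X (2 * X)).filter (fun j => h / L < t j), (t j) ^ 2 := by
            refine sum_le_sum fun j hj => ?_
            rw [mem_filter] at hj
            exact pow_le_pow_left₀ (by positivity) hj.2.le 2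
        _ ≤ ∑ j ∈ Ioc X (2 * X), (t j) ^ 2 :=
            sum_le_sum_of_subset_of_nonneg (filter_subset _ _) fun j _ _ => sq_nonneg _
    have h2 : L ^ (A + 4) ≤ Real.sqrt D := by
      apply Real.le_sqrt_of_sq_le
      calc (L ^ (A + 4)) ^ 2 = L ^ (2 * A + 8) := by rw [← pow_mul]; congr 1; ring
        _ ≤ (D : ℝ) := hDlo
    have h3 : 100 * X * (h : ℝ) ^ 2 / Real.sqrt D ≤ 100 * X * (h : ℝ) ^ 2 / L ^ (A + 4) :=
      div_le_div_of_nonneg_left (by positivity) (by positivity) h2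
    have h4 : (((Ioc X (2 * X)).filter (fun j => h / L < t j)).card : ℝ) * (h / L) ^ 2
        ≤ 100 * X * (h : ℝ) ^ 2 / L ^ (A + 4) := (h1.trans htail0).trans h3
    have h5 : 100 * X * (h : ℝ) ^ 2 / L ^ (A + 4) ≤ (X / (2 * L ^ A)) * (h / L) ^ 2 := by
      rw [div_pow, div_mul_div_comm, div_le_div_iff₀ (by positivity) (by positivity)]
      have h6 : 200 ≤ L ^ 2 := by nlinarith
      calc 100 * X * (h : ℝ) ^ 2 * (2 * L ^ A * L ^ 2)
          = (200 * (X * (h : ℝ) ^ 2 * L ^ A * L ^ 2)) := by ring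
        _ ≤ L ^ 2 * (X * (h : ℝ) ^ 2 * L ^ A * L ^ 2) :=
            mul_le_mul_of_nonneg_right h6 (by positivity)
        _ = X * (h : ℝ) ^ 2 * L ^ (A + 4) := by ring
    exact le_of_mul_le_mul_right (h4.trans h5) (by positivity)
  -- pointwise
  have hpt : ∀ j ∈ Ioc X (2 * X), (∀ d ∈ Icc 1 D, |a d j| ≤ 4 * C * (h / (d : ℝ) ^ 2) * ρ + 1) →
      t j ≤ h / L → |Uw muR h j| ≤ (8 * C + 2) * h * ρ := by
    intro j hj hgood htj
    rw [mem_Ioc] at hj
    have h1 := ExM_split D h j (by omega)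
    have h2 : ∑ d ∈ Icc 1 D, |a d j| ≤ 8 * C * h * ρ + D := by
      calc ∑ d ∈ Icc 1 D, |a d j| ≤ ∑ d ∈ Icc 1 D, (4 * C * (h / (d : ℝ) ^ 2) * ρ + 1) :=
            sum_le_sum hgood
        _ = 4 * C * h * ρ * ∑ d ∈ Icc 1 D, (1 : ℝ) / (d : ℝ) ^ 2 + D := by
            rw [sum_add_distrib, mul_sum, sum_const, nsmul_eq_mul, Nat.card_Icc, mul_one]
            congr 1
            refine sum_congr rfl fun d _ => ?_
            ring
        _ ≤ 4 * C * h * ρ * 2 + D := by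
            have := mul_le_mul_of_nonneg_left (ExM_inv_sq D)
              (by positivity : (0 : ℝ) ≤ 4 * C * h * ρ)
            linarith
        _ = _ := by ring
    have h3 : (D : ℝ) ≤ h * ρ := by
      calc (D : ℝ) ≤ 2 * L ^ (2 * A + 8) := hDup
        _ ≤ L * L ^ (2 * A + 8) := mul_le_mul_of_nonneg_right (by linarith) (by positivity)
        _ = L ^ (2 * A + 10) * (1 / L) := by
            rw [show 2 * A + 10 = (2 * A + 9) + 1 from rfl, pow_succ L (2 * A + 9)]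
            field_simp
            ring
        _ ≤ h * ρ := mul_le_mul (hLh _ (by omega)) hρ1 (by positivity) hh0.le
    have h4 : (h : ℝ) / L ≤ h * ρ := by
      rw [div_eq_mul_one_div]
      exact mul_le_mul_of_nonneg_left hρ1 hh0.le
    have h5 : |Uw muR h j| ≤ ∑ d ∈ Icc 1 D, |a d j| + t j := h1
    calc |Uw muR h j| ≤ (8 * C * h * ρ + D) + h / L := h5.trans (add_le_add h2 htj)
      _ ≤ (8 * C * h * ρ + h * ρ) + h * ρ := by linarith
      _ = (8 * C + 2) * h * ρ := by ring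
  have hsub : (Ioc X (2 * X)).filter (fun j => (8 * C + 2) * h * ρ < |Uw muR h j|) ⊆
      ((Icc 1 D).biUnion fun d => (Ioc X (2 * X)).filter (fun j =>
        4 * C * (h / (d : ℝ) ^ 2) * ρ + 1 < |a d j|)) ∪
      (Ioc X (2 * X)).filter (fun j => h / L < t j) := by
    intro j hj
    rw [mem_filter] at hj
    rw [mem_union, mem_biUnion, mem_filter]
    by_contra hcon
    push Not at hcon
    refine absurd (hpt j hj.1 ?_ (hcon.2 hj.1)) (not_le.2 hj.2)
    intro d hd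
    have := hcon.1 d hd
    rw [mem_filter, not_and, not_lt] at this
    exact this hj.1
  have hcard : (((Ioc X (2 * X)).filter (fun j => (8 * C + 2) * h * ρ < |Uw muR h j|)).card : ℝ) ≤
      ∑ d ∈ Icc 1 D, (((Ioc X (2 * X)).filter (fun j =>
        4 * C * (h / (d : ℝ) ^ 2) * ρ + 1 < |a d j|)).card : ℝ) +
      (((Ioc X (2 * X)).filter (fun j => h / L < t j)).card : ℝ) := by
    have h1 := (card_le_card hsub).trans ((card_union_le _ _).trans
      (Nat.add_le_add_right card_biUnion_le _))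
    exact_mod_cast h1
  have hD2 : ∑ d ∈ Icc 1 D, (((Ioc X (2 * X)).filter (fun j =>
        4 * C * (h / (d : ℝ) ^ 2) * ρ + 1 < |a d j|)).card : ℝ) ≤ X / (2 * L ^ A) := by
    calc ∑ d ∈ Icc 1 D, (((Ioc X (2 * X)).filter (fun j =>
        4 * C * (h / (d : ℝ) ^ 2) * ρ + 1 < |a d j|)).card : ℝ)
        ≤ ∑ d ∈ Icc 1 D, 2 ^ (3 * A + 22) * X / L ^ (3 * A + 20) := sum_le_sum hone
      _ = D * (2 ^ (3 * A + 22) * X / L ^ (3 * A + 20)) := by
          rw [sum_const, nsmul_eq_mul, Nat.card_Icc]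
          rfl
      _ ≤ (2 * L ^ (2 * A + 8)) * (2 ^ (3 * A + 22) * X / L ^ (3 * A + 20)) :=
          mul_le_mul_of_nonneg_right hDup (by positivity)
      _ ≤ X / (2 * L ^ A) := by
          rw [mul_div_assoc', div_le_div_iff₀ (by positivity) (by positivity)]
          have h6 : (2 : ℝ) ^ (3 * A + 24) ≤ L := by
            have : (2 : ℝ) ^ (3 * A + 24) ≤ 2 ^ (3 * A + 26) :=
              pow_le_pow_right₀ (by norm_num) (by omega)
            linarith
          calc 2 * L ^ (2 * A + 8) * (2 ^ (3 * A + 22) * X) * (2 * L ^ A)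
              = 2 ^ (3 * A + 24) * (X * L ^ (3 * A + 8)) := by
                rw [show 3 * A + 24 = (3 * A + 22) + 2 from rfl, pow_add (2 : ℝ) (3 * A + 22) 2,
                  show 3 * A + 8 = (2 * A + 8) + A by ring, pow_add L (2 * A + 8) A]
                ring
            _ ≤ L * (X * L ^ (3 * A + 8)) := mul_le_mul_of_nonneg_right h6 (by positivity)
            _ = X * L ^ (3 * A + 9) := by ring
            _ ≤ X * L ^ (3 * A + 20) :=
                mul_le_mul_of_nonneg_left (pow_le_pow_right₀ hL1 (by omega)) hX00.le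
  refine hcard.trans ((add_le_add hD2 htail).trans (le_of_eq ?_))
  field_simp
  ring

end Pool.Agent.H76.MU
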