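import Pool.Agent.H76.MU.ExM

/-!
# MU FinX: the real statement

Adapt `FinM.lean` (helper92).  Given `A`.  `C, c, x0` from `ExB muR` for `A + 1`.  `X' = ⌊X⌋₊`, `h = ⌊H⌋₊` (`≥ 3`, `H ≤ 2 h`), `h ≤ X'`.  Always `|M x H| ≤ H + 1 ≤ 2 H`.
(a) `X' < x1` (a constant, `≥ x0`): `log log X ≥ 1` (`X ≥ 16`), `log H ≤ log (x1 + 1)`: with `C' ≥ 2 log (x1 + 1)` the set is empty.
(b) `X' ≥ x1`, `h < (log (2X'))^c`: `log H ≤ log (2 h) ≤ C'' log log X`, so the set is empty if `C' ≥ 2 C''`.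
(c) `X' ≥ x1`, `h ≥ (log (2X'))^c`: for real `x ∈ [X, 2X]` the window is `{n : x - H/2 < n < x + H/2} = Ico a b`, `b = ⌈x + H/2⌉₊`, `|b - a - h| ≤ 2`, so `|M x H - Uw muR h b| ≤ 2`.
`b(x) ∈ Ioc X' (4 X')` and `b(x) = j` only for `x` in an interval of length `1`.  If `|M x H| > C' H log log X/log H` then `|Uw muR h b| > C' H log log X/log H - 2 ≥ C h (log log (2X')/log h)`
(`log log (2X') ≤ 2 log log X`, `log h ≥ (log H)/2`, `2 ≤ 2 H log log X/log H`), so `b(x)` is one of the at most `X'/(log X')^{A+1} + 2X'/(log (2X'))^{A+1} ≤ X/(log X)^A` exceptional `j` in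
`Ioc X' (2X') ∪ Ioc (2X') (4X')`: the set is contained in a union of that many intervals of length `1` (`{x : ⌈x + H/2⌉₊ = j} ⊆ Ioc (j - 1 - H/2) (j - H/2)`).
-/

set_option autoImplicit false

namespace Pool.Agent.H76.MU

open Finset MeasureTheory

/-- `M x H` is the sum of `μ(n)` over the integers `n` with `|n - x| < H / 2` -/
noncomputable def MX (x H : ℝ) : ℝ :=
  ∑ n ∈ (Finset.range (⌈x + H⌉₊ + 1)).filter (fun n : ℕ => |(n : ℝ) - x| < H / 2),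
    ((ArithmeticFunction.moebius n : ℤ) : ℝ)

private lemma FinX_mu (n : ℕ) : |muR n| ≤ 1 := by
  unfold muR
  exact_mod_cast ArithmeticFunction.abs_moebius_le_one (n := n)

/-- the window -/
private lemma FinX_window (x H : ℝ) (hx : H / 2 ≤ x) (hH : 0 ≤ H) :
    MX x H = ∑ n ∈ Ico (⌊x - H / 2⌋₊ + 1) ⌈x + H / 2⌉₊, muR n := by
  unfold MX muR
  refine sum_congr ?_ fun _ _ => rfl
  ext n
  rw [mem_filter, mem_range, mem_Ico, Nat.succ_le_iff, Nat.floor_lt (by linarith), Nat.lt_ceil,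
    abs_lt]
  constructor
  · rintro ⟨_, h1, h2⟩
    constructor <;> linarith
  · rintro ⟨h1, h2⟩
    refine ⟨?_, by linarith, by linarith⟩
    have h3 : n < ⌈x + H⌉₊ := by
      rw [Nat.lt_ceil]
      linarith
    omega

private lemma FinX_sum (f : ℕ → ℝ) (hf : ∀ n, |f n| ≤ 1) (a b : ℕ) :
    |∑ n ∈ Ico a b, f n| ≤ ((b - a : ℕ) : ℝ) := by
  refine (abs_sum_le_sum_abs _ _).trans ?_
  refine (sum_le_sum fun n _ => hf n).trans ?_
  rw [sum_const, Nat.card_Ico, nsmul_eq_mul, mul_one]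

private lemma FinX_bd (x H : ℝ) (hx : H / 2 ≤ x) (hH : 0 ≤ H) : |MX x H| ≤ H + 1 := by
  rw [FinX_window x H hx hH]
  refine (FinX_sum muR FinX_mu _ _).trans ?_
  rcases le_total ⌈x + H / 2⌉₊ (⌊x - H / 2⌋₊ + 1) with h | h
  · rw [Nat.sub_eq_zero_of_le h, Nat.cast_zero]
    linarith
  · rw [Nat.cast_sub h]
    have h1 : (⌈x + H / 2⌉₊ : ℝ) < x + H / 2 + 1 := Nat.ceil_lt_add_one (by linarith)
    have h2 : x - H / 2 < (⌊x - H / 2⌋₊ : ℝ) + 1 := Nat.lt_floor_add_one _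
    push_cast
    linarith

private lemma FinX_diff (f : ℕ → ℝ) (hf : ∀ n, |f n| ≤ 1) (a b c : ℕ) (hc : c ≤ b)
    (hab : a ≤ b) (h1 : c ≤ a + 2) (h2 : a ≤ c + 2) :
    |∑ n ∈ Ico a b, f n - ∑ n ∈ Ico c b, f n| ≤ 2 := by
  rcases le_total a c with h | h
  · rw [← sum_Ico_consecutive f h hc, add_sub_cancel_right]
    refine (FinX_sum f hf _ _).trans ?_
    have : c - a ≤ 2 := by omega
    exact_mod_cast this
  · rw [← sum_Ico_consecutive f h hab, sub_add_cancel_right, abs_neg]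
    refine (FinX_sum f hf _ _).trans ?_
    have : a - c ≤ 2 := by omega
    exact_mod_cast this

/-- comparison with the window of integers -/
private lemma FinX_Uw (x H : ℝ) (hx : H / 2 ≤ x) (hH : 1 ≤ H) :
    |MX x H - Uw muR ⌊H⌋₊ ⌈x + H / 2⌉₊| ≤ 2 := by
  rw [FinX_window x H hx (by linarith)]
  unfold Uw
  have h1 : (⌈x + H / 2⌉₊ : ℝ) < x + H / 2 + 1 := Nat.ceil_lt_add_one (by linarith)
  have h1' : x + H / 2 ≤ (⌈x + H / 2⌉₊ : ℝ) := Nat.le_ceil _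
  have h2 : x - H / 2 < (⌊x - H / 2⌋₊ : ℝ) + 1 := Nat.lt_floor_add_one _
  have h2' : (⌊x - H / 2⌋₊ : ℝ) ≤ x - H / 2 := Nat.floor_le (by linarith)
  have h3 : (⌊H⌋₊ : ℝ) ≤ H := Nat.floor_le (by linarith)
  have h3' : H < (⌊H⌋₊ : ℝ) + 1 := Nat.lt_floor_add_one _
  have hle : ⌊H⌋₊ ≤ ⌈x + H / 2⌉₊ := by
    have : (⌊H⌋₊ : ℝ) ≤ (⌈x + H / 2⌉₊ : ℝ) := by linarith
    exact_mod_cast this
  have h4 : (((⌈x + H / 2⌉₊ - ⌊H⌋₊ : ℕ)) : ℝ) = ⌈x + H / 2⌉₊ - ⌊H⌋₊ := Nat.cast_sub hle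
  refine FinX_diff muR FinX_mu _ _ _ (Nat.sub_le _ _) ?_ ?_ ?_
  · have h5 : (⌊x - H / 2⌋₊ : ℝ) < (⌈x + H / 2⌉₊ : ℝ) := by linarith
    have h6 : ⌊x - H / 2⌋₊ < ⌈x + H / 2⌉₊ := by exact_mod_cast h5
    omega
  · have h5 : (((⌈x + H / 2⌉₊ - ⌊H⌋₊ : ℕ)) : ℝ) < ((⌊x - H / 2⌋₊ + 3 : ℕ) : ℝ) + 1 := by
      rw [h4]
      push_cast
      linarith
    have h6 : ⌈x + H / 2⌉₊ - ⌊H⌋₊ < ⌊x - H / 2⌋₊ + 3 + 1 := by exact_mod_cast h5
    omega
  · have h5 : ((⌊x - H / 2⌋₊ : ℕ) : ℝ) < (((⌈x + H / 2⌉₊ - ⌊H⌋₊ : ℕ)) : ℝ) + 2 := by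
      rw [h4]
      linarith
    have h6 : ⌊x - H / 2⌋₊ < ⌈x + H / 2⌉₊ - ⌊H⌋₊ + 2 := by exact_mod_cast h5
    omega

private lemma FinX_loglog {X : ℝ} (hX : 16 ≤ X) : 1 ≤ Real.log (Real.log X) ∧
    2 ≤ Real.log X := by
  have h1 : Real.log 16 ≤ Real.log X := Real.log_le_log (by norm_num) hX
  have h2 : Real.log 16 = 4 * Real.log 2 := by
    rw [show (16 : ℝ) = 2 ^ 4 by norm_num, Real.log_pow]
    norm_num
  have h3 := Real.log_two_gt_d9
  have h4 := Real.exp_one_lt_d9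
  have h5 : Real.exp 1 ≤ Real.log X := by linarith
  refine ⟨?_, by linarith⟩
  rw [Real.le_log_iff_exp_le (by linarith)]
  exact h5

/-- a set covered by the intervals of a finite set of values of `⌈x + H/2⌉₊` -/
private lemma FinX_cover (S : Set ℝ) (H : ℝ) (hH : 0 ≤ H) (E : Finset ℕ)
    (h : ∀ x ∈ S, 0 ≤ x ∧ ⌈x + H / 2⌉₊ ∈ E) : volume S ≤ ENNReal.ofReal (E.card : ℝ) := by
  have hsub : S ⊆ ⋃ j ∈ E, Set.Ioc ((j : ℝ) - 1 - H / 2) ((j : ℝ) - H / 2) := by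
    intro x hx
    obtain ⟨h0, h1⟩ := h x hx
    rw [Set.mem_iUnion₂]
    refine ⟨_, h1, ?_⟩
    have hc1 : (⌈x + H / 2⌉₊ : ℝ) < x + H / 2 + 1 := Nat.ceil_lt_add_one (by linarith)
    have hc2 : x + H / 2 ≤ (⌈x + H / 2⌉₊ : ℝ) := Nat.le_ceil _
    constructor
    · linarith
    · linarith
  refine (measure_mono hsub).trans ?_
  refine (measure_biUnion_finset_le E _).trans ?_
  have h1 : ∀ j ∈ E, volume (Set.Ioc ((j : ℝ) - 1 - H / 2) ((j : ℝ) - H / 2)) ≤ 1 := by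
    intro j _
    rw [Real.volume_Ioc, ENNReal.ofReal_le_one]
    linarith
  refine (sum_le_sum h1).trans ?_
  rw [sum_const, nsmul_eq_mul, mul_one, ENNReal.ofReal_natCast]

theorem fin_x (hM : ExB muR) : ∀ A : ℕ, ∃ C : ℝ, 0 < C ∧ ∀ X H : ℝ, 16 ≤ X → 3 ≤ H → H ≤ X →
    volume {x : ℝ | X ≤ x ∧ x ≤ 2 * X ∧
      C * H * (Real.log (Real.log X) / Real.log H) < |MX x H|}
        ≤ ENNReal.ofReal (X / Real.log X ^ A) := by
  classical
  intro A
  obtain ⟨C, c, x0, hC, hvar⟩ := hM (A + 1)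
  obtain ⟨x2, hx2⟩ := log_ge (3 * 2 ^ A)
  set x1 : ℕ := max x0 x2 with hx1
  have hx1n : (0 : ℝ) ≤ x1 := Nat.cast_nonneg x1
  have hlx1 : 0 ≤ Real.log ((x1 : ℝ) + 1) := Real.log_nonneg (by linarith)
  have hc0 : (0 : ℝ) ≤ c := Nat.cast_nonneg c
  refine ⟨2 * Real.log (x1 + 1) + 2 * (2 * c + 1) + (4 * C + 2), by positivity, ?_⟩
  intro X H hX hH hHX
  obtain ⟨hll, hl2⟩ := FinX_loglog hX
  have hX0 : 0 < X := by linarith
  have hlH1 : 1 ≤ Real.log H := by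
    rw [Real.le_log_iff_exp_le (by linarith)]
    have := Real.exp_one_lt_d9
    linarith
  have hlH0 : 0 < Real.log H := by linarith
  set ll := Real.log (Real.log X) with hlldef
  set C' := 2 * Real.log ((x1 : ℝ) + 1) + 2 * (2 * (c : ℝ) + 1) + (4 * C + 2) with hC'
  have hf1 : (⌊X⌋₊ : ℝ) ≤ X := Nat.floor_le hX0.le
  have hf2 : X < (⌊X⌋₊ : ℝ) + 1 := Nat.lt_floor_add_one _
  have hX16 : 16 ≤ ⌊X⌋₊ := Nat.le_floor (by exact_mod_cast hX)
  have hX16' : (16 : ℝ) ≤ (⌊X⌋₊ : ℝ) := by exact_mod_cast hX16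
  -- the empty case
  have hgen : 2 * Real.log H ≤ C' * ll →
      volume {x : ℝ | X ≤ x ∧ x ≤ 2 * X ∧ C' * H * (ll / Real.log H) < |MX x H|}
        ≤ ENNReal.ofReal (X / Real.log X ^ A) := by
    intro hA
    have hemp : {x : ℝ | X ≤ x ∧ x ≤ 2 * X ∧ C' * H * (ll / Real.log H) < |MX x H|} = ∅ := by
      rw [Set.eq_empty_iff_forall_notMem]
      rintro x ⟨hx1, hx2, hx3⟩
      have h1 := FinX_bd x H (by linarith) (by linarith)
      have h2 : 2 ≤ C' * (ll / Real.log H) := by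
        rw [← mul_div_assoc, le_div_iff₀ hlH0]
        exact hA
      have h3 : 2 * H ≤ C' * H * (ll / Real.log H) := by
        calc 2 * H ≤ (C' * (ll / Real.log H)) * H :=
              mul_le_mul_of_nonneg_right h2 (by linarith)
          _ = C' * H * (ll / Real.log H) := by ring
      linarith
    rw [hemp, measure_empty]
    exact zero_le
  -- `log log (2 X') ≤ 2 log log X`
  have hlog2X : Real.log (2 * (⌊X⌋₊ : ℝ)) ≤ Real.log X ^ 2 := by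
    have h1 : Real.log (2 * (⌊X⌋₊ : ℝ)) ≤ Real.log 2 + Real.log X := by
      rw [← Real.log_mul (by norm_num) hX0.ne']
      exact Real.log_le_log (by positivity) (by linarith)
    have h2 : Real.log 2 ≤ Real.log X := Real.log_le_log (by norm_num) (by linarith)
    nlinarith
  have hlogX'1 : 2 ≤ Real.log (⌊X⌋₊ : ℝ) := (FinX_loglog hX16').2
  have hlog2X1 : 2 ≤ Real.log (2 * (⌊X⌋₊ : ℝ)) :=
    hlogX'1.trans (Real.log_le_log (by linarith) (by linarith))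
  have hll2 : Real.log (Real.log (2 * (⌊X⌋₊ : ℝ))) ≤ 2 * ll := by
    have h1 := Real.log_le_log (by linarith) hlog2X
    rw [Real.log_pow] at h1
    push_cast at h1
    exact h1
  have hp1 : 0 ≤ 2 * Real.log ((x1 : ℝ) + 1) * ll := by positivity
  have hp2 : 0 ≤ 2 * (2 * (c : ℝ) + 1) * ll := by positivity
  have hp3 : 0 ≤ (4 * C + 2) * ll := by positivity
  rcases lt_or_ge ⌊X⌋₊ x1 with hcase | hcase
  · -- (a)
    refine hgen ?_
    have h1 : H ≤ (x1 : ℝ) + 1 := by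
      have : (⌊X⌋₊ : ℝ) < x1 := by exact_mod_cast hcase
      linarith
    have h2 : Real.log H ≤ Real.log (x1 + 1) := Real.log_le_log (by linarith) h1
    have h4 : 2 * Real.log H ≤ 2 * Real.log ((x1 : ℝ) + 1) * ll := by
      have h5 : 2 * Real.log H ≤ 2 * Real.log ((x1 : ℝ) + 1) := by linarith
      exact h5.trans (le_mul_of_one_le_right (by positivity) hll)
    rw [hC']
    linarith
  rcases lt_or_ge ((⌊H⌋₊ : ℕ) : ℝ) (Real.log ((2 * ⌊X⌋₊ : ℕ) : ℝ) ^ c) with hcase2 | hcase2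
  · -- (b)
    refine hgen ?_
    have hH2 : H < 2 * Real.log ((2 * ⌊X⌋₊ : ℕ) : ℝ) ^ c := by
      have h1 : H < (⌊H⌋₊ : ℝ) + 1 := Nat.lt_floor_add_one _
      have h2 : 3 ≤ ⌊H⌋₊ := Nat.le_floor (by exact_mod_cast hH)
      have h3 : (3 : ℝ) ≤ (⌊H⌋₊ : ℝ) := by exact_mod_cast h2
      linarith
    push_cast at hH2
    have h1 : Real.log H ≤ Real.log 2 + c * Real.log (Real.log (2 * (⌊X⌋₊ : ℝ))) := by
      have h2 := Real.log_le_log (by linarith) hH2.le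
      rwa [Real.log_mul (by norm_num) (by positivity), Real.log_pow] at h2
    have h2 : Real.log 2 ≤ 1 := by
      have := Real.log_two_lt_d9
      linarith
    have h3 : (c : ℝ) * Real.log (Real.log (2 * (⌊X⌋₊ : ℝ))) ≤ c * (2 * ll) :=
      mul_le_mul_of_nonneg_left hll2 hc0
    have h4 : 2 * Real.log H ≤ 2 * (2 * (c : ℝ) + 1) * ll := by linarith
    rw [hC']
    linarith
  · -- (c)
    have hx0X : x0 ≤ ⌊X⌋₊ := (le_max_left _ _).trans hcase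
    have hx2X : x2 ≤ ⌊X⌋₊ := (le_max_right _ _).trans hcase
    have hlogbig : 3 * 2 ^ A ≤ Real.log (⌊X⌋₊ : ℝ) := hx2 _ hx2X
    have hh3 : 3 ≤ ⌊H⌋₊ := Nat.le_floor (by exact_mod_cast hH)
    have hh3' : (3 : ℝ) ≤ (⌊H⌋₊ : ℝ) := by exact_mod_cast hh3
    have hhH : (⌊H⌋₊ : ℝ) ≤ H := Nat.floor_le (by linarith)
    have hHh : H < (⌊H⌋₊ : ℝ) + 1 := Nat.lt_floor_add_one _
    have hhX : ⌊H⌋₊ ≤ ⌊X⌋₊ := Nat.floor_le_floor hHX
    have hlogh : Real.log H ≤ 2 * Real.log (⌊H⌋₊ : ℝ) := by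
      have h1 : H ≤ (⌊H⌋₊ : ℝ) ^ 2 := by nlinarith
      have h2 := Real.log_le_log (by linarith) h1
      rw [Real.log_pow] at h2
      push_cast at h2
      exact h2
    have hlogh0 : 0 < Real.log (⌊H⌋₊ : ℝ) := by linarith
    have hcase1' : Real.log ((⌊X⌋₊ : ℕ) : ℝ) ^ c ≤ ((⌊H⌋₊ : ℕ) : ℝ) := by
      refine le_trans (pow_le_pow_left₀ (by linarith) ?_ c) hcase2
      refine Real.log_le_log (by linarith) ?_
      push_cast
      linarith
    have v1 := hvar ⌊X⌋₊ ⌊H⌋₊ hx0X hcase1' hhX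
    have v2 := hvar (2 * ⌊X⌋₊) ⌊H⌋₊ (by omega) hcase2 (by omega)
    -- the comparison of the bounds
    have hcmp : ∀ y : ℝ, y ≤ 2 * ll →
        C * (⌊H⌋₊ : ℝ) * (y / Real.log (⌊H⌋₊ : ℝ)) ≤ 4 * C * (H * (ll / Real.log H)) := by
      intro y hy
      have h1 : y / Real.log (⌊H⌋₊ : ℝ) ≤ 4 * (ll / Real.log H) := by
        rw [div_le_iff₀ hlogh0, mul_comm, ← mul_assoc, ← mul_div_assoc, le_div_iff₀ hlH0]
        calc y * Real.log H ≤ (2 * ll) * Real.log H :=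
              mul_le_mul_of_nonneg_right hy hlH0.le
          _ ≤ (2 * ll) * (2 * Real.log (⌊H⌋₊ : ℝ)) :=
              mul_le_mul_of_nonneg_left hlogh (by linarith)
          _ = Real.log (⌊H⌋₊ : ℝ) * 4 * ll := by ring
      have h2 : 0 ≤ 4 * (ll / Real.log H) := by positivity
      calc C * (⌊H⌋₊ : ℝ) * (y / Real.log (⌊H⌋₊ : ℝ))
          ≤ C * (⌊H⌋₊ : ℝ) * (4 * (ll / Real.log H)) :=
            mul_le_mul_of_nonneg_left h1 (by positivity)
        _ ≤ C * H * (4 * (ll / Real.log H)) :=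
            mul_le_mul_of_nonneg_right (mul_le_mul_of_nonneg_left hhH hC.le) h2
        _ = 4 * C * (H * (ll / Real.log H)) := by ring
    have hQ1 : 1 ≤ H * (ll / Real.log H) := by
      rw [← mul_div_assoc, one_le_div hlH0]
      have h2 : Real.log H ≤ H := by
        have := Real.log_le_sub_one_of_pos (by linarith : 0 < H)
        linarith
      exact h2.trans (le_mul_of_one_le_right (by linarith) hll)
    have hllX'2 : Real.log (Real.log (⌊X⌋₊ : ℝ)) ≤ 2 * ll := by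
      have h1 : Real.log (⌊X⌋₊ : ℝ) ≤ Real.log X := Real.log_le_log (by linarith) hf1
      have h2 : Real.log (Real.log (⌊X⌋₊ : ℝ)) ≤ ll := Real.log_le_log (by linarith) h1
      linarith
    have hll2' : Real.log (Real.log ((2 * ⌊X⌋₊ : ℕ) : ℝ)) ≤ 2 * ll := by
      push_cast
      exact hll2
    set E1 := (Ioc ⌊X⌋₊ (2 * ⌊X⌋₊)).filter (fun j =>
      C * (⌊H⌋₊ : ℝ) * (Real.log (Real.log (⌊X⌋₊ : ℝ)) / Real.log (⌊H⌋₊ : ℝ)) <
        |Uw muR ⌊H⌋₊ j|) with hE1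
    set E2 := (Ioc (2 * ⌊X⌋₊) (2 * (2 * ⌊X⌋₊))).filter (fun j =>
      C * (⌊H⌋₊ : ℝ) * (Real.log (Real.log ((2 * ⌊X⌋₊ : ℕ) : ℝ)) / Real.log (⌊H⌋₊ : ℝ)) <
        |Uw muR ⌊H⌋₊ j|) with hE2
    have hcov := FinX_cover
      {x : ℝ | X ≤ x ∧ x ≤ 2 * X ∧ C' * H * (ll / Real.log H) < |MX x H|} H (by linarith)
      (E1 ∪ E2) (fun x hx => ?_)
    · refine hcov.trans (ENNReal.ofReal_le_ofReal ?_)
      have hcard : ((E1 ∪ E2).card : ℝ) ≤ (E1.card : ℝ) + E2.card := by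
        exact_mod_cast card_union_le E1 E2
      have hl0 : 0 < Real.log (⌊X⌋₊ : ℝ) := by linarith
      have hpow : 0 < Real.log (⌊X⌋₊ : ℝ) ^ (A + 1) := by positivity
      have v2' : (E2.card : ℝ) ≤ 2 * (⌊X⌋₊ : ℝ) / Real.log (⌊X⌋₊ : ℝ) ^ (A + 1) := by
        refine v2.trans ?_
        push_cast
        refine div_le_div_of_nonneg_left (by positivity) hpow ?_
        refine pow_le_pow_left₀ hl0.le ?_ _
        exact Real.log_le_log (by linarith) (by linarith)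
      have hsum : ((E1 ∪ E2).card : ℝ) ≤ 3 * (⌊X⌋₊ : ℝ) / Real.log (⌊X⌋₊ : ℝ) ^ (A + 1) := by
        have e : 3 * (⌊X⌋₊ : ℝ) / Real.log (⌊X⌋₊ : ℝ) ^ (A + 1) =
            (⌊X⌋₊ : ℝ) / Real.log (⌊X⌋₊ : ℝ) ^ (A + 1) +
            2 * (⌊X⌋₊ : ℝ) / Real.log (⌊X⌋₊ : ℝ) ^ (A + 1) := by ring
        rw [e]
        linarith
      refine hsum.trans ?_
      have hlX : Real.log X ≤ 2 * Real.log (⌊X⌋₊ : ℝ) := by
        have h1 : X ≤ (⌊X⌋₊ : ℝ) ^ 2 := by nlinarith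
        have h2 := Real.log_le_log (by linarith) h1
        rw [Real.log_pow] at h2
        push_cast at h2
        exact h2
      have hlX0 : 0 < Real.log X := by linarith
      rw [div_le_div_iff₀ hpow (by positivity)]
      calc 3 * (⌊X⌋₊ : ℝ) * Real.log X ^ A
          ≤ 3 * X * (2 * Real.log (⌊X⌋₊ : ℝ)) ^ A := by
            refine mul_le_mul (by linarith) (pow_le_pow_left₀ hlX0.le hlX A) (by positivity)
              (by positivity)
        _ = X * (3 * 2 ^ A) * Real.log (⌊X⌋₊ : ℝ) ^ A := by rw [mul_pow]; ring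
        _ ≤ X * Real.log (⌊X⌋₊ : ℝ) * Real.log (⌊X⌋₊ : ℝ) ^ A := by
            refine mul_le_mul_of_nonneg_right ?_ (by positivity)
            exact mul_le_mul_of_nonneg_left hlogbig hX0.le
        _ = X * Real.log (⌊X⌋₊ : ℝ) ^ (A + 1) := by ring
    · obtain ⟨hxa, hxb, hxc⟩ := hx
      refine ⟨by linarith, ?_⟩
      have h1 := FinX_Uw x H (by linarith) (by linarith)
      have hc1 : (⌈x + H / 2⌉₊ : ℝ) < x + H / 2 + 1 := Nat.ceil_lt_add_one (by linarith)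
      have hc2 : x + H / 2 ≤ (⌈x + H / 2⌉₊ : ℝ) := Nat.le_ceil _
      have hU : 4 * C * (H * (ll / Real.log H)) < |Uw muR ⌊H⌋₊ ⌈x + H / 2⌉₊| := by
        have h2 : |MX x H| - |Uw muR ⌊H⌋₊ ⌈x + H / 2⌉₊| ≤ 2 :=
          (abs_sub_abs_le_abs_sub _ _).trans h1
        have h3 : C' * H * (ll / Real.log H) = C' * (H * (ll / Real.log H)) := by ring
        have h4 : (4 * C + 2) * (H * (ll / Real.log H)) ≤ C' * (H * (ll / Real.log H)) := by
          refine mul_le_mul_of_nonneg_right ?_ (by linarith)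
          rw [hC']
          have : 0 ≤ 2 * Real.log ((x1 : ℝ) + 1) := by positivity
          have : 0 ≤ 2 * (2 * (c : ℝ) + 1) := by positivity
          linarith
        have h5 : (4 * C + 2) * (H * (ll / Real.log H)) =
            4 * C * (H * (ll / Real.log H)) + 2 * (H * (ll / Real.log H)) := by ring
        linarith
      have hm1 : ⌊X⌋₊ < ⌈x + H / 2⌉₊ := by
        have : (⌊X⌋₊ : ℝ) < (⌈x + H / 2⌉₊ : ℝ) := by linarith
        exact_mod_cast this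
      have hm2 : ⌈x + H / 2⌉₊ ≤ 4 * ⌊X⌋₊ := by
        have : (⌈x + H / 2⌉₊ : ℝ) ≤ ((4 * ⌊X⌋₊ : ℕ) : ℝ) := by
          push_cast
          linarith
        exact_mod_cast this
      rw [mem_union]
      rcases le_or_gt ⌈x + H / 2⌉₊ (2 * ⌊X⌋₊) with hj | hj
      · left
        rw [hE1, mem_filter, mem_Ioc]
        exact ⟨⟨hm1, hj⟩, (hcmp _ hllX'2).trans_lt hU⟩
      · right
        rw [hE2, mem_filter, mem_Ioc]
        exact ⟨⟨hj, by omega⟩, (hcmp _ hll2').trans_lt hU⟩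

end Pool.Agent.H76.MU
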