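import Pool.Agent.H76.MU.FinX

/-! # MU FinalX: the theorem with exceptional sets -/

set_option autoImplicit false

namespace Pool.Agent.H76.MU

open MeasureTheory

theorem finalx (hVK : Pool.Agent.H80.LV.VK) (hV : VK1) :
    ∀ A : ℕ, ∃ C : ℝ, 0 < C ∧ ∀ X H : ℝ, 16 ≤ X → 3 ≤ H → H ≤ X →
    volume {x : ℝ | X ≤ x ∧ x ≤ 2 * X ∧
      C * H * (Real.log (Real.log X) / Real.log H) < |MX x H|}
        ≤ ENNReal.ofReal (X / Real.log X ^ A) :=
  fin_x (ex_m (ex_l hVK hV))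

end Pool.Agent.H76.MU
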