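import Pool.Agent.H76.MU.Defs

/-!
# MU Fou: comparison of two window lengths by Parseval

Proof.  `D j = Uw G h j/h - Uw G h' j/h'` vanishes outside `Icc 1 (N1 + h')` (for `j = 0` the window `Ico (0 - h) 0` is empty; `G 0 = 0`).
`FF D (N1 + h') θ = FF G N1 θ · (kap h θ - kap h' θ)`: `n ∈ Ico (j - h) j` iff `n < j ≤ n + h` (natural subtraction is harmless), so
`∑_j ee(j θ) Uw G h j = ∑_n G n ∑_{r=1}^h ee((n + r) θ)`.  Parseval (`FF_parseval` in `H76/EHB`, period 1; the integral over `[-1/2, 1/2]` equals that over `[0, 1]`):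
`∑_j D(j)^2 = ∫_{-1/2}^{1/2} |FF G|^2 |kap h - kap h'|^2`.  Now `|kap| ≤ 1`, `|kap h θ - 1| ≤ 2 π h |θ|` (`|ee(r θ) - 1| ≤ 2 π r |θ|`), `|kap h θ| ≤ 1/(2 h |θ|)` for `0 < |θ| ≤ 1/2`
(geometric sum; `|1 - ee θ| ≥ 4|θ|`; `Pool.Agent.H76.SP` has such a bound in `VinD.lean`).  `|θ| ≤ Y0`: the difference is `≤ 2 π (h + h')|θ| ≤ 13 h' Y0`; `|θ| ≥ Y`: `≤ 1/(h Y)`; in between `≤ 2`.
`∫ |FF G|^2 = S2 G N1`.
-/

set_option autoImplicit false

namespace Pool.Agent.H76.MU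

open Finset MeasureTheory
open Pool.Agent.H91.PK (ee)
open Pool.Agent.H76.EHB
open Pool.Agent.H35.W

private theorem fou_ee_eq (t : ℝ) : ee t = Complex.exp (Complex.I * ((2 * Real.pi * t : ℝ) : ℂ)) := by
  unfold ee
  congr 1
  push_cast
  ring

private theorem fou_ee_sub_one (t : ℝ) : ‖ee t - 1‖ ≤ 2 * Real.pi * |t| := by
  rw [fou_ee_eq]
  refine (Real.norm_exp_I_mul_ofReal_sub_one_le).trans (le_of_eq ?_)
  rw [Real.norm_eq_abs, abs_mul, abs_mul, abs_of_pos Real.pi_pos, abs_of_pos (by norm_num : (0 : ℝ) < 2)]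

private theorem fou_ee_sub_one_ge (t : ℝ) (ht : |t| ≤ 1 / 2) : 4 * |t| ≤ ‖ee t - 1‖ := by
  rw [fou_ee_eq, Complex.norm_exp_I_mul_ofReal_sub_one, Real.norm_eq_abs, abs_mul,
    abs_of_pos (by norm_num : (0 : ℝ) < 2)]
  have e1 : (2 * Real.pi * t) / 2 = Real.pi * t := by ring
  rw [e1]
  have h1 : |Real.sin (Real.pi * t)| = |Real.sin (Real.pi * |t|)| := by
    rcases abs_choice t with h | h
    · rw [h]
    · rw [h, mul_neg, Real.sin_neg, abs_neg]
  rw [h1]
  have hp := Real.pi_pos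
  have h2 : 2 / Real.pi * (Real.pi * |t|) ≤ Real.sin (Real.pi * |t|) := by
    apply Real.mul_le_sin (by positivity)
    nlinarith
  have h3 : 2 / Real.pi * (Real.pi * |t|) = 2 * |t| := by
    field_simp
  rw [h3] at h2
  have h4 := le_abs_self (Real.sin (Real.pi * |t|))
  linarith

private theorem fou_kap_cont (h : ℕ) : Continuous (kap h) := by
  unfold kap
  refine continuous_const.mul (continuous_finsetSum _ fun r _ => ?_)
  exact continuous_ee.comp (continuous_const.mul continuous_id)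

private theorem fou_kap_le_one (h : ℕ) (h1 : 1 ≤ h) (θ : ℝ) : ‖kap h θ‖ ≤ 1 := by
  have hh : (0 : ℝ) < h := by exact_mod_cast h1
  unfold kap
  rw [norm_mul, norm_div, norm_one, Complex.norm_natCast]
  have h2 : ‖∑ r ∈ Icc 1 h, ee (r * θ)‖ ≤ h := by
    refine (norm_sum_le _ _).trans (le_of_eq ?_)
    simp only [norm_ee, sum_const, Nat.card_Icc, Nat.add_sub_cancel, nsmul_eq_mul, mul_one]
  rw [one_div, inv_mul_le_iff₀ hh, mul_one]
  exact h2

private theorem fou_kap_near (h : ℕ) (h1 : 1 ≤ h) (θ : ℝ) :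
    ‖kap h θ - 1‖ ≤ 2 * Real.pi * h * |θ| := by
  have hh : (0 : ℝ) < h := by exact_mod_cast h1
  have hc : (h : ℂ) ≠ 0 := by exact_mod_cast hh.ne'
  have hp := Real.pi_pos
  have e1 : kap h θ - 1 = (1 / (h : ℂ)) * ∑ r ∈ Icc 1 h, (ee (r * θ) - 1) := by
    unfold kap
    rw [sum_sub_distrib, sum_const, Nat.card_Icc, Nat.add_sub_cancel, nsmul_eq_mul, mul_one, mul_sub,
      one_div, inv_mul_cancel₀ hc]
  rw [e1, norm_mul, norm_div, norm_one, Complex.norm_natCast]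
  have h2 : ‖∑ r ∈ Icc 1 h, (ee (r * θ) - 1)‖ ≤ ∑ r ∈ Icc 1 h, 2 * Real.pi * h * |θ| := by
    refine (norm_sum_le _ _).trans (sum_le_sum fun r hr => ?_)
    refine (fou_ee_sub_one _).trans ?_
    rw [abs_mul, Nat.abs_cast]
    have : (r : ℝ) ≤ h := by exact_mod_cast (mem_Icc.1 hr).2
    have h3 := abs_nonneg θ
    have : (r : ℝ) * |θ| ≤ h * |θ| := mul_le_mul_of_nonneg_right this h3
    nlinarith
  rw [sum_const, Nat.card_Icc, Nat.add_sub_cancel, nsmul_eq_mul] at h2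
  rw [one_div, inv_mul_le_iff₀ hh]
  exact h2

private theorem fou_kap_far (h : ℕ) (h1 : 1 ≤ h) (θ : ℝ) (h0 : θ ≠ 0) (h2 : |θ| ≤ 1 / 2) :
    ‖kap h θ‖ ≤ 1 / (2 * h * |θ|) := by
  have hh : (0 : ℝ) < h := by exact_mod_cast h1
  have ha : 0 < |θ| := abs_pos.2 h0
  have e1 : (∑ r ∈ Icc 1 h, ee (r * θ)) * (ee θ - 1) = ee ((h + 1) * θ) - ee θ := by
    have : ∀ k : ℕ, (∑ r ∈ Icc 1 k, ee (r * θ)) * (ee θ - 1) = ee ((k + 1) * θ) - ee θ := by
      intro k
      induction k with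
      | zero => simp
      | succ k ih =>
        rw [Finset.sum_Icc_succ_top (by omega), add_mul, ih]
        have e2 : ee (((k + 1 : ℕ) : ℝ) * θ) * (ee θ - 1)
            = ee ((((k + 1 : ℕ) : ℝ) + 1) * θ) - ee (((k : ℝ) + 1) * θ) := by
          rw [mul_sub, ← Pool.Agent.H91.PK.LSa_ee_add, mul_one]
          have e3 : ((k + 1 : ℕ) : ℝ) * θ + θ = (((k + 1 : ℕ) : ℝ) + 1) * θ := by ring
          rw [e3]
          push_cast
          ring
        rw [e2]
        ring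
    exact this h
  have h3 : ‖∑ r ∈ Icc 1 h, ee (r * θ)‖ * ‖ee θ - 1‖ ≤ 2 := by
    rw [← norm_mul, e1]
    refine (norm_sub_le _ _).trans ?_
    rw [norm_ee, norm_ee]
    norm_num
  have h4 := fou_ee_sub_one_ge θ h2
  have h5 : ‖∑ r ∈ Icc 1 h, ee (r * θ)‖ * (4 * |θ|) ≤ 2 :=
    (mul_le_mul_of_nonneg_left h4 (norm_nonneg _)).trans h3
  unfold kap
  rw [norm_mul, norm_div, norm_one, Complex.norm_natCast, one_div, inv_mul_le_iff₀ hh]
  have e4 : (h : ℝ) * (1 / (2 * h * |θ|)) = 1 / (2 * |θ|) := by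
    field_simp
  rw [e4, le_div_iff₀ (by positivity)]
  linarith

private theorem fou_Uw (G : ℕ → ℝ) (N1 h j : ℕ) (hG : ∀ n, n ∉ Icc 1 N1 → G n = 0) :
    Uw G h j = ∑ n ∈ Icc 1 N1, if n ∈ Ico (j - h) j then G n else 0 := by
  unfold Uw
  rw [← sum_filter]
  symm
  refine sum_subset (fun n hn => (mem_filter.1 hn).2) fun n hn hn' => hG n fun h2 => hn' ?_
  exact mem_filter.2 ⟨h2, hn⟩

private theorem fou_sum (G : ℕ → ℝ) (N1 h M : ℕ) (θ : ℝ) (hG : ∀ n, n ∉ Icc 1 N1 → G n = 0)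
    (hM : N1 + h ≤ M) :
    ∑ j ∈ Icc 1 M, ((Uw G h j : ℝ) : ℂ) * ee (j * θ)
      = FF G N1 θ * ∑ r ∈ Icc 1 h, ee (r * θ) := by
  have e1 : ∀ j ∈ Icc 1 M, ((Uw G h j : ℝ) : ℂ) * ee (j * θ)
      = ∑ n ∈ Icc 1 N1, if n ∈ Ico (j - h) j then ((G n : ℝ) : ℂ) * ee (j * θ) else 0 := by
    intro j _
    rw [fou_Uw G N1 h j hG]
    push_cast
    rw [sum_mul]
    refine sum_congr rfl fun n _ => ?_
    split_ifs <;> simp
  rw [sum_congr rfl e1, sum_comm]
  unfold FF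
  rw [sum_mul]
  refine sum_congr rfl fun n hn => ?_
  rw [← sum_filter]
  have hn2 := mem_Icc.1 hn
  have e2 : (Icc 1 M).filter (fun j => n ∈ Ico (j - h) j) = Ioc n (n + h) := by
    ext j
    rw [mem_filter, mem_Icc, mem_Ico, mem_Ioc]
    omega
  rw [e2, mul_assoc, mul_sum, mul_sum]
  refine sum_nbij' (fun j => j - n) (fun r => n + r) ?_ ?_ ?_ ?_ ?_
  · intro j hj
    rw [mem_Ioc] at hj
    rw [mem_Icc]
    omega
  · intro r hr
    rw [mem_Icc] at hr
    rw [mem_Ioc]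
    omega
  · intro j hj
    rw [mem_Ioc] at hj
    omega
  · intro r hr
    omega
  · intro j hj
    rw [mem_Ioc] at hj
    rw [← Pool.Agent.H91.PK.LSa_ee_add]
    have : (j : ℝ) * θ = (n : ℝ) * θ + ((j - n : ℕ) : ℝ) * θ := by
      rw [Nat.cast_sub hj.1.le]
      ring
    rw [this]

private theorem fou_FF (G : ℕ → ℝ) (N1 h h' : ℕ) (θ : ℝ) (hG : ∀ n, n ∉ Icc 1 N1 → G n = 0)
    (hh : h ≤ h') :
    FF (fun j => Uw G h j / h - Uw G h' j / h') (N1 + h') θ
      = FF G N1 θ * (kap h θ - kap h' θ) := by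
  have e1 := fou_sum G N1 h (N1 + h') θ hG (by omega)
  have e2 := fou_sum G N1 h' (N1 + h') θ hG le_rfl
  unfold kap
  have e3 : FF (fun j => Uw G h j / h - Uw G h' j / h') (N1 + h') θ
      = (1 / (h : ℂ)) * ∑ j ∈ Icc 1 (N1 + h'), ((Uw G h j : ℝ) : ℂ) * ee (j * θ)
        - (1 / (h' : ℂ)) * ∑ j ∈ Icc 1 (N1 + h'), ((Uw G h' j : ℝ) : ℂ) * ee (j * θ) := by
    unfold FF
    rw [mul_sum, mul_sum, ← sum_sub_distrib]
    refine sum_congr rfl fun j _ => ?_
    push_cast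
    ring
  rw [e3, e1, e2]
  ring

theorem fou (G : ℕ → ℝ) (N1 h h' X : ℕ) (Y0 Y : ℝ) (hG : ∀ n, n ∉ Icc 1 N1 → G n = 0)
    (h1 : 1 ≤ h) (hh : h ≤ h') (hY0 : 0 ≤ Y0) (hY : Y0 ≤ Y) (hYp : 0 < Y) (hY2 : Y ≤ 1 / 2) :
    ∑ j ∈ Ioc X (2 * X), (Uw G h j / h - Uw G h' j / h') ^ 2
      ≤ 4 * (∫ y in Set.Icc Y0 Y, ‖FF G N1 (1 * y)‖ ^ 2)
        + 4 * (∫ y in Set.Icc Y0 Y, ‖FF G N1 (-1 * y)‖ ^ 2)
        + ((13 * h' * Y0) ^ 2 + (1 / (h * Y)) ^ 2) * S2 G N1 := by
  have h1' : 1 ≤ h' := h1.trans hh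
  have hhp : (0 : ℝ) < h := by exact_mod_cast h1
  have hhp' : (0 : ℝ) < h' := by exact_mod_cast h1'
  have hhr : (h : ℝ) ≤ h' := by exact_mod_cast hh
  have hpi := Real.pi_pos
  set D : ℕ → ℝ := fun j => Uw G h j / h - Uw G h' j / h' with hD
  set F : ℝ → ℝ := fun t => ‖FF G N1 t‖ ^ 2 with hF
  set W : ℝ → ℝ := fun t => ‖FF D (N1 + h') t‖ ^ 2 with hW
  have hFc : Continuous F := (FF_continuous G N1).norm.pow 2
  have hWc : Continuous W := (FF_continuous D (N1 + h')).norm.pow 2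
  have hF0 : ∀ t, 0 ≤ F t := fun t => sq_nonneg _
  -- the left side
  have hL : ∑ j ∈ Ioc X (2 * X), (Uw G h j / h - Uw G h' j / h') ^ 2 ≤ S2 D (N1 + h') := by
    unfold S2
    have e1 : ∑ j ∈ Ioc X (2 * X), (Uw G h j / h - Uw G h' j / h') ^ 2
        = ∑ j ∈ (Ioc X (2 * X)).filter (fun j => j ∈ Icc 1 (N1 + h')), D j ^ 2 := by
      symm
      refine sum_subset (filter_subset _ _) fun j hj hj' => ?_
      have hj1 := mem_Ioc.1 hj
      have hj2 : N1 + h' < j := by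
        by_contra hc
        exact hj' (mem_filter.2 ⟨hj, mem_Icc.2 ⟨by omega, by omega⟩⟩)
      have e2 : ∀ k : ℕ, k ≤ h' → Uw G k j = 0 := by
        intro k hk
        unfold Uw
        refine sum_eq_zero fun n hn => hG n fun h3 => ?_
        have h4 := mem_Ico.1 hn
        have h5 := mem_Icc.1 h3
        omega
      simp only [hD, e2 h hh, e2 h' le_rfl, zero_div, sub_zero]
      norm_num
    rw [e1]
    exact sum_le_sum_of_subset_of_nonneg (fun j hj => (mem_filter.1 hj).2)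
      fun _ _ _ => sq_nonneg _
  have hP : ∫ t in (-(1 / 2 : ℝ))..(1 / 2), W t = S2 D (N1 + h') := by
    have := FF_parseval D (N1 + h') (-(1 / 2))
    rw [show (-(1 / 2 : ℝ)) + 1 = 1 / 2 by norm_num] at this
    exact this
  have hPG : ∫ t in (-(1 / 2 : ℝ))..(1 / 2), F t = S2 G N1 := by
    have := FF_parseval G N1 (-(1 / 2))
    rw [show (-(1 / 2 : ℝ)) + 1 = 1 / 2 by norm_num] at this
    exact this
  have hWF : ∀ t, W t = F t * ‖kap h t - kap h' t‖ ^ 2 := by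
    intro t
    simp only [hW, hF]
    rw [hD, fou_FF G N1 h h' t hG hh, norm_mul, mul_pow]
  -- pointwise bounds
  have b1 : ∀ t, |t| ≤ Y0 → W t ≤ (13 * h' * Y0) ^ 2 * F t := by
    intro t ht
    rw [hWF, mul_comm]
    refine mul_le_mul_of_nonneg_right ?_ (hF0 t)
    refine pow_le_pow_left₀ (norm_nonneg _) ?_ 2
    have e1 : kap h t - kap h' t = (kap h t - 1) - (kap h' t - 1) := by ring
    rw [e1]
    refine (norm_sub_le _ _).trans ?_
    have c1 := fou_kap_near h h1 t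
    have c2 := fou_kap_near h' h1' t
    have c3 : 2 * Real.pi * h * |t| ≤ 2 * Real.pi * h' * Y0 := by
      apply mul_le_mul _ ht (abs_nonneg _) (by positivity)
      exact mul_le_mul_of_nonneg_left hhr (by positivity)
    have c4 : 2 * Real.pi * h' * |t| ≤ 2 * Real.pi * h' * Y0 :=
      mul_le_mul_of_nonneg_left ht (by positivity)
    have c5 : 4 * Real.pi * (h' * Y0) ≤ 13 * (h' * Y0) := by
      apply mul_le_mul_of_nonneg_right _ (by positivity)
      have := Real.pi_lt_d2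
      linarith
    linarith
  have b2 : ∀ t, W t ≤ 4 * F t := by
    intro t
    rw [hWF, mul_comm]
    refine mul_le_mul_of_nonneg_right ?_ (hF0 t)
    have c1 : ‖kap h t - kap h' t‖ ≤ 2 := by
      refine (norm_sub_le _ _).trans ?_
      have := fou_kap_le_one h h1 t
      have := fou_kap_le_one h' h1' t
      linarith
    have := pow_le_pow_left₀ (norm_nonneg (kap h t - kap h' t)) c1 2
    linarith
  have b3 : ∀ t, Y ≤ |t| → |t| ≤ 1 / 2 → W t ≤ (1 / (h * Y)) ^ 2 * F t := by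
    intro t ht ht2
    rw [hWF, mul_comm]
    refine mul_le_mul_of_nonneg_right ?_ (hF0 t)
    refine pow_le_pow_left₀ (norm_nonneg _) ?_ 2
    refine (norm_sub_le _ _).trans ?_
    have h0 : t ≠ 0 := by
      intro hc
      rw [hc, abs_zero] at ht
      linarith
    have ha : 0 < |t| := abs_pos.2 h0
    have c1 := fou_kap_far h h1 t h0 ht2
    have c2 := fou_kap_far h' h1' t h0 ht2
    have c3 : 1 / (2 * h * |t|) ≤ 1 / (2 * h * Y) := by
      apply one_div_le_one_div_of_le (by positivity)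
      exact mul_le_mul_of_nonneg_left ht (by positivity)
    have c4 : 1 / (2 * h' * |t|) ≤ 1 / (2 * h * Y) := by
      apply one_div_le_one_div_of_le (by positivity)
      apply mul_le_mul _ ht hYp.le (by positivity)
      exact mul_le_mul_of_nonneg_left hhr (by norm_num)
    have c5 : 1 / (2 * h * Y) + 1 / (2 * h * Y) = 1 / ((h : ℝ) * Y) := by
      field_simp
      norm_num
    linarith
  -- splitting
  have iW : ∀ a b : ℝ, IntervalIntegrable W volume a b := fun a b => hWc.intervalIntegrable a b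
  have iF : ∀ a b : ℝ, IntervalIntegrable F volume a b := fun a b => hFc.intervalIntegrable a b
  have sp : ∀ g : ℝ → ℝ, (∀ a b : ℝ, IntervalIntegrable g volume a b) →
      ∫ t in (-(1 / 2 : ℝ))..(1 / 2), g t = (∫ t in (-(1 / 2 : ℝ))..(-Y), g t)
        + (∫ t in (-Y)..(-Y0), g t) + (∫ t in (-Y0)..Y0, g t) + (∫ t in Y0..Y, g t)
        + (∫ t in Y..(1 / 2), g t) := by
    intro g hg
    rw [intervalIntegral.integral_add_adjacent_intervals (hg _ _) (hg _ _),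
      intervalIntegral.integral_add_adjacent_intervals (hg _ _) (hg _ _),
      intervalIntegral.integral_add_adjacent_intervals (hg _ _) (hg _ _),
      intervalIntegral.integral_add_adjacent_intervals (hg _ _) (hg _ _)]
  have sW := sp W iW
  have sF := sp F iF
  have mono : ∀ (a b c : ℝ), a ≤ b → (∀ t ∈ Set.Icc a b, W t ≤ c * F t) →
      ∫ t in a..b, W t ≤ c * ∫ t in a..b, F t := by
    intro a b c hab hc
    rw [← intervalIntegral.integral_const_mul]
    exact intervalIntegral.integral_mono_on hab (iW a b) ((iF a b).const_mul c) hc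
  have nn : ∀ (a b : ℝ), a ≤ b → 0 ≤ ∫ t in a..b, F t := fun a b hab =>
    intervalIntegral.integral_nonneg hab fun t _ => hF0 t
  have m1 := mono (-(1 / 2)) (-Y) ((1 / (h * Y)) ^ 2) (by linarith) (by
    intro t ht
    have : |t| = -t := abs_of_nonpos (by linarith [ht.2])
    exact b3 t (by rw [this]; linarith [ht.2]) (by rw [this]; linarith [ht.1]))
  have m2 := mono (-Y) (-Y0) 4 (by linarith) (fun t _ => b2 t)
  have m3 := mono (-Y0) Y0 ((13 * h' * Y0) ^ 2) (by linarith) (fun t ht =>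
    b1 t (abs_le.2 ⟨ht.1, ht.2⟩))
  have m4 := mono Y0 Y 4 hY (fun t _ => b2 t)
  have m5 := mono Y (1 / 2) ((1 / (h * Y)) ^ 2) hY2 (by
    intro t ht
    have : |t| = t := abs_of_nonneg (by linarith [ht.1])
    exact b3 t (by rw [this]; exact ht.1) (by rw [this]; exact ht.2))
  have n1 := nn (-(1 / 2)) (-Y) (by linarith)
  have n2 := nn (-Y) (-Y0) (by linarith)
  have n3 := nn (-Y0) Y0 (by linarith)
  have n4 := nn Y0 Y hY
  have n5 := nn Y (1 / 2) hY2
  -- the right side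
  have r1 : ∫ y in Set.Icc Y0 Y, ‖FF G N1 (1 * y)‖ ^ 2 = ∫ t in Y0..Y, F t := by
    rw [integral_Icc_eq_integral_Ioc, intervalIntegral.integral_of_le hY]
    simp only [one_mul, hF]
  have r2 : ∫ y in Set.Icc Y0 Y, ‖FF G N1 (-1 * y)‖ ^ 2 = ∫ t in (-Y)..(-Y0), F t := by
    rw [← intervalIntegral.integral_comp_neg, integral_Icc_eq_integral_Ioc,
      intervalIntegral.integral_of_le hY]
    simp only [neg_mul, one_mul, hF]
  rw [r1, r2]
  refine hL.trans ?_
  rw [← hP, ← hPG, sW, sF]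
  set c1 := (13 * (h' : ℝ) * Y0) ^ 2 with hc1
  set c2 := (1 / ((h : ℝ) * Y)) ^ 2 with hc2
  have hc10 : 0 ≤ c1 := sq_nonneg _
  have hc20 : 0 ≤ c2 := sq_nonneg _
  have k1 := mul_nonneg hc10 n1
  have k2 := mul_nonneg hc10 n2
  have k4 := mul_nonneg hc10 n4
  have k5 := mul_nonneg hc10 n5
  have l2 := mul_nonneg hc20 n2
  have l3 := mul_nonneg hc20 n3
  have l4 := mul_nonneg hc20 n4
  linarith

end Pool.Agent.H76.MU
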