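import Pool.Agent.H76.MU.Defs

/-!
# MU GP: the product with the primes of a block

`gP g P n = ∑_{k ∈ pb P, k | n} g(n/k)`.  `gp_FF`: `SG g N P θ = ∑_{k ∈ pb P} ∑_{m ≤ N} g(m) ee(m (k θ))`; put `n = k m ≤ 2 P N ≤ N1` and collect (`n ↦ (k, n/k)`; `g` vanishes outside
`Icc 1 N`, so the condition `n/k ≤ N` may be dropped).  `gp_S2`: at most `log n/log 2 ≤ 2 log N1` primes divide `n` (`n ≤ N1`; `2^{#} ≤ n`), so `|gP| ≤ 2 log N1`; `pb 0` is empty.
-/

set_option autoImplicit false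

namespace Pool.Agent.H76.MU

open Finset MeasureTheory
open Pool.Agent.H91.PK (ee)
open Pool.Agent.H76.EHB
open Pool.Agent.H35.W

/-- `∑_{k ∈ pb P, k | n} g(n/k)` -/
noncomputable def gP (g : ℕ → ℝ) (P n : ℕ) : ℝ :=
  ∑ k ∈ (pb P).filter (fun k => k ∣ n), g (n / k)

private theorem GP_pb {P k : ℕ} (hk : k ∈ pb P) : 0 < k ∧ k ≤ 2 * P ∧ k.Prime := by
  unfold pb at hk
  rw [mem_filter, mem_Ioc] at hk
  exact ⟨by omega, hk.1.2, hk.2⟩

private theorem GP_zero (g : ℕ → ℝ) (N P N1 : ℕ) (hg : ∀ n, n ∉ Icc 1 N → g n = 0)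
    (hN1 : 2 * P * N ≤ N1) (n : ℕ) (hn : n ∉ Icc 1 N1) (k : ℕ) (hk : k ∈ pb P) (hkn : k ∣ n) :
    g (n / k) = 0 := by
  obtain ⟨hk0, hk1, _⟩ := GP_pb hk
  apply hg
  intro h
  apply hn
  rw [mem_Icc] at h ⊢
  obtain ⟨m, rfl⟩ := hkn
  rw [Nat.mul_div_cancel_left m hk0] at h
  constructor
  · exact Nat.mul_pos hk0 h.1
  · calc k * m ≤ (2 * P) * N := Nat.mul_le_mul hk1 h.2
      _ ≤ N1 := hN1

theorem gp_supp (g : ℕ → ℝ) (N P N1 : ℕ) (hg : ∀ n, n ∉ Icc 1 N → g n = 0)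
    (hN1 : 2 * P * N ≤ N1) (n : ℕ) (hn : n ∉ Icc 1 N1) : gP g P n = 0 := by
  unfold gP
  refine sum_eq_zero fun k hk => ?_
  rw [mem_filter] at hk
  exact GP_zero g N P N1 hg hN1 n hn k hk.1 hk.2

theorem gp_FF (g : ℕ → ℝ) (N P N1 : ℕ) (hg : ∀ n, n ∉ Icc 1 N → g n = 0)
    (hN1 : 2 * P * N ≤ N1) (θ : ℝ) : FF (gP g P) N1 θ = SG g N P θ := by
  unfold FF SG gP
  have h1 : ∀ n ∈ Icc 1 N1,
      ((∑ k ∈ (pb P).filter (fun k => k ∣ n), g (n / k) : ℝ) : ℂ) * ee (n * θ) =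
        ∑ k ∈ pb P, if k ∣ n then (g (n / k) : ℂ) * ee (n * θ) else 0 := by
    intro n _
    rw [sum_filter, Complex.ofReal_sum, sum_mul]
    refine sum_congr rfl fun k _ => ?_
    split_ifs <;> simp
  rw [sum_congr rfl h1, sum_comm]
  refine sum_congr rfl fun k hk => ?_
  obtain ⟨hk0, hk1, _⟩ := GP_pb hk
  rw [← sum_filter]
  unfold FF
  have hinj : ∀ a ∈ Icc 1 N, ∀ b ∈ Icc 1 N, k * a = k * b → a = b := fun a _ b _ h =>
    Nat.eq_of_mul_eq_mul_left hk0 h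
  have h2 : ∑ m ∈ Icc 1 N, (g m : ℂ) * ee (m * (k * θ)) =
      ∑ n ∈ (Icc 1 N).image (fun m => k * m), (g (n / k) : ℂ) * ee (n * θ) := by
    rw [sum_image hinj]
    refine sum_congr rfl fun m _ => ?_
    rw [Nat.mul_div_cancel_left m hk0]
    push_cast
    congr 2
    ring
  rw [h2]
  symm
  refine sum_subset ?_ ?_
  · intro n hn
    rw [mem_image] at hn
    obtain ⟨m, hm, rfl⟩ := hn
    rw [mem_Icc] at hm
    rw [mem_filter, mem_Icc]
    refine ⟨⟨Nat.mul_pos hk0 hm.1, ?_⟩, dvd_mul_right k m⟩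
    calc k * m ≤ (2 * P) * N := Nat.mul_le_mul hk1 hm.2
      _ ≤ N1 := hN1
  · intro n hn hn'
    rw [mem_filter] at hn
    obtain ⟨_, m, rfl⟩ := hn
    have h3 : g (k * m / k) = 0 := by
      apply hg
      rw [Nat.mul_div_cancel_left m hk0]
      intro hm
      exact hn' (mem_image.2 ⟨m, hm, rfl⟩)
    rw [h3]
    simp

theorem gp_S2 (g : ℕ → ℝ) (P N1 : ℕ) (hb : ∀ n, |g n| ≤ 1) :
    S2 (gP g P) N1 ≤ N1 * (2 * Real.log N1) ^ 2 := by
  unfold S2
  have h1 : ∀ n ∈ Icc 1 N1, gP g P n ^ 2 ≤ (2 * Real.log N1) ^ 2 := by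
    intro n hn
    rw [mem_Icc] at hn
    have hn0 : (0 : ℝ) < n := by exact_mod_cast (show 0 < n by omega)
    have hN0 : (1 : ℝ) ≤ N1 := by exact_mod_cast (show 1 ≤ N1 by omega)
    set S : Finset ℕ := (pb P).filter (fun k => k ∣ n) with hS
    have h2 : |gP g P n| ≤ (S.card : ℝ) := by
      unfold gP
      refine (abs_sum_le_sum_abs _ _).trans ?_
      refine (sum_le_sum fun k _ => hb (n / k)).trans ?_
      rw [sum_const, nsmul_eq_mul, mul_one]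
    have h3 : ∏ p ∈ S, p ∣ n := by
      refine Finset.prod_primes_dvd n (fun p hp => ?_) fun p hp => ?_
      · rw [hS, mem_filter] at hp
        exact (GP_pb hp.1).2.2.prime
      · rw [hS, mem_filter] at hp
        exact hp.2
    have h4 : 2 ^ S.card ≤ n := by
      refine le_trans ?_ (Nat.le_of_dvd (by omega) h3)
      rw [← prod_const]
      refine prod_le_prod' fun p hp => ?_
      rw [hS, mem_filter] at hp
      exact (GP_pb hp.1).2.2.two_le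
    have h5 : (S.card : ℝ) * Real.log 2 ≤ Real.log N1 := by
      have h6 : ((2 : ℝ) ^ S.card) ≤ N1 := by
        have : 2 ^ S.card ≤ N1 := h4.trans hn.2
        exact_mod_cast this
      have h7 := Real.log_le_log (by positivity) h6
      rwa [Real.log_pow] at h7
    have h8 := Real.log_two_gt_d9
    have h9 : (0 : ℝ) ≤ S.card := Nat.cast_nonneg _
    have h10 : (S.card : ℝ) ≤ 2 * Real.log N1 := by nlinarith
    rw [← sq_abs]
    exact pow_le_pow_left₀ (abs_nonneg _) (h2.trans h10) 2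
  refine (sum_le_sum h1).trans ?_
  rw [sum_const, Nat.card_Icc, nsmul_eq_mul, Nat.add_sub_cancel]

end Pool.Agent.H76.MU
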