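import Pool.Agent.H76.MU.Defs
import Pool.Agent.H35.W.MelG

/-!
# MU MelM: the Mellin transform for small `t`: change of the damping

Proof.  `mel_ge` (`H35/W/MelG.lean`): `Mel (ge g N 0 0 Θ s) t = Γ(1/2 - i t) ∑_{n ≤ N} g n · (1/Θ - 2 π i s n)^{-(1/2 - i t)}` (`ee(0) = 1`), `|Γ(1/2 - i t)| ≤ 3 e^{-π|t|/2}`
(`gamma_half`).  For fixed `n ≥ 1` the function `F(σ) = (σ - 2 π i s n)^{-(1/2 - i t)}` (real `σ > 0`) has the derivative `-(1/2 - i t)(σ - 2 π i s n)^{-(3/2 - i t)}`, of norm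
`≤ (1 + |t|) |w|^{-3/2} e^{π|t|/2}`, `|w| ≥ 2 π n` (compare `MelL_pow_norm` in `H76/SP/MelL.lean`; private, copy).  Mean value inequality on `[1/Θ, 1/Θ1]`
(`Convex.norm_image_sub_le_of_norm_hasDerivWithin_le`): `|F(1/Θ1) - F(1/Θ)| ≤ (1 + |t|)(2 π n)^{-3/2} e^{π|t|/2}/Θ1 ≤ (1 + |t|) e^{π|t|/2}/(M √M Θ1)` for `n > M`.  Sum over the at most `N`
integers `n ∈ Ioc M N`.
-/

set_option autoImplicit false

namespace Pool.Agent.H76.MU

open Finset MeasureTheory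
open Pool.Agent.H91.PK (ee)
open Pool.Agent.H76.EHB
open Pool.Agent.H35.W

private lemma MelM_pow_norm (w : ℂ) (t : ℝ) (hw : 0 < w.re) (b : ℝ) (hb : 0 < b) (hwb : b ≤ ‖w‖) :
    ‖w ^ (-(1 / 2 - t * Complex.I) - 1 : ℂ)‖
      ≤ (b * Real.sqrt b)⁻¹ * Real.exp (Real.pi * |t| / 2) := by
  have hw0 : w ≠ 0 := by rintro rfl; simp at hw
  have hn : 0 < ‖w‖ := norm_pos_iff.2 hw0
  rw [Complex.norm_cpow_of_ne_zero hw0]
  have hre : (-(1 / 2 - t * Complex.I) - 1 : ℂ).re = -(1 + 1 / 2) := by simp; norm_num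
  have him : (-(1 / 2 - t * Complex.I) - 1 : ℂ).im = t := by simp
  rw [hre, him, div_eq_mul_inv, ← Real.exp_neg, Real.rpow_neg hn.le, Real.rpow_add hn,
    Real.rpow_one, ← Real.sqrt_eq_rpow]
  apply mul_le_mul
  · apply inv_anti₀ (mul_pos hb (Real.sqrt_pos.2 hb))
    exact mul_le_mul hwb (Real.sqrt_le_sqrt hwb) (Real.sqrt_nonneg _) hn.le
  · apply Real.exp_le_exp.2
    have h1 : |Complex.arg w| ≤ Real.pi / 2 := by
      rw [Complex.abs_arg_le_pi_div_two_iff]; exact hw.le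
    calc -(Complex.arg w * t) ≤ |Complex.arg w * t| := neg_le_abs _
      _ = |Complex.arg w| * |t| := abs_mul _ _
      _ ≤ Real.pi / 2 * |t| := by gcongr
      _ = Real.pi * |t| / 2 := by ring
  · positivity
  · positivity

private noncomputable def MelM_F (n s t σ : ℝ) : ℂ :=
  ((σ : ℝ) - ((2 * Real.pi * s * (n - 0) : ℝ) : ℂ) * Complex.I : ℂ)
    ^ (-(1 / 2 - t * Complex.I) : ℂ)

private lemma MelM_re (n s σ : ℝ) :
    ((σ : ℝ) - ((2 * Real.pi * s * (n - 0) : ℝ) : ℂ) * Complex.I : ℂ).re = σ := by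
  simp only [Complex.sub_re, Complex.ofReal_re, Complex.re_ofReal_mul, Complex.I_re, mul_zero,
    sub_zero]

private lemma MelM_im (n s σ : ℝ) :
    ((σ : ℝ) - ((2 * Real.pi * s * (n - 0) : ℝ) : ℂ) * Complex.I : ℂ).im
      = -(2 * Real.pi * s * n) := by
  simp only [Complex.sub_im, Complex.ofReal_im, Complex.im_ofReal_mul, Complex.I_im, mul_one,
    sub_zero, zero_sub]

private lemma MelM_deriv (n s t σ : ℝ) (hσ : 0 < σ) :
    HasDerivAt (fun v : ℝ => MelM_F n s t v)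
      ((-(1 / 2 - t * Complex.I)) *
        ((σ : ℝ) - ((2 * Real.pi * s * (n - 0) : ℝ) : ℂ) * Complex.I : ℂ)
          ^ (-(1 / 2 - t * Complex.I) - 1 : ℂ)) σ := by
  have hsl : ((σ : ℝ) - ((2 * Real.pi * s * (n - 0) : ℝ) : ℂ) * Complex.I : ℂ)
      ∈ Complex.slitPlane := by
    left
    rw [MelM_re]; exact hσ
  have d1 : HasDerivAt (fun v : ℂ => v - ((2 * Real.pi * s * (n - 0) : ℝ) : ℂ) * Complex.I)
      1 (σ : ℂ) := (hasDerivAt_id (σ : ℂ)).sub_const _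
  have d2 := (d1.cpow_const (c := (-(1 / 2 - t * Complex.I) : ℂ)) hsl).comp_ofReal
  rw [mul_one] at d2
  exact d2

private lemma MelM_diff (n s t M Θ Θ1 : ℝ) (hs : s = 1 ∨ s = -1) (hΘ1 : 0 < Θ1)
    (hΘ : Θ1 ≤ Θ) (hM : 1 ≤ M) (hn : M ≤ n) :
    ‖MelM_F n s t (1 / Θ) - MelM_F n s t (1 / Θ1)‖
      ≤ (1 + |t|) * ((M * Real.sqrt M)⁻¹ * Real.exp (Real.pi * |t| / 2)) * (1 / Θ1) := by
  have hΘ0 : 0 < Θ := by linarith
  have hle : 1 / Θ ≤ 1 / Θ1 := one_div_le_one_div_of_le hΘ1 hΘ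
  have h0 : 0 < 1 / Θ := by positivity
  have hpi : 1 ≤ Real.pi := by linarith [Real.pi_gt_three]
  have hM0 : 0 < M := by linarith
  have key := (convex_Icc (1 / Θ) (1 / Θ1)).norm_image_sub_le_of_norm_hasDerivWithin_le
    (f := fun v : ℝ => MelM_F n s t v)
    (f' := fun σ : ℝ => (-(1 / 2 - t * Complex.I)) *
        ((σ : ℝ) - ((2 * Real.pi * s * (n - 0) : ℝ) : ℂ) * Complex.I : ℂ)
          ^ (-(1 / 2 - t * Complex.I) - 1 : ℂ))
    (C := (1 + |t|) * ((M * Real.sqrt M)⁻¹ * Real.exp (Real.pi * |t| / 2)))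
    (x := 1 / Θ1) (y := 1 / Θ)
    (fun σ hσ => (MelM_deriv n s t σ (h0.trans_le hσ.1)).hasDerivWithinAt)
    (fun σ hσ => by
      have hσ0 : 0 < σ := h0.trans_le hσ.1
      rw [norm_mul]
      apply mul_le_mul _ _ (norm_nonneg _) (by positivity)
      · rw [norm_neg]
        refine (norm_sub_le _ _).trans ?_
        rw [norm_mul, Complex.norm_I, mul_one, Complex.norm_real, Real.norm_eq_abs]
        have : ‖(1 / 2 : ℂ)‖ = 1 / 2 := by norm_num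
        rw [this]; linarith
      · apply MelM_pow_norm _ _ (by rw [MelM_re]; exact hσ0) _ hM0
        refine le_trans ?_ (Complex.abs_im_le_norm _)
        rw [MelM_im, abs_neg, abs_mul, abs_mul]
        have h1 : |s| = 1 := by rcases hs with rfl | rfl <;> simp
        rw [h1, abs_of_pos Real.two_pi_pos, mul_one, abs_of_pos (by linarith : 0 < n)]
        nlinarith)
    (Set.right_mem_Icc.2 hle) (Set.left_mem_Icc.2 hle)
  refine key.trans ?_
  apply mul_le_mul_of_nonneg_left _ (by positivity)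
  rw [Real.norm_eq_abs, abs_sub_comm, abs_of_nonneg (by linarith)]
  linarith

theorem mel_m (g : ℕ → ℝ) (N M : ℕ) (Θ Θ1 s t : ℝ) (hs : s = 1 ∨ s = -1) (hΘ1 : 0 < Θ1)
    (hΘ : Θ1 ≤ Θ) (hM : 1 ≤ M) (hg : ∀ n, n ∉ Ioc M N → g n = 0) (hb : ∀ n, |g n| ≤ 1) :
    ‖Mel (ge g N 0 0 Θ s) t - Mel (ge g N 0 0 Θ1 s) t‖
      ≤ 3 * (1 + |t|) * N / (M * Real.sqrt M) / Θ1 := by
  have hM1 : (1 : ℝ) ≤ M := by exact_mod_cast hM
  have hM0 : (0 : ℝ) < M := by linarith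
  rw [mel_ge g N 0 0 Θ s t (hΘ1.trans_le hΘ), mel_ge g N 0 0 Θ1 s t hΘ1, ← mul_sub,
    ← Finset.sum_sub_distrib, norm_mul]
  have hsum : ‖∑ n ∈ Icc 1 N, ((g n : ℂ) * ee (n * 0)
        * (((1 / Θ : ℝ) : ℂ) - ((2 * Real.pi * s * ((n : ℝ) - 0) : ℝ) : ℂ) * Complex.I)
            ^ (-(1 / 2 - t * Complex.I) : ℂ)
        - (g n : ℂ) * ee (n * 0)
        * (((1 / Θ1 : ℝ) : ℂ) - ((2 * Real.pi * s * ((n : ℝ) - 0) : ℝ) : ℂ) * Complex.I)
            ^ (-(1 / 2 - t * Complex.I) : ℂ))‖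
      ≤ ∑ n ∈ Icc 1 N,
        (1 + |t|) * (((M : ℝ) * Real.sqrt M)⁻¹ * Real.exp (Real.pi * |t| / 2)) * (1 / Θ1) := by
    apply norm_sum_le_of_le
    intro n _
    rw [← mul_sub, norm_mul, norm_mul, norm_ee, mul_one, Complex.norm_real, Real.norm_eq_abs]
    by_cases hn : n ∈ Ioc M N
    · have h1 : (M : ℝ) ≤ n := by exact_mod_cast (Finset.mem_Ioc.1 hn).1.le
      have h2 := MelM_diff n s t M Θ Θ1 hs hΘ1 hΘ hM1 h1
      unfold MelM_F at h2
      calc _ ≤ 1 * _ := mul_le_mul_of_nonneg_right (hb n) (norm_nonneg _)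
        _ ≤ _ := by rw [one_mul]; exact h2
    · rw [hg n hn, abs_zero, zero_mul]
      positivity
  rw [Finset.sum_const, Nat.card_Icc, Nat.add_sub_cancel, nsmul_eq_mul] at hsum
  calc _ ≤ (3 * Real.exp (-(Real.pi * |t| / 2))) * ((N : ℝ) * ((1 + |t|)
        * (((M : ℝ) * Real.sqrt M)⁻¹ * Real.exp (Real.pi * |t| / 2)) * (1 / Θ1))) :=
        mul_le_mul (gamma_half t) hsum (norm_nonneg _) (by positivity)
    _ = (Real.exp (-(Real.pi * |t| / 2)) * Real.exp (Real.pi * |t| / 2))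
          * (3 * (1 + |t|) * N / (M * Real.sqrt M) / Θ1) := by
        rw [div_eq_mul_inv _ ((M : ℝ) * Real.sqrt M)]
        ring
    _ = _ := by
        rw [← Real.exp_add]
        simp

end Pool.Agent.H76.MU
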