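import Pool.Agent.H76.MU.IIG
import Pool.Agent.H76.MU.MelM
import Pool.Agent.H35.W.MellE
import Pool.Agent.H35.W.JredE

/-!
# MU IIM: the difference of two damped sums

Proof.  `Θ = 1/L^6`, `κ = 6m + 2 C0 + E + 6`, `Θ1 = L^κ/x` (`1/x ≤ Θ1 ≤ Θ` for large `x`), `D = gd g N Θ Θ1 s`, `S ⊆ pb P`, `S2 ≤ x`.
`int_sum_sq_e` (`H35/W/MellE.lean`; `|ge(θ)| ≤ (∑|g|) e^{-θ/Θ}`, `norm_ge_le`; for `D` use `b = 1/Θ` and twice the bound, as `e^{-θ/Θ1} ≤ e^{-θ/Θ}`):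
`II S D = (1/2π) ∫ |ZZ S t|^2 |Mel D t|^2 dt`, all integrable; `Mel D = Mel(ge Θ) - Mel(ge Θ1)` (`mellin` of a difference; the Mellin integrals at `1/2 - i t` converge absolutely).
`|t| ≤ T0 = L^{4m}`: `mel_m`: `|Mel D t| ≤ 3 (1 + L^{4m}) x · L^{3 C0/2} x^{-3/2} · x/L^κ ≤ 6 √x L^{4m + 2 C0 - κ}`, `|ZZ S t|^2 ≤ 8 P` (as in `IIL`): contribution
`≤ 2 T0 · 8 P · 36 x L^{8m + 4 C0 - 2κ} ≤ 576 P x L^{12 m + 4 C0 - 2κ} ≤ P x/(2 L^E)`.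
`|t| > T0`: `|Mel D|^2 ≤ 2 |Mel(ge Θ)|^2 + 2 |Mel(ge Θ1)|^2` and `ii_g C0 (E + 3) η` twice: `≤ 4 P x/L^{E+3}`.
-/

set_option autoImplicit false

namespace Pool.Agent.H76.MU

open Finset MeasureTheory
open Pool.Agent.H91.PK (ee)
open Pool.Agent.H76.EHB
open Pool.Agent.H35.W

/-- the difference of two damped sums -/
noncomputable def gd (g : ℕ → ℝ) (N : ℕ) (Θ Θ1 s θ : ℝ) : ℂ :=
  ge g N 0 0 Θ s θ - ge g N 0 0 Θ1 s θ

/-- convergence of the Mellin integral (copy of the private `melle_conv`) -/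
private theorem IIM_conv (g : ℝ → ℂ) (hg : Measurable g) (B b : ℝ) (hb : 0 < b)
    (hB : ∀ θ, 0 < θ → ‖g θ‖ ≤ B * Real.exp (-(b * θ))) (t : ℝ) :
    MellinConvergent g (1 / 2 - t * Complex.I) := by
  unfold MellinConvergent
  have hmeas : AEStronglyMeasurable
      (fun θ : ℝ => (θ : ℂ) ^ ((1 / 2 : ℂ) - t * Complex.I - 1) • g θ)
      (volume.restrict (Set.Ioi 0)) := by
    have hc : AEStronglyMeasurable (fun θ : ℝ => (θ : ℂ) ^ ((1 / 2 : ℂ) - t * Complex.I - 1))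
        (volume.restrict (Set.Ioi 0)) := ?_
    · exact hc.smul hg.aestronglyMeasurable
    refine ContinuousOn.aestronglyMeasurable ?_ measurableSet_Ioi
    intro θ hθ
    exact (Complex.continuousAt_ofReal_cpow_const θ _ (Or.inr (ne_of_gt hθ))).continuousWithinAt
  have hI : IntegrableOn (fun θ : ℝ => θ ^ (-(1 / 2) : ℝ) * Real.exp (-b * θ ^ (1 : ℝ)) * B)
      (Set.Ioi 0) :=
    (integrableOn_rpow_mul_exp_neg_mul_rpow (by norm_num) one_pos hb).mul_const B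
  refine Integrable.mono' hI hmeas ?_
  refine (ae_restrict_iff' measurableSet_Ioi).2 (Filter.Eventually.of_forall fun θ hθ => ?_)
  have hθ' : (0 : ℝ) < θ := hθ
  rw [norm_smul, Complex.norm_cpow_eq_rpow_re_of_pos hθ']
  have hre : ((1 / 2 : ℂ) - t * Complex.I - 1).re = -(1 / 2) := by
    simp
    norm_num
  rw [hre, Real.rpow_one, mul_assoc]
  refine mul_le_mul_of_nonneg_left ?_ (Real.rpow_nonneg hθ'.le _)
  refine (hB θ hθ').trans (le_of_eq ?_)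
  rw [mul_comm, neg_mul]

/-- the Mellin transform of a difference -/
private theorem IIM_mel_sub (g1 g2 : ℝ → ℂ) (t : ℝ)
    (h1 : MellinConvergent g1 (1 / 2 - t * Complex.I))
    (h2 : MellinConvergent g2 (1 / 2 - t * Complex.I)) :
    Mel (fun θ => g1 θ - g2 θ) t = Mel g1 t - Mel g2 t := by
  unfold Mel mellin
  rw [← integral_sub h1 h2]
  simp only [smul_sub]

/-- the final computation for small `t` -/
private theorem IIM_small (X L N M P : ℝ) (m C0 E κ : ℕ) (t : ℝ) (hX : 0 < X) (hL : 1000 ≤ L)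
    (hN0 : 0 ≤ N) (hN : N ≤ X) (hM : X / L ^ C0 ≤ M) (ht : |t| ≤ L ^ (4 * m))
    (hκ : κ = 6 * m + 2 * C0 + E + 6) (hP : 0 ≤ P) :
    (3 * (1 + |t|) * N / (M * Real.sqrt M) / (L ^ κ / X)) ^ 2 * (8 * P) ≤
      P * X / (4 * L ^ E * L ^ (4 * m)) := by
  have hL0 : 0 < L := by linarith
  have hL1 : 1 ≤ L := by linarith
  have hY : 0 < X / L ^ C0 := by positivity
  have hM0 : 0 < M := lt_of_lt_of_le hY hM
  have hsq : Real.sqrt M ^ 2 = M := Real.sq_sqrt hM0.le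
  have e1 : (3 * (1 + |t|) * N / (M * Real.sqrt M) / (L ^ κ / X)) ^ 2 =
      9 * (1 + |t|) ^ 2 * N ^ 2 / (M ^ 3) / ((L ^ κ) ^ 2 / X ^ 2) := by
    rw [div_pow, div_pow, div_pow, mul_pow, mul_pow, mul_pow, hsq]
    ring
  rw [e1]
  have hT : 1 ≤ L ^ (4 * m) := one_le_pow₀ hL1
  have h1 : (1 + |t|) ^ 2 ≤ (2 * L ^ (4 * m)) ^ 2 :=
    pow_le_pow_left₀ (by positivity) (by linarith) 2
  have h2 : N ^ 2 ≤ X ^ 2 := pow_le_pow_left₀ hN0 hN 2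
  have h3 : (X / L ^ C0) ^ 3 ≤ M ^ 3 := pow_le_pow_left₀ hY.le hM 3
  have h4 : 9 * (1 + |t|) ^ 2 * N ^ 2 / (M ^ 3) / ((L ^ κ) ^ 2 / X ^ 2) ≤
      9 * (2 * L ^ (4 * m)) ^ 2 * X ^ 2 / ((X / L ^ C0) ^ 3) / ((L ^ κ) ^ 2 / X ^ 2) := by
    gcongr
  refine (mul_le_mul_of_nonneg_right h4 (by positivity)).trans ?_
  have e2 : 9 * (2 * L ^ (4 * m)) ^ 2 * X ^ 2 / ((X / L ^ C0) ^ 3) / ((L ^ κ) ^ 2 / X ^ 2) * (8 * P)
      = P * X * (288 * (L ^ (4 * m)) ^ 2 * (L ^ C0) ^ 3 / (L ^ κ) ^ 2) := by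
    field_simp
    ring
  rw [e2]
  have e3 : P * X / (4 * L ^ E * L ^ (4 * m)) = P * X * (1 / (4 * L ^ E * L ^ (4 * m))) := by ring
  rw [e3]
  apply mul_le_mul_of_nonneg_left _ (by positivity)
  rw [div_le_div_iff₀ (by positivity) (by positivity)]
  have e4 : 288 * (L ^ (4 * m)) ^ 2 * (L ^ C0) ^ 3 * (4 * L ^ E * L ^ (4 * m)) =
      1152 * L ^ (12 * m + 3 * C0 + E) := by
    have : L ^ (12 * m + 3 * C0 + E) = (L ^ (4 * m)) ^ 3 * (L ^ C0) ^ 3 * L ^ E := by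
      rw [← pow_mul, ← pow_mul, ← pow_add, ← pow_add]
      congr 1
      ring
    rw [this]; ring
  have e5 : (1 : ℝ) * (L ^ κ) ^ 2 = L ^ (12 * m + 3 * C0 + E) * L ^ (C0 + E + 12) := by
    rw [← pow_mul, ← pow_add, one_mul, hκ]
    congr 1
    ring
  rw [e4, e5, mul_comm (1152 : ℝ)]
  apply mul_le_mul_of_nonneg_left _ (by positivity)
  have h5 : L ^ 2 ≤ L ^ (C0 + E + 12) := pow_le_pow_right₀ hL1 (by omega)
  nlinarith

theorem ii_m (C0 E : ℕ) (η : ℝ) (hη : 0 < η) (hη1 : η ≤ 1) : ∃ b K m0 : ℕ, ∀ m : ℕ, m0 ≤ m →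
    ∃ κ x0 : ℕ, ∀ x : ℕ, x0 ≤ x → ∀ (g : ℕ → ℝ) (N M P : ℕ) (S : Finset ℕ) (s : ℝ),
      CorM x m K η N M g → N ≤ x → x / Real.log x ^ C0 ≤ M → Real.log x ^ b ≤ P →
      P ≤ x → S ⊆ pb P → (s = 1 ∨ s = -1) →
      II S (gd g N (1 / Real.log x ^ 6) (Real.log x ^ κ / x) s) ≤ P * x / Real.log x ^ E := by
  obtain ⟨b, K, m0, hg⟩ := ii_g C0 (E + 3) η hη hη1
  refine ⟨b, K, m0, fun m hm => ?_⟩
  obtain ⟨xg, hxg⟩ := hg m hm
  obtain ⟨κ, hκ⟩ : ∃ κ : ℕ, κ = 6 * m + 2 * C0 + E + 6 := ⟨_, rfl⟩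
  obtain ⟨x1, hx1⟩ := log_ge 1000
  obtain ⟨x2, hx2⟩ := log_pow_le 1 1 one_pos one_pos (κ + 6 + C0)
  refine ⟨κ, max xg (max x1 (max x2 2)), ?_⟩
  intro x hx g N M P S s hcor hNx hM hP hPx hS hs
  simp only [max_le_iff] at hx
  obtain ⟨hxxg, hxx1, hxx2, hxx3⟩ := hx
  have hLbig := hx1 x hxx1
  have hLk := hx2 x hxx2
  have hgx := hxg x hxxg g N M P S
  have hX2 : (2 : ℝ) ≤ x := by exact_mod_cast hxx3
  have hNX : (N : ℝ) ≤ x := by exact_mod_cast hNx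
  rw [Real.rpow_one, one_mul] at hLk
  set L := Real.log x with hLdef
  obtain ⟨X, hXdef⟩ : ∃ X : ℝ, X = (x : ℝ) := ⟨_, rfl⟩
  rw [← hXdef] at hX2 hLk hNX hM hgx ⊢
  have hX0 : 0 < X := by linarith
  have hL0 : 0 < L := by linarith
  have hL1 : 1 ≤ L := by linarith
  have hPL : 1 ≤ (P : ℝ) := (one_le_pow₀ hL1).trans hP
  have hP0 : 0 < (P : ℝ) := by linarith
  have hLk6 : L ^ (κ + 6) ≤ X := (pow_le_pow_right₀ hL1 (by omega)).trans hLk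
  have hL6 : L ^ 6 ≤ X := (pow_le_pow_right₀ hL1 (by omega)).trans hLk
  have hLC : L ^ C0 ≤ X := (pow_le_pow_right₀ hL1 (by omega)).trans hLk
  have hM1 : 1 ≤ M := by
    have h1 : 1 ≤ X / L ^ C0 := (one_le_div (by positivity)).2 hLC
    have : (1 : ℝ) ≤ (M : ℝ) := h1.trans hM
    exact_mod_cast this
  obtain ⟨Θ, hΘ⟩ : ∃ Θ : ℝ, Θ = 1 / L ^ 6 := ⟨_, rfl⟩
  obtain ⟨Θ1, hΘ1⟩ : ∃ Θ1 : ℝ, Θ1 = L ^ κ / X := ⟨_, rfl⟩
  have hΘ0 : 0 < Θ := by rw [hΘ]; positivity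
  have hΘ10 : 0 < Θ1 := by rw [hΘ1]; positivity
  have hΘΘ : Θ1 ≤ Θ := by
    rw [hΘ, hΘ1, div_le_div_iff₀ hX0 (by positivity), ← pow_add, one_mul]
    exact hLk6
  have hXΘ : 1 / X ≤ Θ := by
    rw [hΘ]
    exact one_div_le_one_div_of_le (by positivity) hL6
  have hXΘ1 : 1 / X ≤ Θ1 := by
    rw [hΘ1]
    exact div_le_div_of_nonneg_right (one_le_pow₀ hL1) hX0.le
  have hgG := hgx Θ s hcor hNx hM hP hPx hS hXΘ (by rw [hΘ]) hs
  have hgG1 := hgx Θ1 s hcor hNx hM hP hPx hS hXΘ1 (by rw [← hΘ]; exact hΘΘ) hs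
  rw [← hΘ, ← hΘ1]
  -- the functions
  obtain ⟨G, hG⟩ : ∃ G : ℝ → ℂ, G = ge g N 0 0 Θ s := ⟨_, rfl⟩
  obtain ⟨G1, hG1⟩ : ∃ G1 : ℝ → ℂ, G1 = ge g N 0 0 Θ1 s := ⟨_, rfl⟩
  have hD : gd g N Θ Θ1 s = fun θ => G θ - G1 θ := by
    funext θ
    rw [hG, hG1]
    rfl
  have hGm : Measurable G := hG ▸ ge_measurable g N 0 0 Θ s
  have hG1m : Measurable G1 := hG1 ▸ ge_measurable g N 0 0 Θ1 s
  obtain ⟨A, hA⟩ : ∃ A : ℝ, A = ∑ n ∈ Icc 1 N, |g n| := ⟨_, rfl⟩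
  have hA0 : 0 ≤ A := hA ▸ Finset.sum_nonneg fun n _ => abs_nonneg _
  have hGb : ∀ θ, 0 < θ → ‖G θ‖ ≤ A * Real.exp (-(1 / Θ * θ)) := by
    intro θ hθ
    rw [hG, hA]
    have h1 := norm_ge_le g N 0 0 Θ s θ hθ
    have h2 : θ / Θ = 1 / Θ * θ := by ring
    rwa [h2] at h1
  have hG1b : ∀ θ, 0 < θ → ‖G1 θ‖ ≤ A * Real.exp (-(1 / Θ1 * θ)) := by
    intro θ hθ
    rw [hG1, hA]
    have h1 := norm_ge_le g N 0 0 Θ1 s θ hθ
    have h2 : θ / Θ1 = 1 / Θ1 * θ := by ring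
    rwa [h2] at h1
  have hDm : Measurable (fun θ => G θ - G1 θ) := hGm.sub hG1m
  have hDb : ∀ θ, 0 < θ → ‖G θ - G1 θ‖ ≤ (2 * A) * Real.exp (-(1 / Θ * θ)) := by
    intro θ hθ
    have h1 : Real.exp (-(1 / Θ1 * θ)) ≤ Real.exp (-(1 / Θ * θ)) := by
      apply Real.exp_le_exp.2
      have h2 : 1 / Θ ≤ 1 / Θ1 := one_div_le_one_div_of_le hΘ10 hΘΘ
      have h3 := mul_le_mul_of_nonneg_right h2 hθ.le
      linarith
    calc ‖G θ - G1 θ‖ ≤ ‖G θ‖ + ‖G1 θ‖ := norm_sub_le _ _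
      _ ≤ A * Real.exp (-(1 / Θ * θ)) + A * Real.exp (-(1 / Θ1 * θ)) :=
          add_le_add (hGb θ hθ) (hG1b θ hθ)
      _ ≤ A * Real.exp (-(1 / Θ * θ)) + A * Real.exp (-(1 / Θ * θ)) := by gcongr
      _ = (2 * A) * Real.exp (-(1 / Θ * θ)) := by ring
  have hS1 : ∀ k ∈ S, 1 ≤ k := fun k hk => by
    have h1 := hS hk
    simp only [pb, Finset.mem_filter, Finset.mem_Ioc] at h1
    omega
  have hS2 : S ⊆ Icc 1 (2 * P) := fun k hk => by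
    have h1 := hS hk
    simp only [pb, Finset.mem_filter, Finset.mem_Ioc] at h1
    exact Finset.mem_Icc.2 ⟨by omega, h1.1.2⟩
  obtain ⟨hI1, hI2⟩ := int_sum_sq_e S hS1 (fun θ => G θ - G1 θ) hDm _ _ (one_div_pos.2 hΘ0) hDb
  obtain ⟨hIG, _⟩ := int_sum_sq_e S hS1 G hGm _ _ (one_div_pos.2 hΘ0) hGb
  obtain ⟨hIG1, _⟩ := int_sum_sq_e S hS1 G1 hG1m _ _ (one_div_pos.2 hΘ10) hG1b
  have hmel : ∀ t, Mel (fun θ => G θ - G1 θ) t = Mel G t - Mel G1 t := fun t =>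
    IIM_mel_sub G G1 t (IIM_conv G hGm _ _ (one_div_pos.2 hΘ0) hGb t)
      (IIM_conv G1 hG1m _ _ (one_div_pos.2 hΘ10) hG1b t)
  have hZZ : ∀ t, ‖ZZ S t‖ ^ 2 ≤ 8 * P := by
    intro t
    have h1 := norm_ZZ_sq_le (2 * P) S hS2 t
    push_cast at h1
    linarith
  rw [hD, hI2]
  obtain ⟨F, hF⟩ : ∃ F : ℝ → ℝ, F = fun t => ‖ZZ S t‖ ^ 2 * ‖Mel (fun θ => G θ - G1 θ) t‖ ^ 2 :=
    ⟨_, rfl⟩
  obtain ⟨T0, hT0⟩ : ∃ T0 : ℝ, T0 = L ^ (4 * m) := ⟨_, rfl⟩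
  have hT01 : 1 ≤ T0 := hT0 ▸ one_le_pow₀ hL1
  rw [← hT0, ← hG] at hgG
  rw [← hT0, ← hG1] at hgG1
  have hAm : MeasurableSet {t : ℝ | T0 < |t|} :=
    (isOpen_lt continuous_const continuous_abs).measurableSet
  have hAc : {t : ℝ | T0 < |t|}ᶜ = Set.Icc (-T0) T0 := by
    ext t
    simp only [Set.mem_compl_iff, Set.mem_ofPred_eq, not_lt, Set.mem_Icc]
    exact abs_le
  have hFi : Integrable F := hF ▸ hI1
  have hsplit := integral_add_compl hAm hFi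
  rw [hAc] at hsplit
  -- small t
  have hsm : ∫ t in Set.Icc (-T0) T0, F t ≤ 1 / 2 * (P * X / L ^ E) := by
    have hpt : ∀ t ∈ Set.Icc (-T0) T0, F t ≤ P * X / (4 * L ^ E * T0) := by
      intro t ht
      have ht' : |t| ≤ L ^ (4 * m) := by
        rw [← hT0]
        exact abs_le.2 ht
      have h1 := mel_m g N M Θ Θ1 s t hs hΘ10 hΘΘ hM1 hcor.supp hcor.bd
      rw [← hG, ← hG1, ← hmel] at h1
      have h2 := IIM_small X L N M P m C0 E κ t hX0 hLbig (Nat.cast_nonneg N) hNX hM ht' hκ hP0.le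
      rw [← hΘ1, ← hT0] at h2
      rw [hF]
      calc ‖ZZ S t‖ ^ 2 * ‖Mel (fun θ => G θ - G1 θ) t‖ ^ 2
          ≤ (8 * P) * (3 * (1 + |t|) * N / (M * Real.sqrt M) / Θ1) ^ 2 :=
            mul_le_mul (hZZ t) (pow_le_pow_left₀ (norm_nonneg _) h1 2) (sq_nonneg _) (by positivity)
        _ = (3 * (1 + |t|) * N / (M * Real.sqrt M) / Θ1) ^ 2 * (8 * P) := by ring
        _ ≤ P * X / (4 * L ^ E * T0) := h2
    have h3 : ∫ t in Set.Icc (-T0) T0, F t ≤ ∫ _t in Set.Icc (-T0) T0, P * X / (4 * L ^ E * T0) := by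
      apply setIntegral_mono_on hFi.integrableOn
      · exact integrableOn_const (by simp)
      · exact measurableSet_Icc
      · exact hpt
    refine h3.trans (le_of_eq ?_)
    rw [setIntegral_const, smul_eq_mul, Real.volume_real_Icc_of_le (by linarith)]
    have : T0 ≠ 0 := by linarith
    field_simp
    ring
  -- large t
  have hlg : ∫ t in {t : ℝ | T0 < |t|}, F t ≤ 4 * (P * X / L ^ (E + 3)) := by
    have hpt : ∀ t, F t ≤ 2 * (‖ZZ S t‖ ^ 2 * ‖Mel G t‖ ^ 2) +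
        2 * (‖ZZ S t‖ ^ 2 * ‖Mel G1 t‖ ^ 2) := by
      intro t
      rw [hF]
      simp only
      rw [hmel]
      have h1 := norm_sub_le (Mel G t) (Mel G1 t)
      have h2 : ‖Mel G t - Mel G1 t‖ ^ 2 ≤ 2 * ‖Mel G t‖ ^ 2 + 2 * ‖Mel G1 t‖ ^ 2 := by
        nlinarith [sq_nonneg (‖Mel G t‖ - ‖Mel G1 t‖), norm_nonneg (Mel G t - Mel G1 t),
          norm_nonneg (Mel G t), norm_nonneg (Mel G1 t)]
      have h3 := mul_le_mul_of_nonneg_left h2 (sq_nonneg ‖ZZ S t‖)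
      linarith
    have h4 : ∫ t in {t : ℝ | T0 < |t|}, F t ≤ ∫ t in {t : ℝ | T0 < |t|},
        (2 * (‖ZZ S t‖ ^ 2 * ‖Mel G t‖ ^ 2) + 2 * (‖ZZ S t‖ ^ 2 * ‖Mel G1 t‖ ^ 2)) := by
      apply setIntegral_mono hFi.integrableOn
      · exact ((hIG.const_mul 2).add (hIG1.const_mul 2)).integrableOn
      · exact hpt
    refine h4.trans ?_
    rw [integral_add (hIG.const_mul 2).integrableOn (hIG1.const_mul 2).integrableOn,
      integral_const_mul, integral_const_mul]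
    linarith
  have htot : ∫ t, F t ≤ P * X / L ^ E := by
    rw [← hsplit]
    have h5 : 4 * (P * X / L ^ (E + 3)) ≤ 1 / 2 * (P * X / L ^ E) := by
      have e : 4 * (P * X / L ^ (E + 3)) = (P * X / L ^ E) * (4 / L ^ 3) := by
        field_simp
        ring
      rw [e, mul_comm]
      apply mul_le_mul_of_nonneg_right _ (by positivity)
      rw [div_le_iff₀ (by positivity)]
      have h6 : L ^ 1 ≤ L ^ 3 := pow_le_pow_right₀ hL1 (by norm_num)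
      rw [pow_one] at h6
      linarith
    linarith
  have hI0 : 0 ≤ ∫ t, F t := by
    rw [hF]
    exact integral_nonneg fun t => by positivity
  have hpi1 : 1 / (2 * Real.pi) ≤ 1 := by
    rw [div_le_one (by positivity)]
    linarith [Real.pi_gt_three]
  have hFe : ∫ t, ‖ZZ S t‖ ^ 2 * ‖Mel (fun θ => G θ - G1 θ) t‖ ^ 2 = ∫ t, F t := by rw [hF]
  rw [hFe]
  calc 1 / (2 * Real.pi) * ∫ t, F t ≤ 1 * ∫ t, F t := mul_le_mul_of_nonneg_right hpi1 hI0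
    _ ≤ P * X / L ^ E := by rw [one_mul]; exact htot

end Pool.Agent.H76.MU
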