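import Pool.Agent.H76.MU.IIM

/-!
# MU JM: the integral over `Y0 ≤ y ≤ Y`

Proof.  `ii_m C0 (E + 3) η` gives `b, K, m0` and `κ1`; `κ = κ1 + 2`.  `Θ = 1/L^6`, `Θ1 = L^{κ1}/x`, `S = pb P` (all `k ∈ S` satisfy `P < k ≤ 2P`, `|S| ≤ P`, `∑ 1/k ≤ 1`).  For
`y ∈ [Y0, Y]`, `Y0 = L^κ/(P x)`: `ge(k y) = FF g N (s k y) e^{-k y/Θ}` (`ee(0) = 1`), so
`FF g N (k s y) = gd(k y) + FF g N (k s y)(1 - e^{-k y/Θ}) + FF g N (k s y) e^{-k y/Θ1}`; `1 - e^{-k y/Θ} ≤ 2 P Y/Θ ≤ 2/L^{E+6}`, `k y/Θ1 ≥ P Y0/Θ1 = L^2`.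
`|SG|^2 ≤ 3 |∑_k gd(k y)|^2 + 3 |S| ∑_k (4/L^{2E+12} + e^{-2 L^2}) |FF g N (k s y)|^2`; the first integral is `≤ II S gd` (`II` is the integral over `(0, ∞)`; integrability as in
`JredE.lean`), and `∫_0^Y |FF g N (s k y)|^2 dy ≤ S2/k ≤ x/k` as `k Y ≤ 2 P Y ≤ 1` (as in `JredE_half`: `SmallA_window`).  Total
`≤ 3 P x/L^{E+3} + 3 P (4/L^{2E+12} + e^{-2L^2}) x ≤ P x/L^E` (`e^{-2 L^2} ≤ 1/x^2 ≤ 1/L^{E+3}` for large `x`).  If `Y < Y0` the set is empty.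
-/

set_option autoImplicit false

namespace Pool.Agent.H76.MU

open Finset MeasureTheory
open Pool.Agent.H91.PK (ee)
open Pool.Agent.H76.EHB
open Pool.Agent.H35.W

private theorem JM_norm_ge (f : ℕ → ℝ) (N : ℕ) (Θ s θ : ℝ) (hθ : 0 < θ) :
    ‖ge f N 0 0 Θ s θ‖ ≤ (∑ n ∈ Icc 1 N, |f n|) * Real.exp (-(θ / Θ)) :=
  norm_ge_le f N 0 0 Θ s θ hθ

/-- windows of length at most one, both signs -/
private theorem JM_window (f : ℕ → ℝ) (N : ℕ) (s v : ℝ) (hs : s = 1 ∨ s = -1)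
    (hv0 : 0 ≤ v) (hv : v ≤ 1) :
    ∫ θ in (0 : ℝ)..v, ‖FF f N (s * θ)‖ ^ 2 ≤ S2 f N := by
  rcases hs with rfl | rfl
  · simp only [one_mul]
    exact SmallA_window f N _ _ hv0 (by linarith)
  · have h := intervalIntegral.integral_comp_neg (a := (0 : ℝ)) (b := v)
      (fun t => ‖FF f N t‖ ^ 2)
    have e : ∀ θ : ℝ, -1 * θ = -θ := fun θ => by ring
    simp only [e]
    rw [h]
    exact SmallA_window f N _ _ (by linarith) (by linarith)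

private theorem JM_FF_cont (f : ℕ → ℝ) (N k : ℕ) (s : ℝ) :
    Continuous (fun y : ℝ => ‖FF f N (k * (s * y))‖ ^ 2) :=
  (((FF_continuous f N).comp (by fun_prop : Continuous fun y : ℝ => (k : ℝ) * (s * y))).norm).pow 2

private theorem JM_scale (f : ℕ → ℝ) (N : ℕ) (s Y : ℝ) (k : ℕ) (hk : 1 ≤ k)
    (hs : s = 1 ∨ s = -1) (hY : 0 ≤ Y) (hkY : k * Y ≤ 1) :
    ∫ y in (0 : ℝ)..Y, ‖FF f N (k * (s * y))‖ ^ 2 ≤ (1 / (k : ℝ)) * S2 f N := by
  have hk0 : (k : ℝ) ≠ 0 := by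
    have : (1 : ℝ) ≤ k := by exact_mod_cast hk
    linarith
  have h1 := intervalIntegral.integral_comp_mul_left (a := 0) (b := Y)
    (fun t => ‖FF f N (s * t)‖ ^ 2) hk0
  have e : ∀ y : ℝ, (k : ℝ) * (s * y) = s * (k * y) := fun y => by ring
  simp only [e]
  rw [h1, smul_eq_mul, mul_zero, ← one_div]
  have hk1 : (0 : ℝ) ≤ (k : ℝ) * Y := by positivity
  exact mul_le_mul_of_nonneg_left (JM_window f N s (k * Y) hs hk1 hkY) (by positivity)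

private theorem JM_int_ge (S : Finset ℕ) (hS : ∀ k ∈ S, 1 ≤ k) (f : ℕ → ℝ) (N : ℕ)
    (Θ s : ℝ) (hΘ : 0 < Θ) :
    IntegrableOn (fun y => ‖∑ k ∈ S, ge f N 0 0 Θ s (k * y)‖ ^ 2) (Set.Ioi (0 : ℝ)) := by
  obtain ⟨B, hB⟩ : ∃ B : ℝ, B = ∑ n ∈ Icc 1 N, |f n| := ⟨_, rfl⟩
  have hB0 : 0 ≤ B := by
    rw [hB]
    exact Finset.sum_nonneg fun _ _ => abs_nonneg _
  have hmeas : Measurable (fun y => ‖∑ k ∈ S, ge f N 0 0 Θ s (k * y)‖ ^ 2) := by
    refine (Measurable.norm (Finset.measurable_sum S fun k _ => ?_)).pow_const 2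
    exact (ge_measurable f N 0 0 Θ s).comp (measurable_const.mul measurable_id)
  have hi : IntegrableOn (fun y : ℝ => ((S.card : ℝ) * B) ^ 2 * Real.exp (-(1 / Θ) * y))
      (Set.Ioi (0 : ℝ)) :=
    (exp_neg_integrableOn_Ioi 0 (by positivity : 0 < 1 / Θ)).const_mul _
  refine Integrable.mono' hi hmeas.aestronglyMeasurable ?_
  refine (ae_restrict_iff' measurableSet_Ioi).2 (Filter.Eventually.of_forall ?_)
  intro y hy
  have hy0 : (0 : ℝ) < y := hy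
  rw [Real.norm_eq_abs, abs_of_nonneg (sq_nonneg _)]
  have h1 : ‖∑ k ∈ S, ge f N 0 0 Θ s (k * y)‖ ≤ (S.card : ℝ) * B * Real.exp (-(1 / Θ) * y) := by
    refine (norm_sum_le _ _).trans ?_
    have h2 : ∀ k ∈ S, ‖ge f N 0 0 Θ s (k * y)‖ ≤ B * Real.exp (-(1 / Θ) * y) := by
      intro k hk
      have hk1 : (1 : ℝ) ≤ k := by exact_mod_cast hS k hk
      have hky : 0 < (k : ℝ) * y := by positivity
      refine (JM_norm_ge f N Θ s _ hky).trans ?_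
      rw [← hB]
      apply mul_le_mul_of_nonneg_left _ hB0
      apply Real.exp_le_exp.2
      have h3 : y ≤ k * y := by nlinarith
      have h4 : y / Θ ≤ k * y / Θ := by gcongr
      calc -(k * y / Θ) ≤ -(y / Θ) := by linarith
        _ = -(1 / Θ) * y := by ring
    refine (Finset.sum_le_sum h2).trans (le_of_eq ?_)
    rw [Finset.sum_const, nsmul_eq_mul]
    ring
  have h5 : Real.exp (-(1 / Θ) * y) ≤ 1 := by
    apply Real.exp_le_one_iff.2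
    have : 0 ≤ 1 / Θ * y := by positivity
    linarith
  have h6 := Real.exp_pos (-(1 / Θ) * y)
  calc ‖∑ k ∈ S, ge f N 0 0 Θ s (k * y)‖ ^ 2
      ≤ ((S.card : ℝ) * B * Real.exp (-(1 / Θ) * y)) ^ 2 :=
        pow_le_pow_left₀ (norm_nonneg _) h1 2
    _ = ((S.card : ℝ) * B) ^ 2 * (Real.exp (-(1 / Θ) * y) * Real.exp (-(1 / Θ) * y)) := by ring
    _ ≤ ((S.card : ℝ) * B) ^ 2 * (1 * Real.exp (-(1 / Θ) * y)) := by
        apply mul_le_mul_of_nonneg_left _ (sq_nonneg _)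
        exact mul_le_mul_of_nonneg_right h5 h6.le
    _ = ((S.card : ℝ) * B) ^ 2 * Real.exp (-(1 / Θ) * y) := by ring

private theorem JM_int_gd (S : Finset ℕ) (hS : ∀ k ∈ S, 1 ≤ k) (f : ℕ → ℝ) (N : ℕ)
    (Θ Θ1 s : ℝ) (hΘ : 0 < Θ) (hΘ1 : 0 < Θ1) :
    IntegrableOn (fun y => ‖∑ k ∈ S, gd f N Θ Θ1 s (k * y)‖ ^ 2) (Set.Ioi (0 : ℝ)) := by
  have i1 := JM_int_ge S hS f N Θ s hΘ
  have i2 := JM_int_ge S hS f N Θ1 s hΘ1
  have hmeas : Measurable (fun y => ‖∑ k ∈ S, gd f N Θ Θ1 s (k * y)‖ ^ 2) := by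
    refine (Measurable.norm (Finset.measurable_sum S fun k _ => ?_)).pow_const 2
    unfold gd
    exact ((ge_measurable f N 0 0 Θ s).comp (measurable_const.mul measurable_id)).sub
      ((ge_measurable f N 0 0 Θ1 s).comp (measurable_const.mul measurable_id))
  refine Integrable.mono' ((i1.const_mul 2).add (i2.const_mul 2)) hmeas.aestronglyMeasurable ?_
  refine Filter.Eventually.of_forall fun y => ?_
  rw [Real.norm_eq_abs, abs_of_nonneg (sq_nonneg _)]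
  simp only [Pi.add_apply]
  unfold gd
  rw [Finset.sum_sub_distrib]
  have h1 := norm_sub_le (∑ k ∈ S, ge f N 0 0 Θ s (k * y)) (∑ k ∈ S, ge f N 0 0 Θ1 s (k * y))
  have h2 := norm_nonneg (∑ k ∈ S, ge f N 0 0 Θ s (k * y) - ∑ k ∈ S, ge f N 0 0 Θ1 s (k * y))
  nlinarith [sq_nonneg (‖∑ k ∈ S, ge f N 0 0 Θ s (k * y)‖ - ‖∑ k ∈ S, ge f N 0 0 Θ1 s (k * y)‖),
    norm_nonneg (∑ k ∈ S, ge f N 0 0 Θ s (k * y)), norm_nonneg (∑ k ∈ S, ge f N 0 0 Θ1 s (k * y))]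

private theorem JM_gd_eq (f : ℕ → ℝ) (N : ℕ) (Θ Θ1 s θ : ℝ) (hθ : 0 < θ) :
    gd f N Θ Θ1 s θ = FF f N (s * θ) *
      ((Real.exp (-(θ / Θ)) - Real.exp (-(θ / Θ1)) : ℝ) : ℂ) := by
  have e0 : ee (-(0 * s * θ)) = 1 := by
    have : -(0 * s * θ) = ((0 : ℤ) : ℝ) := by push_cast; ring
    rw [this, ee_int]
  unfold gd ge
  rw [if_pos hθ, if_pos hθ, e0, zero_add]
  push_cast
  ring

/-- the bound with abstract parameters -/
private theorem JM_main (g : ℕ → ℝ) (N P : ℕ) (s Θ Θ1 Y0 Y c : ℝ) (hs : s = 1 ∨ s = -1)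
    (hΘ : 0 < Θ) (hΘ1 : 0 < Θ1) (hY0 : 0 < Y0) (hY : 0 ≤ Y) (hPY : 2 * P * Y ≤ 1)
    (hc : ∀ k ∈ pb P, ∀ y : ℝ, Y0 ≤ y → y ≤ Y →
      |1 - (Real.exp (-(k * y / Θ)) - Real.exp (-(k * y / Θ1)))| ≤ c) :
    ∫ y in Set.Icc Y0 Y, ‖SG g N P (s * y)‖ ^ 2
      ≤ 2 * II (pb P) (gd g N Θ Θ1 s)
        + 2 * (pb P).card * c ^ 2 * (∑ k ∈ pb P, 1 / (k : ℝ)) * S2 g N := by
  obtain ⟨S, hS⟩ : ∃ S : Finset ℕ, S = pb P := ⟨_, rfl⟩
  rw [← hS] at hc ⊢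
  have hS1 : ∀ k ∈ S, 1 ≤ k := by
    intro k hk
    rw [hS] at hk
    unfold pb at hk
    have := (mem_Ioc.1 (mem_filter.1 hk).1).1
    omega
  have hSK : ∀ k ∈ S, k ≤ 2 * P := by
    intro k hk
    rw [hS] at hk
    unfold pb at hk
    exact (mem_Ioc.1 (mem_filter.1 hk).1).2
  have hsub0 : Set.Icc Y0 Y ⊆ Set.Ioc 0 Y := fun y hy => ⟨lt_of_lt_of_le hY0 hy.1, hy.2⟩
  have hsub1 : Set.Icc Y0 Y ⊆ Set.Ioi 0 := fun y hy => lt_of_lt_of_le hY0 hy.1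
  have i1 := JM_int_gd S hS1 g N Θ Θ1 s hΘ hΘ1
  have j1 := i1.mono_set hsub1
  have m1 : ∫ y in Set.Icc Y0 Y, ‖∑ k ∈ S, gd g N Θ Θ1 s (k * y)‖ ^ 2
      ≤ II S (gd g N Θ Θ1 s) :=
    setIntegral_mono_set i1 (Filter.Eventually.of_forall fun y => sq_nonneg _)
      (LE.le.eventuallyLE hsub1)
  have hci : ∀ k : ℕ, IntegrableOn (fun y : ℝ => ‖FF g N (k * (s * y))‖ ^ 2)
      (Set.Ioc (0 : ℝ) Y) := fun k =>
    ((JM_FF_cont g N k s).integrableOn_Icc (a := 0) (b := Y)).mono_set Set.Ioc_subset_Icc_self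
  have hci' : ∀ k : ℕ, IntegrableOn (fun y : ℝ => ‖FF g N (k * (s * y))‖ ^ 2)
      (Set.Icc Y0 Y) := fun k => (hci k).mono_set hsub0
  obtain ⟨C, hC⟩ : ∃ C : ℝ, C = 2 * S.card * c ^ 2 := ⟨_, rfl⟩
  have hC0 : 0 ≤ C := by
    rw [hC]
    positivity
  have j2 : IntegrableOn (fun y : ℝ => C * ∑ k ∈ S, ‖FF g N (k * (s * y))‖ ^ 2)
      (Set.Icc Y0 Y) :=
    (integrable_finsetSum S fun k _ => hci' k).const_mul C
  have hpt : ∀ y ∈ Set.Icc Y0 Y, ‖SG g N P (s * y)‖ ^ 2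
        ≤ 2 * ‖∑ k ∈ S, gd g N Θ Θ1 s (k * y)‖ ^ 2
          + C * ∑ k ∈ S, ‖FF g N (k * (s * y))‖ ^ 2 := by
    rintro y ⟨hy0, hyY⟩
    have hy : 0 < y := lt_of_lt_of_le hY0 hy0
    obtain ⟨G, hG⟩ : ∃ G : ℂ, G = ∑ k ∈ S, gd g N Θ Θ1 s (k * y) := ⟨_, rfl⟩
    obtain ⟨E, hE⟩ : ∃ E : ℂ, E = ∑ k ∈ S, FF g N (k * (s * y)) *
      ((1 - (Real.exp (-(k * y / Θ)) - Real.exp (-(k * y / Θ1))) : ℝ) : ℂ) := ⟨_, rfl⟩
    have hsum : SG g N P (s * y) = G + E := by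
      unfold SG
      rw [← hS, hG, hE, ← Finset.sum_add_distrib]
      refine Finset.sum_congr rfl fun k hk => ?_
      have hk1 : (1 : ℝ) ≤ k := by exact_mod_cast hS1 k hk
      have hky : 0 < (k : ℝ) * y := by positivity
      rw [JM_gd_eq g N Θ Θ1 s _ hky]
      have e : s * ((k : ℝ) * y) = k * (s * y) := by ring
      rw [e]
      push_cast
      ring
    have hEn : ‖E‖ ≤ ∑ k ∈ S, c * ‖FF g N (k * (s * y))‖ := by
      rw [hE]
      refine (norm_sum_le _ _).trans (Finset.sum_le_sum fun k hk => ?_)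
      rw [norm_mul, Complex.norm_real, Real.norm_eq_abs, mul_comm]
      exact mul_le_mul_of_nonneg_right (hc k hk y hy0 hyY) (norm_nonneg _)
    have hE2 : ‖E‖ ^ 2 ≤ S.card * (c ^ 2 * ∑ k ∈ S, ‖FF g N (k * (s * y))‖ ^ 2) := by
      calc ‖E‖ ^ 2 ≤ (∑ k ∈ S, c * ‖FF g N (k * (s * y))‖) ^ 2 :=
            pow_le_pow_left₀ (norm_nonneg _) hEn 2
        _ ≤ S.card * ∑ k ∈ S, (c * ‖FF g N (k * (s * y))‖) ^ 2 :=
            sq_sum_le_card_mul_sum_sq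
        _ = S.card * (c ^ 2 * ∑ k ∈ S, ‖FF g N (k * (s * y))‖ ^ 2) := by
            have e1 : ∑ k ∈ S, (c * ‖FF g N (k * (s * y))‖) ^ 2 =
                c ^ 2 * ∑ k ∈ S, ‖FF g N (k * (s * y))‖ ^ 2 := by
              rw [Finset.mul_sum]
              exact Finset.sum_congr rfl fun k _ => mul_pow _ _ 2
            rw [e1]
    rw [hsum, ← hG]
    have h6 := norm_add_le G E
    have h7 := norm_nonneg (G + E)
    have h8 : ‖G + E‖ ^ 2 ≤ 2 * ‖G‖ ^ 2 + 2 * ‖E‖ ^ 2 := by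
      nlinarith [sq_nonneg (‖G‖ - ‖E‖), norm_nonneg G, norm_nonneg E]
    calc ‖G + E‖ ^ 2 ≤ 2 * ‖G‖ ^ 2 + 2 * ‖E‖ ^ 2 := h8
      _ ≤ 2 * ‖G‖ ^ 2 + 2 * (S.card * (c ^ 2 * ∑ k ∈ S, ‖FF g N (k * (s * y))‖ ^ 2)) := by
          linarith
      _ = 2 * ‖G‖ ^ 2 + C * ∑ k ∈ S, ‖FF g N (k * (s * y))‖ ^ 2 := by
          rw [hC]
          ring
  calc ∫ y in Set.Icc Y0 Y, ‖SG g N P (s * y)‖ ^ 2
      ≤ ∫ y in Set.Icc Y0 Y, (2 * ‖∑ k ∈ S, gd g N Θ Θ1 s (k * y)‖ ^ 2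
          + C * ∑ k ∈ S, ‖FF g N (k * (s * y))‖ ^ 2) := by
        apply integral_mono_of_nonneg
        · exact Filter.Eventually.of_forall fun y => sq_nonneg _
        · exact (j1.const_mul 2).add j2
        · exact (ae_restrict_iff' measurableSet_Icc).2 (Filter.Eventually.of_forall hpt)
    _ = 2 * (∫ y in Set.Icc Y0 Y, ‖∑ k ∈ S, gd g N Θ Θ1 s (k * y)‖ ^ 2)
          + C * ∑ k ∈ S, ∫ y in Set.Icc Y0 Y, ‖FF g N (k * (s * y))‖ ^ 2 := by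
        rw [integral_add (j1.const_mul 2) j2, integral_const_mul, integral_const_mul,
          integral_finsetSum S fun k _ => hci' k]
    _ ≤ 2 * II S (gd g N Θ Θ1 s) + C * ∑ k ∈ S, (1 / (k : ℝ)) * S2 g N := by
        apply add_le_add
        · linarith
        · apply mul_le_mul_of_nonneg_left _ hC0
          refine Finset.sum_le_sum fun k hk => ?_
          have h1 : ∫ y in Set.Icc Y0 Y, ‖FF g N (k * (s * y))‖ ^ 2
              ≤ ∫ y in Set.Ioc (0 : ℝ) Y, ‖FF g N (k * (s * y))‖ ^ 2 :=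
            setIntegral_mono_set (hci k) (Filter.Eventually.of_forall fun y => sq_nonneg _)
              (LE.le.eventuallyLE hsub0)
          refine h1.trans ?_
          rw [← intervalIntegral.integral_of_le hY]
          have hkK : (k : ℝ) ≤ 2 * P := by exact_mod_cast hSK k hk
          exact JM_scale g N s Y k (hS1 k hk) hs hY
            ((mul_le_mul_of_nonneg_right hkK hY).trans hPY)
    _ = 2 * II S (gd g N Θ Θ1 s)
        + 2 * S.card * c ^ 2 * (∑ k ∈ S, 1 / (k : ℝ)) * S2 g N := by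
        rw [hC, ← Finset.sum_mul]
        ring

private theorem JM_card (P : ℕ) : (pb P).card ≤ P := by
  unfold pb
  refine (Finset.card_filter_le _ _).trans ?_
  rw [Nat.card_Ioc]
  omega

private theorem JM_recip (P : ℕ) (hP : 1 ≤ P) : ∑ k ∈ pb P, 1 / (k : ℝ) ≤ 1 := by
  have hP' : (1 : ℝ) ≤ P := by exact_mod_cast hP
  have h1 : ∀ k ∈ pb P, 1 / (k : ℝ) ≤ 1 / P := by
    intro k hk
    unfold pb at hk
    have h2 := (mem_Ioc.1 (mem_filter.1 hk).1).1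
    have h3 : (P : ℝ) ≤ k := by exact_mod_cast h2.le
    exact one_div_le_one_div_of_le (by linarith) h3
  refine (Finset.sum_le_sum h1).trans ?_
  rw [Finset.sum_const, nsmul_eq_mul]
  have h2 : ((pb P).card : ℝ) ≤ P := by exact_mod_cast JM_card P
  rw [mul_one_div, div_le_one (by linarith)]
  exact h2

private theorem JM_S2 (g : ℕ → ℝ) (N : ℕ) (h : ∀ n, |g n| ≤ 1) : S2 g N ≤ N := by
  unfold S2
  have h1 : ∀ n ∈ Icc 1 N, g n ^ 2 ≤ 1 := fun n _ => by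
    rw [← sq_abs]
    exact pow_le_one₀ (abs_nonneg _) (h n)
  refine (Finset.sum_le_sum h1).trans ?_
  simp

theorem jm (C0 E : ℕ) (η : ℝ) (hη : 0 < η) (hη1 : η ≤ 1) : ∃ b K m0 : ℕ, ∀ m : ℕ, m0 ≤ m →
    ∃ κ x0 : ℕ, ∀ x : ℕ, x0 ≤ x → ∀ (g : ℕ → ℝ) (N M P : ℕ) (Y s : ℝ),
      CorM x m K η N M g → N ≤ x → x / Real.log x ^ C0 ≤ M → Real.log x ^ b ≤ P →
      P ≤ x → (s = 1 ∨ s = -1) → P * Y ≤ 1 / Real.log x ^ (E + 12) →
      ∫ y in Set.Icc (Real.log x ^ κ / (P * x)) Y, ‖SG g N P (s * y)‖ ^ 2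
        ≤ P * x / Real.log x ^ E := by
  obtain ⟨b, K, m0, hb⟩ := ii_m C0 (E + 3) η hη hη1
  refine ⟨b, K, m0, fun m hm => ?_⟩
  obtain ⟨κ1, x1, h1⟩ := hb m hm
  obtain ⟨x2, hx2⟩ := log_ge 3
  obtain ⟨x3, hx3⟩ := log_pow_le 1 1 one_pos one_pos (E + 6)
  refine ⟨κ1 + 2, max x1 (max x2 (max x3 1)), fun x hx g N M P Y s hg hN hM hP hPx hs hPY => ?_⟩
  have hxx1 : x1 ≤ x := (le_max_left _ _).trans hx
  have hxx2 : x2 ≤ x := (le_max_left _ _).trans ((le_max_right _ _).trans hx)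
  have hxx3 : x3 ≤ x :=
    (le_max_left _ _).trans ((le_max_right _ _).trans ((le_max_right _ _).trans hx))
  have hx1 : 1 ≤ x :=
    (le_max_right _ _).trans ((le_max_right _ _).trans ((le_max_right _ _).trans hx))
  have hxr : (1 : ℝ) ≤ x := by exact_mod_cast hx1
  have hx0 : (0 : ℝ) < x := by linarith
  have hII := h1 x hxx1 g N M P (pb P) s hg hN hM hP hPx (Finset.Subset.refl _) hs
  have hL := hx2 x hxx2
  have hLx := hx3 x hxx3
  rw [one_mul, Real.rpow_one] at hLx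
  obtain ⟨L, hLdef⟩ : ∃ L : ℝ, L = Real.log x := ⟨_, rfl⟩
  rw [← hLdef] at hII hL hLx hPY hP ⊢
  have hL0 : 0 < L := by linarith
  have hP1 : (1 : ℝ) ≤ P := (one_le_pow₀ (by linarith : (1 : ℝ) ≤ L)).trans hP
  have hP1' : 1 ≤ P := by exact_mod_cast hP1
  have hrhs : 0 ≤ P * x / L ^ E := by positivity
  obtain ⟨Y0, hY0def⟩ : ∃ Y0 : ℝ, Y0 = L ^ (κ1 + 2) / (P * x) := ⟨_, rfl⟩
  rw [← hY0def]
  have hY0 : 0 < Y0 := by
    rw [hY0def]
    positivity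
  rcases lt_or_ge Y Y0 with hYY | hYY
  · rw [Set.Icc_eq_empty (not_le.2 hYY), Measure.restrict_empty, integral_zero_measure]
    exact hrhs
  have hY : 0 < Y := lt_of_lt_of_le hY0 hYY
  have hLE : (2 : ℝ) ≤ L ^ (E + 12) := by
    have : L ^ 1 ≤ L ^ (E + 12) := pow_le_pow_right₀ (by linarith) (by omega)
    rw [pow_one] at this
    linarith
  have h2PY : 2 * P * Y ≤ 1 := by
    have h2 : (1 : ℝ) / L ^ (E + 12) ≤ 1 / 2 := one_div_le_one_div_of_le (by norm_num) hLE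
    linarith
  -- the bound `c`
  have hexp : Real.exp (-(L ^ 2)) ≤ 1 / L ^ (E + 6) := by
    rw [Real.exp_neg, ← one_div]
    apply one_div_le_one_div_of_le (by positivity)
    have h3 : Real.exp L = x := by rw [hLdef, Real.exp_log hx0]
    have h4 : Real.exp L ≤ Real.exp (L ^ 2) := Real.exp_le_exp.2 (by nlinarith)
    linarith
  have hc : ∀ k ∈ pb P, ∀ y : ℝ, Y0 ≤ y → y ≤ Y →
      |1 - (Real.exp (-(k * y / (1 / L ^ 6))) - Real.exp (-(k * y / (L ^ κ1 / x))))|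
        ≤ 3 / L ^ (E + 6) := by
    intro k hk y hy0 hyY
    have hyp : 0 < y := lt_of_lt_of_le hY0 hy0
    unfold pb at hk
    have hk1 := (mem_Ioc.1 (mem_filter.1 hk).1).1
    have hk2 := (mem_Ioc.1 (mem_filter.1 hk).1).2
    have hkP : (P : ℝ) ≤ k := by exact_mod_cast hk1.le
    have hkP2 : (k : ℝ) ≤ 2 * P := by exact_mod_cast hk2
    have hk0 : (0 : ℝ) < k := by linarith
    -- first part
    have h5 : k * y / (1 / L ^ 6) ≤ 2 / L ^ (E + 6) := by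
      have h6 : k * y ≤ 2 * (P * Y) := by
        have : (k : ℝ) * y ≤ 2 * P * Y := mul_le_mul hkP2 hyY hyp.le (by positivity)
        linarith
      have h7 : k * y ≤ 2 * (1 / L ^ (E + 12)) := by linarith
      rw [div_div_eq_mul_div, div_one]
      calc k * y * L ^ 6 ≤ 2 * (1 / L ^ (E + 12)) * L ^ 6 :=
            mul_le_mul_of_nonneg_right h7 (by positivity)
        _ = 2 / L ^ (E + 6) := by
            rw [show E + 12 = (E + 6) + 6 by ring, pow_add L (E + 6) 6]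
            field_simp
    have h8 : 0 ≤ k * y / (1 / L ^ 6) := by positivity
    have h9 : Real.exp (-(k * y / (1 / L ^ 6))) ≤ 1 := Real.exp_le_one_iff.2 (by linarith)
    have h10 := Real.add_one_le_exp (-(k * y / (1 / L ^ 6)))
    -- second part
    have h11 : L ^ 2 ≤ k * y / (L ^ κ1 / x) := by
      rw [le_div_iff₀ (by positivity)]
      have h12 : L ^ (κ1 + 2) / (P * x) ≤ y := by rw [← hY0def]; exact hy0
      have h13 : P * (L ^ (κ1 + 2) / (P * x)) ≤ k * y :=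
        mul_le_mul hkP h12 (by positivity) hk0.le
      have h14 : P * (L ^ (κ1 + 2) / (P * x)) = L ^ 2 * (L ^ κ1 / x) := by
        rw [pow_add]
        field_simp
      linarith
    have h15 : Real.exp (-(k * y / (L ^ κ1 / x))) ≤ 1 / L ^ (E + 6) :=
      (Real.exp_le_exp.2 (by linarith)).trans hexp
    have h16 := Real.exp_pos (-(k * y / (L ^ κ1 / x)))
    have h17 : (3 : ℝ) / L ^ (E + 6) = 2 / L ^ (E + 6) + 1 / L ^ (E + 6) := by ring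
    rw [abs_of_nonneg (by linarith), h17]
    linarith
  have hmain := JM_main g N P s (1 / L ^ 6) (L ^ κ1 / x) Y0 Y (3 / L ^ (E + 6)) hs
    (by positivity) (by positivity) hY0 hY.le h2PY hc
  refine hmain.trans ?_
  have hcard : ((pb P).card : ℝ) ≤ P := by exact_mod_cast JM_card P
  have hrec := JM_recip P hP1'
  have hrec0 : 0 ≤ ∑ k ∈ pb P, 1 / (k : ℝ) := Finset.sum_nonneg fun k _ => by positivity
  have hS2 : S2 g N ≤ x := (JM_S2 g N hg.bd).trans (by exact_mod_cast hN)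
  have hS20 := S2_nonneg g N
  have t1 : 2 * ((pb P).card : ℝ) * (3 / L ^ (E + 6)) ^ 2 * (∑ k ∈ pb P, 1 / (k : ℝ)) * S2 g N
      ≤ 2 * P * (3 / L ^ (E + 6)) ^ 2 * 1 * x := by gcongr
  have t2 : 2 * (P : ℝ) * (3 / L ^ (E + 6)) ^ 2 * 1 * x ≤ P * x / L ^ E * (18 / L ^ 4) := by
    have e1 : 2 * (P : ℝ) * (3 / L ^ (E + 6)) ^ 2 * 1 * x = P * x * (18 / (L ^ (E + 6)) ^ 2) := by
      ring
    have e2 : P * x / L ^ E * (18 / L ^ 4) = P * x * (18 / L ^ (E + 4)) := by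
      rw [pow_add]
      field_simp
    rw [e1, e2]
    have : L ^ (E + 4) ≤ (L ^ (E + 6)) ^ 2 := by
      rw [← pow_mul]
      exact pow_le_pow_right₀ (by linarith) (by omega)
    gcongr
  have t3 : P * x / L ^ (E + 3) = P * x / L ^ E * (1 / L ^ 3) := by
    rw [pow_add]
    field_simp
  have t4 : 1 / L ^ 3 ≤ 1 / 27 := by
    apply one_div_le_one_div_of_le (by norm_num)
    calc (27 : ℝ) = 3 ^ 3 := by norm_num
      _ ≤ L ^ 3 := pow_le_pow_left₀ (by norm_num) hL 3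
  have t5 : 18 / L ^ 4 ≤ 18 / 81 := by
    have : (81 : ℝ) ≤ L ^ 4 := by
      calc (81 : ℝ) = 3 ^ 4 := by norm_num
        _ ≤ L ^ 4 := pow_le_pow_left₀ (by norm_num) hL 4
    gcongr
  rw [t3] at hII
  have t6 : P * x / L ^ E * (1 / L ^ 3) ≤ P * x / L ^ E * (1 / 27) :=
    mul_le_mul_of_nonneg_left t4 hrhs
  have t7 : P * x / L ^ E * (18 / L ^ 4) ≤ P * x / L ^ E * (18 / 81) :=
    mul_le_mul_of_nonneg_left t5 hrhs
  linarith

end Pool.Agent.H76.MU
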