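import Pool.Agent.H76.MU.Defs
import Pool.Agent.H80.LV.HM

/-!
# MU LmN: the norm `nrm B` and the Halász-Montgomery bound

`nrm B f = (∫_B |f|^2)^{1/2}`; all functions are finite sums of `c · ee(t log n)`, hence continuous and bounded, and `B ⊆ [-2T, 2T]` is measurable and
bounded.  `nrm_add`, `nrm_sum`: Minkowski (e.g. via `MeasureTheory.eLpNorm`/`Lp` for the restricted measure, or from the Cauchy-Schwarz inequality
`∫_B |f||g| ≤ nrm f nrm g`); `nrm_mul`: pointwise bound of one factor; `nrm_hm`: `Pool.Agent.H80.LV.hm (1/20)` with `|a_n| ≤ 1` (`∑ |a_n|^2 ≤ K`;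
`T^η ≤ x^η`; `2T ≤ 2x ≤ x^2`); `nrm_triv`: `|f| ≤ F` on `B`, `vol B ≤ T^η ≤ x^η`.
-/

set_option autoImplicit false

namespace Pool.Agent.H76.MU

open Finset MeasureTheory
open Pool.Agent.H91.PK (ee)

theorem nrm_nonneg (B : Set ℝ) (f : ℝ → ℂ) : 0 ≤ nrm B f := Real.sqrt_nonneg _

theorem LmN_sub {η T : ℝ} {B : Set ℝ} (hB : BS η T B) : B ⊆ Set.Icc (-(2 * T)) (2 * T) := by
  intro t ht
  have h1 := (hB.mem t ht).2
  exact abs_le.1 h1

theorem LmN_int {η T : ℝ} {B : Set ℝ} (hB : BS η T B) {φ : ℝ → ℝ} (hφ : Continuous φ) :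
    IntegrableOn φ B := by
  have h1 : IntegrableOn φ (Set.Icc (-(2 * T)) (2 * T)) :=
    hφ.continuousOn.integrableOn_compact isCompact_Icc
  exact h1.mono_set (LmN_sub hB)

theorem LmN_cs {η T : ℝ} {B : Set ℝ} (hB : BS η T B) {φ ψ : ℝ → ℝ} (hφ : Continuous φ)
    (hψ : Continuous ψ) :
    (∫ t in B, φ t * ψ t) ^ 2 ≤ (∫ t in B, φ t ^ 2) * (∫ t in B, ψ t ^ 2) := by
  have h1 : ∀ x : ℝ, 0 ≤ (∫ t in B, ψ t ^ 2) * (x * x) + (2 * ∫ t in B, φ t * ψ t) * x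
      + ∫ t in B, φ t ^ 2 := by
    intro x
    have e : (∫ t in B, ψ t ^ 2) * (x * x) + (2 * ∫ t in B, φ t * ψ t) * x
        + ∫ t in B, φ t ^ 2 = ∫ t in B, (φ t + x * ψ t) ^ 2 := by
      have i1 : IntegrableOn (fun t => ψ t ^ 2 * (x * x)) B :=
        LmN_int hB ((hψ.pow 2).mul continuous_const)
      have i2 : IntegrableOn (fun t => (φ t * ψ t) * (2 * x)) B :=
        LmN_int hB ((hφ.mul hψ).mul continuous_const)
      have i3 : IntegrableOn (fun t => φ t ^ 2) B := LmN_int hB (hφ.pow 2)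
      have i12 : IntegrableOn (fun t => ψ t ^ 2 * (x * x) + (φ t * ψ t) * (2 * x)) B := i1.add i2
      have e1 : (fun t => (φ t + x * ψ t) ^ 2)
          = fun t => (ψ t ^ 2 * (x * x) + (φ t * ψ t) * (2 * x)) + φ t ^ 2 := by
        funext t
        ring
      rw [e1, integral_add i12 i3, integral_add i1 i2, integral_mul_const, integral_mul_const]
      ring
    rw [e]
    exact integral_nonneg fun t => sq_nonneg _
  have h2 := discrim_le_zero h1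
  unfold discrim at h2
  nlinarith

theorem nrm_add (η T : ℝ) (B : Set ℝ) (hB : BS η T B) (f g : ℝ → ℂ) (hf : Continuous f)
    (hg : Continuous g) : nrm B (fun t => f t + g t) ≤ nrm B f + nrm B g := by
  have ha : 0 ≤ ∫ t in B, ‖f t‖ ^ 2 := integral_nonneg fun t => sq_nonneg _
  have hb : 0 ≤ ∫ t in B, ‖g t‖ ^ 2 := integral_nonneg fun t => sq_nonneg _
  have hcs := LmN_cs hB hf.norm hg.norm
  have hI : (∫ t in B, ‖f t‖ * ‖g t‖) ≤ nrm B f * nrm B g := by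
    apply le_of_sq_le_sq _ (mul_nonneg (nrm_nonneg _ _) (nrm_nonneg _ _))
    unfold nrm
    rw [mul_pow, Real.sq_sqrt ha, Real.sq_sqrt hb]
    exact hcs
  have i1 : IntegrableOn (fun t => ‖f t‖ ^ 2) B := LmN_int hB (hf.norm.pow 2)
  have i2 : IntegrableOn (fun t => ‖g t‖ ^ 2) B := LmN_int hB (hg.norm.pow 2)
  have i3 : IntegrableOn (fun t => 2 * (‖f t‖ * ‖g t‖)) B :=
    LmN_int hB (continuous_const.mul (hf.norm.mul hg.norm))
  have i12 : IntegrableOn (fun t => ‖f t‖ ^ 2 + ‖g t‖ ^ 2) B := i1.add i2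
  have h1 : ∫ t in B, ‖f t + g t‖ ^ 2 ≤ (nrm B f + nrm B g) ^ 2 := by
    have h2 : ∫ t in B, ‖f t + g t‖ ^ 2 ≤
        ∫ t in B, ((‖f t‖ ^ 2 + ‖g t‖ ^ 2) + 2 * (‖f t‖ * ‖g t‖)) := by
      apply integral_mono (LmN_int hB ((hf.add hg).norm.pow 2)) (i12.add i3)
      intro t
      show ‖f t + g t‖ ^ 2 ≤ (‖f t‖ ^ 2 + ‖g t‖ ^ 2) + 2 * (‖f t‖ * ‖g t‖)
      have h3 := norm_add_le (f t) (g t)
      have h4 := norm_nonneg (f t + g t)
      nlinarith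
    rw [integral_add i12 i3, integral_add i1 i2, integral_const_mul] at h2
    have e1 : nrm B f ^ 2 = ∫ t in B, ‖f t‖ ^ 2 := Real.sq_sqrt ha
    have e2 : nrm B g ^ 2 = ∫ t in B, ‖g t‖ ^ 2 := Real.sq_sqrt hb
    nlinarith
  exact Real.sqrt_le_iff.2 ⟨add_nonneg (nrm_nonneg _ _) (nrm_nonneg _ _), h1⟩

theorem nrm_sum {ι : Type*} (η T : ℝ) (B : Set ℝ) (hB : BS η T B) (s : Finset ι) (f : ι → ℝ → ℂ)
    (hf : ∀ i ∈ s, Continuous (f i)) :
    nrm B (fun t => ∑ i ∈ s, f i t) ≤ ∑ i ∈ s, nrm B (f i) := by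
  classical
  induction s using Finset.induction_on with
  | empty =>
    simp [nrm]
  | insert a s ha ih =>
    have h1 : (fun t => ∑ i ∈ insert a s, f i t) = fun t => f a t + ∑ i ∈ s, f i t := by
      funext t
      rw [Finset.sum_insert ha]
    rw [h1, Finset.sum_insert ha]
    have hs : ∀ i ∈ s, Continuous (f i) := fun i hi => hf i (Finset.mem_insert_of_mem hi)
    refine (nrm_add η T B hB (f a) (fun t => ∑ i ∈ s, f i t) (hf a (Finset.mem_insert_self a s))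
      (continuous_finsetSum s hs)).trans ?_
    have := ih hs
    linarith

theorem nrm_mul (η T : ℝ) (B : Set ℝ) (hB : BS η T B) (f g : ℝ → ℂ) (C : ℝ) (hf : Continuous f)
    (hg : Continuous g) (hC : ∀ t ∈ B, ‖g t‖ ≤ C) (hC0 : 0 ≤ C) :
    nrm B (fun t => g t * f t) ≤ C * nrm B f := by
  have h1 : ∫ t in B, ‖g t * f t‖ ^ 2 ≤ C ^ 2 * ∫ t in B, ‖f t‖ ^ 2 := by
    rw [← integral_const_mul]
    apply setIntegral_mono_on (LmN_int hB ((hg.mul hf).norm.pow 2))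
      (LmN_int hB (continuous_const.mul (hf.norm.pow 2))) hB.meas
    intro t ht
    show ‖g t * f t‖ ^ 2 ≤ C ^ 2 * ‖f t‖ ^ 2
    rw [norm_mul, mul_pow]
    have h2 : ‖g t‖ ^ 2 ≤ C ^ 2 := pow_le_pow_left₀ (norm_nonneg _) (hC t ht) 2
    exact mul_le_mul_of_nonneg_right h2 (sq_nonneg _)
  unfold nrm
  calc Real.sqrt (∫ t in B, ‖g t * f t‖ ^ 2) ≤ Real.sqrt (C ^ 2 * ∫ t in B, ‖f t‖ ^ 2) :=
        Real.sqrt_le_sqrt h1
    _ = C * Real.sqrt (∫ t in B, ‖f t‖ ^ 2) := by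
        rw [Real.sqrt_mul (sq_nonneg C), Real.sqrt_sq hC0]

theorem nrm_triv (η T x F : ℝ) (B : Set ℝ) (hB : BS η T B) (hη : 0 ≤ η) (hT : 1 ≤ T) (hTx : T ≤ x)
    (f : ℝ → ℂ) (hf : Continuous f) (hF : ∀ t ∈ B, ‖f t‖ ≤ F) (hF0 : 0 ≤ F) :
    nrm B f ≤ F * x ^ (η / 2) := by
  have hx0 : 0 < x := by linarith
  have hvol : volume.real B ≤ x ^ η :=
    hB.vol.trans (Real.rpow_le_rpow (by linarith) hTx hη)
  have hfin : volume B ≠ ⊤ := by
    have h1 : volume B ≤ volume (Set.Icc (-(2 * T)) (2 * T)) := measure_mono (LmN_sub hB)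
    exact ne_top_of_le_ne_top (by simp) h1
  have h1 : ∫ t in B, ‖f t‖ ^ 2 ≤ F ^ 2 * x ^ η := by
    have h2 : ∫ t in B, ‖f t‖ ^ 2 ≤ ∫ t in B, F ^ 2 := by
      apply setIntegral_mono_on (LmN_int hB (hf.norm.pow 2)) (LmN_int hB continuous_const) hB.meas
      intro t ht
      exact pow_le_pow_left₀ (norm_nonneg _) (hF t ht) 2
    rw [setIntegral_const, smul_eq_mul] at h2
    nlinarith [sq_nonneg F]
  unfold nrm
  calc Real.sqrt (∫ t in B, ‖f t‖ ^ 2) ≤ Real.sqrt (F ^ 2 * x ^ η) := Real.sqrt_le_sqrt h1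
    _ = F * x ^ (η / 2) := by
        rw [Real.sqrt_mul (sq_nonneg F), Real.sqrt_sq hF0, Real.sqrt_eq_rpow, ← Real.rpow_mul hx0.le]
        congr 2
        ring

theorem cont_poly (s : Finset ℕ) (a : ℕ → ℂ) :
    Continuous (fun t : ℝ => ∑ n ∈ s, a n * ee (t * Real.log n)) := by
  apply continuous_finsetSum
  intro n _
  apply Continuous.mul continuous_const
  unfold ee
  fun_prop

theorem nrm_hm : ∃ η : ℝ, 0 < η ∧ η ≤ 1 / 10 ∧ ∃ x0 : ℕ, ∀ x : ℕ, x0 ≤ x →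
    ∀ (K : ℕ) (a : ℕ → ℂ) (T : ℝ) (B : Set ℝ) (η' : ℝ), 0 ≤ η' → η' ≤ η →
      (x : ℝ) ^ (1 / 20 : ℝ) ≤ K → K ≤ x → 1 ≤ T → T ≤ x → BS η' T B →
      nrm B (fun t => ∑ n ∈ Icc 1 K, a n * ee (t * Real.log n)) ^ 2
        ≤ K * Real.log x ^ 2 * ∑ n ∈ Icc 1 K, ‖a n‖ ^ 2 := by
  obtain ⟨η0, h0, h01, x0, H⟩ := Pool.Agent.H80.LV.hm (1 / 20) (by norm_num)
  refine ⟨min η0 (1 / 10), lt_min h0 (by norm_num), min_le_right _ _, max x0 2, ?_⟩
  intro x hx K a T B η' hη' hη'2 hK hKx hT hTx hB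
  have hx2 : 2 ≤ x := (le_max_right _ _).trans hx
  have hx0 : x0 ≤ x := (le_max_left _ _).trans hx
  have hx2' : (2 : ℝ) ≤ x := by exact_mod_cast hx2
  have hsub : B ⊆ Set.Icc (-((x : ℝ) ^ (2 : ℕ))) ((x : ℝ) ^ (2 : ℕ)) := by
    refine (LmN_sub hB).trans (Set.Icc_subset_Icc ?_ ?_)
    · nlinarith
    · nlinarith
  have hvol : volume.real B ≤ (x : ℝ) ^ η0 := by
    calc volume.real B ≤ T ^ η' := hB.vol
      _ ≤ (x : ℝ) ^ η' := Real.rpow_le_rpow (by linarith) hTx hη'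
      _ ≤ (x : ℝ) ^ η0 := Real.rpow_le_rpow_of_exponent_le (by linarith)
          (hη'2.trans (min_le_left _ _))
  have h1 := H x hx0 K a B hK hKx hB.meas hsub hvol
  unfold nrm
  rw [Real.sq_sqrt (integral_nonneg fun t => sq_nonneg _)]
  exact h1

end Pool.Agent.H76.MU
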