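import Pool.Agent.H76.MU.LmV
import Pool.Agent.H76.MU.LmN
import Pool.Agent.H80.LV.BoxDec

/-!
# MU LmB: the middle range (both factors long)

Proof.  `U = ⌈exp(L^{19/20})⌉₊` (`≤ a`, and `≤ x^{1/20} ≤ Z` for large `x`, `exp_pow_le`), `q = ⌈L^{2K+20}⌉₊` (`2q ≤ U`).
`box_dec y U q` (`H80/LV/BoxDec.lean`) with `lam m = if m.Prime ∧ a < m ∧ m ≤ b then log m else 0`, `cc n = if Z < n then c n else 0`,
`g n = ee(t log n)`; the left side is our sum (`p > a ≥ U`; `n > Z ≥ U`).  For `j < J`: the box is the product of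
`A(t) = ∑_{m ∈ Ioc (v j) (v (j+1))} lam m ee(t log m) = PS (max (v j) a) (min (v (j+1)) b) t` (or `0`), `|A(t)| ≤ 2 v(j+1)/L^{K3}` by `ps_vk K3`
(`v(j+1) ≤ 2y ≤ x^2`), and `C(t) = ∑_{n ∈ Ioc U N} cc n ee(t log n)`, `N = y / v (j+1)`: `0` if `N ≤ Z`, otherwise `nrm ≤ N L` (`nrm_hm`).
So `nrm(box) ≤ (2 v(j+1)/L^{K3}) N L ≤ 2 y L^{1 - K3}`; `J ≤ 4 q log y + 1 ≤ L^{2K+23}`; `K3 = 3K + 30`.
The rest: `|e k| ≤ ∑_{m ∣ k} Λ(m) = log k ≤ L` (`lam m ≤ Λ(m)`, `|cc| ≤ 1`), `e` lives on at most `y/q + 1 ≤ 2y/q` integers: `nrm_hm` (`K = y`):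
`nrm^2 ≤ y L^2 · L^2 · 2y/q`, so `nrm ≤ 2 y L^2/√q ≤ y/L^{K+5}`.
-/

set_option autoImplicit false

namespace Pool.Agent.H76.MU

open Finset MeasureTheory
open Pool.Agent.H91.PK (ee)

private theorem LmB_exp_ge (C : ℝ) (c : ℕ) : ∃ x0 : ℕ, ∀ x : ℕ, x0 ≤ x →
    C * Real.log x ^ c ≤ Real.exp (Real.log x ^ (19 / 20 : ℝ)) := by
  have h0 : Filter.Tendsto (fun x : ℕ => Real.log x ^ (19 / 20 : ℝ)) Filter.atTop Filter.atTop :=
    (tendsto_rpow_atTop (by norm_num)).comp
      (Real.tendsto_log_atTop.comp (tendsto_natCast_atTop_atTop (R := ℝ)))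
  have h1 := (Real.isLittleO_pow_exp_atTop (n := 2 * c)).bound (c := 1 / (|C| + 1)) (by positivity)
  have h2 := h0.eventually (h1.and (Filter.eventually_ge_atTop (1 : ℝ)))
  have h3 := (Real.tendsto_log_atTop.comp (tendsto_natCast_atTop_atTop (R := ℝ))).eventually
    (Filter.eventually_ge_atTop 1)
  obtain ⟨x0, hx0⟩ := Filter.eventually_atTop.1 (h2.and h3)
  refine ⟨x0, fun x hx => ?_⟩
  obtain ⟨⟨h4, h5⟩, h6⟩ := hx0 x hx
  simp only [Function.comp_apply] at h6
  have hL : 0 < Real.log x := by linarith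
  rw [Real.norm_eq_abs, Real.norm_eq_abs, abs_of_nonneg (by positivity),
    abs_of_pos (Real.exp_pos _), div_mul_eq_mul_div, one_mul, le_div_iff₀ (by positivity)] at h4
  have h7 : Real.log x ^ c ≤ (Real.log x ^ (19 / 20 : ℝ)) ^ (2 * c) := by
    have e1 : (Real.log x ^ (19 / 20 : ℝ)) ^ (2 * c) = (Real.log x ^ (19 / 10 : ℝ)) ^ c := by
      rw [pow_mul, ← Real.rpow_natCast (Real.log x ^ (19 / 20 : ℝ)) 2, ← Real.rpow_mul hL.le]
      norm_num
    rw [e1]
    apply pow_le_pow_left₀ hL.le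
    calc Real.log x = Real.log x ^ (1 : ℝ) := (Real.rpow_one _).symm
      _ ≤ Real.log x ^ (19 / 10 : ℝ) := Real.rpow_le_rpow_of_exponent_le h6 (by norm_num)
  have h8 : 0 ≤ Real.log x ^ c := by positivity
  calc C * Real.log x ^ c ≤ (|C| + 1) * Real.log x ^ c :=
        mul_le_mul_of_nonneg_right (by linarith [le_abs_self C]) h8
    _ ≤ (|C| + 1) * (Real.log x ^ (19 / 20 : ℝ)) ^ (2 * c) :=
        mul_le_mul_of_nonneg_left h7 (by positivity)
    _ = (Real.log x ^ (19 / 20 : ℝ)) ^ (2 * c) * (|C| + 1) := mul_comm _ _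
    _ ≤ _ := h4

/-- the coefficients of the primes -/
private noncomputable def LmB_lam (a b m : ℕ) : ℝ :=
  if m.Prime ∧ a < m ∧ m ≤ b then Real.log m else 0

/-- the coefficients of the cofactors -/
private noncomputable def LmB_cc (Z : ℕ) (c : ℕ → ℝ) (n : ℕ) : ℝ := if Z < n then c n else 0

private theorem LmB_ee_mul (t : ℝ) (m n : ℕ) (hm : 1 ≤ m) (hn : 1 ≤ n) :
    ee (t * Real.log ((m * n : ℕ) : ℝ)) = ee (t * Real.log m) * ee (t * Real.log n) := by
  have h1 : (m : ℝ) ≠ 0 := by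
    have : m ≠ 0 := by omega
    exact_mod_cast this
  have h2 : (n : ℝ) ≠ 0 := by
    have : n ≠ 0 := by omega
    exact_mod_cast this
  rw [← Pool.Agent.H91.PK.LSa_ee_add]
  congr 1
  push_cast
  rw [Real.log_mul h1 h2]
  ring

private theorem LmB_lhs (y Z a b U : ℕ) (c : ℕ → ℝ) (t : ℝ) (hUa : U ≤ a) (hUZ : U ≤ Z) :
    ∑ p ∈ (Ioc a (min b y)).filter Nat.Prime,
        ((Real.log p : ℝ) : ℂ) * ee (t * Real.log p) *
          ∑ n ∈ Ioc Z (y / p), ((c n : ℝ) : ℂ) * ee (t * Real.log n)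
    = ∑ m ∈ Ioc U y, ((LmB_lam a b m : ℝ) : ℂ) *
        ∑ n ∈ Ioc U (y / m), ((LmB_cc Z c n : ℝ) : ℂ) * ee (t * Real.log ((m * n : ℕ) : ℝ)) := by
  have hsub : (Ioc a (min b y)).filter Nat.Prime ⊆ Ioc U y := by
    intro p hp
    rw [mem_filter, mem_Ioc] at hp
    rw [mem_Ioc]
    have := hp.1.2
    have h2 := min_le_right b y
    omega
  rw [← Finset.sum_subset hsub (f := fun m => ((LmB_lam a b m : ℝ) : ℂ) *
        ∑ n ∈ Ioc U (y / m), ((LmB_cc Z c n : ℝ) : ℂ) * ee (t * Real.log ((m * n : ℕ) : ℝ)))]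
  · apply Finset.sum_congr rfl
    intro p hp
    rw [mem_filter, mem_Ioc] at hp
    have hpb : p ≤ b := hp.1.2.trans (min_le_left b y)
    have hlam : LmB_lam a b p = Real.log p := by
      unfold LmB_lam
      rw [if_pos ⟨hp.2, hp.1.1, hpb⟩]
    rw [hlam, mul_assoc]
    congr 1
    rw [Finset.mul_sum]
    have hsub2 : Ioc Z (y / p) ⊆ Ioc U (y / p) := Finset.Ioc_subset_Ioc_left hUZ
    rw [← Finset.sum_subset hsub2 (f := fun n => ((LmB_cc Z c n : ℝ) : ℂ) *
      ee (t * Real.log ((p * n : ℕ) : ℝ)))]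
    · apply Finset.sum_congr rfl
      intro n hn
      rw [mem_Ioc] at hn
      have hcc : LmB_cc Z c n = c n := by
        unfold LmB_cc
        rw [if_pos hn.1]
      rw [hcc, LmB_ee_mul t p n hp.2.one_lt.le (by omega)]
      ring
    · intro n hn hn2
      rw [mem_Ioc] at hn hn2
      have hcc : LmB_cc Z c n = 0 := by
        unfold LmB_cc
        rw [if_neg]
        intro h
        exact hn2 ⟨h, hn.2⟩
      rw [hcc]
      simp
  · intro m hm hm2
    rw [mem_Ioc] at hm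
    have hlam : LmB_lam a b m = 0 := by
      unfold LmB_lam
      rw [if_neg]
      rintro ⟨h1, h2, h3⟩
      apply hm2
      rw [mem_filter, mem_Ioc]
      exact ⟨⟨h2, le_min h3 hm.2⟩, h1⟩
    rw [hlam]
    simp

private theorem LmB_box (a b Z U v v' N : ℕ) (c : ℕ → ℝ) (t : ℝ) (hUZ : U ≤ Z) :
    ∑ m ∈ Ioc v v', ((LmB_lam a b m : ℝ) : ℂ) *
        ∑ n ∈ Ioc U N, ((LmB_cc Z c n : ℝ) : ℂ) * ee (t * Real.log ((m * n : ℕ) : ℝ))
      = (∑ m ∈ Ioc v v', ((LmB_lam a b m : ℝ) : ℂ) * ee (t * Real.log m)) *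
        ∑ n ∈ Icc 1 N, ((LmB_cc Z c n : ℝ) : ℂ) * ee (t * Real.log n) := by
  have hsub : Ioc U N ⊆ Icc 1 N := by
    intro n hn
    rw [mem_Ioc] at hn
    rw [mem_Icc]
    omega
  have h1 : ∑ n ∈ Icc 1 N, ((LmB_cc Z c n : ℝ) : ℂ) * ee (t * Real.log n)
      = ∑ n ∈ Ioc U N, ((LmB_cc Z c n : ℝ) : ℂ) * ee (t * Real.log n) := by
    symm
    apply Finset.sum_subset hsub
    intro n hn hn2
    rw [mem_Icc] at hn
    rw [mem_Ioc] at hn2
    have hcc : LmB_cc Z c n = 0 := by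
      unfold LmB_cc
      rw [if_neg]
      omega
    rw [hcc]
    simp
  rw [h1, Finset.sum_mul]
  apply Finset.sum_congr rfl
  intro m hm
  rw [mem_Ioc] at hm
  rw [mul_assoc]
  congr 1
  rw [Finset.mul_sum]
  apply Finset.sum_congr rfl
  intro n hn
  rw [mem_Ioc] at hn
  rw [LmB_ee_mul t m n (by omega) (by omega)]
  ring

private theorem LmB_PS (a b v v' : ℕ) (t : ℝ) :
    ∑ m ∈ Ioc v v', ((LmB_lam a b m : ℝ) : ℂ) * ee (t * Real.log m) =
      PS (max v a) (min v' b) t := by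
  unfold PS
  have hsub : (Ioc (max v a) (min v' b)).filter Nat.Prime ⊆ Ioc v v' := by
    intro p hp
    rw [mem_filter, mem_Ioc] at hp
    rw [mem_Ioc]
    exact ⟨(le_max_left v a).trans_lt hp.1.1, hp.1.2.trans (min_le_left _ _)⟩
  rw [← Finset.sum_subset hsub (f := fun m => ((LmB_lam a b m : ℝ) : ℂ) * ee (t * Real.log m))]
  · apply Finset.sum_congr rfl
    intro p hp
    rw [mem_filter, mem_Ioc] at hp
    have hlam : LmB_lam a b p = Real.log p := by
      unfold LmB_lam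
      rw [if_pos ⟨hp.2, (le_max_right v a).trans_lt hp.1.1, hp.1.2.trans (min_le_right _ _)⟩]
    rw [hlam]
  · intro m hm hm2
    rw [mem_Ioc] at hm
    have hlam : LmB_lam a b m = 0 := by
      unfold LmB_lam
      rw [if_neg]
      rintro ⟨h1, h2, h3⟩
      apply hm2
      rw [mem_filter, mem_Ioc]
      exact ⟨⟨max_lt hm.1 h2, le_min hm.2 h3⟩, h1⟩
    rw [hlam]
    simp

private theorem LmB_cc_abs (Z : ℕ) (c : ℕ → ℝ) (hc : ∀ n, |c n| ≤ 1) (n : ℕ) :
    |LmB_cc Z c n| ≤ 1 := by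
  unfold LmB_cc
  split_ifs
  · exact hc n
  · simp

private theorem LmB_lam_le (a b m : ℕ) : |LmB_lam a b m| ≤ ArithmeticFunction.vonMangoldt m := by
  unfold LmB_lam
  split_ifs with h
  · rw [ArithmeticFunction.vonMangoldt_apply_prime h.1,
      abs_of_nonneg (Real.log_nonneg (by exact_mod_cast h.1.one_lt.le))]
  · rw [abs_zero]
    exact ArithmeticFunction.vonMangoldt_nonneg

/-- the norm of a polynomial with bounded coefficients -/
private theorem LmB_nrm_le (B : Set ℝ) (f : ℝ → ℂ) (F : ℝ) (hF : 0 ≤ F)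
    (h : nrm B f ^ 2 ≤ F ^ 2) : nrm B f ≤ F :=
  le_of_abs_le (abs_le_of_sq_le_sq h hF)

theorem mid (hV : VK1) : ∃ η : ℝ, 0 < η ∧ η ≤ 1 / 10 ∧ ∀ K : ℕ, ∃ K' x0 : ℕ, ∀ x : ℕ, x0 ≤ x →
    ∀ (y Z a b : ℕ) (c : ℕ → ℝ) (T η' : ℝ) (B : Set ℝ),
      Real.exp (Real.log x ^ (19 / 20 : ℝ)) ≤ a → (x : ℝ) ^ (1 / 20 : ℝ) ≤ Z →
      (x : ℝ) ^ (1 / 2 : ℝ) ≤ y → y ≤ x → (∀ n, |c n| ≤ 1) →
      Real.log x ^ K' ≤ T → T ≤ x → 0 ≤ η' → η' ≤ η → BS η' T B →
      nrm B (fun t => ∑ p ∈ (Ioc a (min b y)).filter Nat.Prime,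
        ((Real.log p : ℝ) : ℂ) * ee (t * Real.log p) *
          ∑ n ∈ Ioc Z (y / p), ((c n : ℝ) : ℂ) * ee (t * Real.log n)) ≤ y / Real.log x ^ K := by
  obtain ⟨η, hη0, hη1, x1, hhm⟩ := nrm_hm
  refine ⟨η, hη0, hη1, fun K => ?_⟩
  obtain ⟨K', x2, hvk⟩ := ps_vk hV (3 * K + 30)
  obtain ⟨x3, hx3⟩ := log_ge 16
  obtain ⟨x4, hx4⟩ := exp_pow_le (1 / 20) 1 (by norm_num) one_pos
  obtain ⟨x5, hx5⟩ := LmB_exp_ge 4 (2 * K + 20)
  refine ⟨K', max (max (max x1 x2) (max x3 x4)) (max x5 2), ?_⟩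
  intro x hx y Z a b c T η' B h1 h2 h3 h4 hc hT1 hTx hη'0 hη' hB
  have hxx1 : x1 ≤ x := (((le_max_left _ _).trans (le_max_left _ _)).trans (le_max_left _ _)).trans hx
  have hxx2 : x2 ≤ x := (((le_max_right _ _).trans (le_max_left _ _)).trans (le_max_left _ _)).trans hx
  have hxx3 : x3 ≤ x := (((le_max_left _ _).trans (le_max_right _ _)).trans (le_max_left _ _)).trans hx
  have hxx4 : x4 ≤ x := (((le_max_right _ _).trans (le_max_right _ _)).trans (le_max_left _ _)).trans hx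
  have hxx5 : x5 ≤ x := ((le_max_left _ _).trans (le_max_right _ _)).trans hx
  have hx2 : 2 ≤ x := ((le_max_right _ _).trans (le_max_right _ _)).trans hx
  have hL := hx3 x hxx3
  have hexp := hx4 x hxx4
  rw [one_mul] at hexp
  have hpw := hx5 x hxx5
  have hxr : (2 : ℝ) ≤ x := by exact_mod_cast hx2
  set L := Real.log x with hLdef
  have hL1 : 1 ≤ L := by linarith
  have hL0 : 0 < L := by linarith
  have hT : 1 ≤ T := le_trans (one_le_pow₀ hL1) hT1
  -- parameters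
  set P := L ^ (2 * K + 20) with hPdef
  have hP1 : 1 ≤ P := one_le_pow₀ hL1
  obtain ⟨q, hqdef⟩ : ∃ q : ℕ, q = ⌈P⌉₊ := ⟨_, rfl⟩
  obtain ⟨U, hUdef⟩ : ∃ U : ℕ, U = ⌈Real.exp (L ^ (19 / 20 : ℝ))⌉₊ := ⟨_, rfl⟩
  have hqP : P ≤ q := by rw [hqdef]; exact Nat.le_ceil P
  have hqP2 : (q : ℝ) ≤ P + 1 := by rw [hqdef]; exact (Nat.ceil_lt_add_one (by linarith)).le
  have hq1 : 1 ≤ q := by
    have : (1 : ℝ) ≤ q := hP1.trans hqP
    exact_mod_cast this
  have hUe : Real.exp (L ^ (19 / 20 : ℝ)) ≤ U := by rw [hUdef]; exact Nat.le_ceil _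
  have hU : 2 * q ≤ U := by
    have : (2 : ℝ) * q ≤ U := by linarith
    exact_mod_cast this
  have hUa : U ≤ a := by rw [hUdef]; exact Nat.ceil_le.2 h1
  have hUZ : U ≤ Z := by rw [hUdef]; exact Nat.ceil_le.2 (hexp.trans h2)
  have hxy20 : (x : ℝ) ^ (1 / 20 : ℝ) ≤ y :=
    (Real.rpow_le_rpow_of_exponent_le (by linarith) (by norm_num)).trans h3
  have hUy : U ≤ y := by rw [hUdef]; exact Nat.ceil_le.2 (hexp.trans hxy20)
  have hy1 : 1 ≤ y := by omega
  have hyr : (1 : ℝ) ≤ y := by exact_mod_cast hy1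
  have hyx : (y : ℝ) ≤ x := by exact_mod_cast h4
  have hlogy : Real.log y ≤ L := Real.log_le_log (by linarith) hyx
  have hlogy0 : 0 ≤ Real.log y := Real.log_nonneg hyr
  obtain ⟨J, v, e, hJ, hvU, hvlt, hv2, he, he0, hid⟩ :=
    Pool.Agent.H80.LV.box_dec y U q hq1 hU hUy (LmB_lam a b) (LmB_cc Z c)
  let A : ℕ → ℝ → ℂ := fun j t =>
    ∑ m ∈ Ioc (v j) (v (j + 1)), ((LmB_lam a b m : ℝ) : ℂ) * ee (t * Real.log m)
  let Q : ℕ → ℝ → ℂ := fun j t =>
    ∑ n ∈ Icc 1 (y / v (j + 1)), ((LmB_cc Z c n : ℝ) : ℂ) * ee (t * Real.log n)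
  let R : ℝ → ℂ := fun t => ∑ k ∈ Icc 1 y, ((e k : ℝ) : ℂ) * ee (t * Real.log k)
  have hAc : ∀ j, Continuous (A j) := fun j => cont_poly _ _
  have hQc : ∀ j, Continuous (Q j) := fun j => cont_poly _ _
  have hRc : Continuous R := cont_poly _ _
  have hfun : (fun t => ∑ p ∈ (Ioc a (min b y)).filter Nat.Prime,
        ((Real.log p : ℝ) : ℂ) * ee (t * Real.log p) *
          ∑ n ∈ Ioc Z (y / p), ((c n : ℝ) : ℂ) * ee (t * Real.log n))
      = fun t => (∑ j ∈ range J, A j t * Q j t) + R t := by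
    funext t
    rw [LmB_lhs y Z a b U c t hUa hUZ, hid (fun k => ee (t * Real.log k))]
    congr 1
    apply Finset.sum_congr rfl
    intro j _
    exact LmB_box a b Z U (v j) (v (j + 1)) (y / v (j + 1)) c t hUZ
  rw [hfun]
  have hAbd : ∀ j ∈ range J, ∀ t ∈ B, ‖A j t‖ ≤ v (j + 1) / L ^ (3 * K + 30) := by
    intro j hj t ht
    rw [mem_range] at hj
    have hAe : A j t = PS (max (v j) a) (min (v (j + 1)) b) t := LmB_PS a b (v j) (v (j + 1)) t
    rw [hAe]
    by_cases hab : max (v j) a ≤ min (v (j + 1)) b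
    · obtain ⟨ht1, ht2⟩ := hB.mem t ht
      have hbx : min (v (j + 1)) b ≤ x ^ 2 := by
        have h5 := hv2 j hj
        have h6 := min_le_left (v (j + 1)) b
        nlinarith
      have h7 := hvk x hxx2 (max (v j) a) (min (v (j + 1)) b) t
        (h1.trans (by exact_mod_cast le_max_right _ _)) hab hbx (hT1.trans ht1)
        (by
          have h8 : 2 * T ≤ 2 * (x : ℝ) := by linarith
          have h9 : 2 * (x : ℝ) ≤ (x : ℝ) ^ 2 := by nlinarith
          linarith)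
      refine h7.trans ?_
      apply div_le_div_of_nonneg_right _ (by positivity)
      exact_mod_cast min_le_left _ _
    · unfold PS
      rw [Finset.Ioc_eq_empty (fun h => hab h.le)]
      simp only [Finset.filter_empty, Finset.sum_empty, norm_zero]
      positivity
  have hQbd : ∀ j ∈ range J, nrm B (Q j) ≤ (y / v (j + 1) : ℕ) * L := by
    intro j _
    by_cases hN : y / v (j + 1) ≤ Z
    · have hQ0 : Q j = fun _ => 0 := by
        funext t
        apply Finset.sum_eq_zero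
        intro n hn
        rw [mem_Icc] at hn
        have hcc : LmB_cc Z c n = 0 := by
          unfold LmB_cc
          rw [if_neg]
          omega
        rw [hcc]
        simp
      rw [hQ0]
      have : nrm B (fun _ => (0 : ℂ)) = 0 := by
        unfold nrm
        simp
      rw [this]
      positivity
    · push Not at hN
      apply LmB_nrm_le _ _ _ (by positivity)
      have hNZ : (Z : ℝ) ≤ ((y / v (j + 1) : ℕ) : ℝ) := by exact_mod_cast hN.le
      have hNy : y / v (j + 1) ≤ x := (Nat.div_le_self _ _).trans h4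
      have h5 := hhm x hxx1 (y / v (j + 1)) (fun n => ((LmB_cc Z c n : ℝ) : ℂ)) T B η' hη'0 hη'
        (h2.trans hNZ) hNy hT hTx hB
      refine h5.trans ?_
      have h6 : ∑ n ∈ Icc 1 (y / v (j + 1)), ‖((LmB_cc Z c n : ℝ) : ℂ)‖ ^ 2
          ≤ ((y / v (j + 1) : ℕ) : ℝ) := by
        calc ∑ n ∈ Icc 1 (y / v (j + 1)), ‖((LmB_cc Z c n : ℝ) : ℂ)‖ ^ 2
            ≤ ∑ n ∈ Icc 1 (y / v (j + 1)), (1 : ℝ) := by
              apply Finset.sum_le_sum
              intro n _
              rw [Complex.norm_real, Real.norm_eq_abs]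
              exact pow_le_one₀ (abs_nonneg _) (LmB_cc_abs Z c hc n)
          _ = ((y / v (j + 1) : ℕ) : ℝ) := by simp
      calc ((y / v (j + 1) : ℕ) : ℝ) * L ^ 2 *
            ∑ n ∈ Icc 1 (y / v (j + 1)), ‖((LmB_cc Z c n : ℝ) : ℂ)‖ ^ 2
          ≤ ((y / v (j + 1) : ℕ) : ℝ) * L ^ 2 * ((y / v (j + 1) : ℕ) : ℝ) :=
            mul_le_mul_of_nonneg_left h6 (by positivity)
        _ = (((y / v (j + 1) : ℕ) : ℝ) * L) ^ 2 := by ring
  have hbox : ∀ j ∈ range J, nrm B (fun t => A j t * Q j t) ≤ y * L / L ^ (3 * K + 30) := by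
    intro j hj
    have h5 := nrm_mul η' T B hB (Q j) (A j) (v (j + 1) / L ^ (3 * K + 30)) (hQc j) (hAc j)
      (hAbd j hj) (by positivity)
    refine h5.trans ?_
    have h6 := mul_le_mul_of_nonneg_left (hQbd j hj)
      (show 0 ≤ (v (j + 1) : ℝ) / L ^ (3 * K + 30) by positivity)
    refine h6.trans ?_
    have h7 : ((y / v (j + 1) : ℕ) : ℝ) * v (j + 1) ≤ y := by
      exact_mod_cast Nat.div_mul_le_self y (v (j + 1))
    calc (v (j + 1) : ℝ) / L ^ (3 * K + 30) * (((y / v (j + 1) : ℕ) : ℝ) * L)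
        = (((y / v (j + 1) : ℕ) : ℝ) * v (j + 1)) * L / L ^ (3 * K + 30) := by ring
      _ ≤ y * L / L ^ (3 * K + 30) := by
          apply div_le_div_of_nonneg_right _ (by positivity)
          exact mul_le_mul_of_nonneg_right h7 hL0.le
  have hJ2 : (J : ℝ) ≤ P * L ^ 2 := by
    have h5 : 4 * (q : ℝ) * Real.log y ≤ 4 * (P + 1) * L := by
      apply mul_le_mul (by linarith) hlogy hlogy0 (by linarith)
    have h6 : 1 ≤ P * L := by nlinarith
    have h7 : P * L * 16 ≤ P * L * L := mul_le_mul_of_nonneg_left hL (by positivity)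
    nlinarith
  have hsum : nrm B (fun t => ∑ j ∈ range J, A j t * Q j t) ≤ y / L ^ (K + 7) := by
    refine (nrm_sum η' T B hB (range J) (fun j t => A j t * Q j t)
      (fun j _ => (hAc j).mul (hQc j))).trans ?_
    calc ∑ j ∈ range J, nrm B (fun t => A j t * Q j t)
        ≤ ∑ j ∈ range J, y * L / L ^ (3 * K + 30) := Finset.sum_le_sum hbox
      _ = J * (y * L / L ^ (3 * K + 30)) := by
          rw [Finset.sum_const, Finset.card_range, nsmul_eq_mul]
      _ ≤ (P * L ^ 2) * (y * L / L ^ (3 * K + 30)) :=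
          mul_le_mul_of_nonneg_right hJ2 (by positivity)
      _ = y / L ^ (K + 7) := by
          have e1 : L ^ (3 * K + 30) = P * L ^ 3 * L ^ (K + 7) := by
            rw [hPdef, ← pow_add, ← pow_add]
            congr 1
            ring
          rw [e1]
          field_simp
  have hRbd : nrm B R ≤ y / L ^ (K + 7) := by
    apply LmB_nrm_le _ _ _ (by positivity)
    have h5 := hhm x hxx1 y (fun n => ((e n : ℝ) : ℂ)) T B η' hη'0 hη' hxy20 h4 hT hTx hB
    refine h5.trans ?_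
    have heL : ∀ k ∈ Icc 1 y, |e k| ≤ L := by
      intro k hk
      rw [mem_Icc] at hk
      calc |e k| ≤ ∑ m ∈ k.divisors, |LmB_lam a b m| * |LmB_cc Z c (k / m)| := he k
        _ ≤ ∑ m ∈ k.divisors, ArithmeticFunction.vonMangoldt m := by
            apply Finset.sum_le_sum
            intro m _
            calc |LmB_lam a b m| * |LmB_cc Z c (k / m)| ≤ ArithmeticFunction.vonMangoldt m * 1 :=
                  mul_le_mul (LmB_lam_le a b m) (LmB_cc_abs Z c hc _) (abs_nonneg _)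
                    ArithmeticFunction.vonMangoldt_nonneg
              _ = _ := mul_one _
        _ = Real.log k := ArithmeticFunction.vonMangoldt_sum
        _ ≤ L := by
            apply Real.log_le_log
            · exact_mod_cast (by omega : 0 < k)
            · exact le_trans (by exact_mod_cast hk.2) hyx
    have h6 : ∑ k ∈ Icc 1 y, ‖((e k : ℝ) : ℂ)‖ ^ 2 ≤ L ^ 2 * (2 * (y / q)) := by
      have h7 : ∑ k ∈ Icc 1 y, ‖((e k : ℝ) : ℂ)‖ ^ 2
          ≤ ∑ k ∈ Ioc (y - y / q - 1) y, L ^ 2 := by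
        calc ∑ k ∈ Icc 1 y, ‖((e k : ℝ) : ℂ)‖ ^ 2
            = ∑ k ∈ (Icc 1 y).filter (fun k => k ∈ Ioc (y - y / q - 1) y),
                ‖((e k : ℝ) : ℂ)‖ ^ 2 := by
              symm
              apply Finset.sum_subset (Finset.filter_subset _ _)
              intro k hk hk2
              rw [mem_filter] at hk2
              have : e k = 0 := he0 k (fun h => hk2 ⟨hk, h⟩)
              rw [this]
              simp
          _ ≤ ∑ k ∈ (Icc 1 y).filter (fun k => k ∈ Ioc (y - y / q - 1) y), L ^ 2 := by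
              apply Finset.sum_le_sum
              intro k hk
              rw [mem_filter] at hk
              rw [Complex.norm_real, Real.norm_eq_abs]
              exact pow_le_pow_left₀ (abs_nonneg _) (heL k hk.1) 2
          _ ≤ ∑ k ∈ Ioc (y - y / q - 1) y, L ^ 2 := by
              apply Finset.sum_le_sum_of_subset_of_nonneg
              · intro k hk
                exact (mem_filter.1 hk).2
              · intro k _ _
                positivity
      refine h7.trans ?_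
      rw [Finset.sum_const, Nat.card_Ioc, nsmul_eq_mul, mul_comm]
      apply mul_le_mul_of_nonneg_left _ (by positivity)
      have h8 : y - (y - y / q - 1) ≤ y / q + 1 := by
        generalize y / q = r
        omega
      have h9 : ((y / q : ℕ) : ℝ) ≤ (y : ℝ) / q := Nat.cast_div_le
      have hqy : (q : ℝ) ≤ y := by
        have : q ≤ y := by omega
        exact_mod_cast this
      have hq0 : (0 : ℝ) < q := by linarith
      have h10 : 1 ≤ (y : ℝ) / q := by rw [le_div_iff₀ hq0]; linarith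
      calc ((y - (y - y / q - 1) : ℕ) : ℝ) ≤ ((y / q + 1 : ℕ) : ℝ) := by exact_mod_cast h8
        _ = ((y / q : ℕ) : ℝ) + 1 := by push_cast; ring
        _ ≤ 2 * (y / q) := by linarith
    have hq0 : (0 : ℝ) < q := by linarith
    have h7 : (y : ℝ) / q ≤ y / P := div_le_div_of_nonneg_left (by linarith) (by linarith) hqP
    calc (y : ℝ) * L ^ 2 * ∑ k ∈ Icc 1 y, ‖((e k : ℝ) : ℂ)‖ ^ 2
        ≤ y * L ^ 2 * (L ^ 2 * (2 * (y / P))) := by
          apply mul_le_mul_of_nonneg_left _ (by positivity)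
          refine h6.trans ?_
          apply mul_le_mul_of_nonneg_left _ (by positivity)
          linarith
      _ = 2 * (y ^ 2 * L ^ 4 / P) := by ring
      _ ≤ L ^ 2 * (y ^ 2 * L ^ 4 / P) := by
          apply mul_le_mul_of_nonneg_right _ (by positivity)
          nlinarith
      _ = (y / L ^ (K + 7)) ^ 2 := by
          have e1 : P = (L ^ (K + 7)) ^ 2 * L ^ 6 := by
            rw [hPdef, ← pow_mul, ← pow_add]
            congr 1
            ring
          rw [e1]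
          field_simp
  have hfin : nrm B (fun t => (∑ j ∈ range J, A j t * Q j t) + R t)
      ≤ nrm B (fun t => ∑ j ∈ range J, A j t * Q j t) + nrm B R :=
    nrm_add η' T B hB _ _ (continuous_finset_sum _ fun j _ => (hAc j).mul (hQc j)) hRc
  refine hfin.trans ?_
  calc nrm B (fun t => ∑ j ∈ range J, A j t * Q j t) + nrm B R
      ≤ y / L ^ (K + 7) + y / L ^ (K + 7) := add_le_add hsum hRbd
    _ = 2 * y / L ^ (K + 7) := by ring
    _ ≤ y / L ^ K := by
        rw [div_le_div_iff₀ (by positivity) (by positivity)]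
        have h5 : 2 ≤ L ^ 7 := by
          have := pow_le_pow_left₀ (by norm_num) hL 7
          norm_num at this
          linarith
        have h6 : L ^ (K + 7) = L ^ K * L ^ 7 := pow_add _ _ _
        rw [h6]
        have h7 : 0 ≤ (y : ℝ) * L ^ K := by positivity
        nlinarith [mul_le_mul_of_nonneg_left h5 h7]

end Pool.Agent.H76.MU
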