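import Pool.Agent.H76.MU.LmV
import Pool.Agent.H76.MU.LmN
import Pool.Agent.H80.LV.Pre

/-!
# MU LmC: long sums over primes, in mean square

Proof.  `Pool.Agent.H80.LV.pre hVK` with `A = 0`, `d = 1`, `c = 0` at the scale `b` (in place of `x`): `gE (0/1) t n = ee(t log n)`;
`2T ≤ 2x ≤ b^2` (`b ≥ x^{2/3}`), `(log b)^{K'} ≤ L^{K'} ≤ T`, `vol B ≤ T^{η'} ≤ T^η`: `nrm (∑_{n ≤ b} Λ(n) n^{2πit}) ≤ b/(log b)^{K+2}` (`pre` with `2K + 4`),
`(log b)^{K+2} ≥ (L/2)^{K+2} ≥ 4 L^K` for large `x`.  `ps_diff`: the rest is pointwise at most `4 √b (log b)^2 + ∑_{n ≤ a} Λ(n) ≤ 4 √b L^2 + a L`, so its norm is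
`≤ (4 √x L^2 + x^{1/4} L) x^{1/20} ≤ b/(2 L^K)` (`nrm_triv`, `η ≤ 1/10`).
-/

set_option autoImplicit false

namespace Pool.Agent.H76.MU

open Finset MeasureTheory
open Pool.Agent.H91.PK (ee)
open Pool.Agent.H91.EHA (Lam)

private theorem LmC_Lam (n : ℕ) (L : ℝ) (h1 : 1 ≤ n) (h : Real.log n ≤ L) :
    ‖((Lam n : ℝ) : ℂ)‖ ≤ L := by
  rw [Complex.norm_real, Real.norm_eq_abs]
  unfold Lam
  rw [abs_of_nonneg ArithmeticFunction.vonMangoldt_nonneg]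
  exact ArithmeticFunction.vonMangoldt_le_log.trans h

private theorem LmC_sum (a : ℕ) (L t : ℝ) (h : ∀ n ∈ Icc 1 a, Real.log n ≤ L) :
    ‖∑ n ∈ Icc 1 a, ((Lam n : ℝ) : ℂ) * ee (t * Real.log n)‖ ≤ a * L := by
  refine (norm_sum_le _ _).trans ?_
  have h1 : ∀ n ∈ Icc 1 a, ‖((Lam n : ℝ) : ℂ) * ee (t * Real.log n)‖ ≤ L := by
    intro n hn
    rw [norm_mul, norm_ee, mul_one]
    exact LmC_Lam n L (mem_Icc.1 hn).1 (h n hn)
  refine (Finset.sum_le_sum h1).trans (le_of_eq ?_)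
  rw [Finset.sum_const, Nat.card_Icc, nsmul_eq_mul]
  simp

private theorem LmC_gE (t : ℝ) (n : ℕ) :
    Pool.Agent.H80.LV.gE (((0 : ℤ) : ℝ) / ((1 : ℕ) : ℝ)) t n = ee (t * Real.log n) := by
  unfold Pool.Agent.H80.LV.gE
  congr 1
  simp

private theorem LmC_cont (a b : ℕ) : Continuous (fun t => PS a b t) := by
  unfold PS
  exact cont_poly _ _

private theorem LmC_final (x : ℕ) (K : ℕ) (L b lb : ℝ) (hx1 : (1 : ℝ) ≤ x) (hL1 : 1 ≤ L)
    (hL2 : (2 : ℝ) ^ (K + 3) ≤ L) (hlb : L / 2 ≤ lb) (hb : (x : ℝ) ^ (2 / 3 : ℝ) ≤ b)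
    (hpow : 10 * L ^ (K + 2) ≤ (x : ℝ) ^ (7 / 60 : ℝ)) :
    b / lb ^ (K + 2) + (4 * Real.sqrt x * L ^ 2 + (x : ℝ) ^ (1 / 4 : ℝ) * L) *
      (x : ℝ) ^ (1 / 20 : ℝ) ≤ b / L ^ K := by
  have hx0 : (0 : ℝ) < x := by linarith
  have hL0 : 0 < L := by linarith
  have hb0 : 0 < b := lt_of_lt_of_le (Real.rpow_pos_of_pos hx0 _) hb
  have hLK : 0 < L ^ K := by positivity
  have e1 : b / lb ^ (K + 2) ≤ b / (2 * L ^ K) := by
    apply div_le_div_of_nonneg_left hb0.le (by positivity)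
    have h1 : (L / 2) ^ (K + 2) ≤ lb ^ (K + 2) := pow_le_pow_left₀ (by positivity) hlb _
    refine le_trans ?_ h1
    rw [div_pow, le_div_iff₀ (by positivity)]
    calc 2 * L ^ K * 2 ^ (K + 2) = 2 ^ (K + 3) * L ^ K := by ring
      _ ≤ L ^ 2 * L ^ K := by
          apply mul_le_mul_of_nonneg_right _ hLK.le
          nlinarith
      _ = L ^ (K + 2) := by ring
  have e2 : (4 * Real.sqrt x * L ^ 2 + (x : ℝ) ^ (1 / 4 : ℝ) * L) * (x : ℝ) ^ (1 / 20 : ℝ) ≤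
      b / (2 * L ^ K) := by
    have h1 : (x : ℝ) ^ (1 / 4 : ℝ) ≤ (x : ℝ) ^ (1 / 2 : ℝ) :=
      Real.rpow_le_rpow_of_exponent_le hx1 (by norm_num)
    have h2 : L ≤ L ^ 2 := by nlinarith
    have hs : 0 ≤ (x : ℝ) ^ (1 / 2 : ℝ) := by positivity
    have h3 : 4 * Real.sqrt x * L ^ 2 + (x : ℝ) ^ (1 / 4 : ℝ) * L ≤
        5 * (x : ℝ) ^ (1 / 2 : ℝ) * L ^ 2 := by
      rw [Real.sqrt_eq_rpow]
      have h4 : (x : ℝ) ^ (1 / 4 : ℝ) * L ≤ (x : ℝ) ^ (1 / 2 : ℝ) * L ^ 2 :=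
        mul_le_mul h1 h2 hL0.le hs
      linarith
    rw [le_div_iff₀ (by positivity)]
    have h5 : (x : ℝ) ^ (2 / 3 : ℝ) = (x : ℝ) ^ (1 / 2 : ℝ) * (x : ℝ) ^ (1 / 20 : ℝ) *
        (x : ℝ) ^ (7 / 60 : ℝ) := by
      rw [← Real.rpow_add hx0, ← Real.rpow_add hx0]; norm_num
    have h20 : 0 ≤ (x : ℝ) ^ (1 / 20 : ℝ) := by positivity
    calc (4 * Real.sqrt x * L ^ 2 + (x : ℝ) ^ (1 / 4 : ℝ) * L) * (x : ℝ) ^ (1 / 20 : ℝ) *
          (2 * L ^ K) ≤ (5 * (x : ℝ) ^ (1 / 2 : ℝ) * L ^ 2) * (x : ℝ) ^ (1 / 20 : ℝ) *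
          (2 * L ^ K) := by
          apply mul_le_mul_of_nonneg_right _ (by positivity)
          exact mul_le_mul_of_nonneg_right h3 h20
      _ = (x : ℝ) ^ (1 / 2 : ℝ) * (x : ℝ) ^ (1 / 20 : ℝ) * (10 * L ^ (K + 2)) := by ring
      _ ≤ (x : ℝ) ^ (1 / 2 : ℝ) * (x : ℝ) ^ (1 / 20 : ℝ) * (x : ℝ) ^ (7 / 60 : ℝ) :=
          mul_le_mul_of_nonneg_left hpow (by positivity)
      _ ≤ b := by rw [← h5]; exact hb
  have e3 : b / (2 * L ^ K) + b / (2 * L ^ K) = b / L ^ K := by field_simp; ring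
  linarith

theorem longp (hVK : Pool.Agent.H80.LV.VK) : ∃ η : ℝ, 0 < η ∧ η ≤ 1 / 10 ∧ ∀ K : ℕ,
    ∃ K' x0 : ℕ, ∀ x : ℕ, x0 ≤ x → ∀ (a b : ℕ) (T η' : ℝ) (B : Set ℝ),
      (a : ℝ) ≤ (x : ℝ) ^ (1 / 4 : ℝ) → (x : ℝ) ^ (2 / 3 : ℝ) ≤ b → b ≤ x →
      Real.log x ^ K' ≤ T → T ≤ x → 0 ≤ η' → η' ≤ η → BS η' T B →
      nrm B (fun t => PS a b t) ≤ b / Real.log x ^ K := by
  obtain ⟨η1, hη0, -, hpre⟩ := Pool.Agent.H80.LV.pre hVK
  refine ⟨min η1 (1 / 10), by positivity, min_le_right _ _, fun K => ?_⟩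
  obtain ⟨K', x1, h1⟩ := hpre (2 * K + 4) 0
  obtain ⟨x2, h2⟩ := log_ge (2 ^ (K + 3))
  obtain ⟨x3, h3⟩ := log_pow_le (7 / 60) 10 (by norm_num) (by norm_num) (K + 2)
  refine ⟨K', max (max x1 x2) (max x3 8) ^ 2, fun x hx a b T η' B ha hb hbx hT hTx hη' hη'η hB => ?_⟩
  set m := max (max x1 x2) (max x3 8) with hm
  have hm8 : 8 ≤ m := (le_max_right _ _).trans (le_max_right _ _)
  have hmx : m ≤ x := le_trans (by nlinarith) hx
  have hx1' : x1 ≤ m := (le_max_left _ _).trans (le_max_left _ _)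
  have hx2' : x2 ≤ m := (le_max_right _ _).trans (le_max_left _ _)
  have hx3' : x3 ≤ m := (le_max_left _ _).trans (le_max_right _ _)
  have hxR8 : (8 : ℝ) ≤ x := by exact_mod_cast hm8.trans hmx
  have hx0 : (0 : ℝ) < x := by linarith
  have hxR1 : (1 : ℝ) ≤ x := by linarith
  have hL2 := h2 x (hx2'.trans hmx)
  have hL1 : 1 ≤ Real.log x := le_trans (one_le_pow₀ (by norm_num)) hL2
  have hpow := h3 x (hx3'.trans hmx)
  have hbR0 : (0 : ℝ) < b := lt_of_lt_of_le (Real.rpow_pos_of_pos hx0 _) hb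
  -- `b ≥ m`
  have hmb : m ≤ b := by
    have h4 : ((m : ℝ)) ≤ (x : ℝ) ^ (2 / 3 : ℝ) := by
      have h5 : ((m : ℝ)) ^ (2 : ℕ) ≤ x := by exact_mod_cast hx
      have h6 : (((m : ℝ)) ^ (2 : ℕ)) ^ (2 / 3 : ℝ) ≤ (x : ℝ) ^ (2 / 3 : ℝ) :=
        Real.rpow_le_rpow (by positivity) h5 (by norm_num)
      refine le_trans ?_ h6
      rw [← Real.rpow_natCast, ← Real.rpow_mul (by positivity)]
      have h7 : (1 : ℝ) ≤ m := by exact_mod_cast (by omega : 1 ≤ m)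
      calc (m : ℝ) = (m : ℝ) ^ (1 : ℝ) := (Real.rpow_one _).symm
        _ ≤ (m : ℝ) ^ (((2 : ℕ) : ℝ) * (2 / 3)) :=
            Real.rpow_le_rpow_of_exponent_le h7 (by norm_num)
    exact_mod_cast h4.trans hb
  have hbxR : (b : ℝ) ≤ x := by exact_mod_cast hbx
  have hlb0 : 0 ≤ Real.log b := Real.log_nonneg (by exact_mod_cast (by omega : 1 ≤ b))
  have hlbx : Real.log b ≤ Real.log x := Real.log_le_log hbR0 hbxR
  have hlb : Real.log x / 2 ≤ Real.log b := by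
    have h4 : Real.log ((x : ℝ) ^ (2 / 3 : ℝ)) ≤ Real.log b :=
      Real.log_le_log (Real.rpow_pos_of_pos hx0 _) hb
    rw [Real.log_rpow hx0] at h4
    linarith
  have hT1 : 1 ≤ T := le_trans (one_le_pow₀ hL1) hT
  have hab : a ≤ b := by
    have h4 : (a : ℝ) ≤ b := ha.trans ((Real.rpow_le_rpow_of_exponent_le hxR1
      (by norm_num)).trans hb)
    exact_mod_cast h4
  have h2T : 2 * T ≤ (b : ℝ) ^ (2 : ℕ) := by
    have h4 : ((x : ℝ) ^ (2 / 3 : ℝ)) ^ (2 : ℕ) ≤ (b : ℝ) ^ (2 : ℕ) :=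
      pow_le_pow_left₀ (by positivity) hb _
    refine le_trans ?_ h4
    rw [← Real.rpow_natCast, ← Real.rpow_mul hx0.le]
    have h5 : (x : ℝ) ^ (2 / 3 * ((2 : ℕ) : ℝ)) = x * (x : ℝ) ^ (1 / 3 : ℝ) := by
      nth_rw 2 [← Real.rpow_one (x : ℝ)]
      rw [← Real.rpow_add hx0]
      norm_num
    have h6 : (2 : ℝ) ≤ (x : ℝ) ^ (1 / 3 : ℝ) := by
      have h7 : (8 : ℝ) ^ (1 / 3 : ℝ) ≤ (x : ℝ) ^ (1 / 3 : ℝ) :=
        Real.rpow_le_rpow (by norm_num) hxR8 (by norm_num)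
      have h8 : (8 : ℝ) ^ (1 / 3 : ℝ) = 2 := by
        rw [show (8 : ℝ) = 2 ^ (3 : ℝ) by norm_num, ← Real.rpow_mul (by norm_num)]
        norm_num
      linarith
    rw [h5]
    nlinarith
  have hvol : volume.real B ≤ T ^ η1 * Real.log b ^ 0 := by
    rw [pow_zero, mul_one]
    exact hB.vol.trans (Real.rpow_le_rpow_of_exponent_le hT1 (hη'η.trans (min_le_left _ _)))
  have h4 := h1 b (hx1'.trans hmb) b 1 0 T B le_rfl (by simp) le_rfl
    (le_trans (pow_le_pow_left₀ hlb0 hlbx _) hT) h2T hB.meas hB.mem hvol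
  simp only [LmC_gE] at h4
  -- the main term
  have hmain : nrm B (fun t => ∑ n ∈ Icc 1 b, ((Lam n : ℝ) : ℂ) * ee (t * Real.log n)) ≤
      b / Real.log b ^ (K + 2) := by
    unfold nrm
    have hlbp : 0 < Real.log b := by linarith
    refine Real.sqrt_le_iff.2 ⟨by positivity, h4.trans (le_of_eq ?_)⟩
    rw [div_pow, ← pow_mul]
    congr 2
    ring
  -- the rest
  have hrest : nrm B (fun t => PS a b t - ∑ n ∈ Icc 1 b, ((Lam n : ℝ) : ℂ) *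
      ee (t * Real.log n)) ≤ (4 * Real.sqrt x * Real.log x ^ 2 +
        (x : ℝ) ^ (1 / 4 : ℝ) * Real.log x) * (x : ℝ) ^ (1 / 20 : ℝ) := by
    have h5 := nrm_triv η' T x (4 * Real.sqrt x * Real.log x ^ 2 +
        (x : ℝ) ^ (1 / 4 : ℝ) * Real.log x) B hB hη' hT1 hTx
      (fun t => PS a b t - ∑ n ∈ Icc 1 b, ((Lam n : ℝ) : ℂ) * ee (t * Real.log n))
      ((LmC_cont a b).sub (cont_poly _ _)) ?_ (by positivity)
    · refine h5.trans ?_
      apply mul_le_mul_of_nonneg_left _ (by positivity)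
      apply Real.rpow_le_rpow_of_exponent_le hxR1
      have h6 : η' ≤ 1 / 10 := hη'η.trans (min_le_right _ _)
      linarith
    · intro t _
      have h6 := ps_diff a b t hab (by omega)
      have h7 := LmC_sum a (Real.log x) t (fun n hn => by
        have h8 := mem_Icc.1 hn
        exact Real.log_le_log (by exact_mod_cast h8.1) (by exact_mod_cast (by omega : n ≤ x)))
      have h8 : PS a b t - ∑ n ∈ Icc 1 b, ((Lam n : ℝ) : ℂ) * ee (t * Real.log n) =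
          (PS a b t - (∑ n ∈ Icc 1 b, ((Lam n : ℝ) : ℂ) * ee (t * Real.log n)
            - ∑ n ∈ Icc 1 a, ((Lam n : ℝ) : ℂ) * ee (t * Real.log n))) -
          ∑ n ∈ Icc 1 a, ((Lam n : ℝ) : ℂ) * ee (t * Real.log n) := by ring
      rw [h8]
      refine (norm_sub_le _ _).trans (add_le_add (h6.trans ?_) (h7.trans ?_))
      · have h9 : Real.sqrt b ≤ Real.sqrt x := Real.sqrt_le_sqrt hbxR
        have h10 : Real.log b ^ 2 ≤ Real.log x ^ 2 := pow_le_pow_left₀ hlb0 hlbx _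
        exact mul_le_mul (mul_le_mul_of_nonneg_left h9 (by norm_num)) h10 (by positivity)
          (by positivity)
      · exact mul_le_mul_of_nonneg_right ha (by linarith)
  have hsum : nrm B (fun t => PS a b t) ≤
      nrm B (fun t => ∑ n ∈ Icc 1 b, ((Lam n : ℝ) : ℂ) * ee (t * Real.log n)) +
      nrm B (fun t => PS a b t - ∑ n ∈ Icc 1 b, ((Lam n : ℝ) : ℂ) * ee (t * Real.log n)) := by
    have h5 := nrm_add η' T B hB
      (fun t => ∑ n ∈ Icc 1 b, ((Lam n : ℝ) : ℂ) * ee (t * Real.log n))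
      (fun t => PS a b t - ∑ n ∈ Icc 1 b, ((Lam n : ℝ) : ℂ) * ee (t * Real.log n))
      (cont_poly _ _) ((LmC_cont a b).sub (cont_poly _ _))
    refine le_trans (le_of_eq ?_) h5
    congr 1
    funext t
    ring
  exact hsum.trans ((add_le_add hmain hrest).trans
    (LmC_final x K (Real.log x) b (Real.log b) hxR1 hL1 hL2 hlb hb hpow))

end Pool.Agent.H76.MU
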