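import Pool.Agent.H76.MU.Defs

/-!
# MU LmD: algebra of the weighted Liouville function

`Om` is completely additive (`Nat.factorization_mul`; the primes of `m n` are those of `m` and of `n`), `lio` completely multiplicative
(`ArithmeticFunction.cardFactors_mul`).  `log_id`: `log n = ∑_{d ∣ n} Λ(d)` (`ArithmeticFunction.vonMangoldt_sum`) and for `n = d l`:
`gl j P J n = lio d · lio l/(j + Om d + Om l) = lio d · gl (j + Om d) P J l`.
`log_sum`: multiply by `ee(t log n)`, sum over `n ≤ y`, write `n = d l`, `ee(t log (d l)) = ee(t log d) ee(t log l)`, `l ≤ y/d`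
(reorder the sum over pairs; compare `Vau_sum_conv` in `H91/PK/Vau.lean`).
-/

set_option autoImplicit false

namespace Pool.Agent.H76.MU

open Finset
open Pool.Agent.H91.PK (ee)
open Pool.Agent.H91.EHA (Lam)

theorem LmD_Om (P J n : ℕ) : Om P J n = ∑ p ∈ Ioc P (P * 2 ^ J), n.factorization p := by
  unfold Om
  refine Finset.sum_subset_zero_on_sdiff ?_ ?_ ?_
  · intro p hp
    rw [Finset.mem_filter] at hp
    exact Finset.mem_Ioc.2 hp.2
  · intro p hp
    rw [Finset.mem_sdiff, Finset.mem_Ioc, Finset.mem_filter] at hp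
    by_contra h
    apply hp.2
    refine ⟨?_, hp.1⟩
    rw [← Nat.support_factorization, Finsupp.mem_support_iff]
    exact h
  · intro p _
    rfl

theorem LmD_reorder (N : ℕ) (F : ℕ → ℕ → ℂ) :
    ∑ n ∈ Icc 1 N, ∑ d ∈ n.divisors, F d (n / d) =
      ∑ a ∈ Icc 1 N, ∑ b ∈ Icc 1 (N / a), F a b := by
  have h1 : ∀ n ∈ Icc 1 N, ∑ d ∈ n.divisors, F d (n / d)
      = ∑ p ∈ n.divisorsAntidiagonal, F p.1 p.2 := by
    intro n _
    exact (Nat.sum_divisorsAntidiagonal (fun a b => F a b)).symm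
  rw [Finset.sum_congr rfl h1, Finset.sum_sigma']
  rw [Finset.sum_sigma']
  refine Finset.sum_bij' (fun x _ => ⟨x.2.1, x.2.2⟩) (fun y _ => ⟨y.1 * y.2, (y.1, y.2)⟩)
    ?_ ?_ ?_ ?_ ?_
  · rintro ⟨n, a, b⟩ hx
    simp only [Finset.mem_sigma, Finset.mem_Icc, Nat.mem_divisorsAntidiagonal] at hx ⊢
    obtain ⟨⟨hn1, hnN⟩, hab, hn0⟩ := hx
    have ha : 1 ≤ a := by
      rcases Nat.eq_zero_or_pos a with h | h
      · subst h; simp at hab; omega
      · exact h
    have hb : 1 ≤ b := by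
      rcases Nat.eq_zero_or_pos b with h | h
      · subst h; simp at hab; omega
      · exact h
    refine ⟨⟨ha, ?_⟩, hb, ?_⟩
    · calc a = a * 1 := (mul_one a).symm
        _ ≤ a * b := Nat.mul_le_mul_left a hb
        _ ≤ N := by rw [hab]; exact hnN
    · rw [Nat.le_div_iff_mul_le (by omega)]
      calc b * a = a * b := mul_comm b a
        _ ≤ N := by rw [hab]; exact hnN
  · rintro ⟨a, b⟩ hx
    simp only [Finset.mem_sigma, Finset.mem_Icc, Nat.mem_divisorsAntidiagonal] at hx ⊢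
    obtain ⟨⟨ha1, haN⟩, hb1, hbN⟩ := hx
    rw [Nat.le_div_iff_mul_le (by omega)] at hbN
    have h2 : 1 ≤ a * b := Nat.mul_pos (by omega) (by omega)
    refine ⟨⟨h2, by rw [mul_comm]; exact hbN⟩, trivial, by omega⟩
  · rintro ⟨n, a, b⟩ hx
    simp only [Finset.mem_sigma, Nat.mem_divisorsAntidiagonal] at hx
    obtain ⟨_, hab, _⟩ := hx
    subst hab
    rfl
  · rintro ⟨a, b⟩ _
    rfl
  · rintro ⟨n, a, b⟩ _
    rfl

theorem lio_mul (m n : ℕ) : lio (m * n) = lio m * lio n := by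
  unfold lio
  rcases eq_or_ne m 0 with rfl | hm
  · simp
  rcases eq_or_ne n 0 with rfl | hn
  · simp
  rw [if_neg (mul_ne_zero hm hn), if_neg hm, if_neg hn, ArithmeticFunction.cardFactors_mul hm hn,
    pow_add]

theorem lio_prime (p : ℕ) (hp : p.Prime) : lio p = -1 := by
  unfold lio
  rw [if_neg hp.ne_zero, ArithmeticFunction.cardFactors_apply_prime hp, pow_one]

theorem Om_mul (P J m n : ℕ) (hm : m ≠ 0) (hn : n ≠ 0) : Om P J (m * n) = Om P J m + Om P J n := by
  rw [LmD_Om, LmD_Om, LmD_Om, ← Finset.sum_add_distrib, Nat.factorization_mul hm hn]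
  rfl

theorem Om_prime (P J p : ℕ) (hp : p.Prime) :
    Om P J p = if P < p ∧ p ≤ P * 2 ^ J then 1 else 0 := by
  rw [LmD_Om, hp.factorization]
  split_ifs with h
  · rw [Finset.sum_eq_single p]
    · simp
    · intro q _ hq
      exact Finsupp.single_eq_of_ne hq
    · intro h1
      exact absurd (Finset.mem_Ioc.2 h) h1
  · refine Finset.sum_eq_zero fun q hq => ?_
    apply Finsupp.single_eq_of_ne
    rintro rfl
    exact h (Finset.mem_Ioc.1 hq)

theorem log_id (j P J n : ℕ) (hn : n ≠ 0) :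
    gl j P J n * Real.log n
      = ∑ d ∈ n.divisors, Lam d * lio d * gl (j + Om P J d) P J (n / d) := by
  have h1 : Real.log n = ∑ d ∈ n.divisors, Lam d :=
    (ArithmeticFunction.vonMangoldt_sum (n := n)).symm
  rw [h1, Finset.mul_sum]
  refine Finset.sum_congr rfl fun d hd => ?_
  obtain ⟨l, rfl⟩ := Nat.dvd_of_mem_divisors hd
  have hd0 : d ≠ 0 := fun h => hn (by rw [h, zero_mul])
  have hl0 : l ≠ 0 := fun h => hn (by rw [h, mul_zero])
  rw [Nat.mul_div_cancel_left l (Nat.pos_of_ne_zero hd0)]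
  unfold gl
  rw [lio_mul, Om_mul P J d l hd0 hl0]
  push_cast
  rw [add_assoc]
  ring

theorem log_sum (j P J y : ℕ) (t : ℝ) :
    ∑ n ∈ Icc 1 y, ((gl j P J n * Real.log n : ℝ) : ℂ) * ee (t * Real.log n)
      = ∑ d ∈ Icc 1 y, ((Lam d * lio d : ℝ) : ℂ) * ee (t * Real.log d) *
          SL (j + Om P J d) P J (y / d) t := by
  have h1 : ∑ n ∈ Icc 1 y, ((gl j P J n * Real.log n : ℝ) : ℂ) * ee (t * Real.log n)
      = ∑ n ∈ Icc 1 y, ∑ d ∈ n.divisors, ((Lam d * lio d : ℝ) : ℂ) * ee (t * Real.log d) *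
          (((gl (j + Om P J d) P J (n / d) : ℝ) : ℂ) * ee (t * Real.log ((n / d : ℕ) : ℝ))) := by
    refine Finset.sum_congr rfl fun n hn => ?_
    have hn0 : n ≠ 0 := by
      have := (Finset.mem_Icc.1 hn).1
      omega
    rw [log_id j P J n hn0, Complex.ofReal_sum, Finset.sum_mul]
    refine Finset.sum_congr rfl fun d hd => ?_
    obtain ⟨l, rfl⟩ := Nat.dvd_of_mem_divisors hd
    have hd0 : d ≠ 0 := fun h => hn0 (by rw [h, zero_mul])
    have hl0 : l ≠ 0 := fun h => hn0 (by rw [h, mul_zero])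
    rw [Nat.mul_div_cancel_left l (Nat.pos_of_ne_zero hd0)]
    have h2 : ee (t * Real.log ((d * l : ℕ) : ℝ)) = ee (t * Real.log d) * ee (t * Real.log l) := by
      rw [← Pool.Agent.H91.PK.LSa_ee_add]
      congr 1
      push_cast
      rw [Real.log_mul (Nat.cast_ne_zero.2 hd0) (Nat.cast_ne_zero.2 hl0)]
      ring
    rw [h2]
    push_cast
    ring
  rw [h1, LmD_reorder y (fun d l => ((Lam d * lio d : ℝ) : ℂ) * ee (t * Real.log d) *
          (((gl (j + Om P J d) P J l : ℝ) : ℂ) * ee (t * Real.log (l : ℝ))))]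
  refine Finset.sum_congr rfl fun d _ => ?_
  unfold SL
  rw [Finset.mul_sum]

end Pool.Agent.H76.MU
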