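import Pool.Agent.H76.MU.LmS

/-!
# MU LmR: large values of the weighted Liouville sums (recursion)

Proof.  `η` from `logsum` (`≤ 1/10`).  `y < x^{4/5}`: trivially `nrm ≤ y x^{1/20} ≤ x/L^K` (`nrm_triv`, `gl_abs_le`).  Let `y ≥ x^{4/5}`.  `D1` as in `logsum`, `Q = ⌈L^{K+3}⌉₊`,
`Y i = x^{3/4} (4 D1 Q)^i`, `I = 40 (K + 2)`, `Y I ≤ x^{4/5}` (`exp_pow_le`).  CLAIM(i): for all `j ≥ 1` and `Y i ≤ y ≤ x`: `nrm B (SL j P J y) ≤ ψ_i y`, `ψ_0 = L`,
`ψ_{i+1} = 12 L^{-1/20} ψ_i + 2 L^{-K-2}`.  `i = 0`: `nrm_hm` (`|gl| ≤ 1`).  Step (Abel summation), `y0 = y / Q` (natural), `W(n) = ∑_{m ≤ n} gl j P J m log m ee(t log m)`: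
`SL(y) = SL(y0) + W(y)/log y - W(y0)/log(y0+1) + ∑_{n ∈ Ioo y0 y} W(n) (1/log n - 1/log(n+1))`, `nrm SL(y0) ≤ L y/Q` (`nrm_hm`), and `logsum` (with `K + 3`) for every `n ∈ [y0, y]`
(`n/(2 D1) ≥ Y i`): `nrm W(n) ≤ (2 L^{19/20} ψ_i + L^{-K-3}) y`; the weights are nonnegative with sum `≤ 3/log y0 ≤ 6/L`.  So
`nrm SL(y) ≤ y (L/Q + (6/L)(2 L^{19/20} ψ_i + L^{-K-3})) ≤ ψ_{i+1} y`.
Hence `ψ_I ≤ L (12 L^{-1/20})^I + 3 L^{-K-2} ≤ L^{-K}` for large `x`.
-/

set_option autoImplicit false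

namespace Pool.Agent.H76.MU

open Finset MeasureTheory
open Pool.Agent.H91.PK (ee)

/-- the sum with the weight `log m` -/
noncomputable def LmR_W (j P J n : ℕ) (t : ℝ) : ℂ :=
  ∑ m ∈ Icc 1 n, ((gl j P J m * Real.log m : ℝ) : ℂ) * ee (t * Real.log m)

theorem LmR_contW (j P J n : ℕ) : Continuous (LmR_W j P J n) :=
  cont_poly (Icc 1 n) (fun m => ((gl j P J m * Real.log m : ℝ) : ℂ))

theorem LmR_contS (j P J n : ℕ) : Continuous (SL j P J n) :=
  cont_poly (Icc 1 n) (fun m => ((gl j P J m : ℝ) : ℂ))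

/-- Abel summation -/
theorem LmR_abel (j P J y0 y : ℕ) (t : ℝ) (hy0 : 2 ≤ y0) (hy : y0 ≤ y) :
    SL j P J y t = SL j P J y0 t + (((1 / Real.log y : ℝ) : ℂ) * LmR_W j P J y t +
      (((-(1 / Real.log y0) : ℝ) : ℂ) * LmR_W j P J y0 t +
        ∑ k ∈ Ico y0 y, ((1 / Real.log k - 1 / Real.log ((k : ℝ) + 1) : ℝ) : ℂ) * LmR_W j P J k t)) := by
  induction y, hy using Nat.le_induction with
  | base =>
    simp only [Finset.Ico_self, Finset.sum_empty]
    push_cast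
    ring
  | succ n hn ih =>
    rw [Finset.sum_Ico_succ_top hn]
    have hW : LmR_W j P J (n + 1) t = LmR_W j P J n t +
        ((gl j P J (n + 1) * Real.log ((n + 1 : ℕ) : ℝ) : ℝ) : ℂ) * ee (t * Real.log ((n + 1 : ℕ) : ℝ)) := by
      unfold LmR_W
      rw [Finset.sum_Icc_succ_top (by omega)]
    have hS : SL j P J (n + 1) t = SL j P J n t +
        ((gl j P J (n + 1) : ℝ) : ℂ) * ee (t * Real.log ((n + 1 : ℕ) : ℝ)) := by
      unfold SL
      rw [Finset.sum_Icc_succ_top (by omega)]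
    have hlog : Real.log ((n + 1 : ℕ) : ℝ) ≠ 0 := by
      apply Real.log_ne_zero_of_pos_of_ne_one
      · positivity
      · have : (3 : ℝ) ≤ ((n + 1 : ℕ) : ℝ) := by exact_mod_cast (by omega : 3 ≤ n + 1)
        linarith
    have hlogC : ((Real.log ((n : ℝ) + 1) : ℝ) : ℂ) ≠ 0 := by
      have : Real.log ((n : ℝ) + 1) ≠ 0 := by
        have h := hlog
        push_cast at h
        exact h
      exact_mod_cast this
    rw [hS, ih, hW]
    push_cast
    field_simp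
    ring

theorem LmR_key (η T : ℝ) (B : Set ℝ) (hB : BS η T B) (j P J y0 y : ℕ) (M : ℝ) (hy0 : 2 ≤ y0)
    (hy : y0 ≤ y) (hM : ∀ n, y0 ≤ n → n ≤ y → nrm B (LmR_W j P J n) ≤ M) :
    nrm B (SL j P J y) ≤ nrm B (SL j P J y0) + 2 / Real.log y0 * M := by
  have hlogpos : ∀ k : ℕ, 2 ≤ k → 0 < Real.log (k : ℝ) := fun k hk =>
    Real.log_pos (by exact_mod_cast (by omega : 1 < k))
  have hM0 : 0 ≤ M := (nrm_nonneg _ _).trans (hM y0 le_rfl hy)
  have hfun : SL j P J y = fun t => SL j P J y0 t + (((1 / Real.log y : ℝ) : ℂ) * LmR_W j P J y t +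
      (((-(1 / Real.log y0) : ℝ) : ℂ) * LmR_W j P J y0 t +
        ∑ k ∈ Ico y0 y, ((1 / Real.log k - 1 / Real.log ((k : ℝ) + 1) : ℝ) : ℂ) * LmR_W j P J k t)) := by
    funext t
    exact LmR_abel j P J y0 y t hy0 hy
  have hc : ∀ (c : ℝ) (n : ℕ), Continuous (fun t : ℝ => ((c : ℝ) : ℂ) * LmR_W j P J n t) :=
    fun c n => continuous_const.mul (LmR_contW j P J n)
  have hcs : Continuous (fun t : ℝ => ∑ k ∈ Ico y0 y,
      ((1 / Real.log k - 1 / Real.log ((k : ℝ) + 1) : ℝ) : ℂ) * LmR_W j P J k t) :=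
    continuous_finsetSum _ fun k _ => hc _ k
  have hmul : ∀ (c C : ℝ) (n : ℕ), |c| ≤ C → 0 ≤ C → y0 ≤ n → n ≤ y →
      nrm B (fun t : ℝ => ((c : ℝ) : ℂ) * LmR_W j P J n t) ≤ C * M := by
    intro c C n hcC hC h1 h2
    refine (nrm_mul η T B hB (LmR_W j P J n) (fun _ => ((c : ℝ) : ℂ)) C (LmR_contW j P J n)
      continuous_const (fun t _ => ?_) hC).trans ?_
    · rw [Complex.norm_real, Real.norm_eq_abs]; exact hcC
    · exact mul_le_mul_of_nonneg_left (hM n h1 h2) hC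
  have hw : ∀ k : ℕ, 2 ≤ k → 1 / Real.log ((k : ℝ) + 1) ≤ 1 / Real.log k := fun k hk =>
    one_div_le_one_div_of_le (hlogpos k hk) (Real.log_le_log (by positivity) (by linarith))
  have hsumw : ∑ k ∈ Ico y0 y, (1 / Real.log (k : ℝ) - 1 / Real.log ((k : ℝ) + 1))
      = 1 / Real.log y0 - 1 / Real.log y := by
    clear hM hfun hcs hmul
    induction y, hy using Nat.le_induction with
    | base => simp
    | succ n hn ih =>
      rw [Finset.sum_Ico_succ_top hn, ih]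
      push_cast
      ring
  have h1 : nrm B (fun t : ℝ => ∑ k ∈ Ico y0 y,
      ((1 / Real.log k - 1 / Real.log ((k : ℝ) + 1) : ℝ) : ℂ) * LmR_W j P J k t)
      ≤ (1 / Real.log y0 - 1 / Real.log y) * M := by
    refine (nrm_sum η T B hB (Ico y0 y) (fun k t =>
      ((1 / Real.log k - 1 / Real.log ((k : ℝ) + 1) : ℝ) : ℂ) * LmR_W j P J k t)
      (fun k _ => hc _ k)).trans ?_
    rw [← hsumw, Finset.sum_mul]
    refine Finset.sum_le_sum fun k hk => ?_
    rw [Finset.mem_Ico] at hk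
    have := hw k (by omega)
    exact hmul _ _ k (le_of_eq (abs_of_nonneg (by linarith))) (by linarith) hk.1 (by omega)
  have h2 := hmul (1 / Real.log y) (1 / Real.log y) y
    (le_of_eq (abs_of_nonneg (by have := hlogpos y (by omega); positivity)))
    (by have := hlogpos y (by omega); positivity) hy le_rfl
  have h3 := hmul (-(1 / Real.log y0)) (1 / Real.log y0) y0
    (le_of_eq (by rw [abs_neg]; exact abs_of_nonneg (by have := hlogpos y0 hy0; positivity)))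
    (by have := hlogpos y0 hy0; positivity) le_rfl hy
  have h4 := nrm_add η T B hB (fun t => ((-(1 / Real.log y0) : ℝ) : ℂ) * LmR_W j P J y0 t)
    (fun t => ∑ k ∈ Ico y0 y,
      ((1 / Real.log k - 1 / Real.log ((k : ℝ) + 1) : ℝ) : ℂ) * LmR_W j P J k t) (hc _ _) hcs
  have h5 := nrm_add η T B hB (fun t => ((1 / Real.log y : ℝ) : ℂ) * LmR_W j P J y t)
    (fun t => ((-(1 / Real.log y0) : ℝ) : ℂ) * LmR_W j P J y0 t + ∑ k ∈ Ico y0 y,
      ((1 / Real.log k - 1 / Real.log ((k : ℝ) + 1) : ℝ) : ℂ) * LmR_W j P J k t) (hc _ _)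
    ((hc _ _).add hcs)
  have h6 := nrm_add η T B hB (SL j P J y0)
    (fun t => ((1 / Real.log y : ℝ) : ℂ) * LmR_W j P J y t +
      (((-(1 / Real.log y0) : ℝ) : ℂ) * LmR_W j P J y0 t + ∑ k ∈ Ico y0 y,
      ((1 / Real.log k - 1 / Real.log ((k : ℝ) + 1) : ℝ) : ℂ) * LmR_W j P J k t))
    (LmR_contS j P J y0) ((hc _ _).add ((hc _ _).add hcs))
  rw [← hfun] at h6
  have h7 : 2 / Real.log (y0 : ℝ) * M = (1 / Real.log y) * M + ((1 / Real.log y0) * M +
      (1 / Real.log y0 - 1 / Real.log y) * M) := by ring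
  rw [h7]
  linarith

/-- the recursion -/
theorem LmR_ind (x K : ℕ) (η T : ℝ) (B : Set ℝ) (hB : BS η T B) (P J D1 Q : ℕ) (L c : ℝ)
    (hLx : L = Real.log x) (hx : 1 ≤ x) (hL : 16 ≤ L) (hc0 : 0 ≤ c) (hc : c ≤ 1 / 3)
    (hcL : 12 * L ^ (19 / 20 : ℝ) = c * L)
    (hD1 : 1 ≤ D1) (hQ : 1 ≤ Q) (hQL : L ^ (K + 3) ≤ Q)
    (hS : ∀ (y : ℕ) (ψ : ℝ), (x : ℝ) ^ (3 / 4 : ℝ) ≤ y → y ≤ x → 0 ≤ ψ →
      (∀ j : ℕ, 1 ≤ j → ∀ z : ℕ, (y : ℝ) / (2 * D1) ≤ z → z ≤ y → nrm B (SL j P J z) ≤ ψ * z) →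
      ∀ j : ℕ, 1 ≤ j → nrm B (LmR_W j P J y) ≤ (2 * L ^ (19 / 20 : ℝ) * ψ + 1 / L ^ (K + 3)) * y)
    (hH : ∀ j : ℕ, 1 ≤ j → ∀ n : ℕ, (x : ℝ) ^ (1 / 20 : ℝ) ≤ n → n ≤ x →
      nrm B (SL j P J n) ≤ L * n) (i : ℕ) :
    ∀ j : ℕ, 1 ≤ j → ∀ y : ℕ, (x : ℝ) ^ (3 / 4 : ℝ) * ((4 * D1 * Q : ℕ) : ℝ) ^ i ≤ y → y ≤ x →
      nrm B (SL j P J y) ≤ (L * c ^ i + 3 / L ^ (K + 2)) * y := by
  have hx1 : (1 : ℝ) ≤ x := by exact_mod_cast hx
  have hL0 : 0 < L := by linarith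
  have hXX : (x : ℝ) ^ (1 / 20 : ℝ) ≤ (x : ℝ) ^ (3 / 4 : ℝ) :=
    Real.rpow_le_rpow_of_exponent_le hx1 (by norm_num)
  have hX1 : (1 : ℝ) ≤ (x : ℝ) ^ (3 / 4 : ℝ) := Real.one_le_rpow hx1 (by norm_num)
  induction i with
  | zero =>
    intro j hj y hy hyx
    rw [pow_zero, mul_one] at hy
    have h1 := hH j hj y (hXX.trans hy) hyx
    have h2 : 0 ≤ 3 / L ^ (K + 2) * y := by positivity
    rw [pow_zero]
    nlinarith
  | succ i ih =>
    intro j hj y hy hyx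
    set X4 : ℝ := (x : ℝ) ^ (3 / 4 : ℝ) with hX4
    set R : ℝ := ((4 * D1 * Q : ℕ) : ℝ) with hR
    have hRe : R = 4 * D1 * Q := by rw [hR]; push_cast; ring
    have hD1' : (1 : ℝ) ≤ D1 := by exact_mod_cast hD1
    have hQ' : (1 : ℝ) ≤ Q := by exact_mod_cast hQ
    have hR1 : 1 ≤ R := by rw [hRe]; nlinarith
    have hRi : 1 ≤ R ^ i := one_le_pow₀ hR1
    have hXR : 1 ≤ X4 * R ^ i := by nlinarith
    -- the natural number `y0`
    have hQy : Q ≤ y := by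
      have h1 : (Q : ℝ) ≤ y := by
        refine le_trans ?_ hy
        rw [pow_succ, hRe]
        rw [hRe] at hXR
        have : (Q : ℝ) ≤ 4 * D1 * Q := by nlinarith
        nlinarith
      exact_mod_cast h1
    set y0 : ℕ := y / Q with hy0
    have hy01 : 1 ≤ y0 := by
      rw [hy0, Nat.one_le_div_iff (by omega)]
      exact hQy
    have hyy : (y : ℝ) ≤ 2 * Q * y0 := by
      have h1 : y < Q * (y0 + 1) := by
        rw [hy0]
        exact Nat.lt_mul_div_succ y (by omega)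
      have h2 : Q * (y0 + 1) ≤ 2 * Q * y0 := by nlinarith
      exact_mod_cast (h1.le.trans h2)
    have hy0y : y0 ≤ y := Nat.div_le_self _ _
    have hy0Q : (y0 : ℝ) * Q ≤ y := by
      have : y0 * Q ≤ y := Nat.div_mul_le_self y Q
      exact_mod_cast this
    have hbig : X4 * R ^ i * (2 * D1) ≤ y0 := by
      have h1 : X4 * R ^ i * (4 * D1 * Q) ≤ 2 * Q * y0 := by
        refine le_trans ?_ hyy
        refine le_trans (le_of_eq ?_) hy
        rw [pow_succ, ← hRe]; ring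
      have h2 : (0 : ℝ) < 2 * Q := by linarith
      have h3 : (2 * Q : ℝ) * (X4 * R ^ i * (2 * D1)) ≤ (2 * Q) * y0 := by
        refine le_trans (le_of_eq ?_) h1
        ring
      exact le_of_mul_le_mul_left h3 h2
    have hX4y0 : X4 ≤ y0 := by
      refine le_trans ?_ hbig
      have : 1 ≤ R ^ i * (2 * D1) := by nlinarith
      nlinarith
    -- the bound for the weighted sums
    set ψ : ℝ := L * c ^ i + 3 / L ^ (K + 2) with hψ
    have hψ0 : 0 ≤ ψ := by positivity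
    have hM : ∀ n, y0 ≤ n → n ≤ y →
        nrm B (LmR_W j P J n) ≤ (2 * L ^ (19 / 20 : ℝ) * ψ + 1 / L ^ (K + 3)) * y := by
      intro n hn1 hn2
      have hn1' : (y0 : ℝ) ≤ n := by exact_mod_cast hn1
      have hn2' : (n : ℝ) ≤ y := by exact_mod_cast hn2
      refine (hS n ψ (hX4y0.trans hn1') (hn2.trans hyx) hψ0 ?_ j hj).trans ?_
      · intro j' hj' z hz1 hz2
        refine ih j' hj' z ?_ (hz2.trans (hn2.trans hyx))
        refine le_trans ?_ hz1
        rw [le_div_iff₀ (by positivity)]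
        exact hbig.trans hn1'
      · exact mul_le_mul_of_nonneg_left hn2' (by positivity)
    have hlogy0 : L / 2 ≤ Real.log y0 := by
      have h1 : Real.log X4 ≤ Real.log y0 := Real.log_le_log (by linarith) hX4y0
      rw [hX4, Real.log_rpow (by linarith), ← hLx] at h1
      linarith
    have hy02 : 2 ≤ y0 := by
      by_contra hcon
      have : y0 = 1 := by omega
      rw [this] at hlogy0
      simp at hlogy0
      linarith
    have hkey := LmR_key η T B hB j P J y0 y _ hy02 hy0y hM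
    have hS0 := hH j hj y0 (hXX.trans hX4y0) (hy0y.trans hyx)
    have hy0' : (0 : ℝ) ≤ y := Nat.cast_nonneg _
    -- first term
    have hLK : 0 < L ^ (K + 2) := by positivity
    have h1 : L * y0 ≤ 1 / L ^ (K + 2) * y := by
      have h2 : (y0 : ℝ) * L ^ (K + 3) ≤ y :=
        (mul_le_mul_of_nonneg_left hQL (Nat.cast_nonneg _)).trans hy0Q
      rw [one_div, inv_mul_eq_div, le_div_iff₀ hLK]
      calc L * y0 * L ^ (K + 2) = y0 * L ^ (K + 3) := by ring
        _ ≤ y := h2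
    -- second term
    have h2 : 2 / Real.log y0 ≤ 4 / L := by
      rw [div_le_div_iff₀ (by linarith) hL0]
      linarith
    have hMnn : 0 ≤ (2 * L ^ (19 / 20 : ℝ) * ψ + 1 / L ^ (K + 3)) * y := by positivity
    have h3 : 2 / Real.log y0 * ((2 * L ^ (19 / 20 : ℝ) * ψ + 1 / L ^ (K + 3)) * y)
        ≤ 4 / L * ((2 * L ^ (19 / 20 : ℝ) * ψ + 1 / L ^ (K + 3)) * y) :=
      mul_le_mul_of_nonneg_right h2 hMnn
    have h4 : 4 / L * ((2 * L ^ (19 / 20 : ℝ) * ψ + 1 / L ^ (K + 3)) * y)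
        = (2 / 3 * c * ψ + 4 / L ^ (K + 4)) * y := by
      have e1 : L ^ (19 / 20 : ℝ) = c * L / 12 := by linarith
      rw [e1]
      have e2 : L ^ (K + 4) = L * L ^ (K + 3) := by ring
      rw [e2]
      field_simp
      ring
    have h5 : 4 / L ^ (K + 4) ≤ 1 / L ^ (K + 2) := by
      rw [div_le_div_iff₀ (by positivity) hLK]
      have e2 : L ^ (K + 4) = L ^ 2 * L ^ (K + 2) := by ring
      have e3 : (4 : ℝ) ≤ L ^ 2 := by nlinarith
      rw [e2, one_mul]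
      exact mul_le_mul_of_nonneg_right e3 hLK.le
    have h6 : c * ψ ≤ L * c ^ (i + 1) + 1 / L ^ (K + 2) := by
      rw [hψ]
      have e1 : c * (L * c ^ i + 3 / L ^ (K + 2)) = L * c ^ (i + 1) + (3 * c) * (1 / L ^ (K + 2)) := by
        ring
      rw [e1]
      have : (3 * c) * (1 / L ^ (K + 2)) ≤ 1 * (1 / L ^ (K + 2)) :=
        mul_le_mul_of_nonneg_right (by linarith) (by positivity)
      linarith
    have h7 : 2 / 3 * c * ψ ≤ c * ψ := by nlinarith [mul_nonneg hc0 hψ0]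
    have h8 : (2 / 3 * c * ψ + 4 / L ^ (K + 4)) * y
        ≤ (L * c ^ (i + 1) + 1 / L ^ (K + 2) + 1 / L ^ (K + 2)) * y :=
      mul_le_mul_of_nonneg_right (by linarith) hy0'
    have e9 : (L * c ^ (i + 1) + 3 / L ^ (K + 2)) * (y : ℝ)
        = 1 / L ^ (K + 2) * y + (L * c ^ (i + 1) + 1 / L ^ (K + 2) + 1 / L ^ (K + 2)) * y := by ring
    rw [e9]
    linarith

theorem LmR_SLnorm (j P J y : ℕ) (t : ℝ) (hj : 1 ≤ j) : ‖SL j P J y t‖ ≤ y := by
  unfold SL
  refine (norm_sum_le _ _).trans ?_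
  refine (Finset.sum_le_card_nsmul _ _ 1 fun n _ => ?_).trans ?_
  · rw [norm_mul, norm_ee, mul_one, Complex.norm_real, Real.norm_eq_abs]
    exact gl_abs_le j P J n hj
  · simp

theorem LmR_exp (K : ℕ) (L : ℝ) (hL : 1 ≤ L) (hL2 : 16 * ((2 * K + 8).factorial : ℝ) ≤ L) :
    16 * L ^ (K + 3) ≤ Real.exp (L ^ (19 / 20 : ℝ)) := by
  have h1 : L ^ (1 / 2 : ℝ) ≤ L ^ (19 / 20 : ℝ) := Real.rpow_le_rpow_of_exponent_le hL (by norm_num)
  have h0 : 0 ≤ L ^ (1 / 2 : ℝ) := by positivity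
  have h2 := Real.pow_div_factorial_le_exp (L ^ (1 / 2 : ℝ)) h0 (2 * K + 8)
  have h3 : (L ^ (1 / 2 : ℝ)) ^ (2 * K + 8) = L ^ (K + 4) := by
    rw [← Real.rpow_natCast, ← Real.rpow_mul (by linarith), ← Real.rpow_natCast]
    congr 1
    push_cast
    ring
  rw [h3] at h2
  refine le_trans ?_ (h2.trans (Real.exp_le_exp.2 h1))
  rw [le_div_iff₀ (by positivity)]
  have h4 : 0 ≤ L ^ (K + 3) := by positivity
  calc 16 * L ^ (K + 3) * ((2 * K + 8).factorial : ℝ)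
      = (16 * ((2 * K + 8).factorial : ℝ)) * L ^ (K + 3) := by ring
    _ ≤ L * L ^ (K + 3) := mul_le_mul_of_nonneg_right hL2 h4
    _ = L ^ (K + 4) := by ring

theorem lvm (hVK : Pool.Agent.H80.LV.VK) (hV : VK1) : ∃ η : ℝ, 0 < η ∧ η ≤ 1 / 10 ∧ ∀ K : ℕ,
    ∃ K' x0 : ℕ, ∀ x : ℕ, x0 ≤ x → ∀ (j P J y : ℕ) (T : ℝ) (B : Set ℝ), 1 ≤ j →
      ((P * 2 ^ J : ℕ) : ℝ) ≤ (x : ℝ) ^ (1 / 4 : ℝ) → y ≤ x →
      Real.log x ^ K' ≤ T → T ≤ x → BS η T B → nrm B (SL j P J y) ≤ x / Real.log x ^ K := by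
  obtain ⟨η1, hη1, hη1', hls⟩ := logsum hVK hV
  obtain ⟨η2, hη2, hη2', x2, hhm⟩ := nrm_hm
  refine ⟨min η1 η2, lt_min hη1 hη2, (min_le_left _ _).trans hη1', fun K => ?_⟩
  obtain ⟨K', x1, hls⟩ := hls (K + 3)
  set I : ℕ := 40 * (K + 2) with hI
  obtain ⟨x3, hx3⟩ := log_pow_le (3 / 20) 1 (by norm_num) (by norm_num) K
  obtain ⟨x4, hx4⟩ := exp_pow_le (1 / 20) (2 * I) (by norm_num) (by positivity)
  obtain ⟨x5, hx5⟩ := log_ge (max (36 ^ 20) (max (16 * ((2 * K + 8).factorial : ℝ)) (2 * 12 ^ I)))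
  refine ⟨K', max 1 (max x1 (max x2 (max x3 (max x4 x5)))), ?_⟩
  intro x hx j P J y T B hj hPJ hyx hTL hTx hB
  have hx_1 : 1 ≤ x := (le_max_left _ _).trans hx
  have hx' := (le_max_right _ _).trans hx
  have hxx1 : x1 ≤ x := (le_max_left _ _).trans hx'
  have hx'' := (le_max_right _ _).trans hx'
  have hxx2 : x2 ≤ x := (le_max_left _ _).trans hx''
  have hx''' := (le_max_right _ _).trans hx''
  have hxx3 : x3 ≤ x := (le_max_left _ _).trans hx'''
  have hx'''' := (le_max_right _ _).trans hx'''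
  have hxx4 : x4 ≤ x := (le_max_left _ _).trans hx''''
  have hxx5 : x5 ≤ x := (le_max_right _ _).trans hx''''
  have hlog := hx5 x hxx5
  set L : ℝ := Real.log x with hLdef
  have hL36 : (36 : ℝ) ^ 20 ≤ L := (le_max_left _ _).trans hlog
  have hL16 : 16 * ((2 * K + 8).factorial : ℝ) ≤ L :=
    (le_max_left _ _).trans ((le_max_right _ _).trans hlog)
  have hL12 : (2 : ℝ) * 12 ^ I ≤ L := (le_max_right _ _).trans ((le_max_right _ _).trans hlog)
  have hL' : (16 : ℝ) ≤ L := le_trans (by norm_num) hL36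
  have hL0 : 0 < L := by linarith
  have hL1 : 1 ≤ L := by linarith
  have hx1 : (1 : ℝ) ≤ x := by exact_mod_cast hx_1
  have hx0 : (0 : ℝ) < x := by linarith
  have hT1 : 1 ≤ T := (one_le_pow₀ hL1).trans hTL
  have hηnn : 0 ≤ min η1 η2 := (lt_min hη1 hη2).le
  by_cases hysmall : (y : ℝ) < (x : ℝ) ^ (4 / 5 : ℝ)
  · -- the trivial range
    have h1 := nrm_triv (min η1 η2) T x y B hB hηnn hT1 hTx (SL j P J y) (LmR_contS j P J y)
      (fun t _ => LmR_SLnorm j P J y t hj) (Nat.cast_nonneg _)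
    have h2 : (x : ℝ) ^ (min η1 η2 / 2) ≤ (x : ℝ) ^ (1 / 20 : ℝ) := by
      apply Real.rpow_le_rpow_of_exponent_le hx1
      have := min_le_left η1 η2
      linarith
    have h3 := hx3 x hxx3
    rw [one_mul] at h3
    have hLK : 0 < L ^ K := by positivity
    rw [le_div_iff₀ hLK]
    have h4 : nrm B (SL j P J y) ≤ (x : ℝ) ^ (4 / 5 : ℝ) * (x : ℝ) ^ (1 / 20 : ℝ) :=
      h1.trans (mul_le_mul hysmall.le h2 (by positivity) (by positivity))
    calc nrm B (SL j P J y) * L ^ K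
        ≤ ((x : ℝ) ^ (4 / 5 : ℝ) * (x : ℝ) ^ (1 / 20 : ℝ)) * (x : ℝ) ^ (3 / 20 : ℝ) :=
          mul_le_mul h4 h3 (by positivity) (by positivity)
      _ = x := by
          rw [← Real.rpow_add hx0, ← Real.rpow_add hx0]
          norm_num
  · rw [not_lt] at hysmall
    set D1 : ℕ := ⌈Real.exp (L ^ (19 / 20 : ℝ))⌉₊ with hD1
    set Q : ℕ := ⌈L ^ (K + 3)⌉₊ with hQ
    have hexp1 : 1 ≤ Real.exp (L ^ (19 / 20 : ℝ)) := Real.one_le_exp (by positivity)
    have hD11 : 1 ≤ D1 := by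
      rw [hD1]; exact Nat.one_le_ceil_iff.2 (by positivity)
    have hQ1 : 1 ≤ Q := by
      rw [hQ]; exact Nat.one_le_ceil_iff.2 (by positivity)
    have hD1le : (D1 : ℝ) ≤ 2 * Real.exp (L ^ (19 / 20 : ℝ)) := by
      have := Nat.ceil_lt_add_one (a := Real.exp (L ^ (19 / 20 : ℝ))) (by positivity)
      rw [← hD1] at this
      linarith
    have hQle : (Q : ℝ) ≤ 2 * L ^ (K + 3) := by
      have h1 := Nat.ceil_lt_add_one (a := L ^ (K + 3)) (by positivity)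
      rw [← hQ] at h1
      have h2 : 1 ≤ L ^ (K + 3) := one_le_pow₀ hL1
      linarith
    set s : ℝ := L ^ (1 / 20 : ℝ) with hs
    have hs36 : 36 ≤ s := by
      have h1 : ((36 : ℝ) ^ 20) ^ (1 / 20 : ℝ) ≤ L ^ (1 / 20 : ℝ) :=
        Real.rpow_le_rpow (by positivity) hL36 (by norm_num)
      have h2 : ((36 : ℝ) ^ 20) ^ (1 / 20 : ℝ) = 36 := by
        rw [← Real.rpow_natCast, ← Real.rpow_mul (by norm_num)]
        norm_num
      rw [h2] at h1
      exact h1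
    have hs0 : 0 < s := by linarith
    have hsL : L ^ (19 / 20 : ℝ) * s = L := by
      rw [hs, ← Real.rpow_add hL0]
      norm_num
    have hspow : s ^ I = L ^ (2 * (K + 2)) := by
      rw [hs, hI, ← Real.rpow_natCast, ← Real.rpow_mul (by linarith), ← Real.rpow_natCast]
      congr 1
      push_cast
      ring
    have hind := LmR_ind x K (min η1 η2) T B hB P J D1 Q L (12 / s) hLdef hx_1 hL' (by positivity)
      (by rw [div_le_div_iff₀ hs0 (by norm_num)]; linarith)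
      (by rw [div_mul_eq_mul_div, eq_div_iff hs0.ne', mul_assoc, hsL])
      hD11 hQ1 (Nat.le_ceil _)
      (fun y' ψ h1 h2 h3 h4 j' hj' => hls x hxx1 P J D1 y' T (min η1 η2) ψ B hPJ hD1 h1 h2 hTL hTx
        hηnn (min_le_left _ _) hB h3 h4 j' hj')
      (fun j' hj' n h1 h2 => by
        have h3 := hhm x hxx2 n (fun m => ((gl j' P J m : ℝ) : ℂ)) T B (min η1 η2) hηnn
          (min_le_right _ _) h1 h2 hT1 hTx hB
        have h4 : ∑ m ∈ Icc 1 n, ‖((gl j' P J m : ℝ) : ℂ)‖ ^ 2 ≤ n := by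
          refine (Finset.sum_le_card_nsmul _ _ 1 fun m _ => ?_).trans ?_
          · rw [Complex.norm_real, Real.norm_eq_abs]
            have h5 := gl_abs_le j' P J m hj'
            have h6 := abs_nonneg (gl j' P J m)
            nlinarith
          · simp
        have h5 : nrm B (SL j' P J n) ^ 2 ≤ (L * n) ^ 2 := by
          refine h3.trans ?_
          calc (n : ℝ) * L ^ 2 * ∑ m ∈ Icc 1 n, ‖((gl j' P J m : ℝ) : ℂ)‖ ^ 2
              ≤ (n : ℝ) * L ^ 2 * n := mul_le_mul_of_nonneg_left h4 (by positivity)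
            _ = (L * n) ^ 2 := by ring
        exact (pow_le_pow_iff_left₀ (nrm_nonneg _ _) (by positivity) two_ne_zero).1 h5)
      I j hj y ?_ hyx
    · -- conclusion
      have h12 : (12 / s) ^ I = 12 ^ I / L ^ (2 * (K + 2)) := by rw [div_pow, hspow]
      rw [h12] at hind
      have hLK : 0 < L ^ K := by positivity
      have hLK4 : 1 ≤ L ^ (K + 4) := one_le_pow₀ hL1
      have h1 : L * (12 ^ I / L ^ (2 * (K + 2))) ≤ 1 / 2 / L ^ K := by
        rw [mul_div_assoc', div_le_div_iff₀ (by positivity) hLK]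
        have e1 : L ^ (2 * (K + 2)) = L ^ K * L ^ (K + 4) := by rw [← pow_add]; congr 1; ring
        rw [e1]
        have e2 : L ^ (K + 4) = L ^ (K + 2) * (L * L) := by ring
        have e3 : 1 ≤ L ^ (K + 2) := one_le_pow₀ hL1
        have e4 : L * 12 ^ I ≤ 1 / 2 * L ^ (K + 4) := by
          rw [e2]
          have e5 : 1 * (L * L) ≤ L ^ (K + 2) * (L * L) :=
            mul_le_mul_of_nonneg_right e3 (mul_pos hL0 hL0).le
          have e6 : 12 ^ I * L ≤ 1 / 2 * L * L := mul_le_mul_of_nonneg_right (by linarith) hL0.le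
          linarith
        calc L * 12 ^ I * L ^ K ≤ 1 / 2 * L ^ (K + 4) * L ^ K :=
              mul_le_mul_of_nonneg_right e4 hLK.le
          _ = 1 / 2 * (L ^ K * L ^ (K + 4)) := by ring
      have h2 : 3 / L ^ (K + 2) ≤ 1 / 2 / L ^ K := by
        rw [div_le_div_iff₀ (by positivity) hLK]
        have e2 : L ^ (K + 2) = L ^ K * (L * L) := by ring
        rw [e2]
        have e3 : 3 ≤ 1 / 2 * (L * L) := by nlinarith
        calc 3 * L ^ K ≤ 1 / 2 * (L * L) * L ^ K := mul_le_mul_of_nonneg_right e3 hLK.le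
          _ = 1 / 2 * (L ^ K * (L * L)) := by ring
      have h3 : L * (12 ^ I / L ^ (2 * (K + 2))) + 3 / L ^ (K + 2) ≤ 1 / L ^ K := by
        have : 1 / L ^ K = 1 / 2 / L ^ K + 1 / 2 / L ^ K := by ring
        linarith
      have hyx' : (y : ℝ) ≤ x := by exact_mod_cast hyx
      refine hind.trans ((mul_le_mul h3 hyx' (Nat.cast_nonneg _) (by positivity)).trans ?_)
      rw [one_div, inv_mul_eq_div]
    · -- the size of `Y I`
      refine le_trans ?_ hysmall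
      have h1 : ((4 * D1 * Q : ℕ) : ℝ) ≤ Real.exp (2 * L ^ (19 / 20 : ℝ)) := by
        push_cast
        have h2 := LmR_exp K L hL1 hL16
        have h3 : (4 : ℝ) * D1 * Q ≤ 4 * (2 * Real.exp (L ^ (19 / 20 : ℝ))) * (2 * L ^ (K + 3)) := by
          gcongr
        refine h3.trans ?_
        rw [two_mul (L ^ (19 / 20 : ℝ)), Real.exp_add]
        have h4 : 0 < Real.exp (L ^ (19 / 20 : ℝ)) := Real.exp_pos _
        nlinarith
      have h2 : ((4 * D1 * Q : ℕ) : ℝ) ^ I ≤ (x : ℝ) ^ (1 / 20 : ℝ) := by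
        refine (pow_le_pow_left₀ (Nat.cast_nonneg _) h1 I).trans ?_
        rw [← Real.exp_nat_mul]
        refine le_trans (le_of_eq ?_) (hx4 x hxx4)
        congr 1
        ring
      calc (x : ℝ) ^ (3 / 4 : ℝ) * ((4 * D1 * Q : ℕ) : ℝ) ^ I
          ≤ (x : ℝ) ^ (3 / 4 : ℝ) * (x : ℝ) ^ (1 / 20 : ℝ) :=
            mul_le_mul_of_nonneg_left h2 (by positivity)
        _ = (x : ℝ) ^ (4 / 5 : ℝ) := by
            rw [← Real.rpow_add hx0]
            norm_num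

end Pool.Agent.H76.MU
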