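import Pool.Agent.H76.MU.LmD
import Pool.Agent.H76.MU.LmB
import Pool.Agent.H76.MU.LmC
import Pool.Agent.H91.GoldMertens2

/-!
# MU LmS: the sum with the weight `log n`

Proof.  `log_sum` and the decomposition of the sum over `d ≤ y`; `D1 = ⌈exp(L^{19/20})⌉₊`; `η` = the least of the three (`nrm_hm`, `mid`, `longp`).
(i) `d ≤ D1`: `nrm ≤ ∑_{d ≤ D1} Λ(d) ψ (y/d) ≤ ψ y (log D1 + C) ≤ 2 L^{19/20} ψ y` by the hypothesis (`j + Om P J d ≥ 1`, `z = y/d ≥ y/(2 D1)` as `d ≤ D1`, `D1^2 ≤ y`) and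
 `∑_{d ≤ D} Λ(d)/d ≤ log D + C` (Mertens; e.g. from `∑_{d ≤ D} Λ(d) ⌊D/d⌋ = log D! ≤ D log D` and `∑_{d ≤ D} Λ(d) ≤ C D`).
(ii) `d > D1` a prime power, not prime: for `y/d ≥ x^{1/20}`: `nrm ≤ (y/d) L` (`nrm_hm`), `∑_{d > D1} Λ(d)/d` over such `d` is `≤ 8 L^2 D1^{-1/3}`; for `y/d < x^{1/20}` (so `d > x^{0.69}`):
 `nrm ≤ (y/d) x^{1/20}` and the sum of `Λ(d)/d` is `≤ 8 L^2 x^{-1/5}`.  Total `≤ y/(4 L^K)`.
(iii) primes `D1 < p ≤ y`; `Z = ⌈x^{1/20}⌉₊`; `SL j' P J (y/p) = ∑_{l ≤ Z, l ≤ y/p} + ∑_{l ∈ Ioc Z (y/p)}`, `j' = j + Om P J p` is `j + 1` for `p ∈ (P, P 2^J]` and `j` otherwise.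
 Part `l > Z`: `mid` for the three ranges `(D1, P]`, `(max D1 P, P 2^J]`, `(max D1 (P 2^J), y]` with `c n = gl j P J n` or `gl (j+1) P J n` (`lio p = -1`): `≤ 3 y/L^{K+3}`.
 Part `l ≤ Z`: exchange: `∑_{l ≤ Z} gl j' P J l · ee(t log l) · PS a (min b (y/l)) t` for the same three ranges `(a, b]`; the last one by `longp`
 (`a ≤ x^{1/4}`, `y/l ≥ x^{3/4}/(2 x^{1/20}) ≥ x^{2/3}`): `≤ ∑_l (y/l)/L^{K+3} ≤ y/L^{K+2}·2`; the first two are trivial: `b ≤ x^{1/4}`, `≤ x^{1/20} · x^{1/4} L · x^{1/20} · 2 ≤ y/L^{K+3}`.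
-/

set_option autoImplicit false

namespace Pool.Agent.H76.MU

open Finset MeasureTheory
open Pool.Agent.H91.PK (ee)
open Pool.Agent.H91.EHA (Lam)

/-- Mertens, upper bound -/
private theorem LmS_mert (n : ℕ) (hn : 1 ≤ n) :
    ∑ d ∈ Ioc 0 n, Lam d / d ≤ Real.log n + (Real.log 4 + 4) := by
  have hn0 : (0 : ℝ) < n := by exact_mod_cast hn
  have h1 := Pool.Agent.H91.Gold.log_fact_eq n
  have h2 : ∑ k ∈ Ioc 0 n, Real.log k ≤ n * Real.log n := by
    calc ∑ k ∈ Ioc 0 n, Real.log k ≤ ∑ k ∈ Ioc 0 n, Real.log n := by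
          apply sum_le_sum
          intro k hk
          rw [mem_Ioc] at hk
          exact Real.log_le_log (by exact_mod_cast hk.1) (by exact_mod_cast hk.2)
      _ = n * Real.log n := by rw [sum_const, Nat.card_Ioc, nsmul_eq_mul]; simp
  have h3 := Chebyshev.psi_le_const_mul_self (x := (n : ℝ)) (by positivity)
  rw [Pool.Agent.H91.Gold.psi_eq] at h3
  have h4 : ∑ d ∈ Ioc 0 n, Lam d * ((n : ℝ) / d) ≤
      ∑ d ∈ Ioc 0 n, Lam d * ((n / d : ℕ) : ℝ) + ∑ d ∈ Ioc 0 n, Lam d := by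
    rw [← sum_add_distrib]
    apply sum_le_sum
    intro d hd
    rw [mem_Ioc] at hd
    have h5 : (n : ℝ) / d ≤ ((n / d : ℕ) : ℝ) + 1 := by
      rw [div_le_iff₀ (by exact_mod_cast hd.1)]
      have h6 := Nat.div_add_mod n d
      have h7 := Nat.mod_lt n hd.1
      have h8 : n ≤ (n / d + 1) * d := by nlinarith
      exact_mod_cast h8
    have h6 : 0 ≤ Lam d := ArithmeticFunction.vonMangoldt_nonneg
    nlinarith [mul_le_mul_of_nonneg_left h5 h6]
  have h5 : ∑ d ∈ Ioc 0 n, Lam d * ((n : ℝ) / d) = n * ∑ d ∈ Ioc 0 n, Lam d / d := by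
    rw [mul_sum]
    exact sum_congr rfl fun d _ => by ring
  have h6 : (n : ℝ) * ∑ d ∈ Ioc 0 n, Lam d / d ≤ n * (Real.log n + (Real.log 4 + 4)) := by
    rw [← h5]
    have e1 : ∑ d ∈ Ioc 0 n, Lam d * ((n / d : ℕ) : ℝ) = ∑ k ∈ Ioc 0 n, Real.log k := h1.symm
    have e2 : ∑ d ∈ Ioc 0 n, Lam d = ∑ d ∈ Ioc 0 n, ArithmeticFunction.vonMangoldt d := rfl
    rw [← e2] at h3
    nlinarith
  exact le_of_mul_le_mul_left h6 hn0

/-- proper prime powers: the tail of `∑ Λ(d)/d` -/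
private theorem LmS_pp (D y : ℕ) (hD : 1 ≤ D) (hDy : D ≤ y) :
    ∑ d ∈ (Ioc D y).filter (fun d => ¬ d.Prime), Lam d / d ≤ 4 * Real.log y / Real.sqrt D := by
  set a : ℕ → ℝ := fun d => if ¬ d.Prime then Lam d else 0 with ha
  have ha0 : ∀ d, 0 ≤ a d := by
    intro d
    simp only [ha]
    split_ifs
    · exact le_rfl
    · exact ArithmeticFunction.vonMangoldt_nonneg
  have hA : ∀ m : ℕ, 1 ≤ m → m ≤ y → ∑ d ∈ Ioc D m, a d ≤ 2 * Real.sqrt m * Real.log y := by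
    intro m hm hmy
    have hm1 : (1 : ℝ) ≤ m := by exact_mod_cast hm
    have h1 := Chebyshev.abs_psi_sub_theta_le_sqrt_mul_log (x := (m : ℝ)) hm1
    rw [Chebyshev.psi_sub_theta_eq_sum_not_prime, Nat.floor_natCast] at h1
    have h2 : ∑ d ∈ Ioc D m, a d ≤ ∑ d ∈ Ioc 0 m, a d :=
      sum_le_sum_of_subset_of_nonneg (Ioc_subset_Ioc (Nat.zero_le _) le_rfl) fun d _ _ => ha0 d
    have h3 : ∑ d ∈ Ioc 0 m, a d = ∑ n ∈ Ioc 0 m with ¬ n.Prime, ArithmeticFunction.vonMangoldt n := by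
      rw [sum_filter]
      rfl
    have h4 : Real.log m ≤ Real.log y :=
      Real.log_le_log (by linarith) (by exact_mod_cast hmy)
    calc _ ≤ _ := h2
      _ = _ := h3
      _ ≤ _ := le_abs_self _
      _ ≤ 2 * Real.sqrt m * Real.log m := h1
      _ ≤ _ := by
          have : 0 ≤ Real.sqrt m := Real.sqrt_nonneg _
          nlinarith
  have hy0 : 0 ≤ Real.log y := Real.log_natCast_nonneg _
  have key : ∀ m : ℕ, D ≤ m → m ≤ y →
      ∑ d ∈ Ioc D m, a d / d ≤ (∑ d ∈ Ioc D m, a d) / m +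
        4 * Real.log y * (1 / Real.sqrt D - 1 / Real.sqrt m) := by
    intro m hm
    induction m, hm using Nat.le_induction with
    | base => intro _; simp
    | succ m hm ih =>
      intro hmy
      have ih := ih (by omega)
      rw [sum_Ioc_succ_top (by omega), sum_Ioc_succ_top (by omega)]
      have hm0 : (0 : ℝ) < m := by exact_mod_cast (by omega : 0 < m)
      have hA' := hA m (by omega) (by omega)
      set A := ∑ d ∈ Ioc D m, a d with hAd
      set s := Real.sqrt m with hs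
      set s' := Real.sqrt ((m + 1 : ℕ) : ℝ) with hs'
      have hs0 : 0 < s := Real.sqrt_pos.2 hm0
      have hs0' : 0 < s' := Real.sqrt_pos.2 (by positivity)
      have e1 : s ^ 2 = m := Real.sq_sqrt hm0.le
      have e2 : s' ^ 2 = m + 1 := by
        rw [hs', Real.sq_sqrt (by positivity)]; push_cast; ring
      have hss : s ≤ s' := Real.sqrt_le_sqrt (by push_cast; linarith)
      have h1 : A / m - A / (m + 1) ≤ 4 * Real.log y * (1 / s - 1 / s') := by
        have h2 : A / m - A / (m + 1) = A / (m * (m + 1)) := by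
          field_simp; ring
        rw [h2]
        have h3 : A / (m * (m + 1)) ≤ (2 * s * Real.log y) / (m * (m + 1)) :=
          div_le_div_of_nonneg_right hA' (by positivity)
        refine h3.trans ?_
        have h4 : (2 * s * Real.log y) / (m * (m + 1)) = 2 * Real.log y * (1 / (s * s' ^ 2)) := by
          rw [← e2, ← e1]; field_simp
        have h5 : 1 / (s * s' ^ 2) ≤ 2 * (1 / s - 1 / s') := by
          have h6 : 2 * (1 / s - 1 / s') - 1 / (s * s' ^ 2)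
              = (2 * s' ^ 2 - 2 * s * s' - 1) / (s * s' ^ 2) := by
            field_simp
          have h7 : 0 ≤ 2 * s' ^ 2 - 2 * s * s' - 1 := by nlinarith [sq_nonneg (s' - s)]
          have h8 : 0 ≤ (2 * s' ^ 2 - 2 * s * s' - 1) / (s * s' ^ 2) := by positivity
          linarith
        rw [h4]
        nlinarith
      have h2 : (A + a (m + 1)) / ((m + 1 : ℕ) : ℝ) = A / (m + 1) + a (m + 1) / ((m + 1 : ℕ) : ℝ) := by
        push_cast; ring
      rw [h2]
      linarith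
  have h1 := key y hDy le_rfl
  have h2 := hA y (by omega) le_rfl
  have hy1 : (0 : ℝ) < y := by exact_mod_cast (by omega : 0 < y)
  have h3 : (∑ d ∈ Ioc D y, a d) / y ≤ 2 * Real.log y / Real.sqrt y := by
    rw [div_le_div_iff₀ hy1 (Real.sqrt_pos.2 hy1)]
    have hs : Real.sqrt y * Real.sqrt y = y := Real.mul_self_sqrt hy1.le
    have hs0 := Real.sqrt_nonneg (y : ℝ)
    calc (∑ d ∈ Ioc D y, a d) * Real.sqrt y ≤ (2 * Real.sqrt y * Real.log y) * Real.sqrt y :=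
          mul_le_mul_of_nonneg_right h2 hs0
      _ = 2 * Real.log y * (Real.sqrt y * Real.sqrt y) := by ring
      _ = 2 * Real.log y * y := by rw [hs]
  have h4 : ∑ d ∈ (Ioc D y).filter (fun d => ¬ d.Prime), Lam d / d = ∑ d ∈ Ioc D y, a d / d := by
    rw [sum_filter]
    apply sum_congr rfl
    intro d _
    simp only [ha]
    split_ifs <;> simp
  rw [h4]
  refine h1.trans ?_
  have h5 : 0 ≤ 1 / Real.sqrt y := by positivity
  have h6 : 2 * Real.log y / Real.sqrt y = 2 * Real.log y * (1 / Real.sqrt y) := by ring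
  have h7 : 4 * Real.log y / Real.sqrt D = 4 * Real.log y * (1 / Real.sqrt D) := by ring
  rw [h7]
  rw [h6] at h3
  nlinarith [mul_nonneg hy0 h5]

private theorem LmS_ee_cont (c : ℝ) : Continuous fun t : ℝ => ee (t * c) :=
  Pool.Agent.H80.LV.dual_ee_cont c

private theorem LmS_SL_cont (j P J z : ℕ) : Continuous (SL j P J z) := by
  have := cont_poly (Icc 1 z) (fun n => ((gl j P J n : ℝ) : ℂ))
  exact this

/-- trivial bound of `SL` in mean square -/
private theorem LmS_triv (j P J z x : ℕ) (T η' : ℝ) (B : Set ℝ) (hj : 1 ≤ j) (hη : 0 ≤ η')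
    (hη1 : η' ≤ 1 / 10) (hT : 1 ≤ T) (hTx : T ≤ x) (hB : BS η' T B) :
    nrm B (SL j P J z) ≤ z * (x : ℝ) ^ (1 / 20 : ℝ) := by
  have h1 := nrm_triv η' T x z B hB hη hT hTx (SL j P J z) (LmS_SL_cont j P J z) (by
    intro t _
    unfold SL
    refine (norm_sum_le _ _).trans ?_
    calc ∑ n ∈ Icc 1 z, ‖((gl j P J n : ℝ) : ℂ) * ee (t * Real.log n)‖ ≤ ∑ n ∈ Icc 1 z, (1 : ℝ) := by
          apply sum_le_sum
          intro n _
          rw [norm_mul, norm_ee, mul_one, Complex.norm_real]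
          exact gl_abs_le j P J n hj
      _ = z := by simp) (by positivity)
  refine h1.trans ?_
  apply mul_le_mul_of_nonneg_left _ (by positivity)
  exact Real.rpow_le_rpow_of_exponent_le (hT.trans hTx) (by linarith)

/-- Halasz-Montgomery bound of `SL` -/
private theorem LmS_hm (j P J z x : ℕ) (B : Set ℝ) (hj : 1 ≤ j) (hx : 1 ≤ x)
    (h : nrm B (fun t => ∑ n ∈ Icc 1 z, ((gl j P J n : ℝ) : ℂ) * ee (t * Real.log n)) ^ 2
        ≤ z * Real.log x ^ 2 * ∑ n ∈ Icc 1 z, ‖((gl j P J n : ℝ) : ℂ)‖ ^ 2) :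
    nrm B (SL j P J z) ≤ z * Real.log x := by
  have h1 : ∑ n ∈ Icc 1 z, ‖((gl j P J n : ℝ) : ℂ)‖ ^ 2 ≤ z := by
    calc ∑ n ∈ Icc 1 z, ‖((gl j P J n : ℝ) : ℂ)‖ ^ 2 ≤ ∑ n ∈ Icc 1 z, (1 : ℝ) := by
          apply sum_le_sum
          intro n _
          rw [Complex.norm_real]
          have h2 := gl_abs_le j P J n hj
          rw [Real.norm_eq_abs]
          have h3 := abs_nonneg (gl j P J n)
          nlinarith
      _ = z := by simp
  have hL : 0 ≤ Real.log x := Real.log_nonneg (by exact_mod_cast hx)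
  refine (sq_le_sq₀ (nrm_nonneg _ _) (by positivity)).1 (h.trans ?_)
  calc (z : ℝ) * Real.log x ^ 2 * ∑ n ∈ Icc 1 z, ‖((gl j P J n : ℝ) : ℂ)‖ ^ 2
      ≤ z * Real.log x ^ 2 * z := mul_le_mul_of_nonneg_left h1 (by positivity)
    _ = (z * Real.log x) ^ 2 := by ring

/-- splitting the primes into three ranges -/
private theorem LmS_three (D1 P J y : ℕ) (F : ℕ → ℕ → ℂ) :
    ∑ p ∈ (Ioc D1 y).filter Nat.Prime, F p (Om P J p)
      = ∑ p ∈ (Ioc D1 (min P y)).filter Nat.Prime, F p 0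
        + ∑ p ∈ (Ioc (max D1 P) (min (P * 2 ^ J) y)).filter Nat.Prime, F p 1
        + ∑ p ∈ (Ioc (max D1 (P * 2 ^ J)) (min y y)).filter Nat.Prime, F p 0 := by
  have hP : P ≤ P * 2 ^ J := Nat.le_mul_of_pos_right _ (by positivity)
  have e : ∀ (a b : ℕ) (G : ℕ → ℂ), ∑ p ∈ (Ioc a (min b y)).filter Nat.Prime, G p
      = ∑ p ∈ Icc 1 y, if a < p ∧ p ≤ b ∧ p.Prime then G p else 0 := by
    intro a b G
    rw [← sum_filter]
    apply sum_congr _ fun _ _ => rfl
    ext p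
    simp only [mem_filter, mem_Ioc, mem_Icc, le_min_iff]
    constructor
    · rintro ⟨⟨h1, h2, h3⟩, h4⟩
      exact ⟨⟨h4.one_lt.le, h3⟩, h1, h2, h4⟩
    · rintro ⟨⟨h1, h2⟩, h3, h4, h5⟩
      exact ⟨⟨h3, h4, h2⟩, h5⟩
  have e0 : (Ioc D1 y).filter Nat.Prime = (Ioc D1 (min y y)).filter Nat.Prime := by simp
  rw [e0, e, e, e, e, ← sum_add_distrib, ← sum_add_distrib]
  apply sum_congr rfl
  intro p hp
  rw [mem_Icc] at hp
  by_cases hpp : p.Prime
  · rw [Om_prime P J p hpp]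
    rcases le_or_gt p D1 with h1 | h1
    · rw [if_neg (by omega), if_neg (by omega), if_neg (by omega), if_neg (by omega)]; simp
    · rcases le_or_gt p P with h2 | h2
      · rw [if_neg (show ¬ (P < p ∧ p ≤ P * 2 ^ J) by omega), if_pos ⟨h1, hp.2, hpp⟩, if_pos ⟨h1, h2, hpp⟩, if_neg (by omega),
          if_neg (by omega)]
        simp
      · rcases le_or_gt p (P * 2 ^ J) with h3 | h3
        · rw [if_pos (show P < p ∧ p ≤ P * 2 ^ J from ⟨h2, h3⟩), if_pos ⟨h1, hp.2, hpp⟩, if_neg (by omega),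
            if_pos ⟨max_lt h1 h2, h3, hpp⟩, if_neg (by omega)]
          simp
        · rw [if_neg (show ¬ (P < p ∧ p ≤ P * 2 ^ J) by omega), if_pos ⟨h1, hp.2, hpp⟩, if_neg (by omega),
            if_neg (by omega), if_pos ⟨max_lt h1 h3, hp.2, hpp⟩]
          simp
  · simp [hpp]

/-- exchange of the sums over `p` and `l ≤ Z` -/
private theorem LmS_exch (a b y Z : ℕ) (u v : ℕ → ℂ) :
    ∑ p ∈ (Ioc a (min b y)).filter Nat.Prime, u p * ∑ l ∈ Icc 1 (min Z (y / p)), v l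
      = ∑ l ∈ Icc 1 Z, v l * ∑ p ∈ (Ioc a (min b (y / l))).filter Nat.Prime, u p := by
  simp only [mul_sum]
  rw [sum_comm' (t' := Icc 1 Z) (s' := fun l => (Ioc a (min b (y / l))).filter Nat.Prime)]
  · exact sum_congr rfl fun l _ => sum_congr rfl fun p _ => mul_comm _ _
  · intro p l
    simp only [mem_filter, mem_Ioc, mem_Icc, le_min_iff]
    constructor
    · rintro ⟨⟨⟨h1, h2, h3⟩, h4⟩, h5, h6, h7⟩
      have h8 := (Nat.le_div_iff_mul_le h4.pos).1 h7
      exact ⟨⟨⟨h1, h2, (Nat.le_div_iff_mul_le (by omega)).2 (by rw [mul_comm]; exact h8)⟩, h4⟩, h5, h6⟩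
    · rintro ⟨⟨⟨h1, h2, h3⟩, h4⟩, h5, h6⟩
      have h8 := (Nat.le_div_iff_mul_le (by omega)).1 h3
      exact ⟨⟨⟨h1, h2, h3.trans (Nat.div_le_self _ _)⟩, h4⟩, h5, h6,
        (Nat.le_div_iff_mul_le h4.pos).2 (by rw [mul_comm]; exact h8)⟩

/-- one range of primes: splitting into `l ≤ Z` and `l > Z` -/
private theorem LmS_split (j P J a b y Z : ℕ) (t : ℝ) :
    ∑ p ∈ (Ioc a (min b y)).filter Nat.Prime,
        ((Real.log p : ℝ) : ℂ) * ee (t * Real.log p) * SL j P J (y / p) t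
      = ∑ p ∈ (Ioc a (min b y)).filter Nat.Prime,
        ((Real.log p : ℝ) : ℂ) * ee (t * Real.log p) *
          ∑ n ∈ Ioc Z (y / p), ((gl j P J n : ℝ) : ℂ) * ee (t * Real.log n)
        + ∑ l ∈ Icc 1 Z, (((gl j P J l : ℝ) : ℂ) * ee (t * Real.log l)) * PS a (min b (y / l)) t := by
  unfold PS
  rw [← LmS_exch a b y Z (fun p => ((Real.log p : ℝ) : ℂ) * ee (t * Real.log p))
    (fun l => ((gl j P J l : ℝ) : ℂ) * ee (t * Real.log l)), ← sum_add_distrib]
  apply sum_congr rfl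
  intro p _
  rw [← mul_add]
  congr 1
  unfold SL
  rw [← sum_union]
  · apply sum_congr _ fun _ _ => rfl
    ext n
    simp only [mem_union, mem_Ioc, mem_Icc, le_min_iff]
    omega
  · rw [disjoint_left]
    intro n hn hn'
    simp only [mem_Ioc, mem_Icc, le_min_iff] at hn hn'
    omega

/-- one term of the decomposition -/
private noncomputable def LmS_G (j P J y d : ℕ) (t : ℝ) : ℂ :=
  ((Lam d * lio d : ℝ) : ℂ) * ee (t * Real.log d) * SL (j + Om P J d) P J (y / d) t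

private theorem LmS_G_cont (j P J y d : ℕ) : Continuous (LmS_G j P J y d) := by
  unfold LmS_G
  exact (continuous_const.mul (LmS_ee_cont _)).mul (LmS_SL_cont _ _ _ _)

private theorem LmS_G_nrm (j P J y d : ℕ) (T η' : ℝ) (B : Set ℝ) (hB : BS η' T B) :
    nrm B (LmS_G j P J y d) ≤ Lam d * nrm B (SL (j + Om P J d) P J (y / d)) := by
  have h0 : 0 ≤ Lam d := ArithmeticFunction.vonMangoldt_nonneg
  have h := nrm_mul η' T B hB (SL (j + Om P J d) P J (y / d))
    (fun t => ((Lam d * lio d : ℝ) : ℂ) * ee (t * Real.log d)) (Lam d) (LmS_SL_cont _ _ _ _)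
    (continuous_const.mul (LmS_ee_cont _)) (by
      intro t _
      rw [norm_mul, norm_ee, mul_one, Complex.norm_real, Real.norm_eq_abs, abs_mul,
        abs_of_nonneg h0]
      exact mul_le_of_le_one_right h0 (lio_abs_le d)) h0
  exact h

/-- small `d` -/
private theorem LmS_p1 (j P J D1 y : ℕ) (T η' ψ : ℝ) (B : Set ℝ) (hB : BS η' T B) (hj : 1 ≤ j)
    (hψ : 0 ≤ ψ) (hD : 1 ≤ D1) (hyD : 2 * D1 ≤ y)
    (H : ∀ j : ℕ, 1 ≤ j → ∀ z : ℕ, (y : ℝ) / (2 * D1) ≤ z → z ≤ y →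
      nrm B (SL j P J z) ≤ ψ * z) :
    nrm B (fun t => ∑ d ∈ Icc 1 D1, LmS_G j P J y d t) ≤ ψ * y * (Real.log D1 + (Real.log 4 + 4)) := by
  refine (nrm_sum η' T B hB (Icc 1 D1) (fun d => LmS_G j P J y d) fun d _ => LmS_G_cont _ _ _ _ _).trans ?_
  have hD0 : (0 : ℝ) < D1 := by exact_mod_cast hD
  have h1 : ∀ d ∈ Icc 1 D1, nrm B (LmS_G j P J y d) ≤ ψ * y * (Lam d / d) := by
    intro d hd
    rw [mem_Icc] at hd
    have h0 : 0 ≤ Lam d := ArithmeticFunction.vonMangoldt_nonneg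
    have hd0 : (0 : ℝ) < d := by exact_mod_cast hd.1
    have hdD : (d : ℝ) ≤ D1 := by exact_mod_cast hd.2
    refine (LmS_G_nrm j P J y d T η' B hB).trans ?_
    have h2 : (y : ℝ) / d ≤ ((y / d : ℕ) : ℝ) + 1 := by
      rw [div_le_iff₀ hd0]
      have h6 := Nat.div_add_mod y d
      have h7 := Nat.mod_lt y hd.1
      have h8 : y ≤ (y / d + 1) * d := by nlinarith
      exact_mod_cast h8
    have h3 : (y : ℝ) / D1 ≤ y / d := div_le_div_of_nonneg_left (by positivity) hd0 hdD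
    have h4 : (1 : ℝ) ≤ y / (2 * D1) := by
      rw [le_div_iff₀ (by positivity)]
      have : ((2 * D1 : ℕ) : ℝ) ≤ y := by exact_mod_cast hyD
      push_cast at this
      linarith
    have h5 : (y : ℝ) / D1 = 2 * (y / (2 * D1)) := by field_simp
    have h6 := H (j + Om P J d) (by omega) (y / d) (by linarith) (Nat.div_le_self _ _)
    have h7 : ((y / d : ℕ) : ℝ) ≤ y / d := Nat.cast_div_le
    calc Lam d * nrm B (SL (j + Om P J d) P J (y / d)) ≤ Lam d * (ψ * (y / d)) := by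
          apply mul_le_mul_of_nonneg_left _ h0
          exact h6.trans (mul_le_mul_of_nonneg_left h7 hψ)
      _ = ψ * y * (Lam d / d) := by ring
  refine (sum_le_sum h1).trans ?_
  rw [← mul_sum]
  apply mul_le_mul_of_nonneg_left _ (by positivity)
  exact LmS_mert D1 hD

/-- proper prime powers -/
private theorem LmS_p2 (j P J D1 D2 y : ℕ) (T η' E M z0 : ℝ) (B : Set ℝ) (hB : BS η' T B)
    (hj : 1 ≤ j) (hD : 1 ≤ D1) (h12 : D1 ≤ D2) (h2y : D2 ≤ y) (hE : 0 ≤ E) (hM : 0 ≤ M)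
    (hA : ∀ j : ℕ, 1 ≤ j → ∀ z : ℕ, nrm B (SL j P J z) ≤ z * E)
    (hC : ∀ j : ℕ, 1 ≤ j → ∀ z : ℕ, z0 ≤ z → z ≤ y → nrm B (SL j P J z) ≤ z * M)
    (hD2 : ∀ d : ℕ, 1 ≤ d → d ≤ D2 → z0 ≤ ((y / d : ℕ) : ℝ)) :
    nrm B (fun t => ∑ d ∈ (Ioc D1 y).filter (fun d => ¬ d.Prime), LmS_G j P J y d t)
      ≤ y * (M * (4 * Real.log y / Real.sqrt D1) + E * (4 * Real.log y / Real.sqrt D2)) := by
  refine (nrm_sum η' T B hB _ (fun d => LmS_G j P J y d) fun d _ => LmS_G_cont _ _ _ _ _).trans ?_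
  have h1 : ∀ d ∈ (Ioc D1 y).filter (fun d => ¬ d.Prime), nrm B (LmS_G j P J y d)
      ≤ y * (M * (Lam d / d)) + y * (E * (if D2 < d then Lam d / d else 0)) := by
    intro d hd
    rw [mem_filter, mem_Ioc] at hd
    have h0 : 0 ≤ Lam d := ArithmeticFunction.vonMangoldt_nonneg
    have hd1 : 1 ≤ d := by omega
    have hd0 : (0 : ℝ) < d := by exact_mod_cast hd1
    have h7 : ((y / d : ℕ) : ℝ) ≤ y / d := Nat.cast_div_le
    have h8 := LmS_G_nrm j P J y d T η' B hB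
    have h9 : 0 ≤ Lam d / d := by positivity
    split_ifs with hc
    · have h10 : Lam d * nrm B (SL (j + Om P J d) P J (y / d)) ≤ y * (E * (Lam d / d)) := by
        calc Lam d * nrm B (SL (j + Om P J d) P J (y / d)) ≤ Lam d * ((y / d) * E) := by
              apply mul_le_mul_of_nonneg_left _ h0
              exact (hA _ (by omega) _).trans (mul_le_mul_of_nonneg_right h7 hE)
          _ = y * (E * (Lam d / d)) := by ring
      have h11 : 0 ≤ (y : ℝ) * (M * (Lam d / d)) := by positivity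
      linarith
    · have h10 : Lam d * nrm B (SL (j + Om P J d) P J (y / d)) ≤ y * (M * (Lam d / d)) := by
        calc Lam d * nrm B (SL (j + Om P J d) P J (y / d)) ≤ Lam d * ((y / d) * M) := by
              apply mul_le_mul_of_nonneg_left _ h0
              exact (hC _ (by omega) _ (hD2 d hd1 (by omega)) (Nat.div_le_self _ _)).trans
                (mul_le_mul_of_nonneg_right h7 hM)
          _ = y * (M * (Lam d / d)) := by ring
      simp only [mul_zero, add_zero]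
      linarith
  refine (sum_le_sum h1).trans ?_
  rw [sum_add_distrib, ← mul_sum, ← mul_sum, ← mul_sum, ← mul_sum, mul_add]
  have h3 := LmS_pp D1 y hD (h12.trans h2y)
  have h4 := LmS_pp D2 y (hD.trans h12) h2y
  have h5 : ∑ d ∈ (Ioc D1 y).filter (fun d => ¬ d.Prime), (if D2 < d then Lam d / d else 0)
      = ∑ d ∈ (Ioc D2 y).filter (fun d => ¬ d.Prime), Lam d / d := by
    rw [← sum_filter, filter_filter]
    apply sum_congr _ fun _ _ => rfl
    ext d
    simp only [mem_filter, mem_Ioc]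
    constructor
    · rintro ⟨⟨h6, h7⟩, h8, h9⟩
      exact ⟨⟨h9, h7⟩, h8⟩
    · rintro ⟨⟨h6, h7⟩, h8⟩
      exact ⟨⟨by omega, h7⟩, h8, h6⟩
  rw [h5]
  have hy : (0 : ℝ) ≤ y := by positivity
  gcongr

/-- one range of primes -/
private theorem LmS_p3 (j P J a b y Z : ℕ) (T η' U V : ℝ) (B : Set ℝ) (hB : BS η' T B)
    (hA : nrm B (fun t => ∑ p ∈ (Ioc a (min b y)).filter Nat.Prime,
        ((Real.log p : ℝ) : ℂ) * ee (t * Real.log p) *
          ∑ n ∈ Ioc Z (y / p), ((gl j P J n : ℝ) : ℂ) * ee (t * Real.log n)) ≤ U)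
    (hC : nrm B (fun t => ∑ l ∈ Icc 1 Z, (((gl j P J l : ℝ) : ℂ) * ee (t * Real.log l)) *
      PS a (min b (y / l)) t) ≤ V) :
    nrm B (fun t => ∑ p ∈ (Ioc a (min b y)).filter Nat.Prime,
        ((Real.log p : ℝ) : ℂ) * ee (t * Real.log p) * SL j P J (y / p) t) ≤ U + V := by
  have e : (fun t => ∑ p ∈ (Ioc a (min b y)).filter Nat.Prime,
        ((Real.log p : ℝ) : ℂ) * ee (t * Real.log p) * SL j P J (y / p) t)
      = fun t => (∑ p ∈ (Ioc a (min b y)).filter Nat.Prime,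
        ((Real.log p : ℝ) : ℂ) * ee (t * Real.log p) *
          ∑ n ∈ Ioc Z (y / p), ((gl j P J n : ℝ) : ℂ) * ee (t * Real.log n))
        + ∑ l ∈ Icc 1 Z, (((gl j P J l : ℝ) : ℂ) * ee (t * Real.log l)) * PS a (min b (y / l)) t :=
    funext fun t => LmS_split j P J a b y Z t
  rw [e]
  refine (nrm_add η' T B hB _ _ ?_ ?_).trans (add_le_add hA hC)
  · apply continuous_finsetSum _ fun p _ => ?_
    apply (continuous_const.mul (LmS_ee_cont _)).mul
    exact cont_poly (Ioc Z (y / p)) (fun n => ((gl j P J n : ℝ) : ℂ))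
  · apply continuous_finsetSum _ fun l _ => ?_
    apply (continuous_const.mul (LmS_ee_cont _)).mul
    unfold PS
    exact cont_poly _ (fun n => ((Real.log n : ℝ) : ℂ))

private theorem LmS_PS_cont (a b : ℕ) : Continuous (PS a b) := by
  unfold PS
  exact cont_poly _ (fun n => ((Real.log n : ℝ) : ℂ))

/-- small `l`, short primes: trivial bound -/
private theorem LmS_short (j P J a b y Z x : ℕ) (T η' : ℝ) (B : Set ℝ) (hB : BS η' T B)
    (hj : 1 ≤ j) (hη : 0 ≤ η') (hη1 : η' ≤ 1 / 10) (hT : 1 ≤ T) (hTx : T ≤ x) (hbx : b ≤ x) :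
    nrm B (fun t => ∑ l ∈ Icc 1 Z, (((gl j P J l : ℝ) : ℂ) * ee (t * Real.log l)) *
      PS a (min b (y / l)) t) ≤ (Z * (b * Real.log x)) * (x : ℝ) ^ (1 / 20 : ℝ) := by
  have hx1 : (1 : ℝ) ≤ x := hT.trans hTx
  have hL : 0 ≤ Real.log x := Real.log_nonneg hx1
  have h1 := nrm_triv η' T x (Z * (b * Real.log x)) B hB hη hT hTx
    (fun t => ∑ l ∈ Icc 1 Z, (((gl j P J l : ℝ) : ℂ) * ee (t * Real.log l)) *
      PS a (min b (y / l)) t) (by
        apply continuous_finsetSum _ fun l _ => ?_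
        exact (continuous_const.mul (LmS_ee_cont _)).mul (LmS_PS_cont _ _)) (by
    intro t _
    refine (norm_sum_le _ _).trans ?_
    calc ∑ l ∈ Icc 1 Z, ‖(((gl j P J l : ℝ) : ℂ) * ee (t * Real.log l)) *
          PS a (min b (y / l)) t‖ ≤ ∑ l ∈ Icc 1 Z, (b * Real.log x) := by
          apply sum_le_sum
          intro l _
          rw [norm_mul, norm_mul, norm_ee, mul_one, Complex.norm_real]
          have h2 : ‖PS a (min b (y / l)) t‖ ≤ b * Real.log x := by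
            unfold PS
            refine (norm_sum_le _ _).trans ?_
            calc ∑ p ∈ (Ioc a (min b (y / l))).filter Nat.Prime,
                  ‖((Real.log p : ℝ) : ℂ) * ee (t * Real.log p)‖
                ≤ ∑ p ∈ (Ioc a (min b (y / l))).filter Nat.Prime, Real.log x := by
                  apply sum_le_sum
                  intro p hp
                  rw [mem_filter, mem_Ioc] at hp
                  rw [norm_mul, norm_ee, mul_one, Complex.norm_real, Real.norm_eq_abs,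
                    abs_of_nonneg (Real.log_natCast_nonneg _)]
                  exact Real.log_le_log (by exact_mod_cast hp.2.pos)
                    (by exact_mod_cast (hp.1.2.trans (min_le_left _ _)).trans hbx)
              _ = (((Ioc a (min b (y / l))).filter Nat.Prime).card : ℝ) * Real.log x := by
                  rw [sum_const, nsmul_eq_mul]
              _ ≤ b * Real.log x := by
                  apply mul_le_mul_of_nonneg_right _ hL
                  have h3 : ((Ioc a (min b (y / l))).filter Nat.Prime).card ≤ b := by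
                    refine (card_filter_le _ _).trans ?_
                    rw [Nat.card_Ioc]
                    have := min_le_left b (y / l)
                    omega
                  exact_mod_cast h3
          have h3 : ‖gl j P J l‖ ≤ 1 := gl_abs_le j P J l hj
          calc ‖gl j P J l‖ * ‖PS a (min b (y / l)) t‖ ≤ 1 * (b * Real.log x) :=
                mul_le_mul h3 h2 (norm_nonneg _) (by norm_num)
            _ = _ := one_mul _
      _ = Z * (b * Real.log x) := by rw [sum_const, Nat.card_Icc, nsmul_eq_mul]; simp)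
      (by positivity)
  refine h1.trans ?_
  apply mul_le_mul_of_nonneg_left _ (by positivity)
  exact Real.rpow_le_rpow_of_exponent_le hx1 (by linarith)

/-- small `l`, long primes -/
private theorem LmS_long (j P J a y Z : ℕ) (T η' W : ℝ) (B : Set ℝ) (hB : BS η' T B)
    (hj : 1 ≤ j) (hW : 0 ≤ W)
    (hC : ∀ l ∈ Icc 1 Z, nrm B (fun t => PS a (y / l) t) ≤ ((y / l : ℕ) : ℝ) * W) :
    nrm B (fun t => ∑ l ∈ Icc 1 Z, (((gl j P J l : ℝ) : ℂ) * ee (t * Real.log l)) *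
      PS a (min y (y / l)) t) ≤ y * (1 + Real.log Z) * W := by
  refine (nrm_sum η' T B hB (Icc 1 Z) (fun l t => (((gl j P J l : ℝ) : ℂ) * ee (t * Real.log l)) *
      PS a (min y (y / l)) t) (fun l _ =>
        (continuous_const.mul (LmS_ee_cont _)).mul (LmS_PS_cont _ _))).trans ?_
  have h1 : ∀ l ∈ Icc 1 Z, nrm B (fun t => (((gl j P J l : ℝ) : ℂ) * ee (t * Real.log l)) *
      PS a (min y (y / l)) t) ≤ (y * W) * ((l : ℝ)⁻¹) := by
    intro l hl
    have hl' := mem_Icc.1 hl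
    rw [min_eq_right (Nat.div_le_self y l)]
    have h2 := nrm_mul η' T B hB (fun t => PS a (y / l) t)
      (fun t => ((gl j P J l : ℝ) : ℂ) * ee (t * Real.log l)) 1 (LmS_PS_cont _ _)
      (continuous_const.mul (LmS_ee_cont _)) (by
        intro t _
        rw [norm_mul, norm_ee, mul_one, Complex.norm_real]
        exact gl_abs_le j P J l hj) (by norm_num)
    refine h2.trans ?_
    rw [one_mul]
    refine (hC l hl).trans ?_
    have h3 : ((y / l : ℕ) : ℝ) ≤ y / l := Nat.cast_div_le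
    calc ((y / l : ℕ) : ℝ) * W ≤ (y / l) * W := mul_le_mul_of_nonneg_right h3 hW
      _ = (y * W) * ((l : ℝ)⁻¹) := by ring
  refine (sum_le_sum h1).trans ?_
  rw [← mul_sum]
  have h4 : ∑ l ∈ Icc 1 Z, ((l : ℝ)⁻¹) ≤ 1 + Real.log Z := by
    have h5 := harmonic_le_one_add_log Z
    rw [harmonic_eq_sum_Icc] at h5
    push_cast at h5
    exact h5
  calc (y * W) * ∑ l ∈ Icc 1 Z, ((l : ℝ)⁻¹) ≤ (y * W) * (1 + Real.log Z) :=
        mul_le_mul_of_nonneg_left h4 (by positivity)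
    _ = _ := by ring

/-- `exp ((log x)^(19/20)/2)` beats powers of `log x` -/
private theorem LmS_exp_large (C : ℝ) (hC : 0 < C) (c : ℕ) : ∃ x0 : ℕ, ∀ x : ℕ, x0 ≤ x →
    C * Real.log x ^ c ≤ Real.exp (Real.log x ^ (19 / 20 : ℝ) / 2) := by
  have h1 : Filter.Tendsto (fun u : ℝ => u ^ (19 / 20 : ℝ) / 2) Filter.atTop Filter.atTop :=
    (tendsto_rpow_atTop (by norm_num)).atTop_div_const (by norm_num)
  have h2 := Real.isLittleO_pow_exp_atTop (n := 2 * c)
  have h3 := h2.bound (c := 1 / (C * 2 ^ (2 * c))) (by positivity)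
  have h4 := h1.eventually h3
  have h5 := (Real.tendsto_log_atTop.comp (tendsto_natCast_atTop_atTop (R := ℝ))).eventually
    (h4.and (Filter.eventually_ge_atTop 1))
  obtain ⟨x0, hx0⟩ := Filter.eventually_atTop.1 h5
  refine ⟨x0, fun x hx => ?_⟩
  obtain ⟨h6, h7⟩ := hx0 x hx
  simp only [Function.comp_apply] at h6 h7
  have hL : 0 < Real.log x := by linarith
  set u := Real.log x ^ (19 / 20 : ℝ) with hu
  have hu0 : 0 < u := Real.rpow_pos_of_pos hL _
  rw [Real.norm_eq_abs, Real.norm_eq_abs, abs_of_nonneg (by positivity), Real.abs_exp] at h6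
  have h8 : Real.log x ≤ u ^ 2 := by
    rw [hu, ← Real.rpow_natCast, ← Real.rpow_mul hL.le]
    calc Real.log x = Real.log x ^ (1 : ℝ) := (Real.rpow_one _).symm
      _ ≤ _ := Real.rpow_le_rpow_of_exponent_le h7 (by norm_num)
  calc C * Real.log x ^ c ≤ C * (u ^ 2) ^ c := by gcongr
    _ = C * 2 ^ (2 * c) * (u / 2) ^ (2 * c) := by
        rw [div_pow, ← pow_mul]; field_simp
    _ ≤ C * 2 ^ (2 * c) * (1 / (C * 2 ^ (2 * c)) * Real.exp (u / 2)) := by gcongr
    _ = Real.exp (u / 2) := by field_simp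

/-- the numerical facts for large `x` -/
private theorem LmS_large (K : ℕ) : ∃ x0 : ℕ, ∀ x : ℕ, x0 ≤ x → 400 ≤ Real.log x ∧
    1000 * Real.log x ^ (K + 10) ≤ (x : ℝ) ^ (1 / 60 : ℝ) ∧
    1000 * Real.log x ^ (K + 10) ≤ Real.exp (Real.log x ^ (19 / 20 : ℝ) / 2) ∧
    Real.exp (Real.log x ^ (19 / 20 : ℝ)) ≤ (x : ℝ) ^ (1 / 20 : ℝ) := by
  obtain ⟨x1, h1⟩ := log_ge 400
  obtain ⟨x2, h2⟩ := log_pow_le (1 / 60) 1000 (by norm_num) (by norm_num) (K + 10)
  obtain ⟨x3, h3⟩ := LmS_exp_large 1000 (by norm_num) (K + 10)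
  obtain ⟨x4, h4⟩ := exp_pow_le (1 / 20) 1 (by norm_num) (by norm_num)
  refine ⟨max x1 (max x2 (max x3 x4)), fun x hx => ?_⟩
  simp only [max_le_iff] at hx
  refine ⟨h1 x hx.1, h2 x hx.2.1, h3 x hx.2.2.1, ?_⟩
  have := h4 x hx.2.2.2
  rwa [one_mul] at this

private theorem LmS_div (y d : ℕ) (hd : 1 ≤ d) : (y : ℝ) / d - 1 ≤ ((y / d : ℕ) : ℝ) := by
  have hd0 : (0 : ℝ) < d := by exact_mod_cast hd
  rw [sub_le_iff_le_add, div_le_iff₀ hd0]
  have h6 := Nat.div_add_mod y d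
  have h7 := Nat.mod_lt y hd
  have h8 : y ≤ (y / d + 1) * d := by nlinarith
  exact_mod_cast h8

/-- one range of primes, as a function of `t` -/
private noncomputable def LmS_R (j P J a b y : ℕ) (t : ℝ) : ℂ :=
  ∑ p ∈ (Ioc a (min b y)).filter Nat.Prime,
    ((Real.log p : ℝ) : ℂ) * ee (t * Real.log p) * SL j P J (y / p) t

private theorem LmS_R_cont (j P J a b y : ℕ) : Continuous (LmS_R j P J a b y) := by
  unfold LmS_R
  apply continuous_finsetSum _ fun p _ => ?_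
  exact (continuous_const.mul (LmS_ee_cont _)).mul (LmS_SL_cont _ _ _ _)

/-- the decomposition -/
private theorem LmS_dec (j P J D1 y : ℕ) (t : ℝ) (hD : D1 ≤ y) :
    ∑ n ∈ Icc 1 y, ((gl j P J n * Real.log n : ℝ) : ℂ) * ee (t * Real.log n)
      = ∑ d ∈ Icc 1 D1, LmS_G j P J y d t
        + (∑ d ∈ (Ioc D1 y).filter (fun d => ¬ d.Prime), LmS_G j P J y d t
        + -(LmS_R j P J D1 P y t + LmS_R (j + 1) P J (max D1 P) (P * 2 ^ J) y t
          + LmS_R j P J (max D1 (P * 2 ^ J)) y y t)) := by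
  rw [log_sum]
  have e1 : ∑ d ∈ Icc 1 y, ((Lam d * lio d : ℝ) : ℂ) * ee (t * Real.log d) *
          SL (j + Om P J d) P J (y / d) t = ∑ d ∈ Icc 1 y, LmS_G j P J y d t := rfl
  rw [e1]
  have e2 : Icc 1 y = Icc 1 D1 ∪ Ioc D1 y := by
    ext n
    simp only [mem_union, mem_Icc, mem_Ioc]
    omega
  rw [e2, sum_union (by
    rw [disjoint_left]
    intro n hn hn'
    simp only [mem_Icc, mem_Ioc] at hn hn'
    omega)]
  congr 1
  rw [← sum_filter_add_sum_filter_not (Ioc D1 y) (fun d => ¬ d.Prime)]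
  congr 1
  have e3 : (Ioc D1 y).filter (fun d => ¬ ¬ d.Prime) = (Ioc D1 y).filter Nat.Prime := by
    ext n; simp
  rw [e3]
  have e4 := LmS_three D1 P J y (fun p m =>
    ((Real.log p : ℝ) : ℂ) * ee (t * Real.log p) * SL (j + m) P J (y / p) t)
  have e5 : LmS_R j P J D1 P y t + LmS_R (j + 1) P J (max D1 P) (P * 2 ^ J) y t
          + LmS_R j P J (max D1 (P * 2 ^ J)) y y t
      = ∑ p ∈ (Ioc D1 y).filter Nat.Prime,
        ((Real.log p : ℝ) : ℂ) * ee (t * Real.log p) * SL (j + Om P J p) P J (y / p) t := e4.symm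
  rw [e5, ← sum_neg_distrib]
  apply sum_congr rfl
  intro p hp
  rw [mem_filter] at hp
  have e6 : Lam p = Real.log p := ArithmeticFunction.vonMangoldt_apply_prime hp.2
  unfold LmS_G
  rw [lio_prime p hp.2, e6]
  push_cast
  ring

private theorem LmS_nrm_neg (B : Set ℝ) (f : ℝ → ℂ) : nrm B (fun t => -(f t)) = nrm B f := by
  simp [nrm]

/-- the final numerical step -/
private theorem LmS_fin (y L M D1 D2 w u ψ : ℝ) (hy : 0 ≤ y) (hL : 400 ≤ L) (hM : 1 ≤ M)
    (hlogy : Real.log y ≤ L) (hD1 : 0 < D1)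
    (hD1l : 1000 * (L ^ 10 * M) ≤ Real.sqrt D1) (hw : 1000 * (L ^ 10 * M) ≤ w)
    (hD2l : w ^ 38 ≤ D2) (hu : 20 ≤ u) (hψ : 0 ≤ ψ) (hD1u : Real.log D1 ≤ u + Real.log 2)
    (a1 a2 a3 a4 a5 : ℝ) (h1 : a1 ≤ ψ * y * (Real.log D1 + (Real.log 4 + 4)))
    (h2 : a2 ≤ y * (L * (4 * Real.log y / Real.sqrt D1) + w ^ 3 * (4 * Real.log y / Real.sqrt D2)))
    (h3 : a3 ≤ y / (L ^ 3 * M) + y / (L ^ 3 * M)) (h4 : a4 ≤ y / (L ^ 3 * M) + y / (L ^ 3 * M))
    (h5 : a5 ≤ y / (L ^ 3 * M) + y * L * (1 / (L ^ 3 * M))) :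
    a1 + (a2 + (a3 + a4 + a5)) ≤ (2 * u * ψ + 1 / M) * y := by
  have hL0 : 0 < L := by linarith
  have hM0 : 0 < M := by linarith
  have hLp : ∀ k : ℕ, 1 ≤ L ^ k := fun k => one_le_pow₀ (by linarith)
  have hw1 : 1 ≤ w := by
    have : 1 ≤ L ^ 10 * M := one_le_mul_of_one_le_of_one_le (hLp 10) hM
    linarith
  have hw0 : 0 < w := by linarith
  have b1 : a1 ≤ 2 * u * ψ * y := by
    have e1 : Real.log 4 = 2 * Real.log 2 := by
      rw [show (4 : ℝ) = 2 ^ 2 by norm_num, Real.log_pow]; norm_num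
    have e2 := Real.log_two_lt_d9
    have e3 : Real.log D1 + (Real.log 4 + 4) ≤ 2 * u := by linarith
    calc a1 ≤ _ := h1
      _ ≤ ψ * y * (2 * u) := mul_le_mul_of_nonneg_left e3 (by positivity)
      _ = _ := by ring
  have c1 : L * (4 * Real.log y / Real.sqrt D1) ≤ 1 / (10 * M) := by
    have hs : 0 < Real.sqrt D1 := Real.sqrt_pos.2 hD1
    rw [← mul_div_assoc, div_le_div_iff₀ hs (by positivity)]
    have e1 : L ^ 10 = L ^ 8 * L ^ 2 := by ring
    have e2 : L * (4 * Real.log y) * (10 * M) ≤ L * (4 * L) * (10 * M) := by gcongr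
    have e3 : 1 * (L ^ 2 * M) ≤ L ^ 8 * (L ^ 2 * M) :=
      mul_le_mul_of_nonneg_right (hLp 8) (by positivity)
    nlinarith
  have c2 : w ^ 3 * (4 * Real.log y / Real.sqrt D2) ≤ 1 / (10 * M) := by
    have hs : w ^ 19 ≤ Real.sqrt D2 := by
      apply Real.le_sqrt_of_sq_le
      calc (w ^ 19) ^ 2 = w ^ 38 := by ring
        _ ≤ _ := hD2l
    have hs0 : 0 < Real.sqrt D2 := lt_of_lt_of_le (by positivity) hs
    rw [← mul_div_assoc, div_le_div_iff₀ hs0 (by positivity)]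
    have e0 : L * M ≤ L ^ 10 * M := by
      apply mul_le_mul_of_nonneg_right _ hM0.le
      calc L = L ^ 1 := (pow_one L).symm
        _ ≤ L ^ 10 := pow_le_pow_right₀ (by linarith) (by norm_num)
    calc w ^ 3 * (4 * Real.log y) * (10 * M) ≤ w ^ 3 * (4 * L) * (10 * M) := by gcongr
      _ = w ^ 3 * (40 * (L * M)) := by ring
      _ ≤ w ^ 3 * w := by
          apply mul_le_mul_of_nonneg_left _ (by positivity)
          have : 0 ≤ L * M := by positivity
          linarith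
      _ = w ^ 4 := by ring
      _ ≤ w ^ 19 := pow_le_pow_right₀ hw1 (by norm_num)
      _ ≤ 1 * Real.sqrt D2 := by linarith
  have b2 : a2 ≤ y * (1 / (10 * M) + 1 / (10 * M)) :=
    h2.trans (mul_le_mul_of_nonneg_left (add_le_add c1 c2) hy)
  have d1 : 1 / (L ^ 3 * M) ≤ 1 / (1000 * M) := by
    apply one_div_le_one_div_of_le (by positivity)
    apply mul_le_mul_of_nonneg_right _ hM0.le
    have : L ^ 3 = L * (L * L) := by ring
    nlinarith
  have d2 : L * (1 / (L ^ 3 * M)) ≤ 1 / (1000 * M) := by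
    have e1 : L * (1 / (L ^ 3 * M)) = 1 / (L ^ 2 * M) := by field_simp
    rw [e1]
    apply one_div_le_one_div_of_le (by positivity)
    apply mul_le_mul_of_nonneg_right _ hM0.le
    nlinarith
  have e1 : y / (L ^ 3 * M) = y * (1 / (L ^ 3 * M)) := by ring
  have e2 : y * L * (1 / (L ^ 3 * M)) = y * (L * (1 / (L ^ 3 * M))) := by ring
  rw [e1] at h3 h4 h5
  rw [e2] at h5
  have f1 := mul_le_mul_of_nonneg_left d1 hy
  have f2 := mul_le_mul_of_nonneg_left d2 hy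
  have f3 : 1 / (10 * M) = 1 / 10 * (1 / M) := by field_simp
  have f4 : 1 / (1000 * M) = 1 / 1000 * (1 / M) := by field_simp
  rw [f4] at f1 f2
  rw [f3] at b2
  have f5 : 0 ≤ y * (1 / M) := by positivity
  nlinarith

theorem logsum (hVK : Pool.Agent.H80.LV.VK) (hV : VK1) : ∃ η : ℝ, 0 < η ∧ η ≤ 1 / 10 ∧ ∀ K : ℕ,
    ∃ K' x0 : ℕ, ∀ x : ℕ, x0 ≤ x → ∀ (P J D1 y : ℕ) (T η' ψ : ℝ) (B : Set ℝ),
      ((P * 2 ^ J : ℕ) : ℝ) ≤ (x : ℝ) ^ (1 / 4 : ℝ) →
      D1 = ⌈Real.exp (Real.log x ^ (19 / 20 : ℝ))⌉₊ → (x : ℝ) ^ (3 / 4 : ℝ) ≤ y → y ≤ x →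
      Real.log x ^ K' ≤ T → T ≤ x → 0 ≤ η' → η' ≤ η → BS η' T B → 0 ≤ ψ →
      (∀ j : ℕ, 1 ≤ j → ∀ z : ℕ, (y : ℝ) / (2 * D1) ≤ z → z ≤ y → nrm B (SL j P J z) ≤ ψ * z) →
      ∀ j : ℕ, 1 ≤ j →
        nrm B (fun t => ∑ n ∈ Icc 1 y, ((gl j P J n * Real.log n : ℝ) : ℂ) * ee (t * Real.log n))
          ≤ (2 * Real.log x ^ (19 / 20 : ℝ) * ψ + 1 / Real.log x ^ K) * y := by
  obtain ⟨η1, h11, h12, x1, H1⟩ := nrm_hm
  obtain ⟨η2, h21, h22, H2⟩ := mid hV
  obtain ⟨η3, h31, h32, H3⟩ := longp hVK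
  refine ⟨min η1 (min η2 η3), lt_min h11 (lt_min h21 h31), (min_le_left _ _).trans h12,
    fun K => ?_⟩
  obtain ⟨K2, x2, H2⟩ := H2 (K + 3)
  obtain ⟨K3, x3, H3⟩ := H3 (K + 3)
  obtain ⟨x4, H4⟩ := LmS_large K
  refine ⟨max K2 K3, max x1 (max x2 (max x3 x4)), ?_⟩
  intro x hx P J D1 y T η' ψ B hPJ hD1 hyl hyx hT hTx hη hη' hB hψ HH j hj
  simp only [max_le_iff] at hx
  obtain ⟨hx1, hx2, hx3, hx4⟩ := hx
  obtain ⟨n1, n2, n3, n4⟩ := H4 x hx4
  simp only [le_min_iff] at hη'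
  obtain ⟨hη1, hη2, hη3⟩ := hη'
  -- notation
  set L := Real.log x with hL
  have hL0 : 0 < L := by linarith
  have hL1 : 1 ≤ L := by linarith
  have hx0 : (0 : ℝ) < x := by
    rcases Nat.eq_zero_or_pos x with h | h
    · rw [h] at hL; simp at hL; linarith
    · exact_mod_cast h
  have hx1' : 1 ≤ x := by exact_mod_cast (by exact_mod_cast hx0 : 0 < x)
  set w := (x : ℝ) ^ (1 / 60 : ℝ) with hw
  have hpw : ∀ (k : ℕ) (s : ℝ), s = k / 60 → (x : ℝ) ^ s = w ^ k := by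
    intro k s hs
    rw [hw, ← Real.rpow_natCast, ← Real.rpow_mul hx0.le, hs]
    congr 1
    ring
  have e20 : (x : ℝ) ^ (1 / 20 : ℝ) = w ^ 3 := hpw 3 _ (by norm_num)
  have e4 : (x : ℝ) ^ (1 / 4 : ℝ) = w ^ 15 := hpw 15 _ (by norm_num)
  have e34 : (x : ℝ) ^ (3 / 4 : ℝ) = w ^ 45 := hpw 45 _ (by norm_num)
  have e23 : (x : ℝ) ^ (2 / 3 : ℝ) = w ^ 40 := hpw 40 _ (by norm_num)
  have e12 : (x : ℝ) ^ (1 / 2 : ℝ) = w ^ 30 := hpw 30 _ (by norm_num)
  have e1 : (x : ℝ) = w ^ 60 := by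
    have := hpw 60 1 (by norm_num)
    rwa [Real.rpow_one] at this
  rw [e20] at n4
  rw [e4] at hPJ
  rw [e34] at hyl
  have hT1 : 1 ≤ T := (one_le_pow₀ hL1).trans hT
  have hT2 : L ^ K2 ≤ T := (pow_le_pow_right₀ hL1 (le_max_left _ _)).trans hT
  have hT3 : L ^ K3 ≤ T := (pow_le_pow_right₀ hL1 (le_max_right _ _)).trans hT
  have hLp : ∀ k : ℕ, 1 ≤ L ^ k := fun k => one_le_pow₀ hL1
  have hw1000 : 1000 ≤ w := by nlinarith [hLp (K + 10)]
  have hw0 : 0 < w := by linarith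
  have hw1 : 1 ≤ w := by linarith
  have hwp : ∀ {a b : ℕ}, a ≤ b → w ^ a ≤ w ^ b := fun h => pow_le_pow_right₀ hw1 h
  have hwL : L ≤ w := by
    have h1 : L ^ 1 ≤ L ^ (K + 10) := pow_le_pow_right₀ hL1 (by omega)
    nlinarith
  -- `D1`
  set E := Real.exp (L ^ (19 / 20 : ℝ)) with hE
  have hE1 : 1 ≤ E := Real.one_le_exp (by positivity)
  have hD1l : E ≤ D1 := by rw [hD1]; exact Nat.le_ceil _
  have hD1u : (D1 : ℝ) ≤ 2 * E := by
    rw [hD1]
    have := Nat.ceil_lt_add_one (a := E) (by positivity)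
    linarith
  have hD1w : (D1 : ℝ) ≤ w ^ 4 := by
    have : w ^ 4 = w * w ^ 3 := by ring
    nlinarith [pow_pos hw0 3]
  have hD11 : 1 ≤ D1 := by
    have : (1 : ℝ) ≤ D1 := hE1.trans hD1l
    exact_mod_cast this
  -- `Z`
  set Z := ⌈w ^ 3⌉₊ with hZ
  have hZl : w ^ 3 ≤ Z := Nat.le_ceil _
  have hZu : (Z : ℝ) ≤ w ^ 4 := by
    have := Nat.ceil_lt_add_one (a := w ^ 3) (by positivity)
    have h4 : w ^ 4 = w * w ^ 3 := by ring
    nlinarith [one_le_pow₀ (n := 3) hw1]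
  have hZ1 : 1 ≤ Z := by
    have : (1 : ℝ) ≤ Z := (one_le_pow₀ hw1).trans hZl
    exact_mod_cast this
  -- `D2`
  set D2 := ⌊w ^ 40⌋₊ with hD2
  have hD2u : (D2 : ℝ) ≤ w ^ 40 := Nat.floor_le (by positivity)
  have hD2l : w ^ 38 ≤ D2 := by
    have h3 := Nat.lt_floor_add_one (w ^ 40)
    have h4 : w ^ 40 = w ^ 2 * w ^ 38 := by ring
    have h5 : 1 ≤ w ^ 38 := one_le_pow₀ hw1
    have h6 : 2 ≤ w ^ 2 := by
      calc (2 : ℝ) ≤ w := by linarith
        _ = w ^ 1 := (pow_one w).symm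
        _ ≤ w ^ 2 := hwp (by norm_num)
    have h7 : 2 * w ^ 38 ≤ w ^ 2 * w ^ 38 := mul_le_mul_of_nonneg_right h6 (by linarith)
    linarith
  have hy45 : w ^ 45 ≤ y := hyl
  have hD12 : D1 ≤ D2 := by
    have : (D1 : ℝ) ≤ D2 := hD1w.trans ((hwp (by norm_num)).trans hD2l)
    exact_mod_cast this
  have h2y : D2 ≤ y := by
    have : (D2 : ℝ) ≤ y := hD2u.trans ((hwp (by norm_num)).trans hy45)
    exact_mod_cast this
  have hyD : 2 * D1 ≤ y := by
    have : ((2 * D1 : ℕ) : ℝ) ≤ y := by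
      push_cast
      have h4 : w ^ 5 = w * w ^ 4 := by ring
      have h5 : w ^ 5 ≤ w ^ 45 := hwp (by norm_num)
      nlinarith [pow_pos hw0 4]
    exact_mod_cast this
  have hy0 : (0 : ℝ) < y := lt_of_lt_of_le (by positivity) hy45
  have hlogy : Real.log y ≤ L := Real.log_le_log hy0 (by exact_mod_cast hyx)
  -- bounds of `SL`
  have hA : ∀ j : ℕ, 1 ≤ j → ∀ z : ℕ, nrm B (SL j P J z) ≤ z * w ^ 3 := by
    intro j hj z
    rw [← e20]
    exact LmS_triv j P J z x T η' B hj hη (hη1.trans h12) hT1 hTx hB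
  have hC : ∀ j : ℕ, 1 ≤ j → ∀ z : ℕ, w ^ 3 ≤ z → z ≤ y → nrm B (SL j P J z) ≤ z * L := by
    intro j hj z hz hzy
    exact LmS_hm j P J z x B hj hx1' (H1 x hx1 z _ T B η' hη hη1 (by rw [e20]; exact hz)
      (hzy.trans hyx) hT1 hTx hB)
  have hdd : ∀ d : ℕ, 1 ≤ d → d ≤ D2 → w ^ 3 ≤ ((y / d : ℕ) : ℝ) := by
    intro d h1 h2
    have h3 := LmS_div y d h1
    have hd0 : (0 : ℝ) < d := by exact_mod_cast h1
    have h4 : (d : ℝ) ≤ w ^ 40 := le_trans (by exact_mod_cast h2) hD2u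
    have h5 : w ^ 5 ≤ (y : ℝ) / d := by
      rw [le_div_iff₀ hd0]
      calc w ^ 5 * d ≤ w ^ 5 * w ^ 40 := mul_le_mul_of_nonneg_left h4 (by positivity)
        _ = w ^ 45 := by ring
        _ ≤ y := hy45
    have h6 : 2 * w ^ 3 ≤ w ^ 2 * w ^ 3 := by
      apply mul_le_mul_of_nonneg_right _ (by positivity)
      calc (2 : ℝ) ≤ w := by linarith
        _ = w ^ 1 := (pow_one w).symm
        _ ≤ w ^ 2 := hwp (by norm_num)
    have h7 : w ^ 5 = w ^ 2 * w ^ 3 := by ring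
    have h8 : 1 ≤ w ^ 3 := one_le_pow₀ hw1
    linarith
  have p1 := LmS_p1 j P J D1 y T η' ψ B hB hj hψ hD11 hyD HH
  have p2 := LmS_p2 j P J D1 D2 y T η' (w ^ 3) L (w ^ 3) B hB hj hD11 hD12 h2y (by positivity)
    hL0.le hA hC hdd
  -- the ranges of primes
  have hx12 : (x : ℝ) ^ (1 / 2 : ℝ) ≤ y := by rw [e12]; exact (hwp (by norm_num)).trans hy45
  have hmid : ∀ (j' a b : ℕ), 1 ≤ j' → D1 ≤ a →
      nrm B (fun t => ∑ p ∈ (Ioc a (min b y)).filter Nat.Prime,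
        ((Real.log p : ℝ) : ℂ) * ee (t * Real.log p) *
          ∑ n ∈ Ioc Z (y / p), ((gl j' P J n : ℝ) : ℂ) * ee (t * Real.log n))
        ≤ y / L ^ (K + 3) := by
    intro j' a b hj' ha
    exact H2 x hx2 y Z a b (gl j' P J) T η' B (hD1l.trans (by exact_mod_cast ha))
      (by rw [e20]; exact hZl) hx12 hyx (fun n => gl_abs_le j' P J n hj') hT2 hTx hη hη2 hB
  have hLK : L ^ (K + 3) = L ^ 3 * L ^ K := by ring
  have hM1 : 1 ≤ L ^ K := hLp K
  have n2' : 1000 * (L ^ 10 * L ^ K) ≤ w := by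
    calc 1000 * (L ^ 10 * L ^ K) = 1000 * L ^ (K + 10) := by ring
      _ ≤ w := n2
  have hshort : ∀ (j' a b : ℕ), 1 ≤ j' → (b : ℝ) ≤ w ^ 15 →
      nrm B (fun t => ∑ l ∈ Icc 1 Z, (((gl j' P J l : ℝ) : ℂ) * ee (t * Real.log l)) *
      PS a (min b (y / l)) t) ≤ y / L ^ (K + 3) := by
    intro j' a b hj' hb
    have hbx : b ≤ x := by
      have : (b : ℝ) ≤ x := by rw [e1]; exact hb.trans (hwp (by norm_num))
      exact_mod_cast this
    refine (LmS_short j' P J a b y Z x T η' B hB hj' hη (hη1.trans h12) hT1 hTx hbx).trans ?_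
    rw [e20, le_div_iff₀ (by positivity)]
    calc (Z * (b * L)) * w ^ 3 * L ^ (K + 3) ≤ (w ^ 4 * (w ^ 15 * L)) * w ^ 3 * L ^ (K + 3) := by
          gcongr
      _ = w ^ 22 * L ^ (K + 4) := by ring
      _ ≤ w ^ 22 * w := by
          apply mul_le_mul_of_nonneg_left _ (by positivity)
          have h1 : L ^ (K + 4) ≤ L ^ (K + 10) := pow_le_pow_right₀ hL1 (by omega)
          have h2 : 0 ≤ L ^ (K + 10) := by positivity
          linarith
      _ = w ^ 23 := by ring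
      _ ≤ w ^ 45 := hwp (by norm_num)
      _ ≤ y := hy45
  have q1 := LmS_p3 j P J D1 P y Z T η' _ _ B hB (hmid j D1 P hj le_rfl) (hshort j D1 P hj (by
    refine le_trans ?_ hPJ
    exact_mod_cast Nat.le_mul_of_pos_right _ (by positivity)))
  have q2 := LmS_p3 (j + 1) P J (max D1 P) (P * 2 ^ J) y Z T η' _ _ B hB
    (hmid (j + 1) (max D1 P) (P * 2 ^ J) (by omega) (le_max_left _ _))
    (hshort (j + 1) (max D1 P) (P * 2 ^ J) (by omega) hPJ)
  have hlogZ : 1 + Real.log Z ≤ L := by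
    have h1 : Real.log Z ≤ Real.log (w ^ 4) :=
      Real.log_le_log (by exact_mod_cast hZ1) hZu
    rw [Real.log_pow, hw, Real.log_rpow hx0, ← hL] at h1
    push_cast at h1
    linarith
  have q3 := LmS_p3 j P J (max D1 (P * 2 ^ J)) y y Z T η' _ _ B hB
    (hmid j (max D1 (P * 2 ^ J)) y hj (le_max_left _ _))
    (LmS_long j P J (max D1 (P * 2 ^ J)) y Z T η' (1 / L ^ (K + 3)) B hB hj (by positivity) (by
      intro l hl
      rw [mem_Icc] at hl
      have h1 := H3 x hx3 (max D1 (P * 2 ^ J)) (y / l) T η' B (by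
          rw [e4]
          push_cast
          rw [max_le_iff]
          exact ⟨hD1w.trans (hwp (by norm_num)), by push_cast at hPJ; exact hPJ⟩) (by
          rw [e23]
          have h3 := LmS_div y l hl.1
          have hd0 : (0 : ℝ) < l := by exact_mod_cast hl.1
          have h4 : (l : ℝ) ≤ w ^ 4 := le_trans (by exact_mod_cast hl.2) hZu
          have h5 : w ^ 41 ≤ (y : ℝ) / l := by
            rw [le_div_iff₀ hd0]
            calc w ^ 41 * l ≤ w ^ 41 * w ^ 4 := mul_le_mul_of_nonneg_left h4 (by positivity)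
              _ = w ^ 45 := by ring
              _ ≤ y := hy45
          have h6 : 2 * w ^ 40 ≤ w * w ^ 40 :=
            mul_le_mul_of_nonneg_right (by linarith) (by positivity)
          have h7 : w ^ 41 = w * w ^ 40 := by ring
          have h8 : 1 ≤ w ^ 40 := one_le_pow₀ hw1
          linarith) ((Nat.div_le_self _ _).trans hyx) hT3 hTx hη hη3 hB
      refine h1.trans (le_of_eq ?_)
      ring))
  have hu : 20 ≤ L ^ (19 / 20 : ℝ) := by
    calc (20 : ℝ) = Real.sqrt 400 := by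
          rw [show (400 : ℝ) = 20 ^ 2 by norm_num, Real.sqrt_sq (by norm_num)]
      _ ≤ Real.sqrt L := Real.sqrt_le_sqrt n1
      _ = L ^ (1 / 2 : ℝ) := Real.sqrt_eq_rpow L
      _ ≤ L ^ (19 / 20 : ℝ) := Real.rpow_le_rpow_of_exponent_le hL1 (by norm_num)
  have hD10 : (0 : ℝ) < D1 := by exact_mod_cast hD11
  have hsq : 1000 * (L ^ 10 * L ^ K) ≤ Real.sqrt D1 := by
    calc 1000 * (L ^ 10 * L ^ K) = 1000 * L ^ (K + 10) := by ring
      _ ≤ Real.exp (L ^ (19 / 20 : ℝ) / 2) := n3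
      _ ≤ Real.sqrt D1 := by
          apply Real.le_sqrt_of_sq_le
          rw [← Real.exp_nat_mul]
          refine le_trans (le_of_eq ?_) hD1l
          rw [hE]
          congr 1
          push_cast
          ring
  have hlogD1 : Real.log D1 ≤ L ^ (19 / 20 : ℝ) + Real.log 2 := by
    calc Real.log D1 ≤ Real.log (2 * E) := Real.log_le_log hD10 hD1u
      _ = _ := by rw [Real.log_mul (by norm_num) (by positivity), hE, Real.log_exp]; ring
  have hfun : (fun t => ∑ n ∈ Icc 1 y, ((gl j P J n * Real.log n : ℝ) : ℂ) * ee (t * Real.log n))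
      = fun t => ∑ d ∈ Icc 1 D1, LmS_G j P J y d t
        + (∑ d ∈ (Ioc D1 y).filter (fun d => ¬ d.Prime), LmS_G j P J y d t
        + -(LmS_R j P J D1 P y t + LmS_R (j + 1) P J (max D1 P) (P * 2 ^ J) y t
          + LmS_R j P J (max D1 (P * 2 ^ J)) y y t)) :=
    funext fun t => LmS_dec j P J D1 y t (by omega)
  rw [hfun]
  have hcG : ∀ s : Finset ℕ, Continuous fun t => ∑ d ∈ s, LmS_G j P J y d t :=
    fun s => continuous_finsetSum _ fun d _ => LmS_G_cont _ _ _ _ _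
  have hc1 := LmS_R_cont j P J D1 P y
  have hc2 := LmS_R_cont (j + 1) P J (max D1 P) (P * 2 ^ J) y
  have hc3 := LmS_R_cont j P J (max D1 (P * 2 ^ J)) y y
  have s1 := nrm_add η' T B hB (fun t => ∑ d ∈ Icc 1 D1, LmS_G j P J y d t)
    (fun t => ∑ d ∈ (Ioc D1 y).filter (fun d => ¬ d.Prime), LmS_G j P J y d t
        + -(LmS_R j P J D1 P y t + LmS_R (j + 1) P J (max D1 P) (P * 2 ^ J) y t
          + LmS_R j P J (max D1 (P * 2 ^ J)) y y t)) (hcG _)
    ((hcG _).add ((hc1.add hc2).add hc3).neg)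
  have s2 := nrm_add η' T B hB
    (fun t => ∑ d ∈ (Ioc D1 y).filter (fun d => ¬ d.Prime), LmS_G j P J y d t)
    (fun t => -(LmS_R j P J D1 P y t + LmS_R (j + 1) P J (max D1 P) (P * 2 ^ J) y t
          + LmS_R j P J (max D1 (P * 2 ^ J)) y y t)) (hcG _) ((hc1.add hc2).add hc3).neg
  have s3 := LmS_nrm_neg B (fun t => LmS_R j P J D1 P y t
    + LmS_R (j + 1) P J (max D1 P) (P * 2 ^ J) y t + LmS_R j P J (max D1 (P * 2 ^ J)) y y t)
  have r1 := nrm_add η' T B hB (fun t => LmS_R j P J D1 P y t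
    + LmS_R (j + 1) P J (max D1 P) (P * 2 ^ J) y t) (LmS_R j P J (max D1 (P * 2 ^ J)) y y)
    (hc1.add hc2) hc3
  have r2 := nrm_add η' T B hB (LmS_R j P J D1 P y)
    (LmS_R (j + 1) P J (max D1 P) (P * 2 ^ J) y) hc1 hc2
  rw [hLK] at q1 q2 q3
  have q3' : nrm B (LmS_R j P J (max D1 (P * 2 ^ J)) y y)
      ≤ y / (L ^ 3 * L ^ K) + y * L * (1 / (L ^ 3 * L ^ K)) := by
    refine q3.trans (add_le_add le_rfl ?_)
    exact mul_le_mul_of_nonneg_right (mul_le_mul_of_nonneg_left hlogZ hy0.le) (by positivity)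
  have hfin := LmS_fin y L (L ^ K) D1 D2 w (L ^ (19 / 20 : ℝ)) ψ hy0.le n1 hM1 hlogy hD10
    hsq n2' hD2l hu hψ hlogD1 _ _ (nrm B (LmS_R j P J D1 P y))
    (nrm B (LmS_R (j + 1) P J (max D1 P) (P * 2 ^ J) y))
    (nrm B (LmS_R j P J (max D1 (P * 2 ^ J)) y y)) p1 p2 q1 q2 q3'
  refine le_trans ?_ hfin
  refine s1.trans ?_
  apply add_le_add le_rfl
  refine s2.trans ?_
  apply add_le_add le_rfl
  rw [s3]
  refine r1.trans ?_
  exact add_le_add r2 le_rfl

end Pool.Agent.H76.MU
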