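import Pool.Agent.H76.MU.Defs

/-!
# MU LmV: primes in intervals, pointwise

`PS a b t = ∑_{p ∈ (a, b]} log p · p^{2 π i t}`.  `VK1 (K + 2)` at `b` and at `a` (`∑_{n ∈ Ioc a b} Λ(n) n^{2 π i t}` is the difference), and the prime powers
`p^k ≤ b`, `k ≥ 2`, contribute at most `2 √b (log b)^2` (`p ≤ √b`, `k ≤ log_2 b`, each `≤ log b`) `≤ b/L^{K+1}` because `b ≥ exp(L^{19/20})`
(`√b ≥ exp(L^{19/20}/2) ≥ 8 L^{K+3}` for large `x`, `log b ≤ 2 L`).
-/

set_option autoImplicit false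

namespace Pool.Agent.H76.MU

open Finset
open Pool.Agent.H91.PK (ee)
open Pool.Agent.H91.EHA (Lam)

/-- `∑_{p ∈ (a, b]} log p · p^{2 π i t}` -/
noncomputable def PS (a b : ℕ) (t : ℝ) : ℂ :=
  ∑ p ∈ (Ioc a b).filter Nat.Prime, ((Real.log p : ℝ) : ℂ) * ee (t * Real.log p)

/-- the prime powers -/
theorem ps_diff (a b : ℕ) (t : ℝ) (hab : a ≤ b) (hb : 2 ≤ b) :
    ‖PS a b t - (∑ n ∈ Icc 1 b, ((Lam n : ℝ) : ℂ) * ee (t * Real.log n)
      - ∑ n ∈ Icc 1 a, ((Lam n : ℝ) : ℂ) * ee (t * Real.log n))‖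
      ≤ 4 * Real.sqrt b * Real.log b ^ 2 := by
  have h1 : ∑ n ∈ Icc 1 b, ((Lam n : ℝ) : ℂ) * ee (t * Real.log n)
      - ∑ n ∈ Icc 1 a, ((Lam n : ℝ) : ℂ) * ee (t * Real.log n)
      = ∑ n ∈ Ioc a b, ((Lam n : ℝ) : ℂ) * ee (t * Real.log n) := by
    have h2 : Icc 1 b = Icc 1 a ∪ Ioc a b := by
      ext n; simp only [mem_Icc, mem_union, mem_Ioc]; omega
    have h3 : Disjoint (Icc 1 a) (Ioc a b) := by
      rw [Finset.disjoint_left]; intro n hn hn'
      simp only [mem_Icc, mem_Ioc] at hn hn'; omega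
    rw [h2, sum_union h3]; ring
  have h4 : ∑ n ∈ Ioc a b, ((Lam n : ℝ) : ℂ) * ee (t * Real.log n)
      = PS a b t + ∑ n ∈ (Ioc a b).filter (fun n => ¬ n.Prime),
        ((Lam n : ℝ) : ℂ) * ee (t * Real.log n) := by
    unfold PS
    rw [← sum_filter_add_sum_filter_not (Ioc a b) Nat.Prime]
    congr 1
    refine sum_congr rfl fun n hn => ?_
    rw [mem_filter] at hn
    unfold Lam
    rw [ArithmeticFunction.vonMangoldt_apply_prime hn.2]
  rw [h1, h4]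
  have h5 : ∀ z w : ℂ, z - (z + w) = -w := fun z w => by ring
  rw [h5, norm_neg]
  have h6 : ‖∑ n ∈ (Ioc a b).filter (fun n => ¬ n.Prime), ((Lam n : ℝ) : ℂ) * ee (t * Real.log n)‖
      ≤ ∑ n ∈ (Ioc 0 b).filter (fun n => ¬ n.Prime), ArithmeticFunction.vonMangoldt n := by
    refine (norm_sum_le _ _).trans ?_
    have h7 : ∑ n ∈ (Ioc a b).filter (fun n => ¬ n.Prime), ‖((Lam n : ℝ) : ℂ) * ee (t * Real.log n)‖
        = ∑ n ∈ (Ioc a b).filter (fun n => ¬ n.Prime), ArithmeticFunction.vonMangoldt n := by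
      refine sum_congr rfl fun n _ => ?_
      rw [norm_mul, norm_ee, mul_one, Complex.norm_real, Real.norm_eq_abs]
      exact abs_of_nonneg ArithmeticFunction.vonMangoldt_nonneg
    rw [h7]
    refine sum_le_sum_of_subset_of_nonneg ?_ fun n _ _ => ArithmeticFunction.vonMangoldt_nonneg
    intro n hn
    simp only [mem_filter, mem_Ioc] at hn ⊢
    exact ⟨⟨by omega, hn.1.2⟩, hn.2⟩
  have h8 := Chebyshev.psi_sub_theta_eq_sum_not_prime (b : ℝ)
  rw [Nat.floor_natCast] at h8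
  have hb1 : (1 : ℝ) ≤ b := by exact_mod_cast (by omega : 1 ≤ b)
  have h9 := Chebyshev.psi_sub_theta_le hb1
  rw [h8] at h9
  refine h6.trans (h9.trans ?_)
  have hb2 : (2 : ℝ) ≤ b := by exact_mod_cast hb
  have hl : (1 / 2 : ℝ) ≤ Real.log b := by
    have := Real.log_le_log (by norm_num) hb2
    have h2 := Real.log_two_gt_d9
    linarith
  have hs : 0 ≤ Real.sqrt b := Real.sqrt_nonneg _
  have h10 : Real.log b ≤ 2 * Real.log b ^ 2 := by nlinarith
  calc 2 * Real.sqrt b * Real.log b ≤ 2 * Real.sqrt b * (2 * Real.log b ^ 2) :=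
        mul_le_mul_of_nonneg_left h10 (by positivity)
    _ = 4 * Real.sqrt b * Real.log b ^ 2 := by ring

private theorem LmV_large (K : ℕ) : ∃ x0 : ℕ, ∀ x : ℕ, x0 ≤ x →
    32 * Real.log x ^ (K + 2) ≤ Real.exp (Real.log x ^ (19 / 20 : ℝ) / 2) := by
  have h1 := (isLittleO_rpow_exp_pos_mul_atTop ((20 / 19 : ℝ) * (K + 2)) (b := 1 / 2)
    (by norm_num)).bound (c := 1 / 32) (by norm_num)
  have h2 : Filter.Tendsto (fun y : ℝ => y ^ (19 / 20 : ℝ)) Filter.atTop Filter.atTop :=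
    tendsto_rpow_atTop (by norm_num)
  have h3 := (h2.comp (Real.tendsto_log_atTop.comp
    (tendsto_natCast_atTop_atTop (R := ℝ)))).eventually h1
  have h4 := (Real.tendsto_log_atTop.comp (tendsto_natCast_atTop_atTop (R := ℝ))).eventually
    (Filter.eventually_ge_atTop 1)
  obtain ⟨x0, hx0⟩ := Filter.eventually_atTop.1 (h3.and h4)
  refine ⟨x0, fun x hx => ?_⟩
  obtain ⟨h5, h6⟩ := hx0 x hx
  simp only [Function.comp_apply] at h5 h6
  have hL : 0 < Real.log x := by linarith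
  rw [Real.norm_eq_abs, Real.norm_eq_abs, abs_of_nonneg (by positivity), abs_of_pos (Real.exp_pos _),
    ← Real.rpow_mul hL.le] at h5
  have h7 : (19 / 20 : ℝ) * (20 / 19 * (K + 2)) = ((K + 2 : ℕ) : ℝ) := by
    push_cast; ring
  rw [h7, Real.rpow_natCast] at h5
  have h8 : Real.log x ^ (19 / 20 : ℝ) / 2 = 1 / 2 * Real.log x ^ (19 / 20 : ℝ) := by ring
  rw [h8]
  linarith

theorem ps_vk (hV : VK1) : ∀ K : ℕ, ∃ K' x0 : ℕ, ∀ x : ℕ, x0 ≤ x → ∀ (a b : ℕ) (t : ℝ),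
    Real.exp (Real.log x ^ (19 / 20 : ℝ)) ≤ a → a ≤ b → b ≤ x ^ 2 → Real.log x ^ K' ≤ |t| →
      |t| ≤ (x : ℝ) ^ (2 : ℕ) → ‖PS a b t‖ ≤ b / Real.log x ^ K := by
  intro K
  obtain ⟨K', x1, hx1⟩ := hV (K + 1)
  obtain ⟨x2, hx2⟩ := LmV_large K
  obtain ⟨x3, hx3⟩ := log_ge 4
  refine ⟨K', max (max x1 x2) x3, fun x hx a b t ha hab hb ht1 ht2 => ?_⟩
  have hxx1 : x1 ≤ x := le_trans (le_trans (le_max_left _ _) (le_max_left _ _)) hx
  have hxx2 : x2 ≤ x := le_trans (le_trans (le_max_right _ _) (le_max_left _ _)) hx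
  have hxx3 : x3 ≤ x := le_trans (le_max_right _ _) hx
  have hL4 := hx3 x hxx3
  have hL : 0 < Real.log x := by linarith
  have hab' : (a : ℝ) ≤ b := by exact_mod_cast hab
  have e1 := hx1 x hxx1 b t (ha.trans hab') hb ht1 ht2
  have e2 := hx1 x hxx1 a t ha (hab.trans hb) ht1 ht2
  have hx0 : (1 : ℝ) ≤ x := by
    by_contra hc
    have : x = 0 := by
      have : (x : ℝ) < 1 := not_le.1 hc
      exact_mod_cast Nat.lt_one_iff.1 (by exact_mod_cast this)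
    rw [this] at hL; simp at hL
  have hy1 : (1 : ℝ) ≤ Real.log x ^ (19 / 20 : ℝ) := Real.one_le_rpow (by linarith) (by norm_num)
  have hb2 : (2 : ℝ) ≤ b := by
    have h1 := Real.add_one_le_exp (Real.log x ^ (19 / 20 : ℝ))
    linarith
  have hb2' : 2 ≤ b := by exact_mod_cast hb2
  have e3 := ps_diff a b t hab hb2'
  have hb0 : (0 : ℝ) < b := by linarith
  have hlb : Real.log b ≤ 2 * Real.log x := by
    have h1 : (b : ℝ) ≤ (x : ℝ) ^ 2 := by exact_mod_cast hb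
    have h2 := Real.log_le_log hb0 h1
    rw [Real.log_pow] at h2
    push_cast at h2
    exact h2
  have hlb0 : 0 ≤ Real.log b := Real.log_nonneg (by linarith)
  have hsq : Real.exp (Real.log x ^ (19 / 20 : ℝ) / 2) ≤ Real.sqrt b := by
    apply Real.le_sqrt_of_sq_le
    rw [← Real.exp_nat_mul]
    have : ((2 : ℕ) : ℝ) * (Real.log x ^ (19 / 20 : ℝ) / 2) = Real.log x ^ (19 / 20 : ℝ) := by
      push_cast; ring
    rw [this]
    exact ha.trans hab'
  have hs0 : 0 ≤ Real.sqrt b := Real.sqrt_nonneg _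
  have e4 : 4 * Real.sqrt b * Real.log b ^ 2 ≤ b / (2 * Real.log x ^ K) := by
    rw [le_div_iff₀ (by positivity)]
    have h1 : Real.log b ^ 2 ≤ (2 * Real.log x) ^ 2 := pow_le_pow_left₀ hlb0 hlb 2
    have h2 := (hx2 x hxx2).trans hsq
    have h3 : (b : ℝ) = Real.sqrt b * Real.sqrt b := (Real.mul_self_sqrt hb0.le).symm
    calc 4 * Real.sqrt b * Real.log b ^ 2 * (2 * Real.log x ^ K)
        ≤ 4 * Real.sqrt b * (2 * Real.log x) ^ 2 * (2 * Real.log x ^ K) := by gcongr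
      _ = Real.sqrt b * (32 * Real.log x ^ (K + 2)) := by ring
      _ ≤ Real.sqrt b * Real.sqrt b := mul_le_mul_of_nonneg_left h2 hs0
      _ = b := h3.symm
  have e5 : (b : ℝ) / Real.log x ^ (K + 1) ≤ b / (4 * Real.log x ^ K) := by
    apply div_le_div_of_nonneg_left hb0.le (by positivity)
    rw [pow_succ]
    have : 0 < Real.log x ^ K := by positivity
    nlinarith
  have e6 : (a : ℝ) / Real.log x ^ (K + 1) ≤ b / (4 * Real.log x ^ K) :=
    (div_le_div_of_nonneg_right hab' (by positivity)).trans e5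
  set A := ∑ n ∈ Icc 1 b, ((Lam n : ℝ) : ℂ) * ee (t * Real.log n)
  set B := ∑ n ∈ Icc 1 a, ((Lam n : ℝ) : ℂ) * ee (t * Real.log n)
  have e7 : ‖PS a b t‖ ≤ ‖PS a b t - (A - B)‖ + (‖A‖ + ‖B‖) := by
    calc ‖PS a b t‖ = ‖(PS a b t - (A - B)) + (A - B)‖ := by congr 1; ring
      _ ≤ ‖PS a b t - (A - B)‖ + ‖A - B‖ := norm_add_le _ _
      _ ≤ _ := by gcongr; exact norm_sub_le _ _
  have e8 : (b : ℝ) / (4 * Real.log x ^ K) = (b / Real.log x ^ K) / 4 := by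
    rw [mul_comm, div_mul_eq_div_div]
  have e9 : (b : ℝ) / (2 * Real.log x ^ K) = (b / Real.log x ^ K) / 2 := by
    rw [mul_comm, div_mul_eq_div_div]
  rw [e8] at e5 e6
  rw [e9] at e4
  linarith

end Pool.Agent.H76.MU
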