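import Pool.Agent.H76.MU.GP
import Pool.Agent.H76.MU.LmD

/-!
# MU Ram: the identity of Ramaré for the Liouville function

`gP (gl 1 P J) (P 2^i) n = ∑_{p ∈ pb (P 2^i), p | n} lio(n/p)/(1 + Om P J (n/p))` and for a prime `p | n`, `P < p ≤ P 2^J`: `lio(n/p) = -lio n` (`lio_mul`, `lio_prime`),
`1 + Om P J (n/p) = Om P J n` (`Om_mul`, `Om_prime`).  So `∑_{i<J} gP .. = -lio n · ω/Om`, `ω` the number of distinct primes of `n` in `(P, P 2^J]`
(the blocks `pb (P 2^i)`, `i < J`, partition them).  `ω = 0`: `Rk P J n` holds, `|lio n| ≤ 1`.  `ω = Om ≥ 1` (no square factor `p^2`): the left side is `0`.  Otherwise `0 ≤ 1 - ω/Om ≤ 1`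
and some `p^2 ∣ n` with `p > P`.
-/

set_option autoImplicit false

namespace Pool.Agent.H76.MU

open Finset MeasureTheory
open Pool.Agent.H91.PK (ee)
open Pool.Agent.H76.EHB
open Pool.Agent.H35.W

open Classical in
/-- the indicator of the rough numbers plus the indicator of the multiples of squares of primes `> P` -/
noncomputable def er (P J n : ℕ) : ℝ :=
  (if Rk P J n then 1 else 0) + (if ∃ p, P < p ∧ p.Prime ∧ p ^ 2 ∣ n then 1 else 0)

private theorem Ram_block (P p : ℕ) (hP : P < p) : ∀ J : ℕ, p ≤ P * 2 ^ J →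
    ∃ i < J, P * 2 ^ i < p ∧ p ≤ 2 * (P * 2 ^ i) := by
  intro J
  induction J with
  | zero =>
    intro h
    rw [pow_zero, mul_one] at h
    omega
  | succ J ih =>
    intro h
    by_cases h1 : p ≤ P * 2 ^ J
    · obtain ⟨i, hi, h2⟩ := ih h1
      exact ⟨i, by omega, h2⟩
    · refine ⟨J, by omega, by omega, ?_⟩
      rw [pow_succ] at h
      calc p ≤ P * (2 ^ J * 2) := h
        _ = 2 * (P * 2 ^ J) := by ring

private theorem Ram_mono (P i j : ℕ) (h : i < j) : 2 * (P * 2 ^ i) ≤ P * 2 ^ j := by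
  calc 2 * (P * 2 ^ i) = P * 2 ^ (i + 1) := by ring
    _ ≤ P * 2 ^ j := Nat.mul_le_mul_left _ (Nat.pow_le_pow_right (by norm_num) h)

private theorem Ram_mem (P J n i k : ℕ) (hn : n ≠ 0) (hi : i < J) (hk : k ∈ pb (P * 2 ^ i))
    (hkn : k ∣ n) : k ∈ n.primeFactors.filter (fun p => P < p ∧ p ≤ P * 2 ^ J) := by
  unfold pb at hk
  rw [mem_filter, mem_Ioc] at hk
  rw [mem_filter, Nat.mem_primeFactors]
  refine ⟨⟨hk.2, hkn, hn⟩, ?_, ?_⟩
  · have : P ≤ P * 2 ^ i := Nat.le_mul_of_pos_right _ (by positivity)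
    omega
  · have := Ram_mono P i J hi
    omega

private theorem Ram_union (P J n : ℕ) (hn : n ≠ 0) :
    (range J).biUnion (fun i => (pb (P * 2 ^ i)).filter (fun k => k ∣ n)) =
      n.primeFactors.filter (fun p => P < p ∧ p ≤ P * 2 ^ J) := by
  ext p
  rw [mem_biUnion]
  constructor
  · rintro ⟨i, hi, hp⟩
    rw [mem_filter] at hp
    exact Ram_mem P J n i p hn (mem_range.1 hi) hp.1 hp.2
  · intro hp
    rw [mem_filter, Nat.mem_primeFactors] at hp
    obtain ⟨⟨hpp, hpn, _⟩, h1, h2⟩ := hp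
    obtain ⟨i, hi, h3, h4⟩ := Ram_block P p h1 J h2
    refine ⟨i, mem_range.2 hi, ?_⟩
    rw [mem_filter]
    unfold pb
    rw [mem_filter, mem_Ioc]
    exact ⟨⟨⟨h3, h4⟩, hpp⟩, hpn⟩

private theorem Ram_disj (P J n : ℕ) :
    (range J : Set ℕ).PairwiseDisjoint (fun i => (pb (P * 2 ^ i)).filter (fun k => k ∣ n)) := by
  intro i _ j _ hij
  have aux : ∀ i j : ℕ, i < j → ∀ p, p ∈ (pb (P * 2 ^ i)).filter (fun k => k ∣ n) →
      p ∈ (pb (P * 2 ^ j)).filter (fun k => k ∣ n) → False := by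
    intro i j h p h1 h2
    unfold pb at h1 h2
    rw [mem_filter, mem_filter, mem_Ioc] at h1 h2
    have := Ram_mono P i j h
    omega
  rw [Function.onFun, Finset.disjoint_left]
  intro p h1 h2
  rcases lt_or_gt_of_ne hij with h | h
  · exact aux i j h p h1 h2
  · exact aux j i h p h2 h1

private theorem Ram_term (P J n k : ℕ) (hn : n ≠ 0)
    (hk : k ∈ n.primeFactors.filter (fun p => P < p ∧ p ≤ P * 2 ^ J)) :
    gl 1 P J (n / k) = -(lio n / (Om P J n : ℝ)) := by
  rw [mem_filter, Nat.mem_primeFactors] at hk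
  obtain ⟨⟨hp, hkn, _⟩, h1, h2⟩ := hk
  obtain ⟨m, rfl⟩ := hkn
  have hk0 : k ≠ 0 := hp.ne_zero
  have hm0 : m ≠ 0 := by
    rintro rfl
    exact hn (mul_zero _)
  rw [Nat.mul_div_cancel_left m (Nat.pos_of_ne_zero hk0), lio_mul, lio_prime k hp,
    Om_mul P J k m hk0 hm0, Om_prime P J k hp, if_pos ⟨h1, h2⟩]
  unfold gl
  push_cast
  ring

theorem ram (P J n : ℕ) (hn : n ≠ 0) :
    |lio n + ∑ i ∈ range J, gP (gl 1 P J) (P * 2 ^ i) n| ≤ er P J n := by
  classical
  set D := n.primeFactors.filter (fun p => P < p ∧ p ≤ P * 2 ^ J) with hD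
  have hsum : ∑ i ∈ range J, gP (gl 1 P J) (P * 2 ^ i) n =
      -((D.card : ℝ) * (lio n / (Om P J n : ℝ))) := by
    unfold gP
    rw [← Finset.sum_biUnion (Ram_disj P J n), Ram_union P J n hn, ← hD,
      Finset.sum_congr rfl fun k hk => Ram_term P J n k hn hk, Finset.sum_const, nsmul_eq_mul]
    ring
  rw [hsum]
  have hOm : Om P J n = ∑ p ∈ D, n.factorization p := rfl
  have hfac : ∀ p ∈ D, 1 ≤ n.factorization p := by
    intro p hp
    rw [hD, mem_filter, Nat.mem_primeFactors] at hp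
    exact (Nat.Prime.dvd_iff_one_le_factorization hp.1.1 hn).1 hp.1.2.1
  have hle : D.card ≤ Om P J n := by
    rw [hOm]
    calc D.card = ∑ _p ∈ D, 1 := by simp
      _ ≤ _ := Finset.sum_le_sum hfac
  have her : er P J n = (if Rk P J n then (1 : ℝ) else 0) +
      (if ∃ p, P < p ∧ p.Prime ∧ p ^ 2 ∣ n then (1 : ℝ) else 0) := by
    unfold er
    congr
  have h2nn : (0 : ℝ) ≤ (if ∃ p, P < p ∧ p.Prime ∧ p ^ 2 ∣ n then (1 : ℝ) else 0) := by
    split_ifs <;> norm_num
  have h1nn : (0 : ℝ) ≤ (if Rk P J n then (1 : ℝ) else 0) := by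
    split_ifs <;> norm_num
  rw [her]
  rcases Nat.eq_zero_or_pos D.card with h0 | hpos
  · -- no prime factor in the range
    have hRk : Rk P J n := by
      intro i hi p hp hpn
      have := Ram_mem P J n i p hn hi hp hpn
      rw [← hD, Finset.card_eq_zero.1 h0] at this
      exact absurd this (Finset.notMem_empty p)
    rw [if_pos hRk, h0, Nat.cast_zero, zero_mul, neg_zero, add_zero]
    have := lio_abs_le n
    linarith
  · have hOpos : (0 : ℝ) < (Om P J n : ℝ) := by
      exact_mod_cast lt_of_lt_of_le hpos hle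
    have hq0 : (0 : ℝ) ≤ 1 - (D.card : ℝ) / (Om P J n : ℝ) := by
      rw [sub_nonneg, div_le_one hOpos]
      exact_mod_cast hle
    have hq1 : 1 - (D.card : ℝ) / (Om P J n : ℝ) ≤ 1 := by
      have : (0 : ℝ) ≤ (D.card : ℝ) / (Om P J n : ℝ) := by positivity
      linarith
    have hrw : lio n + -((D.card : ℝ) * (lio n / (Om P J n : ℝ))) =
        lio n * (1 - (D.card : ℝ) / (Om P J n : ℝ)) := by ring
    rw [hrw, abs_mul, abs_of_nonneg hq0]
    by_cases heq : D.card = Om P J n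
    · have : 1 - (D.card : ℝ) / (Om P J n : ℝ) = 0 := by
        rw [heq, div_self hOpos.ne', sub_self]
      rw [this, mul_zero]
      linarith
    · -- some square
      have hex : ∃ p ∈ D, 2 ≤ n.factorization p := by
        by_contra hno
        push Not at hno
        apply heq
        rw [hOm]
        calc D.card = ∑ _p ∈ D, 1 := by simp
          _ = ∑ p ∈ D, n.factorization p := by
            refine Finset.sum_congr rfl fun p hp => ?_
            have h3 := hfac p hp
            have h4 := hno p hp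
            omega
      obtain ⟨p, hp, h2⟩ := hex
      have hsq : ∃ p, P < p ∧ p.Prime ∧ p ^ 2 ∣ n := by
        rw [hD, mem_filter, Nat.mem_primeFactors] at hp
        exact ⟨p, hp.2.1, hp.1.1, (hp.1.1.pow_dvd_iff_le_factorization hn).2 h2⟩
      rw [if_pos hsq]
      have h5 : |lio n| * (1 - (D.card : ℝ) / (Om P J n : ℝ)) ≤ 1 * 1 :=
        mul_le_mul (lio_abs_le n) hq1 hq0 zero_le_one
      linarith

end Pool.Agent.H76.MU
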