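import Pool.Agent.H76.MU.CorG
import Pool.Agent.H76.MU.JM
import Pool.Agent.H76.MU.Fou
import Pool.Agent.H76.MU.GP

/-!
# MU VarDA: the contribution of one block of primes, every power of the logarithm

Generalisation of `VarD.lean` (the case `A = 4`; proof by helper65: copy and adapt).  `cor_m` gives `η`; `jm 1 (A + 2) η` gives `b1, K, m0`; `cor_m` (`K`) gives `m1`;
`m = max m0 m1`; `jm` gives `κ1`.  `b = max b1 (A + 4)`, `κ = κ1 + A + 4`.  `L = log X`.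
`P = P0 2^i`, `4 ≤ P ≤ P0 2^J ≤ X^{1/10}` (as `(P0 2^J)^10 ≤ h ≤ h' ≤ X`), `x = 4 X / P` (natural division; `3X ≤ P x ≤ 4X`, `x ≤ X`, `x ≥ X^{0.9}`, so `l := log x ∈ [L/2, L]`),
`M = X / (4 P)` (`≥ x/16 - 1 ≥ x/l`), `N = x`, `g = gc P0 J M N`, `G = gP g P`, `N1 = 2 P N ≤ 8 X`.
For `X/2 < n ≤ 2X` and `k ∈ pb P`, `k | n`: `n/k > X/(4P) ≥ M` and `n/k ≤ 2X/P ≤ N`; so `gP (gl 1 P0 J) P n = G n`, and all windows occurring lie in `(X/2, 2X]` (`h' ≤ X/2`).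
`cor_m` at the scale `x` (`P0 2^J ≤ X^{1/10} ≤ x^{1/4}`): `CorM x m K η N M g`.  `fou` with `Y0 = l^κ1/(P x)`, `Y = 1/(P l^{A+14})` (`Y0 ≤ Y` as `x ≥ l^{κ1 + A + 14}`; `Y ≤ 1/2`), `gp_FF`
(`FF G N1 (s y) = SG g N P (s y)`), `jm` for `s = 1, -1`: the first two terms are `≤ 8 P x/l^{A+2} ≤ 32 · 2^{A+2} X/L^{A+2} ≤ X/(3 L^A)`.  `S2 G N1 ≤ N1 (2 log N1)^2 ≤ 8 X (4 L)^2 = 128 X L^2`
(`gp_S2`); `13 h' Y0 ≤ 13 (X/L^κ) L^{κ1}/(3 X) ≤ 5/L^{A+4}` and `1/(h Y) = P l^{A+14}/h ≤ L^{A+14}/P^9 ≤ L^{A + 14 - 9 (A+4)} ≤ 1/L^{A+4}`: the last term is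
`≤ 26/L^{2A+8} · 128 X L^2 ≤ X/(3 L^A)`.
-/

set_option autoImplicit false

namespace Pool.Agent.H76.MU

open Finset MeasureTheory
open Pool.Agent.H91.PK (ee)
open Pool.Agent.H76.EHB
open Pool.Agent.H35.W

/-- The windows only see `(X/2, 2X]`, where the cut function agrees with `gl`. -/
private theorem VarDA_win (P0 J P X x M h j : ℕ) (hh : 2 * h ≤ X) (hM : 4 * P * M ≤ X)
    (hx : 2 * X < P * x) (hj : j ∈ Ioc X (2 * X)) :
    Uw (gP (gl 1 P0 J) P) h j = Uw (gP (gc P0 J M x) P) h j := by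
  rw [Finset.mem_Ioc] at hj
  unfold Uw
  apply Finset.sum_congr rfl
  intro n hn
  rw [Finset.mem_Ico] at hn
  unfold gP
  apply Finset.sum_congr rfl
  intro k hk
  rw [Finset.mem_filter, pb, Finset.mem_filter, Finset.mem_Ioc] at hk
  obtain ⟨⟨⟨hk1, hk2⟩, hkp⟩, hkn⟩ := hk
  obtain ⟨q, hq⟩ := hkn
  have hkq : n / k = q := by
    rw [hq, Nat.mul_div_cancel_left q hkp.pos]
  rw [hkq]
  unfold gc
  rw [if_pos]
  rw [Finset.mem_Ioc]
  have h2n : X < 2 * n := by omega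
  have hn2 : n < 2 * X := by omega
  constructor
  · by_contra hc
    push Not at hc
    have h1 : k * q ≤ 2 * P * M := Nat.mul_le_mul hk2 hc
    have h2 : 4 * P * M = 2 * (2 * P * M) := by ring
    rw [← hq] at h1
    omega
  · by_contra hc
    push Not at hc
    have h1 : P * x ≤ k * q := Nat.mul_le_mul hk1.le hc.le
    rw [← hq] at h1
    omega

private theorem VarDA_fin (A : ℕ) (X L l P x h h' I1 I2 S : ℝ) (κ1 : ℕ) (hX : 0 < X)
    (hL : 200 * 2 ^ A ≤ L)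
    (hl1 : L / 2 ≤ l) (hl2 : l ≤ L) (hP : L ^ (A + 4) ≤ P) (hPx1 : 3 * X ≤ P * x)
    (hPx2 : P * x ≤ 4 * X)
    (hh : P ^ 10 ≤ h) (hh' : h' ≤ X / L ^ (κ1 + (A + 4))) (hh0 : 0 ≤ h')
    (hI1 : I1 ≤ P * x / l ^ (A + 2))
    (hI2 : I2 ≤ P * x / l ^ (A + 2)) (hS : S ≤ 128 * X * L ^ 2) (hS0 : 0 ≤ S) :
    4 * I1 + 4 * I2 + ((13 * h' * (l ^ κ1 / (P * x))) ^ 2
      + (1 / (h * (1 / (P * l ^ (A + 14))))) ^ 2) * S
      ≤ X / L ^ A := by
  have h2A : (1 : ℝ) ≤ 2 ^ A := one_le_pow₀ (by norm_num)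
  have hL200 : 200 ≤ L := by linarith
  have hL0 : 0 < L := by linarith
  have hL1 : 1 ≤ L := by linarith
  have hl0 : 0 < l := by linarith
  have hP0 : 0 < P := lt_of_lt_of_le (by positivity) hP
  have hL2 : 40000 * (2 : ℝ) ^ A ≤ L ^ 2 := by nlinarith
  have hLA : 0 < L ^ A := by positivity
  have hA : P * x / l ^ (A + 2) ≤ 16 * 2 ^ A * X / L ^ (A + 2) := by
    rw [div_le_div_iff₀ (by positivity) (by positivity)]
    have h1 : (L / 2) ^ (A + 2) ≤ l ^ (A + 2) := pow_le_pow_left₀ (by positivity) hl1 _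
    have h2 : P * x * L ^ (A + 2) ≤ 4 * X * L ^ (A + 2) :=
      mul_le_mul_of_nonneg_right hPx2 (by positivity)
    have h3 : 16 * 2 ^ A * X * (L / 2) ^ (A + 2) ≤ 16 * 2 ^ A * X * l ^ (A + 2) :=
      mul_le_mul_of_nonneg_left h1 (by positivity)
    have h4 : 16 * 2 ^ A * X * (L / 2) ^ (A + 2) = 4 * X * L ^ (A + 2) := by
      rw [div_pow, pow_add (2 : ℝ)]
      field_simp
      ring
    linarith
  have hA' : 8 * (16 * 2 ^ A * X / L ^ (A + 2)) ≤ 1 / 3 * (X / L ^ A) := by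
    have e : 1 / 3 * (X / L ^ A) = (X * L ^ 2 / 3) / L ^ (A + 2) := by
      rw [pow_add]
      field_simp
    rw [e, ← mul_div_assoc]
    apply div_le_div_of_nonneg_right _ (by positivity)
    have h5 : X * (40000 * 2 ^ A) ≤ X * L ^ 2 := mul_le_mul_of_nonneg_left hL2 hX.le
    have h6 : 0 ≤ X * 2 ^ A := by positivity
    nlinarith
  have hB : 13 * h' * (l ^ κ1 / (P * x)) ≤ 5 / L ^ (A + 4) := by
    have h1 : l ^ κ1 / (P * x) ≤ L ^ κ1 / (3 * X) := by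
      apply div_le_div₀ (by positivity) (pow_le_pow_left₀ hl0.le hl2 κ1) (by positivity) hPx1
    have h2 : 13 * h' * (l ^ κ1 / (P * x)) ≤
        13 * (X / L ^ (κ1 + (A + 4))) * (L ^ κ1 / (3 * X)) := by
      apply mul_le_mul (by linarith) h1 _ (by positivity)
      have : 0 < P * x := by linarith
      positivity
    have h3 : 13 * (X / L ^ (κ1 + (A + 4))) * (L ^ κ1 / (3 * X)) = (13 / 3) / L ^ (A + 4) := by
      rw [pow_add L κ1]
      field_simp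
    rw [h3] at h2
    refine h2.trans ?_
    apply div_le_div_of_nonneg_right (by norm_num) (by positivity)
  have hB0 : 0 ≤ 13 * h' * (l ^ κ1 / (P * x)) := by
    have : 0 < P * x := by linarith
    positivity
  have hh1 : 0 < h := lt_of_lt_of_le (by positivity) hh
  have hC : 1 / (h * (1 / (P * l ^ (A + 14)))) ≤ 1 / L ^ (A + 4) := by
    have e1 : 1 / (h * (1 / (P * l ^ (A + 14)))) = P * l ^ (A + 14) / h := by
      field_simp
    rw [e1, div_le_div_iff₀ hh1 (by positivity), one_mul]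
    have h1 : l ^ (A + 14) ≤ L ^ (A + 14) := pow_le_pow_left₀ hl0.le hl2 _
    have h2 : (L ^ (A + 4)) ^ 9 ≤ P ^ 9 := pow_le_pow_left₀ (by positivity) hP 9
    have h3 : L ^ (A + 14 + (A + 4)) ≤ (L ^ (A + 4)) ^ 9 := by
      rw [← pow_mul]
      exact pow_le_pow_right₀ hL1 (by omega)
    calc P * l ^ (A + 14) * L ^ (A + 4) ≤ P * L ^ (A + 14) * L ^ (A + 4) := by
          apply mul_le_mul_of_nonneg_right _ (by positivity)
          exact mul_le_mul_of_nonneg_left h1 hP0.le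
      _ = P * L ^ (A + 14 + (A + 4)) := by rw [pow_add L (A + 14)]; ring
      _ ≤ P * P ^ 9 := mul_le_mul_of_nonneg_left (h3.trans h2) hP0.le
      _ = P ^ 10 := by ring
      _ ≤ h := hh
  have hC0 : 0 ≤ 1 / (h * (1 / (P * l ^ (A + 14)))) := by positivity
  have hB2 : (13 * h' * (l ^ κ1 / (P * x))) ^ 2 ≤ (5 / L ^ (A + 4)) ^ 2 :=
    pow_le_pow_left₀ hB0 hB 2
  have hC2 : (1 / (h * (1 / (P * l ^ (A + 14))))) ^ 2 ≤ (1 / L ^ (A + 4)) ^ 2 :=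
    pow_le_pow_left₀ hC0 hC 2
  have hD : ((13 * h' * (l ^ κ1 / (P * x))) ^ 2 + (1 / (h * (1 / (P * l ^ (A + 14))))) ^ 2) * S ≤
      ((5 / L ^ (A + 4)) ^ 2 + (1 / L ^ (A + 4)) ^ 2) * (128 * X * L ^ 2) :=
    mul_le_mul (add_le_add hB2 hC2) hS hS0 (by positivity)
  have hE : ((5 / L ^ (A + 4)) ^ 2 + (1 / L ^ (A + 4)) ^ 2) * (128 * X * L ^ 2)
      ≤ 1 / 3 * (X / L ^ A) := by
    have e2 : ((5 / L ^ (A + 4)) ^ 2 + (1 / L ^ (A + 4)) ^ 2) * (128 * X * L ^ 2)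
        = (X / L ^ A) * (3328 / (L ^ A * L ^ 6)) := by
      rw [pow_add L A 4]
      field_simp
      ring
    rw [e2, mul_comm (1 / 3 : ℝ)]
    apply mul_le_mul_of_nonneg_left _ (by positivity)
    rw [div_le_div_iff₀ (by positivity) (by norm_num)]
    have h7 : (1 : ℝ) ≤ L ^ A := one_le_pow₀ hL1
    have h8 : (40000 : ℝ) ≤ L ^ 6 := by
      have h9 : L ^ 2 ≤ L ^ 6 := pow_le_pow_right₀ hL1 (by norm_num)
      nlinarith
    have h10 : 1 * L ^ 6 ≤ L ^ A * L ^ 6 := mul_le_mul_of_nonneg_right h7 (by positivity)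
    linarith
  have hF : 0 ≤ X / L ^ A := by positivity
  linarith

private theorem VarDA_M (P x X M l : ℝ) (hP : 0 < P) (h1 : X < 4 * P * (M + 1))
    (h2 : P * x ≤ 4 * X) (h4 : 100 ≤ x) (h5 : 0 ≤ M) (h6 : 100 ≤ l) : x ≤ M * l := by
  have h7 : P * x < P * (16 * (M + 1)) := by
    have : 4 * (4 * P * (M + 1)) = P * (16 * (M + 1)) := by ring
    linarith
  have h3 : x < 16 * (M + 1) := lt_of_mul_lt_mul_left h7 hP.le
  have h8 : M * 100 ≤ M * l := mul_le_mul_of_nonneg_left h6 h5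
  linarith

private theorem VarDA_pow_ge (A : ℝ) : ∃ X0 : ℕ, ∀ X : ℕ, X0 ≤ X → A ≤ (X : ℝ) ^ (9 / 10 : ℝ) := by
  have h1 : Filter.Tendsto (fun y : ℝ => y ^ (9 / 10 : ℝ)) Filter.atTop Filter.atTop :=
    tendsto_rpow_atTop (by norm_num)
  have h2 := (h1.comp (tendsto_natCast_atTop_atTop (R := ℝ))).eventually
    (Filter.eventually_ge_atTop A)
  exact Filter.eventually_atTop.1 h2

private theorem VarDA_le_root (a : ℕ) (X : ℝ) (h : (a : ℝ) ^ 10 ≤ X) :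
    (a : ℝ) ≤ X ^ (1 / 10 : ℝ) := by
  have h1 : (a : ℝ) = ((a : ℝ) ^ 10) ^ (1 / 10 : ℝ) := by
    rw [← Real.rpow_natCast, ← Real.rpow_mul (Nat.cast_nonneg a)]
    norm_num
  rw [h1]
  exact Real.rpow_le_rpow (by positivity) h (by norm_num)

theorem var_da (hVK : Pool.Agent.H80.LV.VK) (hV : VK1) (A : ℕ) : ∃ b κ x0 : ℕ, ∀ X : ℕ, x0 ≤ X →
    ∀ P0 J i h h' : ℕ, Real.log X ^ b ≤ P0 → i < J → (P0 * 2 ^ J) ^ 10 ≤ h → h ≤ h' →
      (h' : ℝ) ≤ X / Real.log X ^ κ →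
      ∑ j ∈ Ioc X (2 * X), (Uw (gP (gl 1 P0 J) (P0 * 2 ^ i)) h j / h
        - Uw (gP (gl 1 P0 J) (P0 * 2 ^ i)) h' j / h') ^ 2 ≤ X / Real.log X ^ A := by
  obtain ⟨η, hη, hη1, hcor⟩ := cor_m hVK hV
  obtain ⟨b1, K, m0, hjm⟩ := jm 1 (A + 2) η hη (by linarith)
  obtain ⟨m1, hm1⟩ := hcor K
  obtain ⟨κ1, x1, hjm1⟩ := hjm (max m0 m1) (le_max_left _ _)
  obtain ⟨x2, hcor1⟩ := hm1 (max m0 m1) (le_max_right _ _)
  obtain ⟨x3, hlog⟩ := log_pow_le 1 1 one_pos one_pos (κ1 + (A + 14))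
  obtain ⟨X1, hX1⟩ := VarDA_pow_ge ((x1 : ℝ) + x2 + x3 + 100)
  obtain ⟨X2, hX2⟩ := log_ge (200 * 2 ^ A)
  refine ⟨max b1 (A + 4), κ1 + (A + 4), max X1 X2, ?_⟩
  intro X hX P0 J i h h' hP0 hi hQ hh hh'
  have hXr : (x1 : ℝ) + x2 + x3 + 100 ≤ (X : ℝ) ^ (9 / 10 : ℝ) := hX1 X (le_trans (le_max_left _ _) hX)
  have hLA : 200 * 2 ^ A ≤ Real.log X := hX2 X (le_trans (le_max_right _ _) hX)
  have h2A : (1 : ℝ) ≤ 2 ^ A := one_le_pow₀ (by norm_num)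
  have hL : 200 ≤ Real.log X := by linarith
  clear hX1 hX2 hjm hm1 hcor
  obtain ⟨L, hLdef⟩ : ∃ L : ℝ, L = Real.log X := ⟨_, rfl⟩
  rw [← hLdef] at hL hLA hP0 hh'
  have hL0 : 0 < L := by linarith
  have hL1 : 1 ≤ L := by linarith
  have hXpos : (0 : ℝ) < X := by
    rcases Nat.eq_zero_or_pos X with h0 | h0
    · exfalso
      rw [h0] at hLdef
      simp at hLdef
      linarith
    · exact_mod_cast h0
  have hX1' : (1 : ℝ) ≤ X := by exact_mod_cast (Nat.pos_of_ne_zero (by rintro rfl; simp at hXpos))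
  -- the block
  obtain ⟨P, hP⟩ : ∃ P : ℕ, P = P0 * 2 ^ i := ⟨_, rfl⟩
  rw [← hP]
  have hP0P : P0 ≤ P := by
    rw [hP]
    exact Nat.le_mul_of_pos_right _ (by positivity)
  have hPQ : P ≤ P0 * 2 ^ J := by
    rw [hP]
    exact Nat.mul_le_mul_left _ (Nat.pow_le_pow_right (by norm_num) hi.le)
  have hPr : L ^ (max b1 (A + 4)) ≤ (P : ℝ) := hP0.trans (by exact_mod_cast hP0P)
  have hP4r : L ^ (A + 4) ≤ (P : ℝ) := (pow_le_pow_right₀ hL1 (le_max_right b1 (A + 4))).trans hPr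
  have hPb1 : L ^ b1 ≤ (P : ℝ) := (pow_le_pow_right₀ hL1 (le_max_left b1 (A + 4))).trans hPr
  have hL4 : L ≤ L ^ (A + 4) := le_self_pow₀ hL1 (by omega)
  have hP200 : (200 : ℝ) ≤ P := by linarith
  have hPpos : 0 < P := by
    have : (0 : ℝ) < P := by linarith
    exact_mod_cast this
  have hP4 : 4 ≤ P := by
    have : (4 : ℝ) ≤ P := by linarith
    exact_mod_cast this
  have hLk : 1 ≤ L ^ (κ1 + (A + 4)) := one_le_pow₀ hL1
  have hh'X : (h' : ℝ) ≤ X := hh'.trans (div_le_self hXpos.le hLk)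
  have hh'2 : 2 * (h' : ℝ) ≤ X := by
    have h1 : L ≤ L ^ (κ1 + (A + 4)) := le_self_pow₀ hL1 (by omega)
    have h2 : (h' : ℝ) ≤ X / 2 := by
      refine hh'.trans ?_
      apply div_le_div_of_nonneg_left hXpos.le (by norm_num)
      linarith
    linarith
  have hh'2n : 2 * h' ≤ X := by exact_mod_cast hh'2
  have hh2n : 2 * h ≤ X := by omega
  have hQh : ((P0 * 2 ^ J : ℕ) : ℝ) ^ 10 ≤ X := by
    have h1 : (((P0 * 2 ^ J) ^ 10 : ℕ) : ℝ) ≤ h' := by exact_mod_cast hQ.trans hh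
    rw [Nat.cast_pow] at h1
    linarith
  have hPh : (P : ℝ) ^ 10 ≤ h := by
    have h1 : P ^ 10 ≤ h := (Nat.pow_le_pow_left hPQ 10).trans hQ
    exact_mod_cast h1
  have hhpos : 1 ≤ h := by
    have h1 : P ^ 10 ≤ h := (Nat.pow_le_pow_left hPQ 10).trans hQ
    exact (Nat.pos_of_ne_zero (by positivity)).trans_le h1
  have hQroot : ((P0 * 2 ^ J : ℕ) : ℝ) ≤ (X : ℝ) ^ (1 / 10 : ℝ) := VarDA_le_root _ _ hQh
  have hProot : (P : ℝ) ≤ (X : ℝ) ^ (1 / 10 : ℝ) := le_trans (by exact_mod_cast hPQ) hQroot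
  have hXsplit : (X : ℝ) = (X : ℝ) ^ (9 / 10 : ℝ) * (X : ℝ) ^ (1 / 10 : ℝ) := by
    rw [← Real.rpow_add hXpos]
    norm_num
  have hroot0 : 0 < (X : ℝ) ^ (1 / 10 : ℝ) := Real.rpow_pos_of_pos hXpos _
  have hroot9 : 0 < (X : ℝ) ^ (9 / 10 : ℝ) := Real.rpow_pos_of_pos hXpos _
  -- the scale
  obtain ⟨x, hx⟩ : ∃ x : ℕ, x = 4 * X / P := ⟨_, rfl⟩
  obtain ⟨M, hM⟩ : ∃ M : ℕ, M = X / (4 * P) := ⟨_, rfl⟩
  have hPx2n : P * x ≤ 4 * X := by rw [hx]; exact Nat.mul_div_le _ _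
  have hPx1n : 4 * X < P * (x + 1) := by rw [hx]; exact Nat.lt_mul_div_succ _ hPpos
  have hMn : 4 * P * M ≤ X := by rw [hM]; exact Nat.mul_div_le _ _
  have hMn2 : X < 4 * P * (M + 1) := by rw [hM]; exact Nat.lt_mul_div_succ _ (by omega)
  have hPx2 : (P : ℝ) * x ≤ 4 * X := by exact_mod_cast hPx2n
  have hPX : (P : ℝ) ≤ X := by
    have h1 : (P : ℝ) ≤ (P : ℝ) ^ 10 := le_self_pow₀ (by linarith) (by norm_num)
    have h2 : (h : ℝ) ≤ h' := by exact_mod_cast hh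
    linarith
  have hPx1 : 3 * (X : ℝ) ≤ P * x := by
    have h1 : 4 * (X : ℝ) < P * (x + 1) := by exact_mod_cast hPx1n
    linarith
  have hx9 : 3 * (X : ℝ) ^ (9 / 10 : ℝ) ≤ x := by
    have h1 : 3 * (X : ℝ) ≤ (X : ℝ) ^ (1 / 10 : ℝ) * x :=
      hPx1.trans (mul_le_mul_of_nonneg_right hProot (Nat.cast_nonneg x))
    have h2 : 3 * (X : ℝ) ^ (9 / 10 : ℝ) * (X : ℝ) ^ (1 / 10 : ℝ) ≤
        x * (X : ℝ) ^ (1 / 10 : ℝ) := by
      rw [mul_assoc, ← hXsplit]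
      linarith
    exact le_of_mul_le_mul_right h2 hroot0
  have hx9' : (X : ℝ) ^ (9 / 10 : ℝ) ≤ x := by linarith
  have hxthr : (x1 : ℝ) + x2 + x3 + 100 ≤ x := hXr.trans hx9'
  have hxn : x1 + x2 + x3 + 100 ≤ x := by exact_mod_cast hxthr
  have hxpos : (0 : ℝ) < x := by
    have : 0 < x := by omega
    exact_mod_cast this
  have hxX : (x : ℝ) ≤ X := by
    have h1 : 4 * (x : ℝ) ≤ P * x := mul_le_mul_of_nonneg_right (by linarith) hxpos.le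
    linarith
  obtain ⟨l, hl⟩ : ∃ l : ℝ, l = Real.log x := ⟨_, rfl⟩
  have hl2 : l ≤ L := by
    rw [hl, hLdef]
    exact Real.log_le_log hxpos hxX
  have hl1' : 9 / 10 * L ≤ l := by
    rw [hl, hLdef, ← Real.log_rpow hXpos]
    exact Real.log_le_log hroot9 hx9'
  have hl1 : L / 2 ≤ l := by linarith
  have hl100 : 100 ≤ l := by linarith
  have hl0 : 0 < l := by linarith
  have hPpr : (0 : ℝ) < P := by linarith
  have hroot_le : (X : ℝ) ^ (1 / 10 : ℝ) ≤ (x : ℝ) ^ (1 / 4 : ℝ) := by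
    have h1 : ((X : ℝ) ^ (9 / 10 : ℝ)) ^ (1 / 4 : ℝ) ≤ (x : ℝ) ^ (1 / 4 : ℝ) :=
      Real.rpow_le_rpow hroot9.le hx9' (by norm_num)
    rw [← Real.rpow_mul hXpos.le] at h1
    refine le_trans ?_ h1
    exact Real.rpow_le_rpow_of_exponent_le hX1' (by norm_num)
  have hPlex : (P : ℝ) ≤ x := by
    have h1 : (X : ℝ) ^ (1 / 10 : ℝ) ≤ (X : ℝ) ^ (9 / 10 : ℝ) :=
      Real.rpow_le_rpow_of_exponent_le hX1' (by norm_num)
    linarith
  -- the hypotheses of `jm`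
  have hCor : CorM x (max m0 m1) K η x M (gc P0 J M x) :=
    hcor1 x (by omega) P0 J M x (hQroot.trans hroot_le) le_rfl
  have hMx : (x : ℝ) / Real.log x ^ 1 ≤ M := by
    rw [pow_one, ← hl, div_le_iff₀ hl0]
    have h1 : (X : ℝ) < 4 * P * (M + 1) := by exact_mod_cast hMn2
    have h4 : (100 : ℝ) ≤ x := by
      have : 100 ≤ x := by omega
      exact_mod_cast this
    exact VarDA_M P x X M l hPpr h1 hPx2 h4 (Nat.cast_nonneg M) hl100
  have hPb : Real.log x ^ b1 ≤ (P : ℝ) := by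
    rw [← hl]
    exact (pow_le_pow_left₀ hl0.le hl2 b1).trans hPb1
  have hPxn : P ≤ x := by exact_mod_cast hPlex
  have hY : (P : ℝ) * (1 / (P * l ^ (A + 14))) ≤ 1 / Real.log x ^ (A + 2 + 12) := by
    rw [← hl]
    apply le_of_eq
    field_simp
  have hJ := fun (s : ℝ) (hs : s = 1 ∨ s = -1) => hjm1 x (by omega) (gc P0 J M x) x M P
    (1 / (P * l ^ (A + 14))) s hCor le_rfl hMx hPb hPxn hs hY
  have hl18 : 1 ≤ l ^ (A + 14) := one_le_pow₀ (by linarith)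
  have hY0Y : l ^ κ1 / ((P : ℝ) * x) ≤ 1 / (P * l ^ (A + 14)) := by
    have h1 := hlog x (by omega)
    rw [Real.rpow_one, one_mul, ← hl, pow_add] at h1
    rw [div_le_div_iff₀ (by positivity) (by positivity), one_mul]
    have e1 : l ^ κ1 * ((P : ℝ) * l ^ (A + 14)) = (P : ℝ) * (l ^ κ1 * l ^ (A + 14)) := by ring
    rw [e1]
    exact mul_le_mul_of_nonneg_left h1 hPpr.le
  have hYp : 0 < 1 / ((P : ℝ) * l ^ (A + 14)) := by positivity
  have hY2 : 1 / ((P : ℝ) * l ^ (A + 14)) ≤ 1 / 2 := by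
    apply one_div_le_one_div_of_le (by norm_num)
    have e1 : (P : ℝ) * 1 ≤ P * l ^ (A + 14) := mul_le_mul_of_nonneg_left hl18 hPpr.le
    linarith
  -- the support
  have hgs : ∀ n, n ∉ Icc 1 x → gc P0 J M x n = 0 := by
    intro n hn
    unfold gc
    rw [if_neg]
    intro h1
    apply hn
    rw [Finset.mem_Ioc] at h1
    rw [Finset.mem_Icc]
    omega
  have hGs := gp_supp (gc P0 J M x) x P (2 * P * x) hgs le_rfl
  have hfou := fou (gP (gc P0 J M x) P) (2 * P * x) h h' X (l ^ κ1 / (P * x)) (1 / (P * l ^ (A + 14)))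
    hGs hhpos hh (by positivity) hY0Y hYp hY2
  have hFF : ∀ θ : ℝ, FF (gP (gc P0 J M x) P) (2 * P * x) θ = SG (gc P0 J M x) x P θ :=
    gp_FF (gc P0 J M x) x P (2 * P * x) hgs le_rfl
  simp only [hFF] at hfou
  have hI1 := hJ 1 (Or.inl rfl)
  have hI2 := hJ (-1) (Or.inr rfl)
  rw [← hl] at hI1 hI2
  -- the sum of squares
  have hS := gp_S2 (gc P0 J M x) P (2 * P * x) hCor.bd
  have hS0 : 0 ≤ S2 (gP (gc P0 J M x) P) (2 * P * x) :=
    Finset.sum_nonneg (fun _ _ => sq_nonneg _)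
  have hN1 : ((2 * P * x : ℕ) : ℝ) ≤ 8 * X := by
    push_cast
    linarith
  have hN1pos : (1 : ℝ) ≤ ((2 * P * x : ℕ) : ℝ) := by
    push_cast
    linarith
  have hlogN : Real.log ((2 * P * x : ℕ) : ℝ) ≤ 2 * L := by
    have h1 : ((2 * P * x : ℕ) : ℝ) ≤ X * X := by
      have h8 : (8 : ℝ) ≤ X := by linarith
      have h9 : 8 * (X : ℝ) ≤ X * X := mul_le_mul_of_nonneg_right h8 hXpos.le
      linarith
    have h2 := Real.log_le_log (by linarith) h1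
    rw [Real.log_mul hXpos.ne' hXpos.ne', ← hLdef] at h2
    linarith
  have hlogN0 : 0 ≤ Real.log ((2 * P * x : ℕ) : ℝ) := Real.log_nonneg hN1pos
  have hS' : S2 (gP (gc P0 J M x) P) (2 * P * x) ≤ 128 * X * L ^ 2 := by
    refine hS.trans ?_
    calc ((2 * P * x : ℕ) : ℝ) * (2 * Real.log ((2 * P * x : ℕ) : ℝ)) ^ 2
        ≤ (8 * X) * (2 * (2 * L)) ^ 2 := by
          apply mul_le_mul hN1 _ (by positivity) (by positivity)
          apply pow_le_pow_left₀ (by positivity)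
          linarith
      _ = 128 * X * L ^ 2 := by ring
  have hfin := VarDA_fin A X L l P x h h' _ _ _ κ1 hXpos hLA hl1 hl2 hP4r hPx1 hPx2 hPh hh'
    (Nat.cast_nonneg h') hI1 hI2 hS' hS0
  have hwx : 2 * X < P * x := by
    have : 2 * (X : ℝ) < P * x := by linarith
    exact_mod_cast this
  have hcongr : ∑ j ∈ Ioc X (2 * X), (Uw (gP (gl 1 P0 J) P) h j / h
        - Uw (gP (gl 1 P0 J) P) h' j / h') ^ 2 =
      ∑ j ∈ Ioc X (2 * X), (Uw (gP (gc P0 J M x) P) h j / h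
        - Uw (gP (gc P0 J M x) P) h' j / h') ^ 2 := by
    apply Finset.sum_congr rfl
    intro j hj
    rw [VarDA_win P0 J P X x M h j hh2n hMn hwx hj, VarDA_win P0 J P X x M h' j hh'2n hMn hwx hj]
  rw [hcongr, ← hLdef]
  exact hfou.trans hfin

end Pool.Agent.H76.MU
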