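import Pool.Agent.H76.MU.VkA
import Pool.Agent.H76.MU.Defs
import Pool.Agent.H91.PK.DiA

/-!
# MU VkB: the hypothesis `VK1`

Variant of `H97/VK/VkChi.lean` (helper97, helper61): `sm_sharp1 k κ B` with `κ = K + 2`, `k = 60 κ + 20 K + 58`; `log z ≥ L^(19/20)`.
-/

set_option autoImplicit false

namespace Pool.Agent.H76.MU

open Finset
open Pool.Agent.H91.EHA
open Pool.Agent.H91.PK (ee)
open Pool.Agent.H97.VK

private theorem VkChi_abel (f : ℕ → ℂ) (g : ℕ → ℝ) (M : ℝ) (w z : ℕ) (hwz : w < z)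
    (hM : ∀ v ≤ z, ‖∑ n ∈ Icc 1 v, f n‖ ≤ M) (hg0 : ∀ n, w < n → 0 ≤ g n)
    (hg : ∀ n, w < n → g (n + 1) ≤ g n) :
    ‖∑ n ∈ Ioc w z, (g n : ℂ) * f n‖ ≤ 2 * M * g (w + 1) := by
  have key : ∀ m : ℕ, w + 1 ≤ m → m ≤ z →
      ‖∑ n ∈ Ioc w m, (g n : ℂ) * f n - (g m : ℂ) * ∑ n ∈ Icc 1 m, f n‖ ≤
        M * (2 * g (w + 1) - g m) := by
    intro m hm
    induction m, hm using Nat.le_induction with
    | base =>
      intro hz
      rw [sum_Ioc_succ_top le_rfl, Ioc_self, sum_empty, zero_add,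
        sum_Icc_succ_top (show 1 ≤ w + 1 by omega)]
      have h1 : (g (w + 1) : ℂ) * f (w + 1) -
          (g (w + 1) : ℂ) * (∑ k ∈ Icc 1 w, f k + f (w + 1)) =
          -((g (w + 1) : ℂ) * ∑ k ∈ Icc 1 w, f k) := by ring
      rw [h1, norm_neg, norm_mul, Complex.norm_real, Real.norm_of_nonneg (hg0 _ (by omega))]
      have h2 := hM w (by omega)
      have h3 := hg0 (w + 1) (by omega)
      nlinarith
    | succ m hm ih =>
      intro hz
      have h1 := ih (by omega)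
      rw [sum_Ioc_succ_top (show w ≤ m by omega), sum_Icc_succ_top (show 1 ≤ m + 1 by omega)]
      have h2 : ∑ k ∈ Ioc w m, (g k : ℂ) * f k + (g (m + 1) : ℂ) * f (m + 1) -
          (g (m + 1) : ℂ) * (∑ k ∈ Icc 1 m, f k + f (m + 1)) =
          (∑ k ∈ Ioc w m, (g k : ℂ) * f k - (g m : ℂ) * ∑ k ∈ Icc 1 m, f k) +
          ((g m - g (m + 1) : ℝ) : ℂ) * ∑ k ∈ Icc 1 m, f k := by
        push_cast; ring
      rw [h2]
      refine (norm_add_le _ _).trans ?_
      rw [norm_mul, Complex.norm_real, Real.norm_of_nonneg (by linarith [hg m (by omega)])]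
      have h3 := hM m (by omega)
      have h4 := hg m (by omega)
      nlinarith
  have h1 := key z (by omega) le_rfl
  have h2 : ∑ n ∈ Ioc w z, (g n : ℂ) * f n =
      (∑ n ∈ Ioc w z, (g n : ℂ) * f n - (g z : ℂ) * ∑ n ∈ Icc 1 z, f n) +
      (g z : ℂ) * ∑ n ∈ Icc 1 z, f n := by ring
  rw [h2]
  refine (norm_add_le _ _).trans ?_
  rw [norm_mul, Complex.norm_real, Real.norm_of_nonneg (hg0 z hwz)]
  have h3 := hM z le_rfl
  have h4 := hg0 z hwz
  nlinarith

private theorem VkB_ev (K k κ : ℕ) (A : ℝ) : ∃ x0 : ℕ, ∀ x : ℕ, x0 ≤ x →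
    (Real.log (Real.log x)) ^ (20 * (k + 1)) ≤ Real.log x ∧ A ≤ Real.log x ∧ 1 ≤ Real.log x ∧
    16 * Real.log x ^ (K + 1) ≤ Real.exp (Real.log x ^ (19 / 20 : ℝ) / 2) ∧
    Real.log x ^ (9 / 10 : ℝ) ≤ Real.log x ^ (19 / 20 : ℝ) / 2 ∧
    5 * Real.log x ^ (4 * κ) ≤ Real.exp (Real.log x ^ (19 / 20 : ℝ)) := by
  have h1 : ∀ᶠ u : ℝ in Filter.atTop, Real.log u ^ (20 * (k + 1)) ≤ u := by
    have h := (Real.isLittleO_pow_log_id_atTop (n := 20 * (k + 1))).bound (show (0 : ℝ) < 1 by norm_num)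
    filter_upwards [h, Filter.eventually_ge_atTop (1 : ℝ)] with u hu hu1
    have hl : 0 ≤ Real.log u := Real.log_nonneg hu1
    rw [Real.norm_of_nonneg (by positivity), one_mul, id, Real.norm_of_nonneg (by linarith)] at hu
    exact hu
  have h2 : ∀ᶠ u : ℝ in Filter.atTop, A ≤ u := Filter.eventually_ge_atTop A
  have h3 : ∀ᶠ u : ℝ in Filter.atTop, 1 ≤ u := Filter.eventually_ge_atTop 1
  have hpow : ∀ (c : ℝ) (m : ℕ), 0 < c → ∀ᶠ u : ℝ in Filter.atTop,
      16 * u ^ m ≤ Real.exp (c * u ^ (19 / 20 : ℝ)) := by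
    intro c m hc
    have h := (isLittleO_pow_exp_pos_mul_atTop (2 * m) hc).bound
      (show (0 : ℝ) < 1 / 16 by norm_num)
    have h' := (tendsto_rpow_atTop (show (0 : ℝ) < 19 / 20 by norm_num)).eventually h
    filter_upwards [h', Filter.eventually_ge_atTop (1 : ℝ)] with u hu hu1
    have hu0 : 0 ≤ u := by linarith
    rw [Real.norm_of_nonneg (by positivity), Real.norm_of_nonneg (by positivity)] at hu
    have e1 : u ^ m ≤ (u ^ (19 / 20 : ℝ)) ^ (2 * m) := by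
      rw [pow_mul]
      refine pow_le_pow_left₀ hu0 ?_ m
      rw [← Real.rpow_natCast (u ^ (19 / 20 : ℝ)) 2, ← Real.rpow_mul hu0]
      calc u = u ^ (1 : ℝ) := (Real.rpow_one u).symm
        _ ≤ u ^ (19 / 20 * ((2 : ℕ) : ℝ)) := Real.rpow_le_rpow_of_exponent_le hu1 (by norm_num)
    linarith
  have h4 := hpow (1 / 2) (K + 1) (by norm_num)
  have h6 := hpow 1 (4 * κ) (by norm_num)
  have h5 : ∀ᶠ u : ℝ in Filter.atTop, u ^ (9 / 10 : ℝ) ≤ u ^ (19 / 20 : ℝ) / 2 := by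
    have h := (tendsto_rpow_atTop (show (0 : ℝ) < 1 / 20 by norm_num)).eventually_ge_atTop 2
    filter_upwards [h, Filter.eventually_ge_atTop (1 : ℝ)] with u hu hu1
    have e1 : u ^ (9 / 10 : ℝ) * u ^ (1 / 20 : ℝ) = u ^ (19 / 20 : ℝ) := by
      rw [← Real.rpow_add (by linarith)]
      norm_num
    have e2 : 0 ≤ u ^ (9 / 10 : ℝ) := by positivity
    rw [← e1]
    nlinarith
  have hlog : Filter.Tendsto (fun x : ℕ => Real.log (x : ℝ)) Filter.atTop Filter.atTop :=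
    Real.tendsto_log_atTop.comp tendsto_natCast_atTop_atTop
  have h := hlog.eventually (h1.and (h2.and (h3.and (h4.and (h5.and h6)))))
  rw [Filter.eventually_atTop] at h
  obtain ⟨x0, hx0⟩ := h
  refine ⟨x0, fun x hx => ?_⟩
  obtain ⟨g1, g2, g3, g4, g5, g6⟩ := hx0 x hx
  refine ⟨g1, g2, g3, ?_, g5, ?_⟩
  · rw [div_eq_inv_mul, ← one_div]; exact g4
  · rw [one_mul] at g6
    have : (0 : ℝ) ≤ Real.log x ^ (4 * κ) := by positivity
    linarith

private theorem VkB_pow (K k κ : ℕ) (hκ : κ = K + 2) (hk : k = 60 * κ + 20 * K + 58)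
    (L LL9 lz : ℝ) (hL : 1 ≤ L) (hLL : LL9 ^ (20 * (k + 1)) ≤ L)
    (hz1 : L ^ (19 / 20 : ℝ) ≤ lz) (hz2 : lz ≤ 2 * L) :
    (L ^ (9 / 10 : ℝ)) ^ (k + 1) * LL9 ^ (20 * (k + 1)) * L ^ (3 * κ) + lz ^ (k + 1) / L ^ κ ≤
      3 * lz ^ k / L ^ (K + 1) := by
  have hL0 : 0 < L := by linarith
  obtain ⟨l, hl⟩ : ∃ l : ℝ, l = L ^ (1 / 20 : ℝ) := ⟨_, rfl⟩
  have hl1 : 1 ≤ l := by rw [hl]; exact Real.one_le_rpow hL (by norm_num)
  have e1 : l ^ 20 = L := by
    rw [hl, ← Real.rpow_natCast, ← Real.rpow_mul hL0.le]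
    norm_num
  have e2 : L ^ (9 / 10 : ℝ) = l ^ 18 := by
    rw [hl, ← Real.rpow_natCast, ← Real.rpow_mul hL0.le]
    norm_num
  have e3 : L ^ (19 / 20 : ℝ) = l ^ 19 := by
    rw [hl, ← Real.rpow_natCast, ← Real.rpow_mul hL0.le]
    norm_num
  have hlz : (l ^ 19) ^ k ≤ lz ^ k := by
    rw [← e3]
    exact pow_le_pow_left₀ (by positivity) hz1 k
  have hlz0 : 0 ≤ lz := le_trans (by positivity) hz1
  have h1 : (L ^ (9 / 10 : ℝ)) ^ (k + 1) * LL9 ^ (20 * (k + 1)) * L ^ (3 * κ) ≤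
      lz ^ k / L ^ (K + 1) := by
    rw [le_div_iff₀ (by positivity)]
    calc (L ^ (9 / 10 : ℝ)) ^ (k + 1) * LL9 ^ (20 * (k + 1)) * L ^ (3 * κ) * L ^ (K + 1)
        ≤ (L ^ (9 / 10 : ℝ)) ^ (k + 1) * L * L ^ (3 * κ) * L ^ (K + 1) := by gcongr
      _ = l ^ (18 * (k + 1) + 20 + 20 * (3 * κ) + 20 * (K + 1)) := by
          rw [e2, ← e1]
          ring
      _ ≤ l ^ (19 * k) := pow_le_pow_right₀ hl1 (by omega)
      _ = (l ^ 19) ^ k := by rw [pow_mul]
      _ ≤ lz ^ k := hlz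
  have h2 : lz ^ (k + 1) / L ^ κ ≤ 2 * lz ^ k / L ^ (K + 1) := by
    rw [div_le_div_iff₀ (by positivity) (by positivity)]
    calc lz ^ (k + 1) * L ^ (K + 1) = lz * (lz ^ k * L ^ (K + 1)) := by ring
      _ ≤ (2 * L) * (lz ^ k * L ^ (K + 1)) := mul_le_mul_of_nonneg_right hz2 (by positivity)
      _ = 2 * lz ^ k * L ^ κ := by rw [hκ]; ring
  have h3 : 3 * lz ^ k / L ^ (K + 1) = lz ^ k / L ^ (K + 1) + 2 * lz ^ k / L ^ (K + 1) := by ring
  rw [h3]
  exact add_le_add h1 h2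

private theorem VkChi_lam_le {n z : ℕ} (hn : 1 ≤ n) (hz : n ≤ z) : Lam n ≤ Real.log z :=
  (ArithmeticFunction.vonMangoldt_le_log).trans
    (Real.log_le_log (by exact_mod_cast hn) (by exact_mod_cast hz))

private theorem VkChi_lam_nonneg (n : ℕ) : 0 ≤ Lam n := ArithmeticFunction.vonMangoldt_nonneg

private theorem VkChi_card (y : ℕ) : ((primorial y).primeFactors.card : ℝ) ≤ y := by
  have h : (primorial y).primeFactors ⊆ Icc 1 y := by
    intro p hp
    have hpp := Nat.prime_of_mem_primeFactors hp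
    have hd := Nat.dvd_of_mem_primeFactors hp
    unfold primorial at hd
    rw [Prime.dvd_finsetProd_iff hpp.prime] at hd
    obtain ⟨q, hq, hpq⟩ := hd
    simp only [mem_filter, mem_range] at hq
    have h2 := (Nat.prime_dvd_prime_iff_eq hpp hq.2).1 hpq
    rw [mem_Icc]
    exact ⟨hpp.one_lt.le, by omega⟩
  have h2 := card_le_card h
  rw [Nat.card_Icc] at h2
  have h3 : (primorial y).primeFactors.card ≤ y := by omega
  exact_mod_cast h3

theorem vk_chi1 (K B : ℕ) : ∃ K' x0 : ℕ, ∀ x : ℕ, x0 ≤ x →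
    ∀ (d : ℕ) (χ : DirichletCharacter ℂ d) (t : ℝ) (z : ℕ), 1 ≤ d → (d : ℝ) ≤ Real.log x ^ B →
    Real.exp (Real.log x ^ (19 / 20 : ℝ)) ≤ z → z ≤ x ^ 2 → Real.log x ^ K' ≤ |t| → |t| ≤ (x : ℝ) ^ (2 : ℕ) →
    ‖∑ n ∈ Icc 1 z, ((Lam n : ℝ) : ℂ) * χ (n : ZMod d) * ee (t * Real.log n)‖ ≤ z / Real.log x ^ K := by
  obtain ⟨κ, hκ⟩ : ∃ κ : ℕ, κ = K + 2 := ⟨_, rfl⟩
  obtain ⟨k, hk⟩ : ∃ k : ℕ, k = 60 * κ + 20 * K + 58 := ⟨_, rfl⟩
  obtain ⟨C, hC, K', x1, hmain⟩ := VKA.sm_sharp1 k κ B (by omega)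
  obtain ⟨x2, hev⟩ := VkB_ev K k κ (12 * C * 2 ^ k)
  obtain ⟨x3, hyx⟩ := yx_ev
  refine ⟨K', max (max x1 x2) (max x3 3), fun x hx d χ t z hd hdB hz1 hz2 ht1 ht2 => ?_⟩
  have hx1 : x1 ≤ x := le_trans (le_trans (le_max_left _ _) (le_max_left _ _)) hx
  have hx2 : x2 ≤ x := le_trans (le_trans (le_max_right _ _) (le_max_left _ _)) hx
  have hx3 : x3 ≤ x := le_trans (le_trans (le_max_left _ _) (le_max_right _ _)) hx
  have hx4 : 3 ≤ x := le_trans (le_trans (le_max_right _ _) (le_max_right _ _)) hx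
  obtain ⟨hv1, hv2, hv3, hv4, hv5, hv6⟩ := hev x hx2
  have hLL0 : 0 ≤ LL x := by
    have := (hyx x hx3).2.2.2.1
    linarith
  have hxpos : (0 : ℝ) < x := by
    have : (3 : ℝ) ≤ x := by exact_mod_cast hx4
    linarith
  obtain ⟨L, hL⟩ : ∃ L : ℝ, L = Real.log x := ⟨_, rfl⟩
  obtain ⟨G, hG⟩ : ∃ G : ℝ, G = L ^ (19 / 20 : ℝ) := ⟨_, rfl⟩
  rw [← hL] at hv1 hv2 hv3 hv4 hv5 hv6 hz1 ⊢
  rw [← hG] at hv4 hv5 hv6 hz1
  have hL0 : 0 < L := by linarith
  have hG0 : 0 < G := by rw [hG]; positivity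
  -- size of z
  have hze : Real.exp G ≤ z := hz1
  have hzpos : (0 : ℝ) < z := lt_of_lt_of_le (Real.exp_pos _) hze
  have hlogz1 : G ≤ Real.log z := by
    rw [Real.le_log_iff_exp_le hzpos]; exact hze
  have hlogz2 : Real.log z ≤ 2 * L := by
    have h : (z : ℝ) ≤ (x : ℝ) ^ 2 := by exact_mod_cast hz2
    have h2 := Real.log_le_log hzpos h
    rw [Real.log_pow] at h2
    rw [hL]
    exact_mod_cast h2
  have hlogz0 : 0 < Real.log z := lt_of_lt_of_le (by positivity) hlogz1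
  have hz1' : 1 ≤ z := by
    have : 0 < z := by exact_mod_cast hzpos
    omega
  -- the cut
  obtain ⟨w, hw⟩ : ∃ w : ℕ, w = Nat.sqrt z := ⟨_, rfl⟩
  have hw1 : w * w ≤ z := by rw [hw]; exact Nat.sqrt_le z
  have hw2 : z < (w + 1) * (w + 1) := by rw [hw]; exact Nat.lt_succ_sqrt z
  have hexp0 : (0 : ℝ) < Real.exp (G / 2) := Real.exp_pos _
  have hexp2 : Real.exp G = Real.exp (G / 2) * Real.exp (G / 2) := by
    rw [← Real.exp_add]; congr 1; ring
  have hLK : 1 ≤ L ^ (K + 1) := one_le_pow₀ hv3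
  have hw3 : Real.exp (G / 2) < (w : ℝ) + 1 := by
    have h1 : (z : ℝ) < ((w : ℝ) + 1) * ((w : ℝ) + 1) := by exact_mod_cast hw2
    have h2 : Real.exp (G / 2) * Real.exp (G / 2) < ((w : ℝ) + 1) * ((w : ℝ) + 1) := by
      rw [← hexp2]; linarith
    have h3 : (0 : ℝ) ≤ w := Nat.cast_nonneg _
    exact lt_of_mul_self_lt_mul_self₀ (by linarith) h2
  have hw4 : 8 * L ^ (K + 1) ≤ w := by linarith
  have hwR1 : (8 : ℝ) ≤ w := by linarith
  have hw5 : 8 ≤ w := by exact_mod_cast hwR1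
  have hwz : w < z := by nlinarith
  have hlogw : Real.log z / 2 ≤ Real.log ((w + 1 : ℕ) : ℝ) := by
    have h1 : (z : ℝ) ≤ ((w + 1 : ℕ) : ℝ) ^ 2 := by
      have h2 : (z : ℝ) < ((w + 1 : ℕ) : ℝ) * ((w + 1 : ℕ) : ℝ) := by exact_mod_cast hw2
      rw [sq]; exact h2.le
    have h2 := Real.log_le_log hzpos h1
    rw [Real.log_pow] at h2
    push_cast at h2 ⊢
    linarith
  -- the three parts
  obtain ⟨b, hb⟩ : ∃ b : ℕ → ℂ, b = fun n => ((Lam n : ℝ) : ℂ) * χ (n : ZMod d) * ee (t * Real.log n) :=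
    ⟨_, rfl⟩
  obtain ⟨b', hb'⟩ : ∃ b' : ℕ → ℂ, b' = fun n =>
    ((Lam n : ℝ) : ℂ) * ch x χ (n : ZMod (qm x d)) * ee (t * Real.log n) := ⟨_, rfl⟩
  have hsplit : ∑ n ∈ Icc 1 z, ((Lam n : ℝ) : ℂ) * χ (n : ZMod d) * ee (t * Real.log n) =
      ∑ n ∈ Icc 1 z, (b n - b' n) + (∑ n ∈ Icc 1 w, b' n + ∑ n ∈ Ioc w z, b' n) := by
    have h1 : ∑ n ∈ Icc 1 w, b' n + ∑ n ∈ Ioc w z, b' n = ∑ n ∈ Icc 1 z, b' n := by
      have h2 : Icc 1 w = Ioc 0 w := by ext a; simp only [mem_Icc, mem_Ioc]; omega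
      have h3 : Icc 1 z = Ioc 0 z := by ext a; simp only [mem_Icc, mem_Ioc]; omega
      rw [h2, h3]
      exact sum_Ioc_consecutive _ (Nat.zero_le _) hwz.le
    rw [h1, sum_sub_distrib, hb]
    ring
  have hp1 : ‖∑ n ∈ Icc 1 z, (b n - b' n)‖ ≤ z / (4 * L ^ K) := by
    calc ‖∑ n ∈ Icc 1 z, (b n - b' n)‖ ≤ ∑ n ∈ Icc 1 z, ‖b n - b' n‖ := norm_sum_le _ _
      _ ≤ ∑ n ∈ Icc 1 z, (if ¬ Nat.Coprime n (primorial (Yx x)) then Lam n else 0) := by
          apply sum_le_sum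
          intro n hn
          rw [hb, hb']
          simp only [ch_apply x hd χ n]
          by_cases hc : n.Coprime (primorial (Yx x))
          · rw [if_pos hc, if_neg (not_not.2 hc), sub_self, norm_zero]
          · rw [if_neg hc, if_pos hc, mul_zero, zero_mul, sub_zero]
            rw [norm_mul, norm_mul, Complex.norm_real, Pool.Agent.H91.PK.LSa_norm_ee, mul_one,
              Real.norm_of_nonneg (VkChi_lam_nonneg n)]
            have h1 : ‖χ (n : ZMod d)‖ ≤ 1 := χ.norm_le_one _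
            nlinarith [VkChi_lam_nonneg n]
      _ = ∑ n ∈ (Icc 1 z).filter (fun n => ¬ Nat.Coprime n (primorial (Yx x))), Lam n := by
          rw [sum_filter]
      _ ≤ ((primorial (Yx x)).primeFactors.card : ℝ) * Real.log z :=
          Pool.Agent.H91.PK.DiA_psi_noncoprime hz1' (primorial_pos _)
      _ ≤ (Yx x : ℝ) * (2 * L) := by
          apply mul_le_mul (VkChi_card _) hlogz2 hlogz0.le (Nat.cast_nonneg _)
      _ ≤ Real.exp (G / 2) * (2 * L) := by
          apply mul_le_mul_of_nonneg_right _ (by positivity)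
          refine (Nat.floor_le (Real.exp_pos _).le).trans ?_
          apply Real.exp_le_exp.2
          unfold L9
          rw [← hL]
          exact hv5
      _ ≤ z / (4 * L ^ K) := by
          rw [le_div_iff₀ (by positivity)]
          calc Real.exp (G / 2) * (2 * L) * (4 * L ^ K)
              = Real.exp (G / 2) * (8 * L ^ (K + 1)) := by ring
            _ ≤ Real.exp (G / 2) * Real.exp (G / 2) := by
                apply mul_le_mul_of_nonneg_left _ hexp0.le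
                linarith
            _ = Real.exp G := hexp2.symm
            _ ≤ z := hze
  have hp2 : ‖∑ n ∈ Icc 1 w, b' n‖ ≤ z / (4 * L ^ K) := by
    calc ‖∑ n ∈ Icc 1 w, b' n‖ ≤ ∑ n ∈ Icc 1 w, ‖b' n‖ := norm_sum_le _ _
      _ ≤ ∑ _n ∈ Icc 1 w, (2 * L) := by
          apply sum_le_sum
          intro n hn
          rw [mem_Icc] at hn
          rw [hb']
          simp only
          rw [norm_mul, norm_mul, Complex.norm_real, Pool.Agent.H91.PK.LSa_norm_ee, mul_one,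
              Real.norm_of_nonneg (VkChi_lam_nonneg n)]
          have h1 := ch_norm_le x χ (n : ZMod (qm x d))
          have h2 := VkChi_lam_le hn.1 (hn.2.trans hwz.le)
          have h3 := VkChi_lam_nonneg n
          nlinarith
      _ = w * (2 * L) := by simp
      _ ≤ z / (4 * L ^ K) := by
          rw [le_div_iff₀ (by positivity)]
          have h1 : (w : ℝ) * w ≤ z := by exact_mod_cast hw1
          calc (w : ℝ) * (2 * L) * (4 * L ^ K) = w * (8 * L ^ (K + 1)) := by ring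
            _ ≤ w * w := mul_le_mul_of_nonneg_left hw4 (Nat.cast_nonneg _)
            _ ≤ z := h1
  have hp3 : ‖∑ n ∈ Ioc w z, b' n‖ ≤ z / (2 * L ^ K) := by
    obtain ⟨M, hMdef⟩ : ∃ M : ℝ, M = C * z * (L9 x ^ (k + 1) * LL x ^ (20 * (k + 1)) *
      Real.log x ^ (3 * κ) + Real.log z ^ (k + 1) / Real.log x ^ κ) := ⟨_, rfl⟩
    have h1 := VkChi_abel (fun n => ((Lam n * Real.log n ^ k : ℝ) : ℂ) *
        ch x χ (n : ZMod (qm x d)) * ee (t * Real.log n))
      (fun n => (Real.log n ^ k)⁻¹) M w z hwz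
      (fun v hv => by
        rw [hMdef]
        exact hmain x hx1 d χ t v z hd hdB (by rw [← hL]; linarith) hz2 hv ht1 ht2)
      (fun n hn => by
        have : 0 ≤ Real.log (n : ℝ) := Real.log_natCast_nonneg n
        positivity)
      (fun n hn => by
        have h2 : (1 : ℝ) < n := by
          have : 1 < n := by omega
          exact_mod_cast this
        have h3 : 0 < Real.log (n : ℝ) := Real.log_pos h2
        have h4 : Real.log (n : ℝ) ≤ Real.log ((n + 1 : ℕ) : ℝ) := by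
          apply Real.log_le_log (by linarith)
          push_cast; linarith
        apply inv_anti₀ (by positivity)
        exact pow_le_pow_left₀ h3.le h4 _)
    have h2 : ∑ n ∈ Ioc w z, b' n = ∑ n ∈ Ioc w z, (((Real.log n ^ k)⁻¹ : ℝ) : ℂ) *
        (((Lam n * Real.log n ^ k : ℝ) : ℂ) *
        ch x χ (n : ZMod (qm x d)) * ee (t * Real.log n)) := by
      apply sum_congr rfl
      intro n hn
      rw [mem_Ioc] at hn
      have h2 : (1 : ℝ) < n := by
        have : 1 < n := by omega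
        exact_mod_cast this
      have h3 : Real.log (n : ℝ) ≠ 0 := (Real.log_pos h2).ne'
      have h4 : (((Real.log n ^ k)⁻¹ : ℝ) : ℂ) * ((Lam n * Real.log n ^ k : ℝ) : ℂ) =
          ((Lam n : ℝ) : ℂ) := by
        rw [← Complex.ofReal_mul]
        congr 1
        field_simp
      rw [hb']
      simp only
      rw [← mul_assoc, ← mul_assoc, h4]
    rw [h2]
    refine h1.trans ?_
    have hM0 : 0 ≤ M := by
      rw [hMdef]
      have h3 : 0 ≤ L9 x := by unfold L9; rw [← hL]; positivity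
      rw [← hL]
      positivity
    have h3 : ((Real.log ((w + 1 : ℕ) : ℝ)) ^ k)⁻¹ ≤ ((Real.log z / 2) ^ k)⁻¹ := by
      apply inv_anti₀ (by positivity)
      exact pow_le_pow_left₀ (by positivity) hlogw _
    have h4 : M ≤ C * z * (3 * Real.log z ^ k / L ^ (K + 1)) := by
      rw [hMdef]
      apply mul_le_mul_of_nonneg_left _ (by positivity)
      unfold L9
      rw [← hL]
      exact VkB_pow K k κ hκ hk L (LL x) (Real.log z) hv3 (by unfold LL; rw [← hL]; exact hv1)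
        (by rw [← hG]; exact hlogz1) hlogz2
    calc 2 * M * ((Real.log ((w + 1 : ℕ) : ℝ)) ^ k)⁻¹
        ≤ 2 * (C * z * (3 * Real.log z ^ k / L ^ (K + 1))) * ((Real.log z / 2) ^ k)⁻¹ := by
          apply mul_le_mul (by linarith) h3 (by positivity) (by positivity)
      _ = (6 * C * 2 ^ k) * z / L ^ (K + 1) := by
          rw [div_pow]
          field_simp
          ring
      _ ≤ (L / 2) * z / L ^ (K + 1) := by
          apply div_le_div_of_nonneg_right _ (by positivity)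
          apply mul_le_mul_of_nonneg_right _ hzpos.le
          linarith
      _ = z / (2 * L ^ K) := by
          rw [pow_succ]
          field_simp
  rw [hsplit]
  calc ‖∑ n ∈ Icc 1 z, (b n - b' n) + (∑ n ∈ Icc 1 w, b' n + ∑ n ∈ Ioc w z, b' n)‖
      ≤ ‖∑ n ∈ Icc 1 z, (b n - b' n)‖ + (‖∑ n ∈ Icc 1 w, b' n‖ + ‖∑ n ∈ Ioc w z, b' n‖) :=
        (norm_add_le _ _).trans (add_le_add_right (norm_add_le _ _) _)
    _ ≤ z / (4 * L ^ K) + (z / (4 * L ^ K) + z / (2 * L ^ K)) :=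
        add_le_add hp1 (add_le_add hp2 hp3)
    _ = z / L ^ K := by
        field_simp
        ring

theorem vk1 : VK1 := by
  intro K
  obtain ⟨K', x0, h⟩ := vk_chi1 K 0
  refine ⟨K', x0, fun x hx z t hz1 hz2 ht1 ht2 => ?_⟩
  have h1 := h x hx 1 1 t z le_rfl (by simp) hz1 hz2 ht1 ht2
  refine le_trans (le_of_eq ?_) h1
  congr 1
  refine sum_congr rfl fun n _ => ?_
  have h2 : (1 : DirichletCharacter ℂ 1) (n : ZMod 1) = 1 :=
    MulChar.one_apply (isUnit_of_subsingleton _)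
  rw [h2, mul_one]

end Pool.Agent.H76.MU
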